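import Mathlib

/-!
Weak formulation of the single measurement inverse conductivity problem in the plane `ℂ = ℝ²`.
-/

open MeasureTheory Metric Set Filter Topology
open scoped ContDiff ENNReal

namespace Pool.Agent.H385

/-- smooth real test functions with compact support in `U` -/
def IsTest (U : Set ℂ) (φ : ℂ → ℝ) : Prop :=
  ContDiff ℝ ∞ φ ∧ HasCompactSupport φ ∧ tsupport φ ⊆ U

/-- gradient of a real function on the plane, `∂ₓφ + i ∂_yφ` -/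
noncomputable def grad (φ : ℂ → ℝ) (z : ℂ) : ℂ :=
  ((fderiv ℝ φ z 1 : ℝ) : ℂ) + Complex.I * ((fderiv ℝ φ z Complex.I : ℝ) : ℂ)

/-- `G` is the weak gradient of `u` in `Ω` -/
def HasWeakGrad (Ω : Set ℂ) (u : ℂ → ℝ) (G : ℂ → ℂ) : Prop :=
  ∀ φ : ℂ → ℝ, IsTest Ω φ → ∀ v : ℂ,
    ∫ z in Ω, u z * fderiv ℝ φ z v = -∫ z in Ω, inner ℝ (G z) v * φ z

/-- `u ∈ W^{1,2}(Ω)`, with weak gradient `G`, is a weak solution of
`∇·((1 + (k - 1) χ_D) ∇u) = 0` in `Ω` with Neumann datum `g` on `∂Ω`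
(`μH[1]` is the arc length on `∂Ω`). -/
structure IsSolution (Ω : Set ℂ) (k : ℝ) (D : Set ℂ) (g : ℂ → ℝ) (u : ℂ → ℝ) (G : ℂ → ℂ) :
    Prop where
  memLp : MemLp u 2 (volume.restrict Ω)
  memLp_grad : MemLp G 2 (volume.restrict Ω)
  weakGrad : HasWeakGrad Ω u G
  eq : ∀ φ : ℂ → ℝ, IsTest univ φ →
    ∫ z in Ω, (1 + (k - 1) * D.indicator (fun _ => (1 : ℝ)) z) * inner ℝ (G z) (grad φ z) =
      ∫ z in frontier Ω, g z * φ z ∂(Measure.hausdorffMeasure 1)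

/-- `u₁ = u₂` on `∂Ω`: the difference lies in `W₀^{1,2}(Ω)`, the closure of the test functions. -/
def SameTrace (Ω : Set ℂ) (u₁ : ℂ → ℝ) (G₁ : ℂ → ℂ) (u₂ : ℂ → ℝ) (G₂ : ℂ → ℂ) : Prop :=
  ∃ φ : ℕ → ℂ → ℝ, (∀ n, IsTest Ω (φ n)) ∧
    Tendsto (fun n => eLpNorm (fun z => u₁ z - u₂ z - φ n z) 2 (volume.restrict Ω)) atTop (𝓝 0) ∧
    Tendsto (fun n => eLpNorm (fun z => G₁ z - G₂ z - grad (φ n) z) 2 (volume.restrict Ω))
      atTop (𝓝 0)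

end Pool.Agent.H385
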