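import Pool.Agent.H385.Defs
import Pool.Agent.H385.PDE

open Complex Metric Set Filter Topology ComplexConjugate MeasureTheory
open scoped ContDiff ENNReal

namespace Pool.Agent.H385

theorem disk_cinv_sub (a : ℂ) (r : ℝ) (w : ℂ) :
    cinv a r w - a = (r : ℂ) ^ 2 / conj (w - a) := by
  unfold cinv; ring

theorem disk_norm_cinv (a : ℂ) (r : ℝ) (w : ℂ) : ‖cinv a r w - a‖ = r ^ 2 / ‖w - a‖ := by
  rw [disk_cinv_sub, norm_div, norm_pow, Complex.norm_real, Real.norm_eq_abs, sq_abs,
    Complex.norm_conj]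

theorem disk_cinv_ne (a : ℂ) {r : ℝ} (hr : 0 < r) {w : ℂ} (hw : w ≠ a) : cinv a r w ≠ a := by
  intro h
  have h1 := disk_norm_cinv a r w
  rw [h, sub_self, norm_zero] at h1
  have h2 : 0 < ‖w - a‖ := norm_pos_iff.2 (sub_ne_zero.2 hw)
  have h3 : 0 < r ^ 2 / ‖w - a‖ := by positivity
  linarith

theorem disk_cinv_cinv (a : ℂ) {r : ℝ} (hr : 0 < r) {w : ℂ} (hw : w ≠ a) :
    cinv a r (cinv a r w) = w := by
  have h1 : conj (w - a) ≠ 0 := by
    rw [Ne, map_eq_zero, sub_eq_zero]; exact hw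
  have h2 : (r : ℂ) ≠ 0 := by exact_mod_cast hr.ne'
  have h3 : cinv a r (cinv a r w) - a = w - a := by
    rw [disk_cinv_sub, disk_cinv_sub, map_div₀, map_pow, Complex.conj_ofReal, Complex.conj_conj]
    have h4 : w - a ≠ 0 := sub_ne_zero.2 hw
    field_simp
  linear_combination h3

/-- the real derivative of the inversion -/
noncomputable def diskD (a : ℂ) (r : ℝ) (w : ℂ) : ℂ →L[ℝ] ℂ :=
  (-((r : ℂ) ^ 2) / (conj (w - a)) ^ 2) • (Complex.conjCLE : ℂ →L[ℝ] ℂ)

theorem diskD_apply (a : ℂ) (r : ℝ) (w v : ℂ) :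
    diskD a r w v = (-((r : ℂ) ^ 2) / (conj (w - a)) ^ 2) * conj v := rfl

theorem disk_hasFDerivAt (a : ℂ) (r : ℝ) {w : ℂ} (hw : w ≠ a) :
    HasFDerivAt (cinv a r) (diskD a r w) w := by
  have h1 : conj (w - a) ≠ 0 := by
    rw [Ne, map_eq_zero, sub_eq_zero]; exact hw
  have h2 : HasFDerivAt (fun z : ℂ => conj (z - a)) (Complex.conjCLE : ℂ →L[ℝ] ℂ) w := by
    have := (Complex.conjCLE : ℂ →L[ℝ] ℂ).hasFDerivAt (x := w - a)
    have h3 : HasFDerivAt (fun z : ℂ => z - a) (ContinuousLinearMap.id ℝ ℂ) w :=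
      (hasFDerivAt_id w).sub_const a
    exact this.comp w h3
  have h3 : HasDerivAt (fun z : ℂ => a + (r : ℂ) ^ 2 / z) (-((r : ℂ) ^ 2) / (conj (w - a)) ^ 2)
      (conj (w - a)) := by
    have := ((hasDerivAt_inv h1).const_mul ((r : ℂ) ^ 2)).const_add a
    have h6 : (r : ℂ) ^ 2 * -((conj (w - a)) ^ 2)⁻¹ = -((r : ℂ) ^ 2) / (conj (w - a)) ^ 2 := by
      ring
    rw [h6] at this
    simpa only [div_eq_mul_inv] using this
  have h4 := (h3.hasFDerivAt.restrictScalars ℝ).comp w h2
  have h5 : ((ContinuousLinearMap.toSpanSingleton ℂ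
      (-((r : ℂ) ^ 2) / (conj (w - a)) ^ 2)).restrictScalars ℝ).comp
        (Complex.conjCLE : ℂ →L[ℝ] ℂ) = diskD a r w := by
    ext v
    simp [diskD_apply, mul_comm]
  rw [← h5]
  exact h4

theorem disk_abs_det (a : ℂ) (r : ℝ) (w : ℂ) :
    |(diskD a r w).det| = r ^ 4 / ‖w - a‖ ^ 4 := by
  have h1 : (diskD a r w).det = LinearMap.det (((diskD a r w : ℂ →L[ℝ] ℂ) : ℂ →ₗ[ℝ] ℂ)) := rfl
  have h2 : ((diskD a r w : ℂ →L[ℝ] ℂ) : ℂ →ₗ[ℝ] ℂ) =
      (Algebra.lmul ℝ ℂ (-((r : ℂ) ^ 2) / (conj (w - a)) ^ 2)) ∘ₗ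
        (Complex.conjAe.toLinearEquiv.toLinearMap) := by
    ext v
    simp [diskD_apply]
  rw [h1, h2, LinearMap.det_comp, Complex.det_conjAe, ← Algebra.norm_apply,
    Algebra.norm_complex_apply, mul_neg_one, abs_neg, Complex.normSq_eq_norm_sq, norm_div,
    norm_neg, norm_pow, norm_pow, Complex.norm_conj, Complex.norm_real, Real.norm_eq_abs, sq_abs,
    div_pow, ← pow_mul, ← pow_mul]
  norm_num
  positivity

theorem disk_mem_ball (a : ℂ) {r : ℝ} (hr : 0 < r) {w : ℂ} :
    w ∈ ball a r \ {a} ↔ w ≠ a ∧ cinv a r w ∈ (closedBall a r)ᶜ := by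
  constructor
  · rintro ⟨h1, h2⟩
    have h2 : w ≠ a := h2
    refine ⟨h2, ?_⟩
    rw [mem_compl_iff, mem_closedBall, dist_eq_norm, disk_norm_cinv, not_le]
    rw [mem_ball, dist_eq_norm] at h1
    have h3 : 0 < ‖w - a‖ := norm_pos_iff.2 (sub_ne_zero.2 h2)
    rw [lt_div_iff₀ h3]
    nlinarith
  · rintro ⟨h2, h1⟩
    refine ⟨?_, h2⟩
    rw [mem_compl_iff, mem_closedBall, dist_eq_norm, disk_norm_cinv, not_le] at h1
    rw [mem_ball, dist_eq_norm]
    have h3 : 0 < ‖w - a‖ := norm_pos_iff.2 (sub_ne_zero.2 h2)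
    rw [lt_div_iff₀ h3] at h1
    nlinarith

theorem disk_image (a : ℂ) {r : ℝ} (hr : 0 < r) :
    cinv a r '' (ball a r \ {a}) = (closedBall a r)ᶜ := by
  ext z
  constructor
  · rintro ⟨w, hw, rfl⟩
    exact ((disk_mem_ball a hr).1 hw).2
  · intro hz
    have hza : z ≠ a := by
      rintro rfl
      exact hz (mem_closedBall_self hr.le)
    refine ⟨cinv a r z, ?_, disk_cinv_cinv a hr hza⟩
    rw [disk_mem_ball a hr]
    refine ⟨disk_cinv_ne a hr hza, ?_⟩
    rw [disk_cinv_cinv a hr hza]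
    exact hz

theorem disk_injOn (a : ℂ) {r : ℝ} (hr : 0 < r) : InjOn (cinv a r) (ball a r \ {a}) := by
  intro x hx y hy h
  rw [← disk_cinv_cinv a hr hx.2, h, disk_cinv_cinv a hr hy.2]

theorem disk_meas (a : ℂ) (r : ℝ) : MeasurableSet (ball a r \ {a}) :=
  measurableSet_ball.diff (measurableSet_singleton a)

theorem disk_ae (a : ℂ) (r : ℝ) : (ball a r \ {a} : Set ℂ) =ᵐ[volume] ball a r :=
  sdiff_null_ae_eq_self (measure_singleton a)

theorem disk_compl_ae (a : ℂ) (r : ℝ) :
    ((ball a r)ᶜ : Set ℂ) =ᵐ[volume] ((closedBall a r)ᶜ : Set ℂ) := by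
  have h : (ball a r : Set ℂ) =ᵐ[volume] closedBall a r := by
    rw [← sphere_union_ball]
    have := Measure.addHaar_sphere (volume : Measure ℂ) a r
    exact (union_ae_eq_right_of_ae_eq_empty (ae_eq_empty.2 this)).symm
  exact h.compl

theorem disk_setIntegral {F : Type*} [NormedAddCommGroup F] [NormedSpace ℝ F] (a : ℂ) {r : ℝ}
    (hr : 0 < r) (g : ℂ → F) :
    ∫ z in (ball a r)ᶜ, g z = ∫ w in ball a r, (r ^ 4 / ‖w - a‖ ^ 4) • g (cinv a r w) := by
  rw [setIntegral_congr_set (disk_compl_ae a r), ← disk_image a hr,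
    integral_image_eq_integral_abs_det_fderiv_smul volume (disk_meas a r)
      (fun w hw => (disk_hasFDerivAt a r hw.2).hasFDerivWithinAt) (disk_injOn a hr) g,
    setIntegral_congr_set (disk_ae a r)]
  simp only [disk_abs_det]

theorem disk_integrableOn {F : Type*} [NormedAddCommGroup F] [NormedSpace ℝ F] (a : ℂ) {r : ℝ}
    (hr : 0 < r) (g : ℂ → F) :
    IntegrableOn g (ball a r)ᶜ ↔
      IntegrableOn (fun w => (r ^ 4 / ‖w - a‖ ^ 4) • g (cinv a r w)) (ball a r) := by
  have h := integrableOn_image_iff_integrableOn_abs_det_fderiv_smul volume (disk_meas a r)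
      (fun w hw => (disk_hasFDerivAt a r hw.2).hasFDerivWithinAt) (disk_injOn a hr) g
  simp only [disk_abs_det] at h
  rw [disk_image a hr] at h
  rw [integrableOn_congr_set_ae (disk_compl_ae a r), h, integrableOn_congr_set_ae (disk_ae a r)]

theorem disk_Phi_cinv (a : ℂ) {r : ℝ} (hr : 0 < r) (b : ℂ → ℂ) {w : ℂ} (hw : w ≠ a) :
    Phi a r b (cinv a r w) = (conj (w - a)) ^ 2 / (r : ℂ) ^ 2 * conj (b w) := by
  have h1 : conj (w - a) ≠ 0 := by
    rw [Ne, map_eq_zero, sub_eq_zero]; exact hw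
  have h2 : (r : ℂ) ≠ 0 := by exact_mod_cast hr.ne'
  unfold Phi
  rw [disk_cinv_cinv a hr hw, disk_cinv_sub]
  field_simp

theorem disk_norm_Phi (a : ℂ) {r : ℝ} (hr : 0 < r) (b : ℂ → ℂ) {w : ℂ} (hw : w ≠ a) :
    (r ^ 4 / ‖w - a‖ ^ 4) * ‖Phi a r b (cinv a r w)‖ ^ 2 = ‖b w‖ ^ 2 := by
  have h3 : 0 < ‖w - a‖ := norm_pos_iff.2 (sub_ne_zero.2 hw)
  rw [disk_Phi_cinv a hr b hw, norm_mul, norm_div, norm_pow, norm_pow, Complex.norm_conj,
    Complex.norm_conj, Complex.norm_real, Real.norm_eq_abs, sq_abs]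
  field_simp

theorem disk_Phi_continuousOn (a : ℂ) {r : ℝ} (hr : 0 < r) (b : ℂ → ℂ)
    (hb : DifferentiableOn ℂ b (ball a r)) : ContinuousOn (Phi a r b) (closedBall a r)ᶜ := by
  have hne : ∀ z ∈ (closedBall a r)ᶜ, z ≠ a := by
    rintro z hz rfl
    exact hz (mem_closedBall_self hr.le)
  have h1 : ContinuousOn (cinv a r) (closedBall a r)ᶜ := fun z hz =>
    (disk_hasFDerivAt a r (hne z hz)).continuousAt.continuousWithinAt
  have h2 : MapsTo (cinv a r) (closedBall a r)ᶜ (ball a r) := by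
    intro z hz
    have := hne z hz
    have h3 : cinv a r z ∈ ball a r \ {a} := by
      rw [disk_mem_ball a hr]
      refine ⟨disk_cinv_ne a hr this, ?_⟩
      rw [disk_cinv_cinv a hr this]
      exact hz
    exact h3.1
  unfold Phi
  refine ContinuousOn.mul ?_ ?_
  · refine ContinuousOn.div continuousOn_const (by fun_prop) ?_
    intro z hz
    exact pow_ne_zero 2 (sub_ne_zero.2 (hne z hz))
  · exact Complex.continuous_conj.comp_continuousOn (hb.continuousOn.comp h1 h2)

theorem ghat_memLp (a : ℂ) (r : ℝ) (hr : 0 < r) (b : ℂ → ℂ)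
    (hb : DifferentiableOn ℂ b (ball a r)) (hb2 : MemLp b 2 (volume.restrict (ball a r))) :
    MemLp (ghat a r b) 2 volume := by
  classical
  have h0 : ghat a r b = (ball a r).piecewise (fun z => b z / 2) (fun z => -Phi a r b z / 2) := by
    funext z
    unfold ghat Set.piecewise
    rfl
  rw [h0]
  refine MemLp.piecewise measurableSet_ball ?_ ?_
  · have := hb2.const_mul (1 / 2 : ℂ)
    refine this.congr_norm ?_ (Eventually.of_forall fun z => ?_)
    · have h1 := this.1
      refine h1.congr (Eventually.of_forall fun z => ?_)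
      simp only [one_div]
      ring
    · congr 1
      ring
  · have hm : AEStronglyMeasurable (fun z => -Phi a r b z / 2) (volume.restrict (ball a r)ᶜ) := by
      rw [Measure.restrict_congr_set (disk_compl_ae a r)]
      refine ContinuousOn.aestronglyMeasurable ?_ measurableSet_closedBall.compl
      exact ((disk_Phi_continuousOn a hr b hb).neg).div_const 2
    rw [memLp_two_iff_integrable_sq_norm hm]
    have h1 := (disk_integrableOn a hr (fun z => ‖-Phi a r b z / 2‖ ^ 2)).2
    refine h1 ?_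
    have h2 : IntegrableOn (fun z => (1 / 4 : ℝ) * ‖b z‖ ^ 2) (ball a r) :=
      ((memLp_two_iff_integrable_sq_norm hb2.1).1 hb2).const_mul (1 / 4)
    have h3 : IntegrableOn (fun z => (1 / 4 : ℝ) * ‖b z‖ ^ 2) (ball a r \ {a}) :=
      h2.mono_set sdiff_subset
    rw [← integrableOn_congr_set_ae (disk_ae a r)]
    refine h3.congr_fun (fun w hw => ?_) (disk_meas a r)
    have h4 := disk_norm_Phi a hr b hw.2
    simp only [smul_eq_mul]
    rw [← h4, norm_div, norm_neg]
    norm_num
    ring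

/-! ### gradients -/

theorem disk_grad_mul {f g : ℂ → ℝ} {w : ℂ} (hf : DifferentiableAt ℝ f w)
    (hg : DifferentiableAt ℝ g w) :
    grad (fun z => f z * g z) w = (g w : ℂ) * grad f w + (f w : ℂ) * grad g w := by
  unfold grad
  rw [fderiv_fun_mul hf hg]
  simp only [_root_.add_apply, _root_.smul_apply, smul_eq_mul]
  push_cast
  ring

theorem disk_grad_sub {f g : ℂ → ℝ} {w : ℂ} (hf : DifferentiableAt ℝ f w)
    (hg : DifferentiableAt ℝ g w) :
    grad (fun z => f z - g z) w = grad f w - grad g w := by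
  unfold grad
  rw [fderiv_fun_sub hf hg]
  simp only [_root_.sub_apply]
  push_cast
  ring

theorem disk_norm_grad (f : ℂ → ℝ) (w : ℂ) : ‖grad f w‖ ≤ 2 * ‖fderiv ℝ f w‖ := by
  unfold grad
  have h1 : ‖((fderiv ℝ f w 1 : ℝ) : ℂ)‖ ≤ ‖fderiv ℝ f w‖ := by
    rw [Complex.norm_real]
    have := (fderiv ℝ f w).le_opNorm 1
    rwa [norm_one, mul_one] at this
  have h2 : ‖Complex.I * ((fderiv ℝ f w Complex.I : ℝ) : ℂ)‖ ≤ ‖fderiv ℝ f w‖ := by
    rw [norm_mul, Complex.norm_I, one_mul, Complex.norm_real]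
    have := (fderiv ℝ f w).le_opNorm Complex.I
    rwa [Complex.norm_I, mul_one] at this
  calc _ ≤ _ := norm_add_le _ _
    _ ≤ _ := by linarith

theorem disk_grad_congr {f g : ℂ → ℝ} {w : ℂ} (h : f =ᶠ[𝓝 w] g) : grad f w = grad g w := by
  unfold grad
  rw [h.fderiv_eq]

theorem disk_grad_continuous {f : ℂ → ℝ} (hf : ContDiff ℝ 1 f) : Continuous (grad f) := by
  have h := hf.continuous_fderiv (by norm_num)
  have h1 : ∀ v : ℂ, Continuous fun z => fderiv ℝ f z v := fun v => h.clm_apply continuous_const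
  unfold grad
  exact (Complex.continuous_ofReal.comp (h1 1)).add
    (continuous_const.mul (Complex.continuous_ofReal.comp (h1 Complex.I)))

/-! ### integral of a derivative -/

theorem disk_integral_fderiv {F : ℂ → ℂ} (hF : ContDiff ℝ 1 F) (hc : HasCompactSupport F)
    (v : ℂ) : ∫ z, fderiv ℝ F z v = 0 := by
  have h1 : Continuous fun z => fderiv ℝ F z v :=
    (hF.continuous_fderiv (by norm_num)).clm_apply continuous_const
  have h2 : HasCompactSupport fun z => fderiv ℝ F z v := by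
    have := hc.fderiv (𝕜 := ℝ)
    exact this.comp_left (g := fun L : ℂ →L[ℝ] ℂ => L v) (by simp)
  have h3 : Integrable fun z => fderiv ℝ F z v := h1.integrable_of_hasCompactSupport h2
  have h4 : Integrable F := hF.continuous.integrable_of_hasCompactSupport hc
  have := integral_bilinear_fderiv_right_eq_neg_left_of_integrable (μ := (volume : Measure ℂ))
    (f := fun _ : ℂ => (1 : ℝ)) (g := F) (v := v) (B := ContinuousLinearMap.lsmul ℝ ℝ)
    (by simp) (by simpa using h3) (by simpa using h4)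
    (fun x _ => differentiableAt_const _) (fun x _ => hF.differentiable (by norm_num) x)
  simpa using this

/-- the compactly supported version -/
theorem disk_zero_compact (a : ℂ) {r : ℝ} (hr : 0 < r) (b : ℂ → ℂ)
    (hb : DifferentiableOn ℂ b (ball a r)) (χ : ℂ → ℝ) (hχ : ContDiff ℝ 1 χ) {ε : ℝ} (hε : 0 < ε)
    (h0 : ∀ w, r ^ 2 - ‖w - a‖ ^ 2 < ε → χ w = 0) :
    ∫ w in ball a r, b w * grad χ w = 0 := by
  classical
  set F : ℂ → ℂ := (ball a r).indicator (fun w => b w * (χ w : ℂ)) with hFdef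
  have hin : ∀ w ∈ ball a r, F =ᶠ[𝓝 w] fun w => b w * (χ w : ℂ) := by
    intro w hw
    filter_upwards [isOpen_ball.mem_nhds hw] with z hz
    rw [hFdef, indicator_of_mem hz]
  have hzero : ∀ z, r ^ 2 - ‖z - a‖ ^ 2 < ε → F z = 0 := by
    intro z hz
    rw [hFdef]
    by_cases h : z ∈ ball a r
    · rw [indicator_of_mem h, h0 z hz]; simp
    · rw [indicator_of_notMem h]
  have hout : ∀ w, w ∉ ball a r → F =ᶠ[𝓝 w] fun _ => 0 := by
    intro w hw
    have h1 : Continuous fun z : ℂ => r ^ 2 - ‖z - a‖ ^ 2 := by fun_prop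
    have h2 : r ^ 2 - ‖w - a‖ ^ 2 < ε := by
      rw [mem_ball, dist_eq_norm, not_lt] at hw
      nlinarith
    filter_upwards [h1.continuousAt.eventually_lt continuousAt_const h2] with z hz
    exact hzero z hz
  have hbR : ∀ w ∈ ball a r, HasFDerivAt b
      ((ContinuousLinearMap.toSpanSingleton ℂ (deriv b w)).restrictScalars ℝ) w := by
    intro w hw
    exact ((hb.differentiableAt (isOpen_ball.mem_nhds hw)).hasDerivAt.hasFDerivAt).restrictScalars ℝ
  have hχc : ContDiff ℝ 1 (fun w => (χ w : ℂ)) := Complex.ofRealCLM.contDiff.comp hχ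
  have hFc : ContDiff ℝ 1 F := by
    rw [contDiff_iff_contDiffAt]
    intro w
    by_cases hw : w ∈ ball a r
    · refine ContDiffAt.congr_of_eventuallyEq ?_ (hin w hw)
      have h1 : ContDiffAt ℂ 1 b w :=
        (hb.analyticAt (isOpen_ball.mem_nhds hw)).contDiffAt
      exact (h1.restrict_scalars ℝ).mul hχc.contDiffAt
    · exact ContDiffAt.congr_of_eventuallyEq contDiffAt_const (hout w hw)
  have hsupp : HasCompactSupport F := by
    refine HasCompactSupport.intro (isCompact_closedBall a r) fun z hz => ?_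
    rw [hFdef]
    exact indicator_of_notMem (fun h => hz (ball_subset_closedBall h)) _
  have hD : ∀ w, (ball a r).indicator (fun w => b w * grad χ w) w =
      fderiv ℝ F w 1 + Complex.I * fderiv ℝ F w Complex.I := by
    intro w
    by_cases hw : w ∈ ball a r
    · rw [indicator_of_mem hw, (hin w hw).fderiv_eq]
      have h2 : HasFDerivAt χ (fderiv ℝ χ w) w :=
        (hχ.differentiable (by norm_num) w).hasFDerivAt
      have h3 : HasFDerivAt (fun w => (χ w : ℂ)) (Complex.ofRealCLM.comp (fderiv ℝ χ w)) w :=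
        Complex.ofRealCLM.hasFDerivAt.comp w h2
      rw [((hbR w hw).fun_mul h3).fderiv]
      unfold grad
      simp
      linear_combination (χ w : ℂ) * deriv b w * (-1 : ℂ) * (Complex.I_sq)
    · rw [indicator_of_notMem hw, (hout w hw).fderiv_eq]
      simp
  rw [← integral_indicator measurableSet_ball]
  simp only [hD]
  have h1 : ∀ v : ℂ, Integrable fun z => fderiv ℝ F z v := by
    intro v
    have h1 : Continuous fun z => fderiv ℝ F z v :=
      (hFc.continuous_fderiv (by norm_num)).clm_apply continuous_const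
    have h2 : HasCompactSupport fun z => fderiv ℝ F z v := by
      have := hsupp.fderiv (𝕜 := ℝ)
      exact this.comp_left (g := fun L : ℂ →L[ℝ] ℂ => L v) (by simp)
    exact h1.integrable_of_hasCompactSupport h2
  rw [integral_add (h1 1) ((h1 Complex.I).const_mul _), integral_const_mul,
    disk_integral_fderiv hFc hsupp, disk_integral_fderiv hFc hsupp]
  simp

/-! ### cutoffs -/

/-- smooth cutoff: `0` on `t ≤ 1`, `1` on `2 ≤ t` -/
noncomputable def diskT (t : ℝ) : ℝ := Real.smoothTransition (t - 1)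

theorem diskT_contDiff : ContDiff ℝ 1 diskT :=
  Real.smoothTransition.contDiff.comp (contDiff_id.sub contDiff_const)

theorem diskT_zero {t : ℝ} (ht : t ≤ 1) : diskT t = 0 :=
  Real.smoothTransition.zero_of_nonpos (by linarith)

theorem diskT_one {t : ℝ} (ht : 2 ≤ t) : diskT t = 1 :=
  Real.smoothTransition.one_of_one_le (by linarith)

theorem diskT_deriv_one {t : ℝ} (ht : 2 < t) : deriv diskT t = 0 := by
  have : diskT =ᶠ[𝓝 t] fun _ => 1 := by
    filter_upwards [lt_mem_nhds ht] with s hs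
    exact diskT_one hs.le
  rw [this.deriv_eq, deriv_const]

theorem diskT_deriv_zero {t : ℝ} (ht : t < 1) : deriv diskT t = 0 := by
  have : diskT =ᶠ[𝓝 t] fun _ => 0 := by
    filter_upwards [gt_mem_nhds ht] with s hs
    exact diskT_zero hs.le
  rw [this.deriv_eq, deriv_const]

theorem diskT_bound : ∃ K, ∀ t, |t * deriv diskT t| ≤ K := by
  have h1 : Continuous fun t => t * deriv diskT t :=
    continuous_id.mul (diskT_contDiff.continuous_deriv (by norm_num))
  have h2 : HasCompactSupport fun t => t * deriv diskT t := by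
    refine HasCompactSupport.intro (isCompact_Icc (a := (0 : ℝ)) (b := 3)) fun t ht => ?_
    rw [mem_Icc, not_and_or, not_le, not_le] at ht
    rcases ht with ht | ht
    · rw [diskT_deriv_zero (by linarith), mul_zero]
    · rw [diskT_deriv_one (by linarith), mul_zero]
  obtain ⟨K, hK⟩ := h2.exists_bound_of_continuous h1
  exact ⟨K, fun t => hK t⟩

/-- a function vanishing on the circle is bounded by the distance to the circle -/
theorem disk_lip (a : ℂ) {r : ℝ} (hr : 0 < r) {η : ℂ → ℝ} (hη : ContDiff ℝ 1 η)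
    (h0 : ∀ w, ‖w - a‖ = r → η w = 0) :
    ∃ C, 0 ≤ C ∧ ∀ w ∈ ball a r, |η w| ≤ C * (r ^ 2 - ‖w - a‖ ^ 2) := by
  obtain ⟨L, hL⟩ := (isCompact_closedBall a r).exists_bound_of_continuousOn
    (hη.continuous_fderiv (by norm_num)).continuousOn
  have hL0 : 0 ≤ L := (norm_nonneg _).trans (hL a (mem_closedBall_self hr.le))
  refine ⟨L / r, by positivity, fun w hw => ?_⟩
  rw [mem_ball, dist_eq_norm] at hw
  obtain ⟨p, hp, hpw⟩ : ∃ p : ℂ, ‖p - a‖ = r ∧ ‖w - p‖ ≤ r - ‖w - a‖ := by
    by_cases hwa : w = a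
    · refine ⟨a + r, ?_, ?_⟩
      · simp [abs_of_pos hr]
      · rw [hwa]; simp [abs_of_pos hr]
    · have h3 : 0 < ‖w - a‖ := norm_pos_iff.2 (sub_ne_zero.2 hwa)
      refine ⟨a + ((r / ‖w - a‖ : ℝ) : ℂ) * (w - a), ?_, ?_⟩
      · rw [add_sub_cancel_left, norm_mul, Complex.norm_real, Real.norm_eq_abs,
          abs_of_pos (by positivity)]
        field_simp
      · have h4 : w - (a + ((r / ‖w - a‖ : ℝ) : ℂ) * (w - a)) =
            ((1 - r / ‖w - a‖ : ℝ) : ℂ) * (w - a) := by push_cast; ring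
        rw [h4, norm_mul, Complex.norm_real, Real.norm_eq_abs, abs_of_nonpos]
        · have : -(1 - r / ‖w - a‖) * ‖w - a‖ = r - ‖w - a‖ := by field_simp; ring
          rw [this]
        · have : 1 ≤ r / ‖w - a‖ := by rw [le_div_iff₀ h3]; linarith
          linarith
  have h1 := (convex_closedBall a r).norm_image_sub_le_of_norm_fderiv_le (𝕜 := ℝ) (f := η)
    (C := L) (x := p) (y := w) (fun x _ => hη.differentiable (by norm_num) x) (fun x hx => hL x hx)
    (by rw [mem_closedBall, dist_eq_norm, hp]) (by rw [mem_closedBall, dist_eq_norm]; exact hw.le)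
  rw [h0 p hp, sub_zero, Real.norm_eq_abs] at h1
  calc |η w| ≤ L * ‖w - p‖ := h1
    _ ≤ L * (r - ‖w - a‖) := by gcongr
    _ ≤ L / r * (r ^ 2 - ‖w - a‖ ^ 2) := by
      rw [div_mul_eq_mul_div, le_div_iff₀ hr, mul_assoc]
      have := norm_nonneg (w - a)
      gcongr
      nlinarith

theorem disk_zero (a : ℂ) {r : ℝ} (hr : 0 < r) (b : ℂ → ℂ)
    (hb : DifferentiableOn ℂ b (ball a r)) (hb1 : IntegrableOn b (ball a r))
    (η : ℂ → ℝ) (hη : ContDiff ℝ 1 η) (h0 : ∀ w, ‖w - a‖ = r → η w = 0) :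
    ∫ w in ball a r, b w * grad η w = 0 := by
  set q : ℂ → ℝ := fun w => r ^ 2 - ‖w - a‖ ^ 2 with hq
  have hqc : ContDiff ℝ 1 q :=
    contDiff_const.sub ((contDiff_id.sub contDiff_const).norm_sq ℝ)
  obtain ⟨C, hC0, hC⟩ := disk_lip a hr hη h0
  obtain ⟨K, hK⟩ := diskT_bound
  have hK0 : 0 ≤ K := (abs_nonneg _).trans (hK 0)
  obtain ⟨Q, hQ⟩ := (isCompact_closedBall a r).exists_bound_of_continuousOn
    (hqc.continuous_fderiv (by norm_num)).continuousOn
  have hQ0 : 0 ≤ Q := (norm_nonneg _).trans (hQ a (mem_closedBall_self hr.le))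
  obtain ⟨N, hN⟩ := (isCompact_closedBall a r).exists_bound_of_continuousOn
    (disk_grad_continuous hη).continuousOn
  have hN0 : 0 ≤ N := (norm_nonneg _).trans (hN a (mem_closedBall_self hr.le))
  -- the cutoff functions
  set χ : ℕ → ℂ → ℝ := fun n w => diskT ((n : ℝ) * q w) with hχ
  have hχc : ∀ n, ContDiff ℝ 1 (χ n) := fun n => diskT_contDiff.comp (contDiff_const.mul hqc)
  have hz : ∀ n : ℕ, 0 < n → ∫ w in ball a r, b w * grad (fun z => η z * χ n z) w = 0 := by
    intro n hn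
    have hn' : (0 : ℝ) < n := by exact_mod_cast hn
    refine disk_zero_compact a hr b hb _ (hη.mul (hχc n)) (ε := 1 / n) (by positivity) ?_
    intro w hw
    have : (n : ℝ) * q w ≤ 1 := by
      have h1 : q w < 1 / n := hw
      rw [lt_div_iff₀ hn'] at h1
      linarith
    simp only [hχ]
    rw [diskT_zero this, mul_zero]
  have hqpos : ∀ w ∈ ball a r, 0 < q w := by
    intro w hw
    rw [mem_ball, dist_eq_norm] at hw
    have := norm_nonneg (w - a)
    simp only [hq]
    nlinarith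
  have hfd : ∀ (n : ℕ) w, fderiv ℝ (χ n) w = deriv diskT ((n : ℝ) * q w) • ((n : ℝ) • fderiv ℝ q w) := by
    intro n w
    have h1 : HasFDerivAt (fun w => (n : ℝ) * q w) ((n : ℝ) • fderiv ℝ q w) w :=
      ((hqc.differentiable (by norm_num) w).hasFDerivAt).const_mul (n : ℝ)
    have h2 : HasDerivAt diskT (deriv diskT ((n : ℝ) * q w)) ((n : ℝ) * q w) :=
      (diskT_contDiff.differentiable (by norm_num) _).hasDerivAt
    exact (h2.comp_hasFDerivAt w h1).fderiv
  have hbd : ∀ (n : ℕ), ∀ w ∈ ball a r, ‖grad (fun z => η z * χ n z) w‖ ≤ N + 2 * (C * K * Q) := by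
    intro n w hw
    have hwc : w ∈ closedBall a r := ball_subset_closedBall hw
    rw [disk_grad_mul (hη.differentiable (by norm_num) w) ((hχc n).differentiable (by norm_num) w)]
    have h1 : ‖(χ n w : ℂ) * grad η w‖ ≤ N := by
      rw [norm_mul, Complex.norm_real, Real.norm_eq_abs]
      have h2 : |χ n w| ≤ 1 := by
        simp only [hχ, diskT]
        rw [abs_of_nonneg (Real.smoothTransition.nonneg _)]
        exact Real.smoothTransition.le_one _
      calc _ ≤ 1 * N := mul_le_mul h2 (hN w hwc) (norm_nonneg _) (by norm_num)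
        _ = N := one_mul N
    have h3 : ‖(η w : ℂ) * grad (χ n) w‖ ≤ 2 * (C * K * Q) := by
      rw [norm_mul, Complex.norm_real, Real.norm_eq_abs]
      have h4 := disk_norm_grad (χ n) w
      rw [hfd, norm_smul, norm_smul, Real.norm_eq_abs, Real.norm_eq_abs, Nat.abs_cast] at h4
      have h5 := hC w hw
      have h6 := hK ((n : ℝ) * q w)
      rw [abs_mul, abs_mul, Nat.abs_cast, abs_of_pos (hqpos w hw)] at h6
      have h7 := hQ w hwc
      have h8 : 0 ≤ q w := (hqpos w hw).le
      calc |η w| * ‖grad (χ n) w‖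
          ≤ (C * q w) * (2 * (|deriv diskT ((n : ℝ) * q w)| * ((n : ℝ) * ‖fderiv ℝ q w‖))) :=
            mul_le_mul h5 h4 (norm_nonneg _) (by positivity)
        _ = 2 * (C * ((n : ℝ) * q w * |deriv diskT ((n : ℝ) * q w)|) * ‖fderiv ℝ q w‖) := by ring
        _ ≤ 2 * (C * K * Q) := by gcongr
    exact (norm_add_le _ _).trans (add_le_add h1 h3)
  have hmeas : ∀ n, AEStronglyMeasurable (fun w => b w * grad (fun z => η z * χ n z) w)
      (volume.restrict (ball a r)) := by
    intro n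
    exact hb1.1.mul (disk_grad_continuous (hη.mul (hχc n))).aestronglyMeasurable
  have hlim := tendsto_integral_of_dominated_convergence (μ := volume.restrict (ball a r))
    (F := fun n w => b w * grad (fun z => η z * χ n z) w) (f := fun w => b w * grad η w)
    (fun w => ‖b w‖ * (N + 2 * (C * K * Q))) hmeas (hb1.norm.mul_const _)
    (fun n => by
      filter_upwards [ae_restrict_mem measurableSet_ball] with w hw
      rw [norm_mul]
      exact mul_le_mul_of_nonneg_left (hbd n w hw) (norm_nonneg _))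
    (by
      filter_upwards [ae_restrict_mem measurableSet_ball] with w hw
      have hqw := hqpos w hw
      obtain ⟨n0, hn0⟩ := exists_nat_gt (3 / q w)
      refine tendsto_const_nhds.congr' ?_
      filter_upwards [eventually_ge_atTop n0] with n hn
      have h1 : 3 < (n : ℝ) * q w := by
        rw [div_lt_iff₀ hqw] at hn0
        have : (n0 : ℝ) ≤ n := by exact_mod_cast hn
        nlinarith
      have h2 : (fun z => η z * χ n z) =ᶠ[𝓝 w] η := by
        have h3 : ContinuousAt (fun z => (n : ℝ) * q z) w :=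
          (continuous_const.mul hqc.continuous).continuousAt
        filter_upwards [h3.eventually (lt_mem_nhds h1)] with z hz
        simp only [hχ]
        rw [diskT_one (by linarith), mul_one]
      rw [disk_grad_congr h2])
  have h9 : (fun n : ℕ => ∫ w in ball a r, b w * grad (fun z => η z * χ n z) w) =ᶠ[atTop]
      fun _ => 0 := by
    filter_upwards [eventually_gt_atTop 0] with n hn
    exact hz n hn
  exact tendsto_nhds_unique (hlim.congr' h9) tendsto_const_nhds |>.symm ▸ rfl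

/-! ### the reflected test function -/

open Classical in
/-- the reflected test function -/
noncomputable def diskPsi (a : ℂ) (r : ℝ) (φ : ℂ → ℝ) (w : ℂ) : ℝ :=
  if w = a then 0 else φ (cinv a r w)

theorem diskPsi_eventually (a : ℂ) (r : ℝ) (φ : ℂ → ℝ) {w : ℂ} (hw : w ≠ a) :
    diskPsi a r φ =ᶠ[𝓝 w] fun z => φ (cinv a r z) := by
  filter_upwards [isOpen_ne.mem_nhds hw] with z hz
  unfold diskPsi
  rw [if_neg hz]

theorem disk_cinv_contDiffAt (a : ℂ) (r : ℝ) {w : ℂ} (hw : w ≠ a) :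
    ContDiffAt ℝ 1 (cinv a r) w := by
  have h1 : conj (w - a) ≠ 0 := by
    rw [Ne, map_eq_zero, sub_eq_zero]; exact hw
  have h2 : ContDiffAt ℝ 1 (fun z : ℂ => conj (z - a)) w :=
    ((Complex.conjCLE : ℂ →L[ℝ] ℂ).contDiff.comp (contDiff_id.sub contDiff_const)).contDiffAt
  have h3 : ContDiffAt ℝ 1 (fun z : ℂ => (conj (z - a))⁻¹) w := h2.inv h1
  have h4 : ContDiffAt ℝ 1 (fun z : ℂ => a + (r : ℂ) ^ 2 * (conj (z - a))⁻¹) w :=
    contDiffAt_const.add (contDiffAt_const.mul h3)
  have h5 : cinv a r = fun z : ℂ => a + (r : ℂ) ^ 2 * (conj (z - a))⁻¹ := by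
    funext z
    unfold cinv
    rw [div_eq_mul_inv]
  rw [h5]
  exact h4

theorem diskPsi_contDiff (a : ℂ) {r : ℝ} (hr : 0 < r) {φ : ℂ → ℝ} (hφ : IsTest univ φ) :
    ContDiff ℝ 1 (diskPsi a r φ) := by
  have hφ1 : ContDiff ℝ 1 φ := hφ.1.of_le (by exact_mod_cast le_top)
  rw [contDiff_iff_contDiffAt]
  intro w
  by_cases hw : w = a
  · subst hw
    obtain ⟨R, hR⟩ := hφ.2.1.isCompact.isBounded.subset_closedBall w
    refine ContDiffAt.congr_of_eventuallyEq (f := fun _ => (0 : ℝ)) contDiffAt_const ?_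
    have hR1 : 0 < |R| + 1 := by positivity
    have h1 : 0 < r ^ 2 / (|R| + 1) := by positivity
    filter_upwards [ball_mem_nhds w h1] with z hz
    unfold diskPsi
    split_ifs with h
    · rfl
    · rw [mem_ball, dist_eq_norm] at hz
      have h3 : 0 < ‖z - w‖ := norm_pos_iff.2 (sub_ne_zero.2 h)
      have h4 : cinv w r z ∉ closedBall w R := by
        rw [mem_closedBall, dist_eq_norm, disk_norm_cinv, not_le]
        rw [lt_div_iff₀ hR1] at hz
        rw [lt_div_iff₀ h3]
        have := le_abs_self R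
        nlinarith
      exact image_eq_zero_of_notMem_tsupport (fun h5 => h4 (hR h5))
  · exact ContDiffAt.congr_of_eventuallyEq
      (hφ1.contDiffAt.comp w (disk_cinv_contDiffAt a r hw)) (diskPsi_eventually a r φ hw)

theorem disk_grad_real (L : ℂ →L[ℝ] ℝ) (z : ℂ) :
    L z = (conj ((L 1 : ℂ) + Complex.I * (L Complex.I : ℂ)) * z).re := by
  have h : z = (z.re : ℝ) • (1 : ℂ) + (z.im : ℝ) • Complex.I := by
    simp [Complex.re_add_im]
  conv_lhs => rw [h]
  rw [map_add, map_smul, map_smul]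
  simp
  ring

theorem diskPsi_grad (a : ℂ) (r : ℝ) {φ : ℂ → ℝ} (hφ : ContDiff ℝ 1 φ) {w : ℂ} (hw : w ≠ a) :
    grad (diskPsi a r φ) w = -((r : ℂ) ^ 2) / (conj (w - a)) ^ 2 *
      conj (grad φ (cinv a r w)) := by
  rw [disk_grad_congr (diskPsi_eventually a r φ hw)]
  have h1 : HasFDerivAt φ (fderiv ℝ φ (cinv a r w)) (cinv a r w) :=
    (hφ.differentiable (by norm_num) _).hasFDerivAt
  have h2 := (h1.comp w (disk_hasFDerivAt a r hw)).fderiv
  have h3 : (φ ∘ cinv a r) = fun z => φ (cinv a r z) := rfl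
  rw [h3] at h2
  unfold grad
  rw [h2]
  simp only [ContinuousLinearMap.comp_apply, diskD_apply]
  set c : ℂ := -((r : ℂ) ^ 2) / (conj (w - a)) ^ 2
  set L := fderiv ℝ φ (cinv a r w)
  rw [disk_grad_real L (c * conj 1), disk_grad_real L (c * conj Complex.I)]
  set G : ℂ := (L 1 : ℂ) + Complex.I * (L Complex.I : ℂ)
  rw [map_one, mul_one, Complex.conj_I]
  apply Complex.ext
  · simp
    ring
  · simp
    ring

theorem disk_key (a : ℂ) {r : ℝ} (hr : 0 < r) (b : ℂ → ℂ) {φ : ℂ → ℝ} (hφ : ContDiff ℝ 1 φ)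
    {w : ℂ} (hw : w ≠ a) :
    (r ^ 4 / ‖w - a‖ ^ 4) • (Phi a r b (cinv a r w) * grad φ (cinv a r w)) =
      - conj (b w * grad (diskPsi a r φ) w) := by
  have h1 : conj (w - a) ≠ 0 := by
    rw [Ne, map_eq_zero, sub_eq_zero]; exact hw
  have h1' : w - a ≠ 0 := sub_ne_zero.2 hw
  have h2 : (r : ℂ) ≠ 0 := by exact_mod_cast hr.ne'
  rw [diskPsi_grad a r hφ hw, disk_Phi_cinv a hr b hw, map_mul, map_mul, map_div₀, map_neg,
    map_pow, map_pow, Complex.conj_conj, Complex.conj_conj, Complex.conj_ofReal]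
  have h3 : (((r ^ 4 / ‖w - a‖ ^ 4 : ℝ)) : ℂ) =
      (r : ℂ) ^ 4 / ((w - a) ^ 2 * (conj (w - a)) ^ 2) := by
    push_cast
    have h4 : ((‖w - a‖ : ℝ) : ℂ) ^ 2 = (w - a) * conj (w - a) := by
      rw [Complex.mul_conj, Complex.normSq_eq_norm_sq]; push_cast; ring
    have h5 : ((‖w - a‖ : ℝ) : ℂ) ^ 4 = (w - a) ^ 2 * (conj (w - a)) ^ 2 := by
      calc ((‖w - a‖ : ℝ) : ℂ) ^ 4 = (((‖w - a‖ : ℝ) : ℂ) ^ 2) ^ 2 := by ring
        _ = _ := by rw [h4]; ring
    rw [h5]
  rw [Complex.real_smul, h3]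
  field_simp

theorem disk_cinv_circle (a : ℂ) {r : ℝ} (hr : 0 < r) {w : ℂ} (hw : ‖w - a‖ = r) :
    cinv a r w = w := by
  have h1' : w - a ≠ 0 := by
    intro h; rw [h, norm_zero] at hw; linarith
  have h1 : conj (w - a) ≠ 0 := by
    rw [Ne, map_eq_zero]; exact h1'
  have h3 : cinv a r w - a = w - a := by
    rw [disk_cinv_sub, div_eq_iff h1, Complex.mul_conj, Complex.normSq_eq_norm_sq, hw]
    push_cast; ring
  linear_combination h3

theorem disk_lemma (a : ℂ) (r : ℝ) (hr : 0 < r) (b : ℂ → ℂ)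
    (hb : DifferentiableOn ℂ b (ball a r)) (hb2 : MemLp b 2 (volume.restrict (ball a r)))
    (φ : ℂ → ℝ) (hφ : IsTest univ φ) :
    ∫ z, ghat a r b z * grad φ z = (((∫ z in ball a r, b z * grad φ z).re : ℝ) : ℂ) := by
  classical
  have hφ1 : ContDiff ℝ 1 φ := hφ.1.of_le (by exact_mod_cast le_top)
  have hψ1 : ContDiff ℝ 1 (diskPsi a r φ) := diskPsi_contDiff a hr hφ
  have : IsFiniteMeasure (volume.restrict (ball a r)) := ⟨by
    rw [Measure.restrict_apply_univ]; exact measure_ball_lt_top⟩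
  have hb1 : IntegrableOn b (ball a r) := hb2.integrable (by norm_num)
  -- integrability
  have hgsupp : HasCompactSupport (grad φ) := by
    have h1 := hφ.2.1.fderiv (𝕜 := ℝ)
    exact h1.comp_left (g := fun L : ℂ →L[ℝ] ℝ => (L 1 : ℂ) + Complex.I * (L Complex.I : ℂ))
      (by simp)
  have hg2 : MemLp (grad φ) 2 volume :=
    (disk_grad_continuous hφ1).memLp_of_hasCompactSupport hgsupp
  have hint : Integrable (fun z => ghat a r b z * grad φ z) :=
    (ghat_memLp a r hr b hb hb2).integrable_mul hg2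
  have hbφ : IntegrableOn (fun z => b z * grad φ z) (ball a r) :=
    hb1.mul_continuousOn_of_subset (disk_grad_continuous hφ1).continuousOn measurableSet_ball
      (isCompact_closedBall a r) ball_subset_closedBall
  have hbψ : IntegrableOn (fun z => b z * grad (diskPsi a r φ) z) (ball a r) :=
    hb1.mul_continuousOn_of_subset (disk_grad_continuous hψ1).continuousOn measurableSet_ball
      (isCompact_closedBall a r) ball_subset_closedBall
  -- the two integrals over the disk agree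
  have hX : ∫ z in ball a r, b z * grad (diskPsi a r φ) z = ∫ z in ball a r, b z * grad φ z := by
    have h0 := disk_zero a hr b hb hb1 (fun z => φ z - diskPsi a r φ z) (hφ1.sub hψ1) (by
      intro w hw
      have hwa : w ≠ a := by
        rintro rfl
        rw [sub_self, norm_zero] at hw; linarith
      simp only [diskPsi, if_neg hwa, disk_cinv_circle a hr hw, sub_self])
    have h1 : ∀ w, b w * grad (fun z => φ z - diskPsi a r φ z) w =
        b w * grad φ w - b w * grad (diskPsi a r φ) w := by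
      intro w
      rw [disk_grad_sub (hφ1.differentiable (by norm_num) w)
        (hψ1.differentiable (by norm_num) w), mul_sub]
    simp only [h1] at h0
    rw [integral_sub hbφ hbψ, sub_eq_zero] at h0
    exact h0.symm
  rw [← integral_add_compl (measurableSet_ball (x := a) (ε := r)) hint,
    disk_setIntegral a hr]
  have hin : ∫ z in ball a r, ghat a r b z * grad φ z =
      (1 / 2 : ℂ) * ∫ z in ball a r, b z * grad φ z := by
    rw [← integral_const_mul]
    refine setIntegral_congr_fun measurableSet_ball fun z hz => ?_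
    simp only [ghat, if_pos hz]
    ring
  have hout : ∫ w in ball a r, (r ^ 4 / ‖w - a‖ ^ 4) •
      (ghat a r b (cinv a r w) * grad φ (cinv a r w)) =
      (1 / 2 : ℂ) * conj (∫ z in ball a r, b z * grad φ z) := by
    rw [← hX, ← integral_conj, ← integral_const_mul,
      ← setIntegral_congr_set (disk_ae a r), ← setIntegral_congr_set (disk_ae a r)]
    refine setIntegral_congr_fun (disk_meas a r) fun w hw => ?_
    have h1 := disk_key a hr b hφ1 hw.2
    have h2 : cinv a r w ∉ ball a r := fun h3 =>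
      ((disk_mem_ball a hr).1 hw).2 (ball_subset_closedBall h3)
    simp only [ghat, if_neg h2]
    have h3 : (r ^ 4 / ‖w - a‖ ^ 4) • (-Phi a r b (cinv a r w) / 2 * grad φ (cinv a r w)) =
        (-(1 / 2) : ℂ) * ((r ^ 4 / ‖w - a‖ ^ 4) • (Phi a r b (cinv a r w) *
          grad φ (cinv a r w))) := by
      rw [Complex.real_smul, Complex.real_smul]; ring
    rw [h3, h1]
    ring
  rw [hin, hout, ← mul_add, Complex.add_conj]
  push_cast
  ring

end Pool.Agent.H385
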