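import Mathlib

/-!
Local Weyl lemma for the dbar operator. Copied from the starting files Pool/Agent/Helper366/IV
(CP, Rep, CCont, Local) with one proof changed.
-/

set_option autoImplicit false
open MeasureTheory Metric Set Filter Topology Complex
open scoped ContDiff ENNReal ComplexConjugate

namespace Pool.Agent.H385.IV



theorem cauchy_pompeiu (φ : ℂ → ℂ) (h : ContDiff ℝ 1 φ) (hc : HasCompactSupport φ) (z : ℂ) :
    ∫ w, (fderiv ℝ φ (z - w) 1 + I * fderiv ℝ φ (z - w) I) / 2 / w = Real.pi * φ z := by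
  have hD : Continuous (fderiv ℝ φ) := h.continuous_fderiv (by simp)
  have hDs : HasCompactSupport (fderiv ℝ φ) := hc.fderiv ℝ
  -- parametrisation
  set e : ℝ → ℂ := fun θ => Complex.exp (θ * I) with he
  have hec : Continuous e := by fun_prop
  have hen : ∀ θ, ‖e θ‖ = 1 := fun θ => Complex.norm_exp_ofReal_mul_I θ
  have he0 : ∀ θ, e θ ≠ 0 := fun θ => Complex.exp_ne_zero _
  set A : ℝ × ℝ → ℂ := fun p => fderiv ℝ φ (z - p.1 * e p.2) (e p.2) with hA
  set B : ℝ × ℝ → ℂ := fun p => fderiv ℝ φ (z - p.1 * e p.2) (I * e p.2) with hB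
  have hAc : Continuous A := by
    apply Continuous.clm_apply
    · exact hD.comp (by fun_prop)
    · fun_prop
  have hBc : Continuous B := by
    apply Continuous.clm_apply
    · exact hD.comp (by fun_prop)
    · fun_prop
  -- support
  obtain ⟨R, hR0, hR⟩ : ∃ R : ℝ, 0 < R ∧ ∀ w : ℂ, R ≤ ‖w‖ → φ (z - w) = 0 ∧ fderiv ℝ φ (z - w) = 0 := by
    obtain ⟨R', hR'⟩ := (hc.isCompact.isBounded).subset_closedBall (0 : ℂ)
    refine ⟨max 1 (R' + ‖z‖ + 1), by positivity, fun w hw => ?_⟩
    have hw' : R' + ‖z‖ + 1 ≤ ‖w‖ := (le_max_right _ _).trans hw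
    have hnot : z - w ∉ tsupport φ := by
      intro hmem
      have := hR' hmem
      rw [mem_closedBall_zero_iff] at this
      have h2 : ‖w‖ ≤ ‖z - w‖ + ‖z‖ := by
        have : w = z - (z - w) := by ring
        calc ‖w‖ = ‖z - (z - w)‖ := by rw [← this]
          _ ≤ ‖z‖ + ‖z - w‖ := norm_sub_le _ _
          _ = _ := by ring
      linarith
    refine ⟨image_eq_zero_of_notMem_tsupport hnot, ?_⟩
    by_contra hne
    exact hnot (support_fderiv_subset ℝ hne)
  have hnorm : ∀ (r θ : ℝ), 0 ≤ r → ‖(r : ℂ) * e θ‖ = r := by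
    intro r θ hr
    rw [norm_mul, hen, mul_one, Complex.norm_real, Real.norm_of_nonneg hr]
  have hA0 : ∀ r θ : ℝ, R ≤ r → A (r, θ) = 0 := by
    intro r θ hr
    simp only [hA]
    rw [(hR _ (by rw [hnorm r θ (hR0.le.trans hr)]; exact hr)).2]; rfl
  have hB0 : ∀ r θ : ℝ, R ≤ r → B (r, θ) = 0 := by
    intro r θ hr
    simp only [hB]
    rw [(hR _ (by rw [hnorm r θ (hR0.le.trans hr)]; exact hr)).2]; rfl
  set S : Set ℝ := Ioi (0 : ℝ) with hS
  set T : Set ℝ := Ioo (-Real.pi) Real.pi with hT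
  have hint : ∀ C : ℝ × ℝ → ℂ, Continuous C → (∀ r θ : ℝ, R ≤ r → C (r, θ) = 0) →
      Integrable C ((volume.restrict S).prod (volume.restrict T)) := by
    intro C hCc hC0
    rw [Measure.prod_restrict]
    have h1 : IntegrableOn C (Icc 0 R ×ˢ Icc (-Real.pi) Real.pi) (volume.prod volume) := by
      have : IsCompact (Icc (0 : ℝ) R ×ˢ Icc (-Real.pi) Real.pi) := isCompact_Icc.prod isCompact_Icc
      exact hCc.continuousOn.integrableOn_compact this
    have h2 : IntegrableOn C ((S ∩ Iic R) ×ˢ T) (volume.prod volume) := by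
      apply h1.mono_set
      rintro ⟨r, θ⟩ ⟨⟨hr1, hr2⟩, hθ⟩
      exact ⟨⟨le_of_lt hr1, hr2⟩, ⟨hθ.1.le, hθ.2.le⟩⟩
    refine h2.of_forall_sdiff_eq_zero (measurableSet_Ioi.prod measurableSet_Ioo) ?_
    rintro ⟨r, θ⟩ ⟨⟨hr, hθ⟩, hn⟩
    apply hC0
    by_contra hlt
    push Not at hlt
    exact hn ⟨⟨hr, hlt.le⟩, hθ⟩
  have hAi := hint A hAc hA0
  have hBi := hint B hBc hB0
  -- polar coordinates
  rw [← Complex.integral_comp_polarCoord_symm]
  have htarget : polarCoord.target = S ×ˢ T := rfl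
  have e1 : ∫ p in polarCoord.target, p.1 • ((fderiv ℝ φ (z - Complex.polarCoord.symm p) 1 +
      I * fderiv ℝ φ (z - Complex.polarCoord.symm p) I) / 2 / Complex.polarCoord.symm p) =
      ∫ p in S ×ˢ T, (1 / 2 : ℂ) * (A p + I * B p) := by
    rw [htarget]
    apply setIntegral_congr_fun (measurableSet_Ioi.prod measurableSet_Ioo)
    rintro ⟨r, θ⟩ ⟨hr, hθ⟩
    have hr : (0 : ℝ) < r := hr
    have hps : Complex.polarCoord.symm (r, θ) = r * e θ := by
      rw [Complex.polarCoord_symm_apply, he]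
      simp only
      rw [Complex.exp_mul_I]
      push_cast; ring
    simp only [hps, hA, hB]
    set L := fderiv ℝ φ (z - r * e θ) with hL
    have hdec : ∀ a : ℂ, L a = a.re * L 1 + a.im * L I := by
      intro a
      have : a = a.re • (1 : ℂ) + a.im • I := by
        apply Complex.ext <;> simp
      conv_lhs => rw [this]
      rw [map_add, map_smul, map_smul]; simp
    rw [hdec (e θ), hdec (I * e θ)]
    have hre : (e θ).re = Real.cos θ := by simp [he, Complex.exp_ofReal_mul_I_re]
    have him : (e θ).im = Real.sin θ := by simp [he, Complex.exp_ofReal_mul_I_im]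
    have hIre : (I * e θ).re = - Real.sin θ := by simp [him]
    have hIim : (I * e θ).im = Real.cos θ := by simp [hre]
    rw [hre, him, hIre, hIim]
    have hr0 : (r : ℂ) ≠ 0 := by exact_mod_cast hr.ne'
    rw [Complex.real_smul]
    have heθ : e θ = Real.cos θ + Real.sin θ * I := by
      rw [he]; simp only
      rw [Complex.exp_mul_I]; push_cast; ring
    have hcs : ((Real.cos θ : ℝ) : ℂ) ^ 2 + ((Real.sin θ : ℝ) : ℂ) ^ 2 = 1 := by
      exact_mod_cast Real.cos_sq_add_sin_sq θ
    have hinv : (e θ)⁻¹ = Real.cos θ - Real.sin θ * I := by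
      apply inv_eq_of_mul_eq_one_left
      rw [heθ]
      ring_nf
      rw [Complex.I_sq]
      linear_combination hcs
    have : (r : ℂ) * ((L 1 + I * L I) / 2 / (r * e θ)) = (1 / 2) * ((L 1 + I * L I) * (e θ)⁻¹) := by
      field_simp [he0 θ]
    rw [this, hinv]
    push_cast
    ring_nf
    rw [Complex.I_sq]; ring
  rw [e1]
  have e2 : ∫ p in S ×ˢ T, (1 / 2 : ℂ) * (A p + I * B p) =
      (1 / 2) * ((∫ p in S ×ˢ T, A p) + I * ∫ p in S ×ˢ T, B p) := by
    have hAi' : IntegrableOn A (S ×ˢ T) := by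
      have := hAi; rw [Measure.prod_restrict] at this; exact this
    have hBi' : IntegrableOn B (S ×ˢ T) := by
      have := hBi; rw [Measure.prod_restrict] at this; exact this
    rw [integral_const_mul, integral_add hAi' (hBi'.const_mul I), integral_const_mul]
  rw [e2]
  -- the radial integral
  have hvol : (volume : Measure (ℝ × ℝ)) = (volume : Measure ℝ).prod volume := rfl
  have eA : ∫ p in S ×ˢ T, A p = 2 * Real.pi * φ z := by
    rw [hvol, ← Measure.prod_restrict, integral_prod_symm _ hAi]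
    have : ∀ θ : ℝ, ∫ r in S, A (r, θ) = φ z := by
      intro θ
      have hder : ∀ r : ℝ, HasDerivAt (fun r : ℝ => - φ (z - r * e θ)) (A (r, θ)) r := by
        intro r
        have h1 : HasFDerivAt φ (fderiv ℝ φ (z - r * e θ)) (z - r * e θ) :=
          (h.differentiable (by simp) _).hasFDerivAt
        have h2 : HasDerivAt (fun r : ℝ => z - (r : ℂ) * e θ) (-(e θ)) r := by
          have := ((Complex.ofRealCLM.hasDerivAt (x := r)).mul_const (e θ)).const_sub z
          simpa using this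
        have h3 := (h1.comp_hasDerivAt r h2).neg
        simp only [map_neg, neg_neg] at h3
        exact h3
      have hcs : IntegrableOn (fun r => A (r, θ)) (Ioi 0) := by
        have hcc : Continuous (fun r : ℝ => A (r, θ)) := by fun_prop
        have h1 : IntegrableOn (fun r : ℝ => A (r, θ)) (Icc 0 R) :=
          hcc.continuousOn.integrableOn_compact isCompact_Icc
        refine (h1.mono_set (s := Ioi 0 ∩ Iic R) ?_).of_forall_sdiff_eq_zero measurableSet_Ioi ?_
        · rintro r ⟨hr1, hr2⟩; exact ⟨le_of_lt hr1, hr2⟩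
        · rintro r ⟨hr, hn⟩
          apply hA0
          by_contra hlt
          push Not at hlt
          exact hn ⟨hr, hlt.le⟩
      have hten : Tendsto (fun r : ℝ => - φ (z - r * e θ)) atTop (𝓝 0) := by
        apply tendsto_const_nhds.congr'
        filter_upwards [eventually_ge_atTop R] with r hr
        rw [(hR (r * e θ) (by rw [hnorm r θ (hR0.le.trans hr)]; exact hr)).1]; simp
      have := integral_Ioi_of_hasDerivAt_of_tendsto (a := 0) (hder 0).continuousAt.continuousWithinAt
        (fun r _ => hder r) hcs hten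
      rw [this]; simp
    simp_rw [this]
    rw [setIntegral_const]
    simp only [hT, Measure.real, Real.volume_Ioo, Complex.real_smul]
    rw [ENNReal.toReal_ofReal (by linarith [Real.pi_pos])]
    push_cast; ring
  have eB : ∫ p in S ×ˢ T, B p = 0 := by
    rw [hvol, ← Measure.prod_restrict, integral_prod _ hBi]
    have : ∀ r ∈ S, ∫ θ in T, B (r, θ) = 0 := by
      intro r hr
      have hr : (0 : ℝ) < r := hr
      have hr0 : (r : ℂ) ≠ 0 := by exact_mod_cast hr.ne'
      have hder : ∀ θ : ℝ, HasDerivAt (fun θ : ℝ => - (r : ℂ)⁻¹ * φ (z - r * e θ)) (B (r, θ)) θ := by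
        intro θ
        have h1 : HasFDerivAt φ (fderiv ℝ φ (z - r * e θ)) (z - r * e θ) :=
          (h.differentiable (by simp) _).hasFDerivAt
        have h0 : HasDerivAt e (I * e θ) θ := by
          have h4 : HasDerivAt (fun θ : ℝ => (θ : ℂ) * I) I θ := by
            have := (Complex.ofRealCLM.hasDerivAt (x := θ)).mul_const I
            simpa using this
          have := h4.cexp
          rw [mul_comm]
          exact this
        have h2 : HasDerivAt (fun θ : ℝ => z - (r : ℂ) * e θ) (-((r : ℂ) * (I * e θ))) θ := by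
          have := (h0.const_mul (r : ℂ)).const_sub z
          simpa using this
        have h3 := (h1.comp_hasDerivAt θ h2).const_mul (- (r : ℂ)⁻¹)
        have h5 : - (r : ℂ)⁻¹ * (fderiv ℝ φ (z - r * e θ)) (-((r : ℂ) * (I * e θ))) = B (r, θ) := by
          have : (r : ℂ) * (I * e θ) = r • (I * e θ) := by rw [Complex.real_smul]
          rw [this, map_neg, map_smul, Complex.real_smul]
          simp only [hB]
          field_simp
        rw [h5] at h3
        exact h3
      rw [← integral_Ioc_eq_integral_Ioo,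
        ← intervalIntegral.integral_of_le (by linarith [Real.pi_pos])]
      have hcc : Continuous (fun θ : ℝ => B (r, θ)) := by fun_prop
      rw [intervalIntegral.integral_eq_sub_of_hasDerivAt (fun θ _ => hder θ)
        (hcc.intervalIntegrable _ _)]
      have : e Real.pi = e (-Real.pi) := by
        simp only [he]
        push_cast
        rw [neg_mul, Complex.exp_neg, Complex.exp_pi_mul_I]; norm_num
      rw [this]; ring
    rw [setIntegral_congr_fun measurableSet_Ioi (g := fun _ => (0 : ℂ)) (fun r hr => this r hr)]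
    simp
  rw [eA, eB]; ring






theorem inv_int733 (r : ℝ) : IntegrableOn (fun w : ℂ => w⁻¹) (ball 0 r) := by
  have h : IntegrableOn (fun w : ℂ => (‖w‖)⁻¹) (ball 0 r) := by
    rw [integrableOn_fun_norm_addHaar (volume : Measure ℂ) (f := fun y : ℝ => y⁻¹) (r := r)]
    rw [Complex.finrank_real_complex]
    have h1 : IntegrableOn (fun _ : ℝ => (1:ℝ)) (Ioo 0 r) := by
      exact integrableOn_const measure_Ioo_lt_top.ne (by simp)
    refine h1.congr_fun ?_ measurableSet_Ioo
    intro y hy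
    have hy0 : y ≠ 0 := hy.1.ne'
    simp [hy0]
  refine Integrable.mono' h ?_ ?_
  · exact (measurable_inv).aestronglyMeasurable
  · exact ae_of_all _ (fun w => by rw [norm_inv])

theorem inv_loc733 : LocallyIntegrable (fun w : ℂ => w⁻¹) := by
  intro x
  refine ⟨ball 0 (‖x‖ + 1), isOpen_ball.mem_nhds (by simp), inv_int733 _⟩

/-- truncated kernel -/
noncomputable def KM (M : ℝ) : ℂ → ℂ := indicator (ball 0 M) (fun w : ℂ => w⁻¹)

theorem KM_int (M : ℝ) : Integrable (KM M) := by
  unfold KM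
  rw [integrable_indicator_iff measurableSet_ball]
  exact inv_int733 M

theorem KM_eq {M : ℝ} {w : ℂ} (h : ‖w‖ < M) : KM M w = w⁻¹ := by
  unfold KM
  rw [indicator_of_mem]
  simpa using h

theorem zbar733 (φ : ℂ → ℂ) (hφ : ContDiff ℝ ∞ φ) (hc : HasCompactSupport φ) :
    ContDiff ℝ ∞ (fun z => ∫ t, t⁻¹ * φ (z - t)) ∧
    ∀ z, (fderiv ℝ (fun z => ∫ t, t⁻¹ * φ (z - t)) z 1 +
      I * fderiv ℝ (fun z => ∫ t, t⁻¹ * φ (z - t)) z I) / 2 = Real.pi * φ z := by
  have hφ1 : ContDiff ℝ 1 φ := hφ.of_le (by exact_mod_cast le_top)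
  have e : (fun z => ∫ t, t⁻¹ * φ (z - t)) =
      convolution (fun w : ℂ => w⁻¹) φ (ContinuousLinearMap.mul ℝ ℂ) volume := by
    funext z
    rfl
  constructor
  · rw [e]
    exact hc.contDiff_convolution_right (n := ⊤) (ContinuousLinearMap.mul ℝ ℂ) inv_loc733 hφ
  · intro z
    have hd := hc.hasFDerivAt_convolution_right (ContinuousLinearMap.mul ℝ ℂ) inv_loc733 hφ1 z
    rw [← e] at hd
    rw [hd.fderiv]
    have hex : Integrable (fun t : ℂ => ((ContinuousLinearMap.mul ℝ ℂ).precompR ℂ (t⁻¹)) (fderiv ℝ φ (z - t))) :=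
      (hc.fderiv ℝ).convolutionExists_right ((ContinuousLinearMap.mul ℝ ℂ).precompR ℂ) inv_loc733
        (hφ1.continuous_fderiv one_ne_zero) z
    have happ : ∀ e' : ℂ, (convolution (fun w : ℂ => w⁻¹) (fderiv ℝ φ)
        ((ContinuousLinearMap.mul ℝ ℂ).precompR ℂ) volume z) e' = ∫ t, t⁻¹ * fderiv ℝ φ (z - t) e' := by
      intro e'
      rw [convolution_def, ContinuousLinearMap.integral_apply hex]
      rfl
    have hint : ∀ e' : ℂ, Integrable (fun t : ℂ => t⁻¹ * fderiv ℝ φ (z - t) e') := by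
      intro e'
      exact hex.apply_continuousLinearMap e'
    rw [happ, happ, ← integral_const_mul, ← integral_add (hint 1) ((hint I).const_mul I)]
    rw [← cauchy_pompeiu φ hφ1 hc z, ← integral_div]
    congr 1
    funext t
    ring

/- TARGET -/
theorem rep (v g : ℂ → ℂ) (hv : Integrable v) (hg : Integrable g) (R : ℝ)
    (hvs : ∀ z, R < ‖z‖ → v z = 0) (hgs : ∀ z, R < ‖z‖ → g z = 0)
    (hw : ∀ φ : ℂ → ℂ, ContDiff ℝ ∞ φ → HasCompactSupport φ →
      (∫ z, v z * ((fderiv ℝ φ z 1 + I * fderiv ℝ φ z I) / 2)) = - ∫ z, g z * φ z) :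
    ∀ᵐ z, v z = 1 / Real.pi * ∫ w, g w / (z - w) := by
  have hpi : (Real.pi : ℂ) ≠ 0 := by exact_mod_cast Real.pi_ne_zero
  -- integrability on the product
  have hprod : ∀ M : ℝ, Integrable (fun p : ℂ × ℂ => g p.2 * KM M (p.1 - p.2)) (volume.prod volume) := by
    intro M
    exact hg.convolution_integrand (ContinuousLinearMap.mul ℝ ℂ) (KM_int M)
  -- local integrability of T
  have hT : LocallyIntegrable (fun z : ℂ => 1 / Real.pi * ∫ w, g w / (z - w)) := by
    intro x
    refine ⟨ball 0 (‖x‖ + 1), isOpen_ball.mem_nhds (by simp), ?_⟩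
    have h1 := (hprod (max R 0 + (‖x‖ + 1))).integral_prod_left
    have h2 : IntegrableOn (fun z : ℂ => (1 / Real.pi : ℂ) * ∫ w, g w * KM (max R 0 + (‖x‖ + 1)) (z - w))
        (ball 0 (‖x‖ + 1)) := (h1.const_mul _).integrableOn
    refine h2.congr_fun ?_ measurableSet_ball
    intro z hz
    have hz' : ‖z‖ < ‖x‖ + 1 := by simpa using hz
    show (1 / Real.pi : ℂ) * ∫ w, g w * KM (max R 0 + (‖x‖ + 1)) (z - w) = 1 / Real.pi * ∫ w, g w / (z - w)
    congr 1
    apply integral_congr_ae
    refine ae_of_all _ (fun w => ?_)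
    show g w * KM (max R 0 + (‖x‖ + 1)) (z - w) = g w / (z - w)
    rcases lt_or_ge R ‖w‖ with h | h
    · rw [hgs w h]; simp
    · rw [KM_eq]
      · rw [div_eq_mul_inv]
      · calc ‖z - w‖ ≤ ‖z‖ + ‖w‖ := norm_sub_le _ _
          _ < max R 0 + (‖x‖ + 1) := by linarith [le_max_left R 0]
  apply ae_eq_of_integral_contDiff_smul_eq hv.locallyIntegrable hT
  intro θ hθ hθc
  set φ : ℂ → ℂ := fun z => (θ z : ℂ) with hφdef
  have hφ : ContDiff ℝ ∞ φ := Complex.ofRealCLM.contDiff.comp hθ
  have hφc : HasCompactSupport φ := hθc.comp_left (g := fun x : ℝ => (x : ℂ)) (by simp)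
  obtain ⟨hψs, hψz⟩ := zbar733 φ hφ hφc
  set ψ : ℂ → ℂ := fun z => ∫ t, t⁻¹ * φ (z - t) with hψ
  -- cutoff
  let χ : ContDiffBump (0 : ℂ) := ⟨max R 0 + 1, max R 0 + 2, by positivity, by linarith⟩
  set η : ℂ → ℂ := fun z => ((χ z : ℝ) : ℂ) * ψ z with hη
  have hηs : ContDiff ℝ ∞ η := by
    have h1 : ContDiff ℝ ∞ (fun z : ℂ => ((χ z : ℝ) : ℂ)) := Complex.ofRealCLM.contDiff.comp χ.contDiff
    exact h1.mul hψs
  have hηc : HasCompactSupport η := by
    have h1 : HasCompactSupport (fun z : ℂ => ((χ z : ℝ) : ℂ)) :=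
      χ.hasCompactSupport.comp_left (g := fun x : ℝ => (x : ℂ)) (by simp)
    exact h1.mul_right
  have hηev : ∀ z : ℂ, ‖z‖ ≤ R → η =ᶠ[𝓝 z] ψ := by
    intro z hz
    have hb : ball (0:ℂ) (max R 0 + 1) ∈ 𝓝 z := by
      apply isOpen_ball.mem_nhds
      rw [mem_ball_zero_iff]
      linarith [le_max_left R 0]
    filter_upwards [hb] with w hw'
    have h1 : χ w = 1 := χ.one_of_mem_closedBall (ball_subset_closedBall hw')
    show ((χ w : ℝ) : ℂ) * ψ w = ψ w
    rw [h1]; simp
  have hkey := hw η hηs hηc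
  have hL : (∫ z, v z * ((fderiv ℝ η z 1 + I * fderiv ℝ η z I) / 2)) = ∫ z, v z * (Real.pi * φ z) := by
    apply integral_congr_ae
    refine ae_of_all _ (fun z => ?_)
    show v z * ((fderiv ℝ η z 1 + I * fderiv ℝ η z I) / 2) = v z * (Real.pi * φ z)
    rcases lt_or_ge R ‖z‖ with h | h
    · rw [hvs z h]; simp
    · rw [(hηev z h).fderiv_eq, hψz z]
  have hR : (∫ z, g z * η z) = ∫ z, g z * ψ z := by
    apply integral_congr_ae
    refine ae_of_all _ (fun z => ?_)
    show g z * η z = g z * ψ z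
    rcases lt_or_ge R ‖z‖ with h | h
    · rw [hgs z h]; simp
    · rw [(hηev z h).eq_of_nhds]
  rw [hL, hR] at hkey
  -- Fubini
  obtain ⟨ρ, hρ⟩ := hφc.isBounded.subset_ball (0 : ℂ)
  obtain ⟨C, hC⟩ := hφ.continuous.bounded_above_of_compact_support hφc
  have hG : Integrable (fun p : ℂ × ℂ => φ p.1 * (g p.2 * (p.1 - p.2)⁻¹)) (volume.prod volume) := by
    have h1 : Integrable (fun p : ℂ × ℂ => φ p.1 * (g p.2 * KM (max R 0 + ρ) (p.1 - p.2)))
        (volume.prod volume) := by
      refine (hprod (max R 0 + ρ)).bdd_mul (c := C) ?_ ?_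
      · exact (hφ.continuous.comp continuous_fst).aestronglyMeasurable
      · exact ae_of_all _ (fun p => hC p.1)
    refine h1.congr (ae_of_all _ (fun p => ?_))
    show φ p.1 * (g p.2 * KM (max R 0 + ρ) (p.1 - p.2)) = φ p.1 * (g p.2 * (p.1 - p.2)⁻¹)
    rcases lt_or_ge R ‖p.2‖ with h | h
    · rw [hgs _ h]; simp
    · by_cases h0 : φ p.1 = 0
      · rw [h0]; simp
      · have h2 : p.1 ∈ ball (0:ℂ) ρ := hρ (subset_tsupport _ h0)
        rw [mem_ball_zero_iff] at h2
        rw [KM_eq]
        calc ‖p.1 - p.2‖ ≤ ‖p.1‖ + ‖p.2‖ := norm_sub_le _ _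
          _ < max R 0 + ρ := by linarith [le_max_left R 0]
  have hswap := integral_integral_swap (f := fun z w : ℂ => φ z * (g w * (z - w)⁻¹)) hG
  have hψ2 : ∀ w : ℂ, ψ w = - ∫ z, φ z * (z - w)⁻¹ := by
    intro w
    show ∫ t, t⁻¹ * φ (w - t) = _
    rw [← integral_sub_left_eq_self (fun t : ℂ => t⁻¹ * φ (w - t)) volume w, ← integral_neg]
    apply integral_congr_ae
    refine ae_of_all _ (fun z => ?_)
    show (w - z)⁻¹ * φ (w - (w - z)) = -(φ z * (z - w)⁻¹)
    rw [sub_sub_cancel, ← neg_sub z w, inv_neg]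
    ring
  have h3 : (∫ z, g z * ψ z) = - ∫ w, ∫ z, φ z * (g w * (z - w)⁻¹) := by
    rw [← integral_neg]
    apply integral_congr_ae
    refine ae_of_all _ (fun w => ?_)
    show g w * ψ w = - ∫ z, φ z * (g w * (z - w)⁻¹)
    rw [hψ2 w, mul_neg, ← integral_const_mul]
    congr 1
    apply integral_congr_ae
    refine ae_of_all _ (fun z => ?_)
    show g w * (φ z * (z - w)⁻¹) = φ z * (g w * (z - w)⁻¹)
    ring
  rw [← hswap] at h3
  rw [h3, neg_neg] at hkey
  have h4 : (∫ z, θ z • v z) = (1 / Real.pi : ℂ) * ∫ z, v z * (Real.pi * φ z) := by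
    rw [← integral_const_mul]
    apply integral_congr_ae
    refine ae_of_all _ (fun z => ?_)
    show θ z • v z = (1 / Real.pi : ℂ) * (v z * (Real.pi * φ z))
    rw [Complex.real_smul]
    field_simp
    rw [hφdef]
    ring
  rw [h4, hkey, ← integral_const_mul]
  apply integral_congr_ae
  refine ae_of_all _ (fun z => ?_)
  show (1 / Real.pi : ℂ) * ∫ w, φ z * (g w * (z - w)⁻¹) = θ z • (1 / Real.pi * ∫ w, g w / (z - w))
  rw [Complex.real_smul, integral_const_mul]
  have e5 : (∫ w, g w * (z - w)⁻¹) = ∫ w, g w / (z - w) := by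
    congr 1
  rw [e5]
  show (1 / Real.pi : ℂ) * ((θ z : ℂ) * ∫ w, g w / (z - w)) = (θ z : ℂ) * (1 / Real.pi * ∫ w, g w / (z - w))
  ring




noncomputable def KK (δ : ℝ) (w : ℂ) : ℂ := conj w * (((max (‖w‖ ^ 2) (δ ^ 2))⁻¹ : ℝ) : ℂ)

lemma KK_cont (δ : ℝ) (hδ : 0 < δ) : Continuous (KK δ) := by
  unfold KK
  have h1 : Continuous (fun w : ℂ => (max (‖w‖ ^ 2) (δ ^ 2))⁻¹) := by
    refine Continuous.inv₀ (by fun_prop) (fun w => ?_)
    have : 0 < max (‖w‖ ^ 2) (δ ^ 2) := lt_of_lt_of_le (by positivity) (le_max_right _ _)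
    exact this.ne'
  exact (Complex.continuous_conj).mul (Complex.continuous_ofReal.comp h1)

lemma KK_bound (δ : ℝ) (hδ : 0 < δ) (w : ℂ) : ‖KK δ w‖ ≤ δ⁻¹ := by
  have h0 : 0 < max (‖w‖ ^ 2) (δ ^ 2) := lt_of_lt_of_le (by positivity) (le_max_right _ _)
  unfold KK
  rw [norm_mul, RCLike.norm_conj, Complex.norm_real, Real.norm_of_nonneg (by positivity),
    ← div_eq_mul_inv, div_le_iff₀ h0, inv_mul_eq_div, le_div_iff₀ hδ]
  rcases le_total δ ‖w‖ with h | h
  · refine le_trans ?_ (le_max_left _ _)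
    nlinarith [norm_nonneg w]
  · refine le_trans ?_ (le_max_right _ _)
    nlinarith [norm_nonneg w]

lemma KK_eq (δ : ℝ) (hδ : 0 < δ) (w : ℂ) (h : δ ≤ ‖w‖) : w⁻¹ - KK δ w = 0 := by
  unfold KK
  rw [max_eq_left (by gcongr), Complex.inv_def, Complex.normSq_eq_norm_sq, sub_self]

lemma KK_diff (δ : ℝ) (hδ : 0 < δ) (w : ℂ) : ‖w⁻¹ - KK δ w‖ ≤ ‖w‖⁻¹ := by
  unfold KK
  rw [Complex.inv_def, Complex.normSq_eq_norm_sq, ← mul_sub, ← Complex.ofReal_sub, norm_mul,
    RCLike.norm_conj, Complex.norm_real]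
  by_cases hw : w = 0
  · subst hw; simp
  have hw' : 0 < ‖w‖ := norm_pos_iff.2 hw
  have h0 : 0 < max (‖w‖ ^ 2) (δ ^ 2) := lt_of_lt_of_le (by positivity) (le_max_right _ _)
  have h1 : (max (‖w‖ ^ 2) (δ ^ 2))⁻¹ ≤ (‖w‖ ^ 2)⁻¹ := by
    apply inv_anti₀ (by positivity) (le_max_left _ _)
  rw [Real.norm_of_nonneg (by linarith)]
  have h2 : ‖w‖ * ((‖w‖ ^ 2)⁻¹ - (max (‖w‖ ^ 2) (δ ^ 2))⁻¹) ≤ ‖w‖ * (‖w‖ ^ 2)⁻¹ := by
    gcongr
    have : 0 < (max (‖w‖ ^ 2) (δ ^ 2))⁻¹ := by positivity
    linarith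
  refine h2.trans (le_of_eq ?_)
  field_simp

lemma inv_norm_integrableOn (δ : ℝ) : IntegrableOn (fun u : ℂ => ‖u‖⁻¹) (ball 0 δ) := by
  have := (integrableOn_fun_norm_addHaar (volume : Measure ℂ) (f := fun y : ℝ => y⁻¹) (r := δ)).2
  apply this
  rw [Complex.finrank_real_complex]
  have h1 : IntegrableOn (fun _ : ℝ => (1:ℝ)) (Ioo 0 δ) := by
    exact integrableOn_const measure_Ioo_lt_top.ne (by simp)
  refine h1.congr_fun ?_ measurableSet_Ioo
  intro y hy
  have : y ≠ 0 := hy.1.ne'
  simp [this]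

lemma eps_tendsto : Tendsto (fun n : ℕ => ∫ u in ball (0 : ℂ) (1 / ((n : ℝ) + 1)), ‖u‖⁻¹) atTop (𝓝 0) := by
  have h := tendsto_setIntegral_of_antitone (μ := (volume : Measure ℂ)) (f := fun u : ℂ => ‖u‖⁻¹)
    (s := fun n : ℕ => ball (0 : ℂ) (1 / ((n : ℝ) + 1))) (fun n => measurableSet_ball) (by
      intro m n hmn
      apply ball_subset_ball
      have : (m : ℝ) ≤ n := by exact_mod_cast hmn
      exact one_div_le_one_div_of_le (by positivity) (by linarith)) ⟨0, inv_norm_integrableOn _⟩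
  have h2 : (⋂ n : ℕ, ball (0 : ℂ) (1 / ((n : ℝ) + 1))) = {0} := by
    ext u
    simp only [mem_iInter, mem_ball_zero_iff, mem_singleton_iff]
    constructor
    · intro hu
      by_contra hne
      obtain ⟨n, hn⟩ := exists_nat_one_div_lt (norm_pos_iff.2 hne)
      exact absurd (hu n) (not_lt.2 hn.le)
    · rintro rfl n
      simp only [norm_zero]; positivity
  rw [h2] at h
  simpa using h

/- TARGET -/
theorem cauchy_cont (g : ℂ → ℂ) (hg : Integrable g) (z₀ : ℂ) (r M : ℝ)
    (hM : ∀ᵐ z ∂(volume.restrict (ball z₀ r)), ‖g z‖ ≤ M) :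
    ContinuousOn (fun z => ∫ w, g w / (z - w)) (ball z₀ r) := by
  intro z1 hz1
  apply ContinuousAt.continuousWithinAt
  obtain ⟨s, hs, hsub⟩ : ∃ s > 0, ball z1 (2 * s) ⊆ ball z₀ r := by
    obtain ⟨ε, hε, h⟩ := Metric.isOpen_iff.1 isOpen_ball z1 hz1
    exact ⟨ε / 2, by positivity, by rwa [mul_div_cancel₀ _ (two_ne_zero)]⟩
  rw [ae_restrict_iff' measurableSet_ball] at hM
  have hδpos : ∀ n : ℕ, 0 < 1 / ((n : ℝ) + 1) := fun n => by positivity
  -- approximants
  have hint : ∀ (n : ℕ) (z : ℂ), Integrable (fun w => g w * KK (1 / ((n : ℝ) + 1)) (z - w)) := by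
    intro n z
    refine hg.mul_bdd (c := (1 / ((n : ℝ) + 1))⁻¹) ?_ ?_
    · exact ((KK_cont _ (hδpos n)).comp (continuous_const.sub continuous_id)).aestronglyMeasurable
    · exact Eventually.of_forall fun w => KK_bound _ (hδpos n) _
  have hcont : ∀ n : ℕ, Continuous (fun z : ℂ => ∫ w, g w * KK (1 / ((n : ℝ) + 1)) (z - w)) := by
    intro n
    refine continuous_of_dominated (bound := fun w => ‖g w‖ * (1 / ((n : ℝ) + 1))⁻¹)
      (fun z => (hint n z).aestronglyMeasurable) ?_ (hg.norm.mul_const _) ?_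
    · intro z
      refine Eventually.of_forall fun w => ?_
      rw [norm_mul]
      exact mul_le_mul_of_nonneg_left (KK_bound _ (hδpos n) _) (norm_nonneg _)
    · refine Eventually.of_forall fun w => ?_
      exact continuous_const.mul ((KK_cont _ (hδpos n)).comp (continuous_id.sub continuous_const))
  -- error estimate
  have herr : ∀ n : ℕ, 1 / ((n : ℝ) + 1) < s → ∀ z ∈ ball z1 s,
      ‖(∫ w, g w / (z - w)) - ∫ w, g w * KK (1 / ((n : ℝ) + 1)) (z - w)‖ ≤
        |M| * ∫ u in ball (0 : ℂ) (1 / ((n : ℝ) + 1)), ‖u‖⁻¹ := by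
    intro n hn z hz
    set δ := 1 / ((n : ℝ) + 1) with hδ
    have hδ0 : 0 < δ := hδpos n
    set b : ℂ → ℝ := (ball (0 : ℂ) δ).indicator (fun u => ‖u‖⁻¹) with hb
    have hbint : Integrable b := (integrable_indicator_iff measurableSet_ball).2 (inv_norm_integrableOn δ)
    have hbint' : Integrable (fun w => |M| * b (z - w)) := (hbint.comp_sub_left z).const_mul _
    have hbd : ∀ᵐ w, ‖g w * ((z - w)⁻¹ - KK δ (z - w))‖ ≤ |M| * b (z - w) := by
      filter_upwards [hM] with w hw
      by_cases hzw : δ ≤ ‖z - w‖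
      · rw [KK_eq δ hδ0 _ hzw, mul_zero, norm_zero, hb, indicator_of_notMem]
        · simp
        · simpa using hzw
      · push Not at hzw
        have hmem : w ∈ ball z₀ r := by
          apply hsub
          rw [mem_ball, dist_comm, dist_eq_norm]
          have h1 : ‖z1 - z‖ < s := by
            rw [← dist_eq_norm, dist_comm]; exact hz
          calc ‖z1 - w‖ = ‖(z1 - z) + (z - w)‖ := by ring_nf
            _ ≤ ‖z1 - z‖ + ‖z - w‖ := norm_add_le _ _
            _ < 2 * s := by linarith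
        have h2 := (hw hmem).trans (le_abs_self M)
        have h3 := KK_diff δ hδ0 (z - w)
        rw [norm_mul, hb, indicator_of_mem (by simpa using hzw)]
        exact mul_le_mul h2 h3 (norm_nonneg _) (abs_nonneg _)
    have hdm : AEStronglyMeasurable (fun w => g w * ((z - w)⁻¹ - KK δ (z - w))) volume := by
      refine hg.aestronglyMeasurable.mul ?_
      refine Measurable.aestronglyMeasurable ?_
      exact (measurable_const.sub measurable_id).inv.sub
        ((KK_cont _ hδ0).measurable.comp (measurable_const.sub measurable_id))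
    have hdint : Integrable (fun w => g w * ((z - w)⁻¹ - KK δ (z - w))) :=
      hbint'.mono' hdm hbd
    have hsum : (∫ w, g w / (z - w)) - ∫ w, g w * KK δ (z - w) =
        ∫ w, g w * ((z - w)⁻¹ - KK δ (z - w)) := by
      have hgi : Integrable (fun w => g w / (z - w)) := by
        refine ((hint n z).add hdint).congr (Eventually.of_forall fun w => ?_)
        simp only [Pi.add_apply]
        rw [← hδ, div_eq_mul_inv]; ring
      rw [← integral_sub hgi (hint n z)]
      congr 1
      funext w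
      rw [div_eq_mul_inv]; ring
    rw [hsum]
    refine (norm_integral_le_of_norm_le hbint' hbd).trans (le_of_eq ?_)
    rw [integral_const_mul, integral_sub_left_eq_self (fun u => b u) volume z, hb,
      integral_indicator measurableSet_ball]
  have hunif : TendstoUniformlyOn (fun (n : ℕ) (z : ℂ) => ∫ w, g w * KK (1 / ((n : ℝ) + 1)) (z - w))
      (fun z => ∫ w, g w / (z - w)) atTop (ball z1 s) := by
    rw [Metric.tendstoUniformlyOn_iff]
    intro ε hε
    have h1 : Tendsto (fun n : ℕ => |M| * ∫ u in ball (0 : ℂ) (1 / ((n : ℝ) + 1)), ‖u‖⁻¹) atTop (𝓝 0) := by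
      simpa using eps_tendsto.const_mul |M|
    have h2 : ∀ᶠ n : ℕ in atTop, 1 / ((n : ℝ) + 1) < s :=
      (tendsto_one_div_add_atTop_nhds_zero_nat (𝕜 := ℝ)).eventually_lt_const hs
    filter_upwards [h1.eventually_lt_const hε, h2] with n hn1 hn2 z hz
    rw [dist_eq_norm]
    exact (herr n hn2 z hz).trans_lt hn1
  have hco := hunif.continuousOn (Eventually.frequently (Eventually.of_forall fun n => (hcont n).continuousOn))
  exact hco.continuousAt (ball_mem_nhds z1 hs)

/- TARGET -/
theorem cauchy_holo (g : ℂ → ℂ) (hg : Integrable g) (z₀ : ℂ) (r : ℝ)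
    (h0 : ∀ z ∈ ball z₀ r, g z = 0) :
    DifferentiableOn ℂ (fun z => ∫ w, g w / (z - w)) (ball z₀ r) := by
  intro z1 hz1
  apply DifferentiableAt.differentiableWithinAt
  obtain ⟨s, hs, hsub⟩ : ∃ s > 0, ball z1 (2 * s) ⊆ ball z₀ r := by
    obtain ⟨ε, hε, h⟩ := Metric.isOpen_iff.1 isOpen_ball z1 hz1
    exact ⟨ε / 2, by positivity, by rwa [mul_div_cancel₀ _ (two_ne_zero)]⟩
  have hfar : ∀ z ∈ ball z1 s, ∀ w, g w ≠ 0 → s ≤ ‖z - w‖ := by
    intro z hz w hw
    by_contra hcon
    push Not at hcon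
    apply hw
    apply h0
    apply hsub
    rw [mem_ball, dist_comm, dist_eq_norm]
    have h1 : ‖z1 - z‖ < s := by
      rw [← dist_eq_norm, dist_comm]; exact hz
    calc ‖z1 - w‖ = ‖(z1 - z) + (z - w)‖ := by ring_nf
      _ ≤ ‖z1 - z‖ + ‖z - w‖ := norm_add_le _ _
      _ < 2 * s := by linarith
  have hmeas : ∀ z : ℂ, AEStronglyMeasurable (fun w => g w / (z - w)) volume := by
    intro z
    have : (fun w => g w / (z - w)) = fun w => g w * (z - w)⁻¹ := by
      funext w; rw [div_eq_mul_inv]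
    rw [this]
    exact hg.aestronglyMeasurable.mul (measurable_const.sub measurable_id).inv.aestronglyMeasurable
  have hmeas2 : AEStronglyMeasurable (fun w => -g w / (z1 - w) ^ 2) volume := by
    have : (fun w => -g w / (z1 - w) ^ 2) = fun w => (-g w) * ((z1 - w) ^ 2)⁻¹ := by
      funext w; rw [div_eq_mul_inv]
    rw [this]
    exact hg.aestronglyMeasurable.neg.mul
      ((measurable_const.sub measurable_id).pow_const 2).inv.aestronglyMeasurable
  have := hasDerivAt_integral_of_dominated_loc_of_deriv_le (𝕜 := ℂ) (μ := (volume : Measure ℂ))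
    (F := fun z w => g w / (z - w)) (F' := fun z w => -g w / (z - w) ^ 2) (x₀ := z1)
    (s := ball z1 s) (bound := fun w => ‖g w‖ / s ^ 2) (ball_mem_nhds z1 hs)
    (Eventually.of_forall hmeas) ?_ hmeas2 ?_ (hg.norm.div_const _) ?_
  · exact this.2.differentiableAt
  · refine (hg.norm.div_const s).mono' (hmeas z1) (Eventually.of_forall fun w => ?_)
    by_cases hw : g w = 0
    · simp [hw]
    · rw [norm_div]
      have := hfar z1 (mem_ball_self hs) w hw
      gcongr
  · refine Eventually.of_forall fun w z hz => ?_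
    by_cases hw : g w = 0
    · simp [hw]
    · rw [norm_div, norm_neg, norm_pow]
      have := hfar z hz w hw
      gcongr
  · refine Eventually.of_forall fun w z hz => ?_
    by_cases hw : g w = 0
    · simp only [hw, zero_div, neg_zero]
      exact hasDerivAt_const z 0
    · have h1 := hfar z hz w hw
      have h2 : z - w ≠ 0 := by
        intro h
        rw [h, norm_zero] at h1
        linarith
      have h3 := ((hasDerivAt_id z).sub_const w).inv h2
      have h4 := h3.const_mul (g w)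
      refine (h4.congr_deriv ?_).congr_of_eventuallyEq ?_
      · simp only [id]; ring
      · exact Eventually.of_forall fun y => by simp [div_eq_mul_inv]







/-- the dbar operator -/
noncomputable def dbr (φ : ℂ → ℂ) (z : ℂ) : ℂ := (fderiv ℝ φ z 1 + I * fderiv ℝ φ z I) / 2

lemma dbr_mul (χ φ : ℂ → ℂ) (z : ℂ) (h1 : DifferentiableAt ℝ χ z) (h2 : DifferentiableAt ℝ φ z) :
    dbr (fun w => χ w * φ w) z = χ z * dbr φ z + φ z * dbr χ z := by
  unfold dbr
  rw [fderiv_fun_mul h1 h2]
  simp only [ContinuousLinearMap.add_apply, ContinuousLinearMap.smul_apply, smul_eq_mul]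
  ring

lemma dbr_cont (χ : ℂ → ℂ) (h : ContDiff ℝ ∞ χ) : Continuous (dbr χ) := by
  unfold dbr
  have h1 : Continuous (fderiv ℝ χ) := h.continuous_fderiv (by simp)
  have h2 : Continuous (fun z => fderiv ℝ χ z 1) := h1.clm_apply continuous_const
  have h3 : Continuous (fun z => fderiv ℝ χ z I) := h1.clm_apply continuous_const
  exact (h2.add (continuous_const.mul h3)).div_const 2

lemma dbr_supp (χ : ℂ → ℂ) (z : ℂ) (h : z ∉ tsupport χ) : dbr χ z = 0 := by
  have h1 : fderiv ℝ χ z = 0 := by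
    have := (tsupport_fderiv_subset ℝ (f := χ))
    exact image_eq_zero_of_notMem_tsupport (fun h2 => h (this h2))
  unfold dbr
  rw [h1]; simp

lemma core (Ω : Set ℂ) (f g : ℂ → ℂ) (hf : LocallyIntegrableOn f Ω)
    (hg : LocallyIntegrableOn g Ω)
    (hw : ∀ φ : ℂ → ℂ, ContDiff ℝ ∞ φ → HasCompactSupport φ → tsupport φ ⊆ Ω →
      (∫ z, f z * ((fderiv ℝ φ z 1 + I * fderiv ℝ φ z I) / 2)) = - ∫ z, g z * φ z)
    (z₀ : ℂ) (r : ℝ) (hr : 0 < r) (hB : closedBall z₀ (2 * r) ⊆ Ω) :
    ∃ g' : ℂ → ℂ, Integrable g' ∧ (∀ z ∈ ball z₀ (3 * r / 2), g' z = g z) ∧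
      ∀ᵐ z ∂(volume.restrict (ball z₀ r)), f z = 1 / Real.pi * ∫ w, g' w / (z - w) := by
  let b : ContDiffBump z₀ := ⟨3 * r / 2, 2 * r, by linarith, by linarith⟩
  obtain ⟨χ, hχ⟩ : ∃ χ : ℂ → ℂ, χ = fun z => ((b z : ℝ) : ℂ) := ⟨_, rfl⟩
  have hK : IsCompact (closedBall z₀ (2 * r)) := isCompact_closedBall z₀ (2 * r)
  have hcd : ContDiff ℝ ∞ χ := by
    rw [hχ]
    exact Complex.ofRealCLM.contDiff.comp b.contDiff
  have hsupp : Function.support χ = ball z₀ (2 * r) := by
    rw [hχ]
    have := b.support_eq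
    ext z
    have h1 : z ∈ Function.support b ↔ z ∈ ball z₀ (2 * r) := by rw [this]
    rw [← h1]
    simp
  have hts : tsupport χ = closedBall z₀ (2 * r) := by
    rw [tsupport, hsupp, closure_ball z₀ (by linarith : (2 * r) ≠ 0)]
  have hzero : ∀ z, z ∉ closedBall z₀ (2 * r) → χ z = 0 := by
    intro z hz
    apply image_eq_zero_of_notMem_tsupport
    rw [hts]; exact hz
  have hone : ∀ z ∈ ball z₀ (3 * r / 2), χ z = 1 := by
    intro z hz
    rw [hχ]
    have : b z = 1 := b.one_of_mem_closedBall (ball_subset_closedBall hz)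
    simp [this]
  have hdz : ∀ z, z ∉ closedBall z₀ (2 * r) → dbr χ z = 0 := by
    intro z hz
    apply dbr_supp
    rw [hts]; exact hz
  have hd0 : ∀ z ∈ ball z₀ (3 * r / 2), dbr χ z = 0 := by
    intro z hz
    have h1 : χ =ᶠ[𝓝 z] fun _ => 1 := by
      filter_upwards [isOpen_ball.mem_nhds hz] with w hw
      exact hone w hw
    have h2 : fderiv ℝ χ z = 0 := by
      rw [h1.fderiv_eq]; simp
    unfold dbr
    rw [h2]; simp
  have hfK : IntegrableOn f (closedBall z₀ (2 * r)) := hf.integrableOn_compact_subset hB hK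
  have hgK : IntegrableOn g (closedBall z₀ (2 * r)) := hg.integrableOn_compact_subset hB hK
  -- multiplication of an integrable function by a continuous function supported in the ball
  have mulI : ∀ (u p : ℂ → ℂ), IntegrableOn u (closedBall z₀ (2 * r)) → Continuous p →
      (∀ z, z ∉ closedBall z₀ (2 * r) → p z = 0) → Integrable (fun z => p z * u z) := by
    intro u p hu hp hp0
    have h1 : IntegrableOn (fun z => p z * u z) (closedBall z₀ (2 * r)) :=
      hu.continuousOn_mul hp.continuousOn hK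
    rw [← integrableOn_iff_integrable_of_support_subset (s := closedBall z₀ (2 * r))]
    · exact h1
    · intro z hz
      by_contra h2
      apply hz
      show p z * u z = 0
      rw [hp0 z h2, zero_mul]
  have hdc := dbr_cont χ hcd
  refine ⟨fun z => dbr χ z * f z + χ z * g z, ?_, ?_, ?_⟩
  · exact (mulI f (dbr χ) hfK hdc hdz).add (mulI g χ hgK hcd.continuous hzero)
  · intro z hz
    show dbr χ z * f z + χ z * g z = g z
    rw [hd0 z hz, hone z hz]; ring
  · have hrep := rep (fun z => χ z * f z) (fun z => dbr χ z * f z + χ z * g z)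
      (mulI f χ hfK hcd.continuous hzero)
      ((mulI f (dbr χ) hfK hdc hdz).add (mulI g χ hgK hcd.continuous hzero)) (‖z₀‖ + 2 * r)
      (by
        intro z hz
        have : z ∉ closedBall z₀ (2 * r) := by
          intro h
          rw [mem_closedBall, dist_eq_norm] at h
          have := norm_sub_norm_le z z₀
          linarith
        show χ z * f z = 0
        rw [hzero z this, zero_mul])
      (by
        intro z hz
        have : z ∉ closedBall z₀ (2 * r) := by
          intro h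
          rw [mem_closedBall, dist_eq_norm] at h
          have := norm_sub_norm_le z z₀
          linarith
        show dbr χ z * f z + χ z * g z = 0
        rw [hzero z this, hdz z this]; ring)
      (by
        intro φ hφ hφc
        have hχφ : ContDiff ℝ ∞ (fun z => χ z * φ z) := hcd.mul hφ
        have hc1 : HasCompactSupport (fun z => χ z * φ z) := hφc.mul_left
        have hts1 : tsupport (fun z => χ z * φ z) ⊆ Ω := by
          refine (tsupport_mul_subset_left (f := χ) (g := φ)).trans ?_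
          rw [hts]; exact hB
        have h1 := hw _ hχφ hc1 hts1
        have h2 : ∀ z, χ z * f z * dbr φ z =
            dbr (fun w => χ w * φ w) z * f z - (φ z * dbr χ z) * f z := by
          intro z
          rw [dbr_mul χ φ z (hcd.differentiable (by simp) z) (hφ.differentiable (by simp) z)]
          ring
        have hφcont := hφ.continuous
        have i1 : Integrable (fun z => dbr (fun w => χ w * φ w) z * f z) := by
          apply mulI f _ hfK (dbr_cont _ hχφ)
          intro z hz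
          apply dbr_supp
          intro h
          have := tsupport_mul_subset_left (f := χ) (g := φ) h
          rw [hts] at this
          exact hz this
        have i2 : Integrable (fun z => (φ z * dbr χ z) * f z) := by
          apply mulI f _ hfK (hφcont.mul hdc)
          intro z hz
          show φ z * dbr χ z = 0
          rw [hdz z hz, mul_zero]
        have i3 : Integrable (fun z => (φ z * χ z) * g z) := by
          apply mulI g _ hgK (hφcont.mul hcd.continuous)
          intro z hz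
          show φ z * χ z = 0
          rw [hzero z hz, mul_zero]
        calc (∫ z, χ z * f z * ((fderiv ℝ φ z 1 + I * fderiv ℝ φ z I) / 2))
            = ∫ z, (dbr (fun w => χ w * φ w) z * f z - (φ z * dbr χ z) * f z) := by
              apply integral_congr_ae
              exact Eventually.of_forall (fun z => h2 z)
          _ = (∫ z, dbr (fun w => χ w * φ w) z * f z) - ∫ z, (φ z * dbr χ z) * f z :=
              integral_sub i1 i2
          _ = (∫ z, f z * dbr (fun w => χ w * φ w) z) - ∫ z, (φ z * dbr χ z) * f z := by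
              congr 1
              apply integral_congr_ae
              exact Eventually.of_forall (fun z => mul_comm _ _)
          _ = (- ∫ z, g z * (χ z * φ z)) - ∫ z, (φ z * dbr χ z) * f z := by
              congr 1
          _ = (- ∫ z, (φ z * χ z) * g z) - ∫ z, (φ z * dbr χ z) * f z := by
              congr 2
              apply integral_congr_ae
              refine Eventually.of_forall (fun z => ?_)
              show g z * (χ z * φ z) = (φ z * χ z) * g z
              ring
          _ = - ((∫ z, (φ z * dbr χ z) * f z) + ∫ z, (φ z * χ z) * g z) := by ring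
          _ = - ∫ z, ((φ z * dbr χ z) * f z + (φ z * χ z) * g z) := by
              rw [integral_add i2 i3]
          _ = - ∫ z, (dbr χ z * f z + χ z * g z) * φ z := by
              congr 1
              apply integral_congr_ae
              refine Eventually.of_forall (fun z => ?_)
              show (φ z * dbr χ z) * f z + (φ z * χ z) * g z = (dbr χ z * f z + χ z * g z) * φ z
              ring)
    rw [ae_restrict_iff' measurableSet_ball]
    filter_upwards [hrep] with z hz hzb
    rw [← hz, hone z (ball_subset_ball (by linarith) hzb), one_mul]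

/- TARGET -/
theorem local_cont (Ω : Set ℂ) (hΩ : IsOpen Ω) (f g : ℂ → ℂ) (hf : LocallyIntegrableOn f Ω)
    (hg : LocallyIntegrableOn g Ω)
    (hw : ∀ φ : ℂ → ℂ, ContDiff ℝ ∞ φ → HasCompactSupport φ → tsupport φ ⊆ Ω →
      (∫ z, f z * ((fderiv ℝ φ z 1 + I * fderiv ℝ φ z I) / 2)) = - ∫ z, g z * φ z)
    (z₀ : ℂ) (r M : ℝ) (hr : 0 < r) (hB : closedBall z₀ (2 * r) ⊆ Ω)
    (hM : ∀ᵐ z ∂(volume.restrict (closedBall z₀ (2 * r))), ‖g z‖ ≤ M) :
    ∃ f' : ℂ → ℂ, ContinuousOn f' (ball z₀ r) ∧
      ∀ᵐ z ∂(volume.restrict (ball z₀ r)), f z = f' z := by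
  obtain ⟨g', h1, h2, h3⟩ := core Ω f g hf hg hw z₀ r hr hB
  refine ⟨fun z => 1 / Real.pi * ∫ w, g' w / (z - w), ?_, h3⟩
  have h4 := cauchy_cont g' h1 z₀ (3 * r / 2) M (by
    have h5 : ball z₀ (3 * r / 2) ⊆ closedBall z₀ (2 * r) :=
      (ball_subset_ball (by linarith)).trans ball_subset_closedBall
    have h6 := ae_restrict_of_ae_restrict_of_subset h5 hM
    rw [ae_restrict_iff' measurableSet_ball] at h6 ⊢
    filter_upwards [h6] with z hz hzb
    rw [h2 z hzb]
    exact hz hzb)
  exact (continuousOn_const.mul h4).mono (ball_subset_ball (by linarith))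

/- TARGET -/
theorem local_holo (Ω : Set ℂ) (hΩ : IsOpen Ω) (f : ℂ → ℂ) (hf : LocallyIntegrableOn f Ω)
    (hw : ∀ φ : ℂ → ℂ, ContDiff ℝ ∞ φ → HasCompactSupport φ → tsupport φ ⊆ Ω →
      (∫ z, f z * ((fderiv ℝ φ z 1 + I * fderiv ℝ φ z I) / 2)) = 0)
    (z₀ : ℂ) (r : ℝ) (hr : 0 < r) (hB : closedBall z₀ (2 * r) ⊆ Ω) :
    ∃ f' : ℂ → ℂ, DifferentiableOn ℂ f' (ball z₀ r) ∧
      ∀ᵐ z ∂(volume.restrict (ball z₀ r)), f z = f' z := by
  obtain ⟨g', h1, h2, h3⟩ := core Ω f (fun _ => 0) hf
    (locallyIntegrableOn_zero) (fun φ a b c => by rw [hw φ a b c]; simp) z₀ r hr hB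
  refine ⟨fun z => 1 / Real.pi * ∫ w, g' w / (z - w), ?_, h3⟩
  have h4 := cauchy_holo g' h1 z₀ (3 * r / 2) h2
  exact ((differentiableOn_const _).mul h4).mono (ball_subset_ball (by linarith))



end Pool.Agent.H385.IV
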