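import Pool.Agent.H385.Defs
import Pool.Agent.H385.PDE
import Pool.Agent.H385.IV

open Complex Metric Set Filter Topology ComplexConjugate MeasureTheory
open scoped ContDiff ENNReal

namespace Pool.Agent.H385

theorem local_holo_given (Ω : Set ℂ) (hΩ : IsOpen Ω) (f : ℂ → ℂ) (hf : LocallyIntegrableOn f Ω)
    (hw : ∀ φ : ℂ → ℂ, ContDiff ℝ ∞ φ → HasCompactSupport φ → tsupport φ ⊆ Ω →
      (∫ z, f z * ((fderiv ℝ φ z 1 + I * fderiv ℝ φ z I) / 2)) = 0)
    (z₀ : ℂ) (r : ℝ) (hr : 0 < r) (hB : closedBall z₀ (2 * r) ⊆ Ω) :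
    ∃ f' : ℂ → ℂ, DifferentiableOn ℂ f' (ball z₀ r) ∧
      ∀ᵐ z ∂(volume.restrict (ball z₀ r)), f z = f' z :=
  Pool.Agent.H385.IV.local_holo Ω hΩ f hf hw z₀ r hr hB

theorem weyl_integrable {U : Set ℂ} (hU : IsOpen U) {f : ℂ → ℂ} (hf : LocallyIntegrableOn f U)
    {φ : ℂ → ℝ} (hφ : IsTest U φ) : Integrable (fun z => f z * grad φ z) := by
  obtain ⟨h1, h2, h3⟩ := hφ
  have hfK : IntegrableOn f (tsupport φ) := by
    refine hf.integrableOn_compact_subset h3 h2
  have hc : Continuous (grad φ) := by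
    have hd : Continuous (fderiv ℝ φ) := h1.continuous_fderiv (by simp)
    unfold grad
    fun_prop
  have h4 : IntegrableOn (fun z => f z * grad φ z) (tsupport φ) :=
    hfK.mul_continuousOn hc.continuousOn h2
  rw [← integrableOn_iff_integrable_of_support_subset (s := tsupport φ)]
  · exact h4
  · intro z hz
    by_contra h5
    apply hz
    have h6 : fderiv ℝ φ z = 0 := by
      by_contra h7
      exact h5 (support_fderiv_subset ℝ h7)
    change f z * grad φ z = 0
    unfold grad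
    rw [h6]
    simp

theorem weyl_test {U : Set ℂ} {φ : ℂ → ℂ} (h1 : ContDiff ℝ ∞ φ) (h2 : HasCompactSupport φ)
    (h3 : tsupport φ ⊆ U) (L : ℂ →L[ℝ] ℝ) : IsTest U (fun z => L (φ z)) := by
  have h4 : tsupport (fun z => L (φ z)) ⊆ tsupport φ := by
    apply closure_mono
    intro z hz
    intro h0
    apply hz
    change L (φ z) = 0
    rw [h0, map_zero]
  refine ⟨L.contDiff.comp h1, ?_, h4.trans h3⟩
  exact h2.of_isClosed_subset (isClosed_tsupport _) h4

/-- Weyl lemma, global form on an open set -/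
theorem weyl_global (U : Set ℂ) (hU : IsOpen U) (f : ℂ → ℂ) (hf : LocallyIntegrableOn f U)
    (hw : ∀ φ : ℂ → ℝ, IsTest U φ → ∫ z, f z * grad φ z = 0) :
    ∃ F : ℂ → ℂ, DifferentiableOn ℂ F U ∧ ∀ᵐ z ∂(volume.restrict U), f z = F z := by
  have hw' : ∀ φ : ℂ → ℂ, ContDiff ℝ ∞ φ → HasCompactSupport φ → tsupport φ ⊆ U →
      (∫ z, f z * ((fderiv ℝ φ z 1 + I * fderiv ℝ φ z I) / 2)) = 0 := by
    intro φ h1 h2 h3
    have t1 := weyl_test h1 h2 h3 reCLM
    have t2 := weyl_test h1 h2 h3 imCLM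
    have e : ∀ z, f z * ((fderiv ℝ φ z 1 + I * fderiv ℝ φ z I) / 2) =
        (1 / 2) * (f z * grad (fun z => reCLM (φ z)) z) +
          (I / 2) * (f z * grad (fun z => imCLM (φ z)) z) := by
      intro z
      have hd : DifferentiableAt ℝ φ z := (h1.differentiable (by simp)) z
      have g1 : fderiv ℝ (fun z => reCLM (φ z)) z = reCLM.comp (fderiv ℝ φ z) :=
        (reCLM.hasFDerivAt.comp z hd.hasFDerivAt).fderiv
      have g2 : fderiv ℝ (fun z => imCLM (φ z)) z = imCLM.comp (fderiv ℝ φ z) :=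
        (imCLM.hasFDerivAt.comp z hd.hasFDerivAt).fderiv
      unfold grad
      rw [g1, g2]
      simp only [ContinuousLinearMap.comp_apply, reCLM_apply, imCLM_apply]
      conv_lhs => rw [← Complex.re_add_im (fderiv ℝ φ z 1), ← Complex.re_add_im (fderiv ℝ φ z I)]
      linear_combination (f z * (fderiv ℝ φ z I).im / 2) * 0 * Complex.I_sq
    simp only [e]
    rw [integral_add ((weyl_integrable hU hf t1).const_mul _)
      ((weyl_integrable hU hf t2).const_mul _), integral_const_mul, integral_const_mul, hw _ t1,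
      hw _ t2]
    simp
  have hloc : ∀ z : U, ∃ r : ℝ, 0 < r ∧ closedBall (z : ℂ) (2 * r) ⊆ U := by
    intro z
    obtain ⟨ε, hε, hb⟩ := Metric.isOpen_iff.1 hU z z.2
    refine ⟨ε / 4, by positivity, ?_⟩
    refine (closedBall_subset_ball ?_).trans hb
    linarith
  choose r hr hrU using hloc
  choose g hg hfg using fun z : U => local_holo_given U hU f hf hw' z (r z) (hr z) (hrU z)
  have hbU : ∀ z : U, ball (z : ℂ) (r z) ⊆ U := fun z =>
    (ball_subset_closedBall.trans (closedBall_subset_closedBall (by linarith [hr z]))).trans (hrU z)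
  classical
  set F : ℂ → ℂ := fun z => if h : z ∈ U then g ⟨z, h⟩ z else 0 with hF
  have hcomp : ∀ z w : U, EqOn (g z) (g w) (ball (z : ℂ) (r z) ∩ ball (w : ℂ) (r w)) := by
    intro z w
    apply Measure.eqOn_open_of_ae_eq (μ := volume) ?_ (isOpen_ball.inter isOpen_ball)
    · exact (hg z).continuousOn.mono inter_subset_left
    · exact (hg w).continuousOn.mono inter_subset_right
    · have a1 := ae_restrict_of_ae_restrict_of_subset
        (inter_subset_left (s := ball (z : ℂ) (r z)) (t := ball (w : ℂ) (r w))) (hfg z)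
      have a2 := ae_restrict_of_ae_restrict_of_subset
        (inter_subset_right (s := ball (z : ℂ) (r z)) (t := ball (w : ℂ) (r w))) (hfg w)
      filter_upwards [a1, a2] with x h1 h2
      rw [← h1, ← h2]
  have hFg : ∀ z : U, EqOn F (g z) (ball (z : ℂ) (r z)) := by
    intro z x hx
    have hxU : x ∈ U := hbU z hx
    have h1 : F x = g ⟨x, hxU⟩ x := by
      rw [hF]
      simp only [hxU, dif_pos]
    rw [h1]
    exact hcomp ⟨x, hxU⟩ z ⟨mem_ball_self (hr _), hx⟩
  refine ⟨F, ?_, ?_⟩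
  · intro z hz
    have h1 : DifferentiableAt ℂ (g ⟨z, hz⟩) z :=
      (hg ⟨z, hz⟩).differentiableAt (isOpen_ball.mem_nhds (mem_ball_self (hr _)))
    have h2 : F =ᶠ[𝓝 z] g ⟨z, hz⟩ :=
      Filter.eventuallyEq_of_mem (isOpen_ball.mem_nhds (mem_ball_self (hr ⟨z, hz⟩))) (hFg ⟨z, hz⟩)
    exact (h1.congr_of_eventuallyEq h2).differentiableWithinAt
  · obtain ⟨T, hT, hTU⟩ := TopologicalSpace.isOpen_iUnion_countable
      (fun z : U => ball (z : ℂ) (r z)) fun z => isOpen_ball
    have h1 : (⋃ z : U, ball (z : ℂ) (r z)) = U := by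
      apply Subset.antisymm
      · exact iUnion_subset hbU
      · intro z hz
        exact mem_iUnion.2 ⟨⟨z, hz⟩, mem_ball_self (hr _)⟩
    rw [← h1, ← hTU, ae_restrict_biUnion_iff _ hT]
    intro z _
    filter_upwards [hfg z, ae_restrict_mem measurableSet_ball] with x h2 h3
    rw [h2, hFg z h3]

theorem weyl_rot (H : ℂ → ℂ) (c : ℂ) (hc : ‖c‖ = 1) (R : ℝ) :
    ∫ u in ball (0 : ℂ) R, H (c * u) = ∫ u in ball (0 : ℂ) R, H u := by
  set a : Circle := ⟨c, mem_sphere_zero_iff_norm.2 hc⟩ with ha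
  have hmp : MeasurePreserving (rotation a) volume volume := (rotation a).measurePreserving
  have h := hmp.setIntegral_preimage_emb (rotation a).toHomeomorph.measurableEmbedding H
    (ball (0 : ℂ) R)
  have e : (rotation a) ⁻¹' ball (0 : ℂ) R = ball (0 : ℂ) R := by
    ext u
    rw [Set.mem_preimage, mem_ball_zero_iff, mem_ball_zero_iff, LinearIsometryEquiv.norm_map]
  rw [e] at h
  exact h

theorem weyl_area_mean {G : ℂ → ℂ} (hG : Differentiable ℂ G) (z : ℂ) {R : ℝ} (hR : 0 < R) :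
    (volume (ball (0 : ℂ) R)).toReal • G z = ∫ u in ball (0 : ℂ) R, G (z + u) := by
  have h1 : ∀ u : ℂ, G z = (2 * Real.pi)⁻¹ • ∫ θ in (0 : ℝ)..2 * Real.pi,
      G (z + circleMap 0 1 θ * u) := by
    intro u
    have h2 : Differentiable ℂ (fun ζ : ℂ => G (z + ζ * u)) := by fun_prop
    have h3 := circleAverage_of_differentiable_on_off_countable (f := fun ζ : ℂ => G (z + ζ * u))
      (R := 1) (c := 0) (s := ∅) countable_empty h2.continuous.continuousOn
      (fun w _ => h2 w)
    simp only [zero_mul, add_zero] at h3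
    rw [← h3, Real.circleAverage_def]
  have h2 : (volume (ball (0 : ℂ) R)).toReal • G z = ∫ u in ball (0 : ℂ) R, G z := by
    rw [setIntegral_const]
    rfl
  rw [h2]
  have h3 : ∫ u in ball (0 : ℂ) R, G z = ∫ u in ball (0 : ℂ) R, (2 * Real.pi)⁻¹ •
      ∫ θ in (0 : ℝ)..2 * Real.pi, G (z + circleMap 0 1 θ * u) := by
    congr 1
    funext u
    exact h1 u
  rw [h3, integral_smul]
  have h4 : ∫ u in ball (0 : ℂ) R, ∫ θ in (0 : ℝ)..2 * Real.pi, G (z + circleMap 0 1 θ * u) =
      ∫ θ in (0 : ℝ)..2 * Real.pi, ∫ u in ball (0 : ℂ) R, G (z + circleMap 0 1 θ * u) := by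
    simp only [intervalIntegral.integral_of_le Real.two_pi_pos.le]
    rw [integral_integral_swap]
    have hcont : Continuous (fun p : ℂ × ℝ => G (z + circleMap 0 1 p.2 * p.1)) := by
      have := hG.continuous
      have hc : Continuous (circleMap 0 1) := continuous_circleMap 0 1
      fun_prop
    have h5 : IntegrableOn (fun p : ℂ × ℝ => G (z + circleMap 0 1 p.2 * p.1))
        (closedBall 0 R ×ˢ Icc 0 (2 * Real.pi)) (volume.prod volume) :=
      hcont.continuousOn.integrableOn_compact ((isCompact_closedBall 0 R).prod isCompact_Icc)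
    have h6 : IntegrableOn (fun p : ℂ × ℝ => G (z + circleMap 0 1 p.2 * p.1))
        (ball 0 R ×ˢ Ioc 0 (2 * Real.pi)) (volume.prod volume) :=
      h5.mono_set (prod_mono ball_subset_closedBall Ioc_subset_Icc_self)
    rw [IntegrableOn, ← Measure.prod_restrict] at h6
    exact h6
  rw [h4]
  have h5 : ∀ θ : ℝ, ∫ u in ball (0 : ℂ) R, G (z + circleMap 0 1 θ * u) =
      ∫ u in ball (0 : ℂ) R, G (z + u) := by
    intro θ
    exact weyl_rot (fun u => G (z + u)) (circleMap 0 1 θ) (by simp) R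
  simp only [h5]
  rw [intervalIntegral.integral_const, sub_zero, smul_smul, inv_mul_cancel₀ (by positivity),
    one_smul]

theorem entire_L2 (F : ℂ → ℂ) (hF : Differentiable ℂ F) (h2 : MemLp F 2 volume) (z : ℂ) :
    F z = 0 := by
  have hG : Differentiable ℂ (fun w => F w * F w) := hF.mul hF
  have hi : Integrable (fun w => F w * F w) := h2.integrable_mul h2
  set C : ℝ := ∫ w, ‖F w * F w‖ with hC
  have key : ∀ R : ℝ, 0 < R → (volume (ball (0 : ℂ) R)).toReal * ‖F z * F z‖ ≤ C := by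
    intro R hR
    have h3 := weyl_area_mean hG z hR
    have h4 : (volume (ball (0 : ℂ) R)).toReal * ‖F z * F z‖ =
        ‖(volume (ball (0 : ℂ) R)).toReal • (F z * F z)‖ := by
      rw [norm_smul, Real.norm_of_nonneg ENNReal.toReal_nonneg]
    rw [h4, h3]
    have hi2 : Integrable (fun u => F (z + u) * F (z + u)) := hi.comp_add_left z
    calc ‖∫ u in ball (0 : ℂ) R, F (z + u) * F (z + u)‖
        ≤ ∫ u in ball (0 : ℂ) R, ‖F (z + u) * F (z + u)‖ := norm_integral_le_integral_norm _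
      _ ≤ ∫ u, ‖F (z + u) * F (z + u)‖ :=
          setIntegral_le_integral hi2.norm (ae_of_all _ fun _ => norm_nonneg _)
      _ = C := integral_add_left_eq_self (fun w => ‖F w * F w‖) z
  have hC0 : 0 ≤ C := integral_nonneg fun _ => norm_nonneg _
  by_contra hne
  have hpos : 0 < ‖F z * F z‖ := norm_pos_iff.2 (mul_ne_zero hne hne)
  set a : ℝ := ‖F z * F z‖ with ha
  set R : ℝ := (C + 1) / a + 1 with hR
  have hR1 : 1 ≤ R := by
    have : 0 ≤ (C + 1) / a := by positivity
    linarith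
  have h3 := key R (by linarith)
  have h4 : (volume (ball (0 : ℂ) R)).toReal = R ^ 2 * Real.pi := by
    rw [Complex.volume_ball]
    simp [ENNReal.toReal_ofReal (show 0 ≤ R by linarith)]
  rw [h4] at h3
  have h5 : R ≤ R ^ 2 * Real.pi := by nlinarith [Real.pi_gt_three]
  have h6 : R * a ≤ C := (mul_le_mul_of_nonneg_right h5 hpos.le).trans h3
  have h7 : R * a = C + 1 + a := by
    rw [hR]
    field_simp
  linarith

end Pool.Agent.H385
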