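import Pool.Agent.H385.Defs
import Pool.Agent.H385.PDE
import Pool.Agent.H385.Weyl
import Pool.Agent.H385.Disk

open Complex Metric Set Filter Topology ComplexConjugate MeasureTheory
open scoped ContDiff ENNReal

namespace Pool.Agent.H385

theorem bil_fderiv_contDiff {φ : ℂ → ℝ} (hφ : IsTest univ φ) (v : ℂ) :
    ContDiff ℝ ∞ (fun z => fderiv ℝ φ z v) :=
  (hφ.1.fderiv_right (m := ∞) (by simp)).clm_apply contDiff_const

theorem bil_fderiv_supp {φ : ℂ → ℝ} (hφ : IsTest univ φ) (v : ℂ) :
    HasCompactSupport (fun z => fderiv ℝ φ z v) :=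
  hφ.2.1.fderiv_apply ℝ v

theorem bil_grad_continuous {φ : ℂ → ℝ} (hφ : IsTest univ φ) : Continuous (grad φ) := by
  unfold grad
  have h1 := (bil_fderiv_contDiff hφ 1).continuous
  have h2 := (bil_fderiv_contDiff hφ Complex.I).continuous
  fun_prop

theorem bil_grad_supp {φ : ℂ → ℝ} (hφ : IsTest univ φ) : HasCompactSupport (grad φ) := by
  have h1 := bil_fderiv_supp hφ 1
  have h2 := bil_fderiv_supp hφ Complex.I
  have h3 : HasCompactSupport (fun z => ((fderiv ℝ φ z 1 : ℝ) : ℂ)) :=
    h1.comp_left (g := fun x : ℝ => (x : ℂ)) (by simp)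
  have h4 : HasCompactSupport (fun z => Complex.I * ((fderiv ℝ φ z Complex.I : ℝ) : ℂ)) :=
    h2.comp_left (g := fun x : ℝ => Complex.I * (x : ℂ)) (by simp)
  exact h3.add h4

theorem bil_grad_memLp {φ : ℂ → ℝ} (hφ : IsTest univ φ) : MemLp (grad φ) 2 volume :=
  (bil_grad_continuous hφ).memLp_of_hasCompactSupport (bil_grad_supp hφ)

theorem bil_conjgrad_memLp {φ : ℂ → ℝ} (hφ : IsTest univ φ) :
    MemLp (fun z => conj (grad φ z)) 2 volume := by
  have hc : Continuous (fun z => conj (grad φ z)) :=
    Complex.continuous_conj.comp (bil_grad_continuous hφ)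
  have hs : HasCompactSupport (fun z => conj (grad φ z)) :=
    (bil_grad_supp hφ).comp_left (g := fun x : ℂ => conj x) (by simp)
  exact hc.memLp_of_hasCompactSupport hs

theorem bil_Iconjgrad_memLp {φ : ℂ → ℝ} (hφ : IsTest univ φ) :
    MemLp (fun z => Complex.I * conj (grad φ z)) 2 volume := by
  have hc : Continuous (fun z => Complex.I * conj (grad φ z)) :=
    continuous_const.mul (Complex.continuous_conj.comp (bil_grad_continuous hφ))
  have hs : HasCompactSupport (fun z => Complex.I * conj (grad φ z)) :=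
    (bil_grad_supp hφ).comp_left (g := fun x : ℂ => Complex.I * conj x) (by simp)
  exact hc.memLp_of_hasCompactSupport hs

theorem bil_test_add {φ ψ : ℂ → ℝ} (hφ : IsTest univ φ) (hψ : IsTest univ ψ) :
    IsTest univ (fun z => φ z + ψ z) :=
  ⟨hφ.1.add hψ.1, hφ.2.1.add hψ.2.1, subset_univ _⟩

theorem bil_test_smul (c : ℝ) {φ : ℂ → ℝ} (hφ : IsTest univ φ) :
    IsTest univ (fun z => c * φ z) :=
  ⟨contDiff_const.mul hφ.1, hφ.2.1.comp_left (g := fun x : ℝ => c * x) (by simp), subset_univ _⟩

theorem bil_test_zero : IsTest univ (fun _ : ℂ => (0 : ℝ)) :=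
  ⟨contDiff_const, HasCompactSupport.zero, subset_univ _⟩

theorem bil_grad_add {φ ψ : ℂ → ℝ} (hφ : IsTest univ φ) (hψ : IsTest univ ψ) (z : ℂ) :
    grad (fun z => φ z + ψ z) z = grad φ z + grad ψ z := by
  have h1 : DifferentiableAt ℝ φ z := (hφ.1.differentiable (by simp)) z
  have h2 : DifferentiableAt ℝ ψ z := (hψ.1.differentiable (by simp)) z
  have h3 : fderiv ℝ (fun z => φ z + ψ z) z = fderiv ℝ φ z + fderiv ℝ ψ z := fderiv_add h1 h2
  unfold grad
  rw [h3]
  simp only [_root_.add_apply, Complex.ofReal_add]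
  ring

theorem bil_grad_smul (c : ℝ) {φ : ℂ → ℝ} (hφ : IsTest univ φ) (z : ℂ) :
    grad (fun z => c * φ z) z = (c : ℂ) * grad φ z := by
  have h1 : DifferentiableAt ℝ φ z := (hφ.1.differentiable (by simp)) z
  have h3 : fderiv ℝ (fun z => c * φ z) z = c • fderiv ℝ φ z := by
    exact fderiv_const_mul h1 c
  unfold grad
  rw [h3]
  simp only [_root_.smul_apply, smul_eq_mul, Complex.ofReal_mul]
  ring

theorem bil_grad_zero (z : ℂ) : grad (fun _ : ℂ => (0 : ℝ)) z = 0 := by
  unfold grad
  simp

/-- the space of the conjugates of the gradients of real test functions -/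
noncomputable def bil_S : Submodule ℝ (Lp ℂ 2 (volume : Measure ℂ)) where
  carrier := {u | ∃ φ : ℂ → ℝ, IsTest univ φ ∧ u =ᵐ[volume] fun z => conj (grad φ z)}
  add_mem' := by
    rintro u v ⟨φ, hφ, hu⟩ ⟨ψ, hψ, hv⟩
    refine ⟨fun z => φ z + ψ z, bil_test_add hφ hψ, ?_⟩
    filter_upwards [hu, hv, Lp.coeFn_add u v] with z h1 h2 h3
    rw [h3, Pi.add_apply, h1, h2, bil_grad_add hφ hψ, map_add]
  zero_mem' := by
    refine ⟨fun _ => 0, bil_test_zero, ?_⟩
    filter_upwards [Lp.coeFn_zero ℂ 2 (volume : Measure ℂ)] with z h1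
    rw [h1, bil_grad_zero]
    simp
  smul_mem' := by
    rintro c u ⟨φ, hφ, hu⟩
    refine ⟨fun z => c * φ z, bil_test_smul c hφ, ?_⟩
    filter_upwards [hu, Lp.coeFn_smul c u] with z h1 h3
    rw [h3, Pi.smul_apply, h1, bil_grad_smul c hφ, map_mul, Complex.conj_ofReal, Complex.real_smul]

/-- integration by parts: `∫ (∂ₓψ ∂_yφ - ∂_yψ ∂ₓφ) = 0` -/
theorem bil_parts {φ ψ : ℂ → ℝ} (hφ : IsTest univ φ) (hψ : IsTest univ ψ) :
    ∫ z, (fderiv ℝ ψ z 1 * fderiv ℝ φ z Complex.I - fderiv ℝ ψ z Complex.I * fderiv ℝ φ z 1) = 0 := by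
  have hd : ∀ v : ℂ, Differentiable ℝ (fun z => fderiv ℝ φ z v) :=
    fun v => (bil_fderiv_contDiff hφ v).differentiable (by simp)
  have hψd : Differentiable ℝ ψ := hψ.1.differentiable (by simp)
  have hI : ∀ f g : ℂ → ℝ, Continuous f → Continuous g → HasCompactSupport f →
      Integrable (fun z => f z * g z) volume := by
    intro f g hf hg hs
    exact (hf.mul hg).integrable_of_hasCompactSupport hs.mul_right
  have hψc : Continuous ψ := hψ.1.continuous
  have hdd : ∀ v w : ℂ, Continuous (fun z => fderiv ℝ (fun z => fderiv ℝ φ z v) z w) := by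
    intro v w
    exact (((bil_fderiv_contDiff hφ v).fderiv_right (m := ∞) (by simp)).clm_apply
      contDiff_const).continuous
  have hp : ∀ v w : ℂ, ∫ z, ψ z * fderiv ℝ (fun z => fderiv ℝ φ z v) z w =
      -∫ z, fderiv ℝ ψ z w * fderiv ℝ φ z v := by
    intro v w
    apply integral_mul_fderiv_eq_neg_fderiv_mul_of_integrable
    · exact hI _ _ (bil_fderiv_contDiff hψ w).continuous (bil_fderiv_contDiff hφ v).continuous
        (bil_fderiv_supp hψ w)
    · exact hI _ _ hψc (hdd v w) hψ.2.1
    · exact hI _ _ hψc (bil_fderiv_contDiff hφ v).continuous hψ.2.1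
    · intro x _
      exact hψd x
    · intro x _
      exact hd v x
  have hsym : ∀ z : ℂ, fderiv ℝ (fun z => fderiv ℝ φ z Complex.I) z 1 =
      fderiv ℝ (fun z => fderiv ℝ φ z 1) z Complex.I := by
    intro z
    have hs : IsSymmSndFDerivAt ℝ φ z :=
      (hφ.1.contDiffAt).isSymmSndFDerivAt (by
        simp only [minSmoothness_of_isRCLikeNormedField]
        exact WithTop.coe_le_coe.2 (le_top : (2 : ℕ∞) ≤ ⊤))
    have hdiff : DifferentiableAt ℝ (fderiv ℝ φ) z :=
      ((hφ.1.fderiv_right (m := ∞) (by simp)).differentiable (by simp)) z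
    have h1 : ∀ v : ℂ, fderiv ℝ (fun z => fderiv ℝ φ z v) z =
        (fderiv ℝ (fderiv ℝ φ) z).flip v := by
      intro v
      rw [fderiv_clm_apply hdiff (differentiableAt_const v)]
      simp
    rw [h1, h1]
    simp only [ContinuousLinearMap.flip_apply]
    exact hs 1 Complex.I
  have e1 := hp Complex.I 1
  have e2 := hp 1 Complex.I
  rw [integral_sub]
  · have e3 : (∫ z, ψ z * fderiv ℝ (fun z => fderiv ℝ φ z Complex.I) z 1) =
        ∫ z, ψ z * fderiv ℝ (fun z => fderiv ℝ φ z 1) z Complex.I := by
      congr 1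
      ext z
      rw [hsym z]
    linarith
  · exact hI _ _ (bil_fderiv_contDiff hψ 1).continuous (bil_fderiv_contDiff hφ _).continuous
        (bil_fderiv_supp hψ _)
  · exact hI _ _ (bil_fderiv_contDiff hψ _).continuous (bil_fderiv_contDiff hφ _).continuous
        (bil_fderiv_supp hψ _)

/-- the inner product with the class of a function -/
theorem bil_inner_toLp {f : ℂ → ℂ} (hf : MemLp f 2 volume) (u : Lp ℂ 2 (volume : Measure ℂ)) :
    inner ℝ u (hf.toLp f) = ∫ z, (conj (u z) * f z).re := by
  rw [MeasureTheory.L2.inner_def]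
  apply integral_congr_ae
  filter_upwards [hf.coeFn_toLp] with z hz
  rw [hz, Complex.inner, mul_comm]

theorem bil_inner_toLp_toLp {f g : ℂ → ℂ} (hf : MemLp f 2 volume) (hg : MemLp g 2 volume) :
    inner ℝ (hg.toLp g) (hf.toLp f) = ∫ z, (conj (g z) * f z).re := by
  rw [bil_inner_toLp]
  apply integral_congr_ae
  filter_upwards [hg.coeFn_toLp] with z hz
  rw [hz]

theorem bil_integrable_mul {f g : ℂ → ℂ} (hf : MemLp f 2 volume) (hg : MemLp g 2 volume) :
    Integrable (fun z => f z * g z) volume :=
  hf.integrable_mul hg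

/-- the classes `I * conj (grad φ)` are orthogonal to `bil_S` -/
theorem bil_I_orth {φ : ℂ → ℝ} (hφ : IsTest univ φ) :
    (bil_Iconjgrad_memLp hφ).toLp _ ∈ bil_Sᗮ := by
  rw [Submodule.mem_orthogonal]
  rintro u ⟨ψ, hψ, hu⟩
  rw [bil_inner_toLp]
  rw [← bil_parts hφ hψ]
  apply integral_congr_ae
  filter_upwards [hu] with z hz
  rw [hz]
  unfold grad
  simp [Complex.mul_re, Complex.mul_im, Complex.add_re, Complex.add_im]

/-- the class of `ghat a r b` lies in the closure of `bil_S` -/
theorem bil_mem (a : ℂ) (r : ℝ) (hr : 0 < r) (b : ℂ → ℂ)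
    (hb : DifferentiableOn ℂ b (ball a r)) (hb2 : MemLp b 2 (volume.restrict (ball a r))) :
    (ghat_memLp a r hr b hb hb2).toLp _ ∈ bil_S.topologicalClosure := by
  set v := (ghat_memLp a r hr b hb hb2).toLp _ with hv
  obtain ⟨p, hp, w, hw, hvw⟩ :=
    Submodule.exists_add_mem_mem_orthogonal (K := bil_S.topologicalClosure) v
  have hwz : w = 0 := by
    have hwS : w ∈ bil_Sᗮ := by
      rw [← Submodule.orthogonal_closure]
      exact hw
    have hwL : MemLp (w : ℂ → ℂ) 2 volume := Lp.memLp w
    have hint : ∀ φ : ℂ → ℝ, IsTest univ φ → ∫ z, w z * grad φ z = 0 := by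
      intro φ hφ
      have hI1 : Integrable (fun z => w z * grad φ z) volume :=
        bil_integrable_mul hwL (bil_grad_memLp hφ)
      apply Complex.ext
      · have h1 : (∫ z, w z * grad φ z).re = ∫ z, (w z * grad φ z).re :=
          (integral_re hI1).symm
        rw [h1, Complex.zero_re]
        have hmem : (bil_conjgrad_memLp hφ).toLp _ ∈ bil_S := ⟨φ, hφ, (bil_conjgrad_memLp hφ).coeFn_toLp⟩
        have h2 : inner ℝ w ((bil_conjgrad_memLp hφ).toLp _) = 0 :=
          Submodule.inner_left_of_mem_orthogonal hmem hwS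
        rw [bil_inner_toLp] at h2
        rw [← h2]
        congr 1
        ext z
        simp [Complex.mul_re]
      · have h1 : (∫ z, w z * grad φ z).im = ∫ z, (w z * grad φ z).im :=
          (integral_im hI1).symm
        rw [h1, Complex.zero_im]
        have hpc : inner ℝ p ((bil_Iconjgrad_memLp hφ).toLp _) = 0 := by
          have h3 := bil_I_orth hφ
          rw [← Submodule.orthogonal_closure] at h3
          exact Submodule.inner_right_of_mem_orthogonal hp h3
        have hvc : inner ℝ v ((bil_Iconjgrad_memLp hφ).toLp _) = 0 := by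
          rw [hv, bil_inner_toLp_toLp]
          have h4 := disk_lemma a r hr b hb hb2 φ hφ
          have hI2 : Integrable (fun z => ghat a r b z * grad φ z) volume :=
            bil_integrable_mul (ghat_memLp a r hr b hb hb2) (bil_grad_memLp hφ)
          have h5 : (∫ z, ghat a r b z * grad φ z).im = ∫ z, (ghat a r b z * grad φ z).im :=
            (integral_im hI2).symm
          rw [h4, Complex.ofReal_im] at h5
          rw [h5]
          congr 1
          ext z
          simp [Complex.mul_re, Complex.mul_im]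
        have hwc : inner ℝ w ((bil_Iconjgrad_memLp hφ).toLp _) = 0 := by
          rw [hvw, inner_add_left, hpc, zero_add] at hvc
          exact hvc
        rw [bil_inner_toLp] at hwc
        rw [← hwc]
        congr 1
        ext z
        simp [Complex.mul_re, Complex.mul_im]
    have hloc : LocallyIntegrableOn (w : ℂ → ℂ) univ volume :=
      (hwL.locallyIntegrable (by norm_num)).locallyIntegrableOn univ
    obtain ⟨F, hF, hwF⟩ := weyl_global univ isOpen_univ w hloc hint
    rw [Measure.restrict_univ] at hwF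
    have hFd : Differentiable ℂ F := differentiableOn_univ.1 hF
    have hFL : MemLp F 2 volume := hwL.ae_eq hwF
    have hF0 := entire_L2 F hFd hFL
    apply Lp.ext
    filter_upwards [hwF, Lp.coeFn_zero ℂ 2 (volume : Measure ℂ)] with z h1 h2
    rw [h1, h2, hF0 z]
    rfl
  rw [hvw, hwz, add_zero]
  exact hp

/-- bilinear identity -/
theorem bil (a a' : ℂ) (r r' : ℝ) (hr : 0 < r) (hr' : 0 < r') (b b' : ℂ → ℂ)
    (hb : DifferentiableOn ℂ b (ball a r)) (hb2 : MemLp b 2 (volume.restrict (ball a r)))
    (hb' : DifferentiableOn ℂ b' (ball a' r')) (hb2' : MemLp b' 2 (volume.restrict (ball a' r'))) :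
    (∫ z, ghat a r b z * conj (ghat a' r' b' z)).re =
      (∫ z in ball a r, b z * conj (ghat a' r' b' z)).re := by
  have hg := ghat_memLp a r hr b hb hb2
  have hg' := ghat_memLp a' r' hr' b' hb' hb2'
  have hmeas : MeasurableSet (ball a r) := measurableSet_ball
  have hi : MemLp ((ball a r).indicator b) 2 volume := (memLp_indicator_iff_restrict hmeas).2 hb2
  have hd : MemLp (fun z => ghat a r b z - (ball a r).indicator b z) 2 volume := hg.sub hi
  have horth : hd.toLp _ ∈ bil_Sᗮ := by
    rw [Submodule.mem_orthogonal]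
    rintro u ⟨φ, hφ, hu⟩
    rw [bil_inner_toLp]
    have h1 := disk_lemma a r hr b hb hb2 φ hφ
    have hI1 : Integrable (fun z => ghat a r b z * grad φ z) volume :=
      bil_integrable_mul hg (bil_grad_memLp hφ)
    have hI2 : Integrable (fun z => (ball a r).indicator b z * grad φ z) volume :=
      bil_integrable_mul hi (bil_grad_memLp hφ)
    have h2 : (∫ z, ghat a r b z * grad φ z).re = ∫ z, (ghat a r b z * grad φ z).re :=
      (integral_re hI1).symm
    have h3 : (∫ z, (ball a r).indicator b z * grad φ z).re =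
        ∫ z, ((ball a r).indicator b z * grad φ z).re := (integral_re hI2).symm
    have h4 : (∫ z, (ball a r).indicator b z * grad φ z) = ∫ z in ball a r, b z * grad φ z := by
      rw [← integral_indicator hmeas]
      congr 1
      ext z
      by_cases hz : z ∈ ball a r
      · simp [hz]
      · simp [hz]
    rw [h1, Complex.ofReal_re] at h2
    rw [h4, h2] at h3
    have h5 : (∫ z, (conj (u z) * (ghat a r b z - (ball a r).indicator b z)).re) =
        ∫ z, ((ghat a r b z * grad φ z).re - ((ball a r).indicator b z * grad φ z).re) := by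
      apply integral_congr_ae
      filter_upwards [hu] with z hz
      rw [hz, Complex.conj_conj, ← Complex.sub_re]
      congr 1
      ring
    have hR1 : Integrable (fun z => (ghat a r b z * grad φ z).re) volume := hI1.re
    have hR2 : Integrable (fun z => ((ball a r).indicator b z * grad φ z).re) volume := hI2.re
    rw [h5, integral_sub hR1 hR2]
    exact sub_eq_zero.2 h3
  have hmem := bil_mem a' r' hr' b' hb' hb2'
  rw [← Submodule.orthogonal_closure] at horth
  have h0 := Submodule.inner_right_of_mem_orthogonal hmem horth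
  rw [bil_inner_toLp_toLp] at h0
  have hc' : MemLp (fun z => conj (ghat a' r' b' z)) 2 volume := by
    exact hg'.star
  have hI1 : Integrable (fun z => ghat a r b z * conj (ghat a' r' b' z)) volume :=
    bil_integrable_mul hg hc'
  have hI2 : Integrable (fun z => (ball a r).indicator b z * conj (ghat a' r' b' z)) volume :=
    bil_integrable_mul hi hc'
  have h2 : (∫ z, ghat a r b z * conj (ghat a' r' b' z)).re =
      ∫ z, (ghat a r b z * conj (ghat a' r' b' z)).re := (integral_re hI1).symm
  have h3 : (∫ z, (ball a r).indicator b z * conj (ghat a' r' b' z)).re =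
      ∫ z, ((ball a r).indicator b z * conj (ghat a' r' b' z)).re := (integral_re hI2).symm
  have h4 : (∫ z, (ball a r).indicator b z * conj (ghat a' r' b' z)) =
      ∫ z in ball a r, b z * conj (ghat a' r' b' z) := by
    rw [← integral_indicator hmeas]
    congr 1
    ext z
    by_cases hz : z ∈ ball a r
    · simp [hz]
    · simp [hz]
  have h5 : (∫ z, (conj (ghat a' r' b' z) * (ghat a r b z - (ball a r).indicator b z)).re) =
      ∫ z, ((ghat a r b z * conj (ghat a' r' b' z)).re -
        ((ball a r).indicator b z * conj (ghat a' r' b' z)).re) := by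
    congr 1
    ext z
    rw [← Complex.sub_re]
    congr 1
    ring
  have hR1 : Integrable (fun z => (ghat a r b z * conj (ghat a' r' b' z)).re) volume := hI1.re
  have hR2 : Integrable (fun z => ((ball a r).indicator b z * conj (ghat a' r' b' z)).re) volume :=
    hI2.re
  rw [h5, integral_sub hR1 hR2] at h0
  rw [← h4, h2, h3]
  exact sub_eq_zero.1 h0

end Pool.Agent.H385
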