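import Pool.Agent.H385.Defs
import Pool.Agent.H385.PDE
import Pool.Agent.H385.Bil
import Pool.Agent.H385.Disk

open Complex Metric Set Filter Topology ComplexConjugate MeasureTheory
open scoped ContDiff ENNReal

namespace Pool.Agent.H385

/-! ### auxiliary: the real inner product -/

/-- real inner product over `μ` -/
noncomputable def energy_E (μ : Measure ℂ) (f g : ℂ → ℂ) : ℝ := ∫ z, (f z * conj (g z)).re ∂μ

theorem energy_int {μ : Measure ℂ} {f g : ℂ → ℂ} (hf : MemLp f 2 μ) (hg : MemLp g 2 μ) :
    Integrable (fun z => f z * conj (g z)) μ := by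
  have h1 : MemLp (fun z => conj (g z)) 2 μ := hg.star
  exact hf.integrable_mul h1

theorem energy_int_re {μ : Measure ℂ} {f g : ℂ → ℂ} (hf : MemLp f 2 μ) (hg : MemLp g 2 μ) :
    Integrable (fun z => (f z * conj (g z)).re) μ := (energy_int hf hg).re

theorem energy_re {μ : Measure ℂ} {f g : ℂ → ℂ} (hf : MemLp f 2 μ) (hg : MemLp g 2 μ) :
    (∫ z, f z * conj (g z) ∂μ).re = energy_E μ f g :=
  (Complex.reCLM.integral_comp_comm (energy_int hf hg)).symm

theorem energy_symm (μ : Measure ℂ) (f g : ℂ → ℂ) : energy_E μ f g = energy_E μ g f := by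
  unfold energy_E
  congr 1
  ext z
  simp only [mul_re, conj_re, conj_im]
  ring

theorem energy_add_left {μ : Measure ℂ} {f f' g : ℂ → ℂ} (hf : MemLp f 2 μ) (hf' : MemLp f' 2 μ)
    (hg : MemLp g 2 μ) : energy_E μ (f + f') g = energy_E μ f g + energy_E μ f' g := by
  unfold energy_E
  rw [← integral_add (energy_int_re hf hg) (energy_int_re hf' hg)]
  congr 1
  ext z
  simp only [Pi.add_apply, add_mul, add_re]

theorem energy_sub_left {μ : Measure ℂ} {f f' g : ℂ → ℂ} (hf : MemLp f 2 μ) (hf' : MemLp f' 2 μ)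
    (hg : MemLp g 2 μ) : energy_E μ (f - f') g = energy_E μ f g - energy_E μ f' g := by
  unfold energy_E
  rw [← integral_sub (energy_int_re hf hg) (energy_int_re hf' hg)]
  congr 1
  ext z
  simp only [Pi.sub_apply, sub_mul, sub_re]

theorem energy_add_right {μ : Measure ℂ} {f g g' : ℂ → ℂ} (hf : MemLp f 2 μ) (hg : MemLp g 2 μ)
    (hg' : MemLp g' 2 μ) : energy_E μ f (g + g') = energy_E μ f g + energy_E μ f g' := by
  rw [energy_symm, energy_add_left hg hg' hf, energy_symm μ g, energy_symm μ g']

theorem energy_sub_right {μ : Measure ℂ} {f g g' : ℂ → ℂ} (hf : MemLp f 2 μ) (hg : MemLp g 2 μ)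
    (hg' : MemLp g' 2 μ) : energy_E μ f (g - g') = energy_E μ f g - energy_E μ f g' := by
  rw [energy_symm, energy_sub_left hg hg' hf, energy_symm μ g, energy_symm μ g']

theorem energy_zero_left (μ : Measure ℂ) (g : ℂ → ℂ) : energy_E μ 0 g = 0 := by
  simp [energy_E]

theorem energy_smul_left (μ : Measure ℂ) (t : ℝ) (f g : ℂ → ℂ) :
    energy_E μ (fun z => (t : ℂ) * f z) g = t * energy_E μ f g := by
  unfold energy_E
  rw [← integral_const_mul]
  congr 1
  ext z
  rw [mul_assoc, re_ofReal_mul]

theorem energy_sum_left {μ : Measure ℂ} {κ : Type} [Fintype κ] {G : κ → ℂ → ℂ} {g : ℂ → ℂ}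
    (hG : ∀ j, MemLp (G j) 2 μ) (hg : MemLp g 2 μ) :
    energy_E μ (∑ j, G j) g = ∑ j, energy_E μ (G j) g := by
  unfold energy_E
  rw [← integral_finsetSum]
  · congr 1
    ext z
    rw [Finset.sum_apply, Finset.sum_mul, re_sum]
  · intro j _
    exact energy_int_re (hG j) hg

theorem energy_self_eq (f : ℂ → ℂ) (z : ℂ) : (f z * conj (f z)).re = ‖f z‖ ^ 2 := by
  rw [Complex.mul_conj, Complex.normSq_eq_norm_sq]
  norm_cast

theorem energy_self_nonneg (μ : Measure ℂ) (f : ℂ → ℂ) : 0 ≤ energy_E μ f f := by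
  unfold energy_E
  refine integral_nonneg fun z => ?_
  rw [energy_self_eq]
  positivity

theorem energy_ae_zero {μ : Measure ℂ} {f : ℂ → ℂ} (hf : MemLp f 2 μ) (h : energy_E μ f f ≤ 0) :
    f =ᵐ[μ] 0 := by
  have h0 : energy_E μ f f = 0 := le_antisymm h (energy_self_nonneg μ f)
  unfold energy_E at h0
  rw [integral_eq_zero_iff_of_nonneg (fun z => by
    simp only [Pi.zero_apply]
    rw [energy_self_eq]
    positivity) (energy_int_re hf hf)] at h0
  filter_upwards [h0] with z hz
  simp only [Pi.zero_apply] at hz ⊢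
  rw [energy_self_eq] at hz
  simpa using hz

theorem energy_congr {S : Set ℂ} (hS : MeasurableSet S) {f g f' g' : ℂ → ℂ}
    (h : ∀ z ∈ S, (f z * conj (g z)).re = (f' z * conj (g' z)).re) :
    energy_E (volume.restrict S) f g = energy_E (volume.restrict S) f' g' :=
  setIntegral_congr_fun hS h

/-- sums over disjoint subballs -/
theorem energy_sum_le {κ : Type} [Fintype κ] (S : κ → Set ℂ) (T : Set ℂ)
    (hS : ∀ j, MeasurableSet (S j)) (hd : ∀ i j, i ≠ j → Disjoint (S i) (S j))
    (hT : ∀ j, S j ⊆ T) {f : ℂ → ℂ} (hf : MemLp f 2 (volume.restrict T)) :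
    ∑ j, energy_E (volume.restrict (S j)) f f ≤ energy_E (volume.restrict T) f f := by
  have hint : IntegrableOn (fun z => (f z * conj (f z)).re) T volume := energy_int_re hf hf
  have h1 : ∑ j, energy_E (volume.restrict (S j)) f f =
      ∫ z in ⋃ j, S j, (f z * conj (f z)).re := by
    rw [integral_iUnion_fintype hS (fun i j hij => hd i j hij)
      (fun j => hint.mono_set (hT j))]
    rfl
  rw [h1]
  unfold energy_E
  refine setIntegral_mono_set hint ?_ ?_
  · refine Eventually.of_forall fun z => ?_
    simp only [Pi.zero_apply]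
    rw [energy_self_eq]
    positivity
  · exact (iUnion_subset hT).eventuallyLE

theorem energy_memLp_ball {a : ℂ} {r : ℝ} {b : ℂ → ℂ}
    (hb : ∀ z ∈ closedBall a r, AnalyticAt ℂ b z) : MemLp b 2 (volume.restrict (ball a r)) := by
  have hc : ContinuousOn b (closedBall a r) := fun z hz => (hb z hz).continuousAt.continuousWithinAt
  have h1 : MemLp b 2 (volume.restrict (closedBall a r)) := by
    obtain ⟨C, hC⟩ := (isCompact_closedBall a r).exists_bound_of_continuousOn hc
    have : IsFiniteMeasure (volume.restrict (closedBall a r)) := by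
      refine ⟨?_⟩
      rw [Measure.restrict_apply_univ]
      exact (isCompact_closedBall a r).measure_lt_top
    refine MemLp.of_bound (hc.aestronglyMeasurable isClosed_closedBall.measurableSet) C ?_
    rw [ae_restrict_iff' isClosed_closedBall.measurableSet]
    exact Eventually.of_forall hC
  exact h1.mono_measure (Measure.restrict_mono ball_subset_closedBall le_rfl)

theorem energy_diff_ball {a : ℂ} {r : ℝ} {b : ℂ → ℂ}
    (hb : ∀ z ∈ closedBall a r, AnalyticAt ℂ b z) : DifferentiableOn ℂ b (ball a r) :=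
  fun z hz => (hb z (ball_subset_closedBall hz)).differentiableAt.differentiableWithinAt

/-- functions for which the bilinear identity holds -/
def energy_Good (w : ℂ → ℂ) : Prop := MemLp w 2 volume ∧
  ∀ (a : ℂ) (r : ℝ) (b : ℂ → ℂ), 0 < r → (∀ z ∈ closedBall a r, AnalyticAt ℂ b z) →
    energy_E volume (ghat a r b) w = energy_E (volume.restrict (ball a r)) b w

theorem energy_good_ghat {a : ℂ} {r : ℝ} {b : ℂ → ℂ} (hr : 0 < r)
    (hb : ∀ z ∈ closedBall a r, AnalyticAt ℂ b z) : energy_Good (ghat a r b) := by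
  have hm := ghat_memLp a r hr b (energy_diff_ball hb) (energy_memLp_ball hb)
  refine ⟨hm, fun a' r' b' hr' hb' => ?_⟩
  have hm' := ghat_memLp a' r' hr' b' (energy_diff_ball hb') (energy_memLp_ball hb')
  rw [← energy_re hm' hm, ← energy_re (energy_memLp_ball hb') (hm.restrict _)]
  exact bil a' a r' r hr' hr b' b (energy_diff_ball hb') (energy_memLp_ball hb')
    (energy_diff_ball hb) (energy_memLp_ball hb)

theorem energy_good_add {w w' : ℂ → ℂ} (h : energy_Good w) (h' : energy_Good w') :
    energy_Good (w + w') := by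
  refine ⟨h.1.add h'.1, fun a r b hr hb => ?_⟩
  have hm := ghat_memLp a r hr b (energy_diff_ball hb) (energy_memLp_ball hb)
  rw [energy_add_right hm h.1 h'.1, energy_add_right (energy_memLp_ball hb) (h.1.restrict _)
    (h'.1.restrict _), h.2 a r b hr hb, h'.2 a r b hr hb]

theorem energy_good_sub {w w' : ℂ → ℂ} (h : energy_Good w) (h' : energy_Good w') :
    energy_Good (w - w') := by
  refine ⟨h.1.sub h'.1, fun a r b hr hb => ?_⟩
  have hm := ghat_memLp a r hr b (energy_diff_ball hb) (energy_memLp_ball hb)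
  rw [energy_sub_right hm h.1 h'.1, energy_sub_right (energy_memLp_ball hb) (h.1.restrict _)
    (h'.1.restrict _), h.2 a r b hr hb, h'.2 a r b hr hb]

theorem energy_good_zero : energy_Good 0 := by
  refine ⟨MemLp.zero, fun a r b _ _ => ?_⟩
  rw [energy_symm, energy_zero_left, energy_symm, energy_zero_left]

theorem energy_good_sum {κ : Type} (t : Finset κ) {G : κ → ℂ → ℂ}
    (hG : ∀ j, energy_Good (G j)) : energy_Good (∑ j ∈ t, G j) := by
  classical
  induction t using Finset.induction_on with
  | empty => simpa using energy_good_zero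
  | insert j t hj ih =>
    rw [Finset.sum_insert hj]
    exact energy_good_add (hG j) ih

theorem energy_family {κ : Type} [Fintype κ] {c : κ → ℂ} {s : κ → ℝ} (hs : ∀ j, 0 < s j)
    {B : κ → ℂ → ℂ} (hB : ∀ j, ∀ z ∈ closedBall (c j) (s j), AnalyticAt ℂ (B j) z)
    {w : ℂ → ℂ} (hw : energy_Good w) :
    energy_E volume (∑ j, ghat (c j) (s j) (B j)) w =
      ∑ j, energy_E (volume.restrict (ball (c j) (s j))) (B j) w := by
  rw [energy_sum_left (fun j => (energy_good_ghat (hs j) (hB j)).1) hw.1]
  exact Finset.sum_congr rfl fun j _ => hw.2 _ _ _ (hs j) (hB j)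

/-- value of the total field on a ball -/
theorem energy_q_on {κ : Type} [Fintype κ] {c : κ → ℂ} {s : κ → ℝ} {B : κ → ℂ → ℂ}
    (hdisj : ∀ i j, i ≠ j → Disjoint (closedBall (c i) (s i)) (closedBall (c j) (s j)))
    (j : κ) {z : ℂ} (hz : z ∈ ball (c j) (s j)) :
    (∑ i, ghat (c i) (s i) (B i)) z =
      B j z / 2 - (∑ i, Phi (c i) (s i) (B i) z - Phi (c j) (s j) (B j) z) / 2 := by
  have h1 : ∑ i, (ghat (c i) (s i) (B i) z + Phi (c i) (s i) (B i) z / 2) =
      ghat (c j) (s j) (B j) z + Phi (c j) (s j) (B j) z / 2 := by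
    refine Finset.sum_eq_single j (fun i _ hij => ?_) (fun h => absurd (Finset.mem_univ j) h)
    have hz' : z ∉ ball (c i) (s i) := fun h =>
      (hdisj i j hij).le_bot ⟨ball_subset_closedBall h, ball_subset_closedBall hz⟩
    rw [ghat, if_neg hz']
    ring
  rw [Finset.sum_add_distrib, ← Finset.sum_div] at h1
  have h2 : ghat (c j) (s j) (B j) z = B j z / 2 := by rw [ghat, if_pos hz]
  rw [h2] at h1
  rw [Finset.sum_apply]
  linear_combination h1

theorem energy_q_off {κ : Type} [Fintype κ] {c : κ → ℂ} {s : κ → ℝ} {B : κ → ℂ → ℂ}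
    {z : ℂ} (hz : ∀ j, z ∉ ball (c j) (s j)) :
    (∑ i, ghat (c i) (s i) (B i)) z = -(∑ i, Phi (c i) (s i) (B i) z) / 2 := by
  rw [Finset.sum_apply, neg_div, Finset.sum_div, ← Finset.sum_neg_distrib]
  refine Finset.sum_congr rfl fun i _ => ?_
  rw [ghat, if_neg (hz i), neg_div]

theorem energy_ball_sub {a c : ℂ} {r s : ℝ} (hr : 0 < r) (h : ball a r ⊆ closedBall c s) :
    ‖a - c‖ + r ≤ s := by
  obtain ⟨u, hu, hac⟩ : ∃ u : ℂ, ‖u‖ = 1 ∧ a - c = (‖a - c‖ : ℂ) * u := by
    rcases eq_or_ne (a - c) 0 with h0 | h0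
    · exact ⟨1, by simp, by rw [h0]; simp⟩
    · refine ⟨(a - c) / (‖a - c‖ : ℂ), ?_, ?_⟩
      · rw [norm_div, Complex.norm_real, Real.norm_eq_abs, abs_norm, div_self]
        exact (norm_pos_iff.2 h0).ne'
      · have : (‖a - c‖ : ℂ) ≠ 0 := by
          exact_mod_cast (norm_pos_iff.2 h0).ne'
        field_simp
  have key : ∀ t : ℝ, 0 ≤ t → t < r → ‖a - c‖ + t ≤ s := by
    intro t ht0 htr
    have h1 : a + (t : ℂ) * u ∈ ball a r := by
      rw [mem_ball, dist_eq_norm, add_sub_cancel_left, norm_mul, hu, Complex.norm_real,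
        Real.norm_eq_abs, abs_of_nonneg ht0, mul_one]
      exact htr
    have h2 := h h1
    rw [mem_closedBall, dist_eq_norm] at h2
    have h3 : a + (t : ℂ) * u - c = ((‖a - c‖ + t : ℝ) : ℂ) * u := by
      push_cast
      linear_combination hac
    rw [h3, norm_mul, hu, mul_one, Complex.norm_real, Real.norm_eq_abs,
      abs_of_nonneg (add_nonneg (norm_nonneg _) ht0)] at h2
    exact h2
  by_contra hcon
  push Not at hcon
  have h0 := key 0 le_rfl hr
  obtain ⟨t, ht1, ht2⟩ := exists_between (show max 0 (s - ‖a - c‖) < r from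
    max_lt hr (by linarith))
  have ht3 := key t (le_trans (le_max_left _ _) ht1.le) ht2
  have ht4 := lt_of_le_of_lt (le_max_right 0 (s - ‖a - c‖)) ht1
  linarith

theorem energy_nonempty {κ : Type} [Fintype κ] {a : ℂ} {r : ℝ} (hr : 0 < r) {c : κ → ℂ} {s : κ → ℝ}
    (hs : ∀ j, 0 < s j)
    (hdisj : ∀ i j, i ≠ j → Disjoint (closedBall (c i) (s i)) (closedBall (c j) (s j)))
    (hsub : ∀ j, ball (c j) (s j) ⊆ ball a r) (hne : ∀ j, ¬ (c j = a ∧ s j = r)) :
    (ball a r \ ⋃ j, closedBall (c j) (s j)).Nonempty := by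
  classical
  by_contra hemp
  rw [Set.not_nonempty_iff_eq_empty, Set.sdiff_eq_empty] at hemp
  obtain ⟨j, hj⟩ := mem_iUnion.1 (hemp (mem_ball_self hr))
  have hpre : IsPreconnected (ball a r) := (convex_ball a r).isPreconnected
  rw [isPreconnected_iff_subset_of_disjoint_closed] at hpre
  have hcl : IsClosed (⋃ i : {i // i ≠ j}, closedBall (c i) (s i)) :=
    isClosed_iUnion_of_finite fun i => isClosed_closedBall
  have hc1 : ball a r ⊆ closedBall (c j) (s j) ∪ ⋃ i : {i // i ≠ j}, closedBall (c i) (s i) := by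
    intro z hz
    obtain ⟨i, hi⟩ := mem_iUnion.1 (hemp hz)
    by_cases hij : i = j
    · subst hij
      exact Or.inl hi
    · exact Or.inr (mem_iUnion.2 ⟨⟨i, hij⟩, hi⟩)
  have hc2 : ball a r ∩ (closedBall (c j) (s j) ∩ ⋃ i : {i // i ≠ j}, closedBall (c i) (s i)) = ∅ := by
    rw [Set.eq_empty_iff_forall_notMem]
    rintro z ⟨-, hz1, hz2⟩
    obtain ⟨i, hi⟩ := mem_iUnion.1 hz2
    exact (hdisj i j i.2).le_bot ⟨hi, hz1⟩
  rcases hpre (closedBall (c j) (s j)) _ isClosed_closedBall hcl hc1 hc2 with h | h
  · have h1 := energy_ball_sub hr h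
    have h2 := energy_ball_sub (hs j) ((hsub j).trans ball_subset_closedBall)
    rw [norm_sub_rev] at h2
    have h3 : ‖a - c j‖ = 0 := le_antisymm (by linarith) (norm_nonneg _)
    refine hne j ⟨?_, by linarith⟩
    rw [norm_eq_zero, sub_eq_zero] at h3
    exact h3.symm
  · obtain ⟨i, hi⟩ := mem_iUnion.1 (h (hsub j (mem_ball_self (hs j))))
    exact (hdisj i j i.2).le_bot ⟨hi, mem_closedBall_self (hs j).le⟩

/-- energy argument for a disk containing smaller disks of the other family -/
theorem nested (k : ℝ) (hk : 0 < k) (hk1 : k ≠ 1) (a : ℂ) (r : ℝ) (hr : 0 < r) (b : ℂ → ℂ)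
    (hb : ∀ z ∈ closedBall a r, AnalyticAt ℂ b z) {κ : Type} [Fintype κ] (c : κ → ℂ) (s : κ → ℝ)
    (hs : ∀ j, 0 < s j) (B : κ → ℂ → ℂ)
    (hB : ∀ j, ∀ z ∈ closedBall (c j) (s j), AnalyticAt ℂ (B j) z)
    (hdisj : ∀ i j, i ≠ j → Disjoint (closedBall (c i) (s i)) (closedBall (c j) (s j)))
    (hsub : ∀ j, ball (c j) (s j) ⊆ ball a r) (hne : ∀ j, ¬ (c j = a ∧ s j = r))
    (hout : ∀ z, z ∉ closedBall a r → Phi a r b z = ∑ j, Phi (c j) (s j) (B j) z)
    (hin : ∀ j, ∀ z ∈ ball (c j) (s j), (1 + (k : ℂ)) / 2 * B j z = (1 + (k : ℂ)) / 2 * b z -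
      (1 - (k : ℂ)) / 2 * (∑ i, Phi (c i) (s i) (B i) z - Phi (c j) (s j) (B j) z)) :
    ∀ z ∈ ball a r, b z = 0 := by
  set q : ℂ → ℂ := ∑ i, ghat (c i) (s i) (B i) with hq
  set p : ℂ → ℂ := ghat a r b with hp
  set v : ℂ → ℂ := q - p with hv
  have hGp : energy_Good p := energy_good_ghat hr hb
  have hGq : energy_Good q := energy_good_sum _ fun j => energy_good_ghat (hs j) (hB j)
  have hGv : energy_Good v := energy_good_sub hGq hGp
  have hMb := energy_memLp_ball hb
  have hMbj : ∀ j, MemLp b 2 (volume.restrict (ball (c j) (s j))) := fun j =>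
    hMb.mono_measure (Measure.restrict_mono (hsub j) le_rfl)
  have hMB : ∀ j, MemLp (B j) 2 (volume.restrict (ball (c j) (s j))) := fun j =>
    energy_memLp_ball (hB j)
  have hk1' : (1 : ℂ) - (k : ℂ) ≠ 0 := by
    intro h
    apply hk1
    have h2 : (1 : ℂ) = (k : ℂ) := sub_eq_zero.1 h
    exact_mod_cast h2.symm
  have hdB : ∀ i j, i ≠ j → Disjoint (ball (c i) (s i)) (ball (c j) (s j)) := fun i j hij =>
    (hdisj i j hij).mono ball_subset_closedBall ball_subset_closedBall
  -- pointwise facts
  have hp_on : ∀ z ∈ ball a r, p z = b z / 2 := fun z hz => by rw [hp, ghat, if_pos hz]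
  have hv_on : ∀ j, ∀ z ∈ ball (c j) (s j), (1 - (k : ℂ)) * v z = B j z - b z := by
    intro j z hz
    have h1 : v z = q z - p z := rfl
    rw [h1, hp_on z (hsub j hz), hq, energy_q_on hdisj j hz]
    have h2 := hin j z hz
    linear_combination -h2
  have hv_off : ∀ᵐ z ∂volume, z ∉ ball a r → v z = 0 := by
    have hsph : volume (sphere a r) = 0 := Measure.addHaar_sphere volume a r
    have h1 : ∀ᵐ z ∂(volume : Measure ℂ), z ∉ sphere a r := measure_eq_zero_iff_ae_notMem.1 hsph
    filter_upwards [h1] with z hz hz'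
    have hz2 : z ∉ closedBall a r := by
      intro h
      rcases (mem_closedBall.1 h).lt_or_eq with h3 | h3
      · exact hz' h3
      · exact hz h3
    have h3 : v z = q z - p z := rfl
    have h4 : ∀ j, z ∉ ball (c j) (s j) := fun j hj => hz' (hsub j hj)
    rw [h3, hq, energy_q_off h4, hp, ghat, if_neg hz', hout z hz2]
    ring
  -- (i)
  have hi0 : energy_E volume p v = energy_E (volume.restrict (ball a r)) b v :=
    hGv.2 a r b hr hb
  have hi1 : energy_E volume p v = energy_E (volume.restrict (ball a r)) p v := by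
    unfold energy_E
    symm
    refine setIntegral_eq_integral_of_ae_compl_eq_zero ?_
    filter_upwards [hv_off] with z hz hz'
    rw [hz hz']
    simp
  have hi2 : energy_E (volume.restrict (ball a r)) p v =
      (1 / 2) * energy_E (volume.restrict (ball a r)) b v := by
    rw [← energy_smul_left]
    refine energy_congr measurableSet_ball fun z hz => ?_
    rw [hp_on z hz]
    push_cast
    rw [show b z / 2 = 1 / 2 * b z by ring]
  have hi : energy_E (volume.restrict (ball a r)) b v = 0 := by linarith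
  set A := energy_E (volume.restrict (ball a r)) b b with hA
  set S := ∑ j, energy_E (volume.restrict (ball (c j) (s j))) (B j) (B j) with hS
  set T := ∑ j, energy_E (volume.restrict (ball (c j) (s j))) (B j) b with hT
  set D := ∑ j, energy_E (volume.restrict (ball (c j) (s j))) b b with hD
  set V := energy_E volume v v with hV
  -- T = A
  have hT1 : energy_E volume q p = T / 2 := by
    rw [hq, energy_family hs hB hGp, hT, Finset.sum_div]
    refine Finset.sum_congr rfl fun j _ => ?_
    rw [energy_symm, energy_symm _ (B j) b, div_eq_inv_mul,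
      ← energy_smul_left]
    refine energy_congr measurableSet_ball fun z hz => ?_
    rw [hp_on z (hsub j hz)]
    push_cast
    rw [show b z / 2 = (2 : ℂ)⁻¹ * b z by ring]
  have hT2 : energy_E volume q p = A / 2 := by
    rw [energy_symm, hp, hGq.2 a r b hr hb]
    have h1 : q = v + p := by rw [hv]; simp
    rw [h1, energy_add_right hMb (hGv.1.restrict _) (hGp.1.restrict _), hi, zero_add, hA,
      energy_symm, div_eq_inv_mul, ← energy_smul_left]
    refine energy_congr measurableSet_ball fun z hz => ?_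
    rw [hp_on z hz]
    push_cast
    rw [show b z / 2 = (2 : ℂ)⁻¹ * b z by ring]
  have hTA : T = A := by linarith
  -- (ii)
  have hii : (1 - k) * V = S - T := by
    have h1 : V = energy_E volume q v - energy_E volume p v := by
      rw [hV]
      nth_rewrite 2 [hv]
      rw [energy_sub_left hGq.1 hGp.1 hGv.1]
    have h2 : energy_E volume q v =
        ∑ j, energy_E (volume.restrict (ball (c j) (s j))) (B j) v := by
      rw [hq, energy_family hs hB hGv]
    rw [h1, hi0, hi, sub_zero, h2, Finset.mul_sum, hS, hT, ← Finset.sum_sub_distrib]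
    refine Finset.sum_congr rfl fun j _ => ?_
    rw [← energy_sub_right (hMB j) (hMB j) (hMbj j), energy_symm, ← energy_smul_left,
      energy_symm _ (B j)]
    refine energy_congr measurableSet_ball fun z hz => ?_
    push_cast
    rw [hv_on j z hz]
    rfl
  have hV0 : 0 ≤ V := energy_self_nonneg _ _
  have hA0 : 0 ≤ A := energy_self_nonneg _ _
  have hDA : D ≤ A := energy_sum_le _ _ (fun j => measurableSet_ball) hdB hsub hMb
  have hSA : S ≤ A := by
    rcases lt_or_gt_of_ne hk1 with hk2 | hk2
    · -- k < 1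
      set g : ℂ → ℂ := b + fun z => ((1 - k : ℝ) : ℂ) * v z with hg
      have hMv : MemLp (fun z => ((1 - k : ℝ) : ℂ) * v z) 2 (volume.restrict (ball a r)) :=
        (hGv.1.restrict _).const_mul _
      have hMg : MemLp g 2 (volume.restrict (ball a r)) := hMb.add hMv
      have h1 : S = ∑ j, energy_E (volume.restrict (ball (c j) (s j))) g g := by
        refine Finset.sum_congr rfl fun j _ => ?_
        refine energy_congr measurableSet_ball fun z hz => ?_
        have h2 : g z = B j z := by
          have h3 : g z = b z + ((1 - k : ℝ) : ℂ) * v z := rfl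
          rw [h3]
          push_cast
          rw [hv_on j z hz]
          ring
        rw [h2]
      have h2 : S ≤ energy_E (volume.restrict (ball a r)) g g := by
        rw [h1]
        exact energy_sum_le _ _ (fun j => measurableSet_ball) hdB hsub hMg
      have h3 : energy_E (volume.restrict (ball a r)) g g =
          A + (1 - k) ^ 2 * energy_E (volume.restrict (ball a r)) v v := by
        rw [hg, energy_add_left hMb hMv hMg, energy_add_right hMb hMb hMv,
          energy_add_right hMv hMb hMv, energy_symm _ b (fun z => ((1 - k : ℝ) : ℂ) * v z),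
          energy_smul_left, energy_smul_left,
          energy_symm _ v (fun z => ((1 - k : ℝ) : ℂ) * v z), energy_smul_left,
          energy_symm _ v b, hi]
        ring
      have h4 : energy_E (volume.restrict (ball a r)) v v ≤ V := by
        have hint : Integrable (fun z => (v z * conj (v z)).re) volume :=
          energy_int_re hGv.1 hGv.1
        refine setIntegral_le_integral hint (Eventually.of_forall fun z => ?_)
        simp only [Pi.zero_apply]
        rw [energy_self_eq]
        positivity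
      have h5 : S ≤ A + (1 - k) ^ 2 * V := by
        have h6 : (1 - k) ^ 2 * energy_E (volume.restrict (ball a r)) v v ≤ (1 - k) ^ 2 * V :=
          mul_le_mul_of_nonneg_left h4 (sq_nonneg _)
        linarith
      have h6 : (1 - k) ^ 2 * V = (1 - k) * (S - A) := by
        rw [← hTA, ← hii]; ring
      have h7 : k * (S - A) ≤ 0 := by linarith
      by_contra hcon
      push Not at hcon
      have h8 : 0 < k * (S - A) := mul_pos hk (by linarith)
      linarith
    · have h1 : (1 - k) * V ≤ 0 := mul_nonpos_of_nonpos_of_nonneg (by linarith) hV0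
      linarith
  have hAD : A ≤ D := by
    have h1 : ∀ j, 0 ≤ energy_E (volume.restrict (ball (c j) (s j))) (B j) (B j) -
        2 * energy_E (volume.restrict (ball (c j) (s j))) (B j) b +
        energy_E (volume.restrict (ball (c j) (s j))) b b := by
      intro j
      have h2 := energy_self_nonneg (volume.restrict (ball (c j) (s j))) (B j - b)
      rw [energy_sub_left (hMB j) (hMbj j) ((hMB j).sub (hMbj j)),
        energy_sub_right (hMB j) (hMB j) (hMbj j), energy_sub_right (hMbj j) (hMB j) (hMbj j),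
        energy_symm _ b (B j)] at h2
      linarith
    have h2 := Finset.sum_nonneg fun j (_ : j ∈ Finset.univ) => h1 j
    rw [Finset.sum_add_distrib, Finset.sum_sub_distrib, ← Finset.mul_sum] at h2
    have h3 : 0 ≤ S - 2 * T + D := h2
    linarith
  -- b = 0 a.e. off the small balls
  have hmU : MeasurableSet (⋃ j, ball (c j) (s j)) := MeasurableSet.iUnion fun j => measurableSet_ball
  have hint : IntegrableOn (fun z => (b z * conj (b z)).re) (ball a r) volume :=
    energy_int_re hMb hMb
  have hz0 : energy_E (volume.restrict (ball a r \ ⋃ j, ball (c j) (s j))) b b ≤ 0 := by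
    have h1 : energy_E (volume.restrict (ball a r \ ⋃ j, ball (c j) (s j))) b b = A - D := by
      unfold energy_E
      rw [setIntegral_sdiff hmU hint (iUnion_subset hsub), hA, hD]
      congr 1
      rw [integral_iUnion_fintype (fun j => measurableSet_ball) (fun i j hij => hdB i j hij)
        (fun j => hint.mono_set (hsub j))]
      rfl
    rw [h1]
    linarith
  have hz1 := energy_ae_zero (hMb.mono_measure (Measure.restrict_mono sdiff_subset le_rfl)) hz0
  set U := ball a r \ ⋃ j, closedBall (c j) (s j) with hU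
  have hUsub : U ⊆ ball a r \ ⋃ j, ball (c j) (s j) :=
    sdiff_subset_sdiff_right (iUnion_mono fun j => ball_subset_closedBall)
  have hUo : IsOpen U := isOpen_ball.sdiff (isClosed_iUnion_of_finite fun i => isClosed_closedBall)
  have hz2 : b =ᵐ[volume.restrict U] (fun _ => (0 : ℂ)) :=
    ae_mono (Measure.restrict_mono hUsub le_rfl) hz1
  have hbc : ContinuousOn b U := fun z hz =>
    (hb z (ball_subset_closedBall hz.1)).continuousAt.continuousWithinAt
  have hz3 := Measure.eqOn_open_of_ae_eq hz2 hUo hbc continuousOn_const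
  obtain ⟨z₀, hz₀⟩ := energy_nonempty hr hs hdisj hsub hne
  have hban : AnalyticOnNhd ℂ b (ball a r) := fun z hz => hb z (ball_subset_closedBall hz)
  have hev : b =ᶠ[𝓝 z₀] 0 := by
    filter_upwards [hUo.mem_nhds hz₀] with z hz
    exact hz3 hz
  intro z hz
  exact hban.eqOn_zero_of_preconnected_of_eventuallyEq_zero (convex_ball a r).isPreconnected
    hz₀.1 hev hz

/-- energy argument on the whole plane -/
theorem global_zero (k : ℝ) (hk : 0 < k) {κ : Type} [Fintype κ] (c : κ → ℂ) (s : κ → ℝ)
    (hs : ∀ j, 0 < s j) (B : κ → ℂ → ℂ)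
    (hB : ∀ j, ∀ z ∈ closedBall (c j) (s j), AnalyticAt ℂ (B j) z)
    (hdisj : ∀ i j, i ≠ j → Disjoint (closedBall (c i) (s i)) (closedBall (c j) (s j)))
    (hin : ∀ j, ∀ z ∈ ball (c j) (s j), (1 + (k : ℂ)) / 2 * B j z =
      -((1 - (k : ℂ)) / 2 * (∑ i, Phi (c i) (s i) (B i) z - Phi (c j) (s j) (B j) z))) :
    ∀ j, ∀ z ∈ ball (c j) (s j), B j z = 0 := by
  set q : ℂ → ℂ := ∑ i, ghat (c i) (s i) (B i) with hq
  have hGq : energy_Good q := energy_good_sum _ fun j => energy_good_ghat (hs j) (hB j)
  have hdB : ∀ i j, i ≠ j → Disjoint (ball (c i) (s i)) (ball (c j) (s j)) := fun i j hij =>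
    (hdisj i j hij).mono ball_subset_closedBall ball_subset_closedBall
  have hBq : ∀ j, ∀ z ∈ ball (c j) (s j), B j z = (1 - (k : ℂ)) * q z := by
    intro j z hz
    rw [hq, energy_q_on hdisj j hz]
    have h2 := hin j z hz
    linear_combination h2
  set Q := energy_E volume q q with hQ
  set D := ∑ j, energy_E (volume.restrict (ball (c j) (s j))) q q with hD
  have h1 : Q = (1 - k) * D := by
    rw [hQ]
    nth_rewrite 1 [hq]
    rw [energy_family hs hB hGq, hD, Finset.mul_sum]
    refine Finset.sum_congr rfl fun j _ => ?_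
    rw [← energy_smul_left]
    refine energy_congr measurableSet_ball fun z hz => ?_
    rw [hBq j z hz]
    push_cast
    rfl
  have hD0 : 0 ≤ D := Finset.sum_nonneg fun j _ => energy_self_nonneg _ _
  have hQ0 : 0 ≤ Q := energy_self_nonneg _ _
  have hDQ : D ≤ Q := by
    have h2 := energy_sum_le (fun j => ball (c j) (s j)) univ (fun j => measurableSet_ball) hdB
      (fun j => subset_univ _) (f := q) (by rw [Measure.restrict_univ]; exact hGq.1)
    rw [Measure.restrict_univ] at h2
    exact h2
  have hQn : Q ≤ 0 := by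
    rcases le_or_gt k 1 with hk1 | hk1
    · have h2 : (1 - k) * D ≤ (1 - k) * Q := mul_le_mul_of_nonneg_left hDQ (by linarith)
      have h3 : k * Q ≤ 0 := by linarith
      by_contra hcon
      push Not at hcon
      have h4 := mul_pos hk hcon
      linarith
    · rw [h1]
      exact mul_nonpos_of_nonpos_of_nonneg (by linarith) hD0
  have hq0 := energy_ae_zero hGq.1 hQn
  intro j z hz
  have h2 : B j =ᵐ[volume.restrict (ball (c j) (s j))] (fun _ => (0 : ℂ)) := by
    rw [Filter.EventuallyEq, ae_restrict_iff' measurableSet_ball]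
    filter_upwards [hq0] with w hw hw'
    rw [hBq j w hw', hw]
    simp
  have hbc : ContinuousOn (B j) (ball (c j) (s j)) := fun z hz =>
    (hB j z (ball_subset_closedBall hz)).continuousAt.continuousWithinAt
  exact Measure.eqOn_open_of_ae_eq h2 isOpen_ball hbc continuousOn_const hz

end Pool.Agent.H385
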