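import Pool.Agent.H385.Defs
import Pool.Agent.H385.PDE
import Pool.Agent.H385.Energy

open Complex Metric Set Filter Topology ComplexConjugate MeasureTheory
open scoped ContDiff ENNReal

namespace Pool.Agent.H385

theorem casen_cinv_mem {a : ℂ} {r : ℝ} (hr : 0 < r) {z : ℂ} (hz : r ≤ ‖z - a‖) :
    cinv a r z ∈ closedBall a r := by
  have hpos : 0 < ‖z - a‖ := lt_of_lt_of_le hr hz
  rw [mem_closedBall, dist_eq_norm]
  unfold cinv
  rw [add_sub_cancel_left, norm_div, norm_pow, Complex.norm_real, Complex.norm_conj,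
    Real.norm_eq_abs, abs_of_pos hr, div_le_iff₀ hpos, sq]
  gcongr

theorem casen_Phi_diff {a : ℂ} {r : ℝ} (hr : 0 < r) {b : ℂ → ℂ}
    (hb : ∀ z ∈ closedBall a r, AnalyticAt ℂ b z) {z : ℂ} (hz : r ≤ ‖z - a‖) :
    DifferentiableAt ℂ (Phi a r b) z := by
  have hne : z - a ≠ 0 := by
    intro h
    rw [h, norm_zero] at hz
    linarith
  have h1 : DifferentiableAt ℂ (star ∘ b ∘ star) (star (cinv a r z)) :=
    (hb _ (casen_cinv_mem hr hz)).differentiableAt.star_star
  have h2 : DifferentiableAt ℂ (fun w : ℂ => conj a + (r : ℂ) ^ 2 / (w - a)) z := by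
    apply DifferentiableAt.const_add
    apply DifferentiableAt.div
    · exact differentiableAt_const _
    · exact differentiableAt_id.sub_const a
    · exact hne
  have e : ∀ w : ℂ, conj a + (r : ℂ) ^ 2 / (w - a) = star (cinv a r w) := by
    intro w
    unfold cinv
    rw [star_add, Complex.star_def, map_div₀, Complex.conj_conj, map_pow,
      Complex.conj_ofReal]
  have h3 : DifferentiableAt ℂ (fun w : ℂ => conj (b (cinv a r w))) z := by
    have h4 : (fun w : ℂ => conj (b (cinv a r w))) =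
        (star ∘ b ∘ star) ∘ (fun w : ℂ => conj a + (r : ℂ) ^ 2 / (w - a)) := by
      funext w
      simp only [Function.comp_apply, e w, star_star]
      rfl
    rw [h4]
    apply DifferentiableAt.comp
    · rw [e z]
      exact h1
    · exact h2
  unfold Phi
  apply DifferentiableAt.mul _ h3
  apply DifferentiableAt.div
  · exact differentiableAt_const _
  · exact (differentiableAt_id.sub_const a).pow 2
  · exact pow_ne_zero 2 hne

theorem casen_Phi_tendsto {a : ℂ} {r : ℝ} (hr : 0 < r) {b : ℂ → ℂ}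
    (hb : ∀ z ∈ closedBall a r, AnalyticAt ℂ b z) :
    Tendsto (Phi a r b) (cocompact ℂ) (𝓝 0) := by
  have h1 : Tendsto (fun z : ℂ => z - a) (cocompact ℂ) (cocompact ℂ) :=
    (Homeomorph.subRight a).isClosedEmbedding.tendsto_cocompact
  have h2 : Tendsto (fun z : ℂ => (z - a)⁻¹) (cocompact ℂ) (𝓝 0) := by
    rw [← Metric.cobounded_eq_cocompact] at h1 ⊢
    exact tendsto_inv₀_cobounded.comp h1
  have hba : ContinuousAt b a := (hb a (mem_closedBall_self hr.le)).continuousAt
  have h3 : Tendsto (cinv a r) (cocompact ℂ) (𝓝 a) := by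
    have e : cinv a r = fun z => a + (r : ℂ) ^ 2 * conj ((z - a)⁻¹) := by
      funext z
      unfold cinv
      rw [map_inv₀]
      rfl
    rw [e]
    have h4 : Tendsto (fun z : ℂ => conj ((z - a)⁻¹)) (cocompact ℂ) (𝓝 (conj (0 : ℂ))) :=
      (Complex.continuous_conj.tendsto 0).comp h2
    have h5 := (h4.const_mul ((r : ℂ) ^ 2)).const_add a
    simpa using h5
  have h6 : Tendsto (fun z : ℂ => conj (b (cinv a r z))) (cocompact ℂ) (𝓝 (conj (b a))) :=
    (Complex.continuous_conj.tendsto _).comp (hba.tendsto.comp h3)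
  have h7 : Tendsto (fun z : ℂ => (r : ℂ) ^ 2 / (z - a) ^ 2) (cocompact ℂ) (𝓝 0) := by
    have h8 := (h2.pow 2).const_mul ((r : ℂ) ^ 2)
    simp only [ne_eq, OfNat.ofNat_ne_zero, not_false_eq_true, zero_pow, mul_zero] at h8
    refine h8.congr (fun z => ?_)
    rw [inv_pow]
    rfl
  have h9 := h7.mul h6
  rw [zero_mul] at h9
  exact h9

/-- case N -/
theorem case_N {k : ℝ} (hk : 0 < k) (hk1 : k ≠ 1) {Ω : Set ℂ}
    {ι κ : Type} [Fintype ι] [Fintype κ] {a : ι → ℂ} {r : ι → ℝ} {c : κ → ℂ} {s : κ → ℝ}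
    {H : ℂ → ℂ} {b : ι → ℂ → ℂ} {B : κ → ℂ → ℂ}
    (hZ : ZSys k Ω a r H b) (hZ' : ZSys k Ω c s H B) (i : ι)
    (hi : ∀ j, ¬ (c j = a i ∧ s j = r i))
    (hsub : ∀ j, Disjoint (ball (a i) (r i)) (ball (c j) (s j)) ∨
      ball (c j) (s j) ⊆ ball (a i) (r i))
    (hm : ∀ z ∈ sphere (a i) (r i), ∀ᶠ w in 𝓝 z,
      ∑ i, Phi (a i) (r i) (b i) w = ∑ j, Phi (c j) (s j) (B j) w) :
    ∀ z ∈ ball (a i) (r i), b i z = 0 := by
  classical
  have hri := hZ.pos i
  set J : Finset κ := Finset.univ.filter (fun j => ball (c j) (s j) ⊆ ball (a i) (r i)) with hJ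
  have memJ : ∀ j, j ∈ J ↔ ball (c j) (s j) ⊆ ball (a i) (r i) := by
    intro j; rw [hJ]; simp
  -- the two expressions
  set R1 : ℂ → ℂ := fun z => Phi (a i) (r i) (b i) z - ∑ j ∈ J, Phi (c j) (s j) (B j) z with hR1
  set R2 : ℂ → ℂ := fun z => ∑ j ∈ Jᶜ, Phi (c j) (s j) (B j) z -
    ∑ i' ∈ Finset.univ.erase i, Phi (a i') (r i') (b i') z with hR2
  have heq : ∀ z, (∑ i, Phi (a i) (r i) (b i) z = ∑ j, Phi (c j) (s j) (B j) z) ↔
      R1 z = R2 z := by
    intro z
    simp only [hR1, hR2]
    rw [← Finset.add_sum_erase _ (fun i' => Phi (a i') (r i') (b i') z) (Finset.mem_univ i),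
      ← Finset.sum_add_sum_compl J (fun j => Phi (c j) (s j) (B j) z)]
    constructor
    · intro h; linear_combination h
    · intro h; linear_combination h
  -- differentiability
  have dPhi : ∀ z, r i ≤ ‖z - a i‖ → DifferentiableAt ℂ (Phi (a i) (r i) (b i)) z :=
    fun z hz => casen_Phi_diff hri (hZ.b_an i) hz
  have dPhi' : ∀ j z, z ∉ ball (c j) (s j) → DifferentiableAt ℂ (Phi (c j) (s j) (B j)) z := by
    intro j z hz
    apply casen_Phi_diff (hZ'.pos j) (hZ'.b_an j)
    rw [mem_ball, dist_eq_norm] at hz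
    linarith
  have dPhi2 : ∀ i' z, i' ≠ i → z ∈ closedBall (a i) (r i) →
      DifferentiableAt ℂ (Phi (a i') (r i') (b i')) z := by
    intro i' z hi' hz
    apply casen_Phi_diff (hZ.pos i') (hZ.b_an i')
    have := Set.disjoint_left.mp (hZ.disj i i' hi'.symm) hz
    rw [mem_closedBall, dist_eq_norm] at this
    linarith
  have dR1 : ∀ z, z ∉ ball (a i) (r i) → DifferentiableAt ℂ R1 z := by
    intro z hz
    apply DifferentiableAt.sub
    · apply dPhi
      rw [mem_ball, dist_eq_norm] at hz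
      linarith
    · apply DifferentiableAt.fun_sum
      intro j hj
      exact dPhi' j z (fun h => hz ((memJ j).mp hj h))
  have hnotin : ∀ j, j ∈ Jᶜ → ∀ z ∈ closedBall (a i) (r i), z ∉ ball (c j) (s j) := by
    intro j hj z hz hzj
    rw [Finset.mem_compl, memJ] at hj
    have hd := (hsub j).resolve_right hj
    have hcl : z ∈ closure (ball (a i) (r i)) := by
      rw [closure_ball _ hri.ne']
      exact hz
    rw [_root_.mem_closure_iff] at hcl
    obtain ⟨w, hw1, hw2⟩ := hcl _ isOpen_ball hzj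
    exact Set.disjoint_left.mp hd hw2 hw1
  have dR2 : ∀ z, z ∈ closedBall (a i) (r i) → DifferentiableAt ℂ R2 z := by
    intro z hz
    apply DifferentiableAt.sub
    · apply DifferentiableAt.fun_sum
      intro j hj
      exact dPhi' j z (hnotin j hj z hz)
    · apply DifferentiableAt.fun_sum
      intro i' hi'
      exact dPhi2 i' z (Finset.ne_of_mem_erase hi') hz
  set R : ℂ → ℂ := fun z => if z ∈ closedBall (a i) (r i) then R2 z else R1 z with hR
  have hRd : Differentiable ℂ R := by
    intro z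
    by_cases hz : z ∈ closedBall (a i) (r i)
    · by_cases hz2 : z ∈ ball (a i) (r i)
      · refine (dR2 z hz).congr_of_eventuallyEq ?_
        filter_upwards [isOpen_ball.mem_nhds hz2] with w hw
        simp only [hR]
        rw [if_pos (ball_subset_closedBall hw)]
      · refine (dR2 z hz).congr_of_eventuallyEq ?_
        have hzs : z ∈ sphere (a i) (r i) := by
          rw [mem_sphere]
          rw [mem_ball] at hz2
          rw [mem_closedBall] at hz
          linarith
        filter_upwards [hm z hzs] with w hw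
        simp only [hR]
        split_ifs
        · rfl
        · exact (heq w).mp hw
    · refine (dR1 z (fun h => hz (ball_subset_closedBall h))).congr_of_eventuallyEq ?_
      filter_upwards [isClosed_closedBall.isOpen_compl.mem_nhds hz] with w hw
      simp only [hR]
      rw [if_neg hw]
  have hRt : Tendsto R (cocompact ℂ) (𝓝 0) := by
    have h1 : Tendsto R1 (cocompact ℂ) (𝓝 0) := by
      have h2 := (casen_Phi_tendsto hri (hZ.b_an i)).sub
        (tendsto_finsetSum J (fun j _ => casen_Phi_tendsto (hZ'.pos j) (hZ'.b_an j)))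
      simpa using h2
    refine h1.congr' ?_
    have h3 : (closedBall (a i) (r i))ᶜ ∈ cocompact ℂ :=
      (isCompact_closedBall (a i) (r i)).compl_mem_cocompact
    filter_upwards [h3] with w hw
    simp only [hR]
    rw [if_neg hw]
  have hR0 : ∀ z, R z = 0 := fun z => hRd.apply_eq_of_tendsto_cocompact z hRt
  have hout : ∀ z, z ∉ closedBall (a i) (r i) →
      Phi (a i) (r i) (b i) z = ∑ j ∈ J, Phi (c j) (s j) (B j) z := by
    intro z hz
    have := hR0 z
    simp only [hR] at this
    rw [if_neg hz] at this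
    exact sub_eq_zero.mp this
  have hin : ∀ z, z ∈ closedBall (a i) (r i) →
      ∑ j ∈ Jᶜ, Phi (c j) (s j) (B j) z =
        ∑ i' ∈ Finset.univ.erase i, Phi (a i') (r i') (b i') z := by
    intro z hz
    have := hR0 z
    simp only [hR] at this
    rw [if_pos hz] at this
    exact sub_eq_zero.mp this
  refine nested k hk hk1 (a i) (r i) hri (b i) (hZ.b_an i) (κ := {j // j ∈ J})
    (fun j => c j.1) (fun j => s j.1) (fun j => hZ'.pos j.1) (fun j => B j.1)
    (fun j => hZ'.b_an j.1) ?_ (fun j => (memJ j.1).mp j.2) (fun j => hi j.1) ?_ ?_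
  · intro j j' hjj'
    exact hZ'.disj j.1 j'.1 (fun h => hjj' (Subtype.ext h))
  · intro z hz
    rw [hout z hz, ← Finset.sum_coe_sort J]
  · intro j z hz
    have hzi : z ∈ closedBall (a i) (r i) := ball_subset_closedBall ((memJ j.1).mp j.2 hz)
    have e1 := (hZ.rep i z hzi).self_of_nhds
    have e2 := (hZ'.rep j.1 z (ball_subset_closedBall hz)).self_of_nhds
    have e3 := hin z hzi
    unfold Ext at e1 e2
    rw [← Finset.add_sum_erase _ (fun i' => Phi (a i') (r i') (b i') z) (Finset.mem_univ i)] at e1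
    rw [← Finset.sum_add_sum_compl J (fun j => Phi (c j) (s j) (B j) z)] at e2
    have e4 : ∑ j' : {j // j ∈ J}, Phi (c j'.1) (s j'.1) (B j'.1) z =
        ∑ j ∈ J, Phi (c j) (s j) (B j) z := by
      rw [← Finset.sum_coe_sort J]
    rw [e4]
    linear_combination e2 - e1 - (1 - (k : ℂ)) / 2 * e3

end Pool.Agent.H385
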