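import Pool.Agent.H385.Defs

open Complex Metric Set Filter Topology ComplexConjugate MeasureTheory
open scoped ContDiff ENNReal

namespace Pool.Agent.H385

theorem conn_unit (b : ℂ) : ∃ u : ℂ, ‖u‖ = 1 ∧ b = (‖b‖ : ℂ) * u := by
  rcases eq_or_ne b 0 with rfl | hb
  · exact ⟨1, by simp, by simp⟩
  · have h : (‖b‖ : ℂ) ≠ 0 := by exact_mod_cast norm_ne_zero_iff.2 hb
    refine ⟨b / ‖b‖, ?_, by field_simp⟩
    rw [norm_div, norm_real, norm_norm, div_self (norm_ne_zero_iff.2 hb)]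

theorem conn_conj_mul {u : ℂ} (hu : ‖u‖ = 1) : conj u * u = 1 := by
  rw [← normSq_eq_conj_mul_self, normSq_eq_norm_sq, hu]
  simp

theorem conn_param (a : ℂ) {r : ℝ} {u : ℂ} (hu : ‖u‖ = 1) {z : ℂ} (hz : ‖z - a‖ = r) :
    ∃ t : ℝ, t ∈ Icc (-Real.pi) Real.pi ∧ z = a - r * u * exp (t * I) := by
  rcases eq_or_ne r 0 with rfl | hr
  · refine ⟨0, ⟨by linarith [Real.pi_pos], Real.pi_pos.le⟩, ?_⟩
    rw [norm_eq_zero, sub_eq_zero] at hz
    simp [hz]
  · have hr' : (r : ℂ) ≠ 0 := by exact_mod_cast hr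
    have hu' := conn_conj_mul hu
    set w : ℂ := -(z - a) * conj u / r with hw
    have hw1 : ‖w‖ = 1 := by
      have hr0 : 0 ≤ r := by rw [← hz]; exact norm_nonneg _
      rw [hw, norm_div, norm_mul, norm_neg, hz, RCLike.norm_conj, hu, norm_real, Real.norm_eq_abs,
        abs_of_nonneg hr0, mul_one, div_self hr]
    have h1 := Complex.norm_mul_exp_arg_mul_I w
    rw [hw1, ofReal_one, one_mul] at h1
    refine ⟨arg w, ⟨(neg_pi_lt_arg w).le, arg_le_pi w⟩, ?_⟩
    rw [h1, hw]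
    field_simp
    linear_combination (-(z - a)) * hu'

theorem conn_re (a b : ℂ) {u : ℂ} (hu : ‖u‖ = 1) (hb : b = (‖b‖ : ℂ) * u) (r t : ℝ) :
    (conj b * (a - r * u * exp (t * I))).re = (conj b * a).re - r * ‖b‖ * Real.cos t := by
  have h1 : conj b = (‖b‖ : ℂ) * conj u := by
    conv_lhs => rw [hb]
    rw [map_mul, conj_ofReal]
  have h2 : conj b * (a - r * u * exp (t * I)) =
      conj b * a - ((r * ‖b‖ : ℝ) : ℂ) * exp (t * I) := by
    rw [mul_sub]
    congr 1
    rw [h1]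
    push_cast
    linear_combination ((r : ℂ) * ‖b‖ * exp (t * I)) * conn_conj_mul hu
  rw [h2, sub_re, re_ofReal_mul, exp_ofReal_mul_I_re]

theorem conn_norm (a : ℂ) {u : ℂ} (hu : ‖u‖ = 1) (r t : ℝ) :
    ‖a - r * u * exp (t * I) - a‖ = |r| := by
  have : a - r * u * exp (t * I) - a = -(r * u * exp (t * I)) := by ring
  rw [this, norm_neg, norm_mul, norm_mul, hu, norm_exp_ofReal_mul_I, norm_real, Real.norm_eq_abs,
    mul_one, mul_one]

theorem conn_cos {x y z : ℝ} (hx : -Real.pi ≤ x) (hz : z ≤ Real.pi) (hxy : x ≤ y) (hyz : y ≤ z) :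
    Real.cos x ≤ Real.cos y ∨ Real.cos z ≤ Real.cos y := by
  rcases le_total y 0 with h | h
  · left
    rw [← Real.cos_neg x, ← Real.cos_neg y]
    exact Real.cos_le_cos_of_nonneg_of_le_pi (by linarith) (by linarith) (by linarith)
  · right
    exact Real.cos_le_cos_of_nonneg_of_le_pi h hz hyz

theorem sphere_halfplane_preconnected (a : ℂ) (r : ℝ) (b : ℂ) (c : ℝ) :
    IsPreconnected {z : ℂ | ‖z - a‖ = r ∧ (conj b * z).re < c} := by
  rcases lt_or_ge r 0 with hr | hr
  · have : {z : ℂ | ‖z - a‖ = r ∧ (conj b * z).re < c} = ∅ := by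
      rw [Set.eq_empty_iff_forall_notMem]
      rintro z ⟨h, -⟩
      have := norm_nonneg (z - a)
      linarith
    rw [this]
    exact isPreconnected_empty
  obtain ⟨u, hu, hb⟩ := conn_unit b
  have h1 : {z : ℂ | ‖z - a‖ = r ∧ (conj b * z).re < c} =
      (fun t : ℝ => a - r * u * exp (t * I)) ''
        {t | t ∈ Icc (-Real.pi) Real.pi ∧ (conj b * a).re - r * ‖b‖ * Real.cos t < c} := by
    ext z
    constructor
    · rintro ⟨h2, h3⟩
      obtain ⟨t, ht, rfl⟩ := conn_param a hu h2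
      rw [conn_re a b hu hb] at h3
      exact ⟨t, ⟨ht, h3⟩, rfl⟩
    · rintro ⟨t, ⟨ht, h3⟩, rfl⟩
      refine ⟨?_, ?_⟩
      · simp only
        rw [conn_norm a hu, abs_of_nonneg hr]
      · simp only
        rw [conn_re a b hu hb]
        exact h3
  rw [h1]
  refine IsPreconnected.image ?_ _ (by fun_prop)
  refine OrdConnected.isPreconnected ⟨?_⟩
  rintro x ⟨hx, hx'⟩ z ⟨hz, hz'⟩ y ⟨hxy, hyz⟩
  refine ⟨⟨hx.1.trans hxy, hyz.trans hz.2⟩, ?_⟩
  have h0 : 0 ≤ r * ‖b‖ := mul_nonneg hr (norm_nonneg _)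
  rcases conn_cos hx.1 hz.2 hxy hyz with h | h
  · have := mul_le_mul_of_nonneg_left h h0
    linarith
  · have := mul_le_mul_of_nonneg_left h h0
    linarith

/-- the form in terms of the centre of the circle -/
theorem conn_q (P : GD) (ha : P.a ≠ 0) (z : ℂ) :
    P.q z = P.a * ‖z - (-(P.b / P.a))‖ ^ 2 - P.disc / P.a := by
  have h1 : ‖z - (-(P.b / P.a))‖ ^ 2 =
      ‖z‖ ^ 2 + 2 * (conj P.b * z).re / P.a + ‖P.b‖ ^ 2 / P.a ^ 2 := by
    have h2 : P.b / (P.a : ℂ) = ((P.a⁻¹ : ℝ) : ℂ) * P.b := by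
      rw [ofReal_inv]; field_simp
    rw [← normSq_eq_norm_sq, ← normSq_eq_norm_sq, ← normSq_eq_norm_sq, sub_neg_eq_add, h2]
    simp only [normSq_apply, add_re, add_im, mul_re, mul_im, ofReal_re, ofReal_im, conj_re,
      conj_im]
    field_simp
    ring
  rw [h1, GD.q, GD.disc]
  field_simp
  ring

theorem conn_q_iff (P : GD) (ha : P.a ≠ 0) (h : 0 < P.disc) (z : ℂ) :
    P.q z = 0 ↔ ‖z - (-(P.b / P.a))‖ = √P.disc / |P.a| := by
  rw [conn_q P ha z]
  have h0 : 0 ≤ √P.disc / |P.a| := by positivity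
  have h1 : P.a * ‖z - (-(P.b / P.a))‖ ^ 2 - P.disc / P.a = 0 ↔
      ‖z - (-(P.b / P.a))‖ ^ 2 = (√P.disc / |P.a|) ^ 2 := by
    rw [div_pow, Real.sq_sqrt h.le, sq_abs, sub_eq_zero, eq_div_iff (pow_ne_zero 2 ha),
      eq_div_iff ha]
    constructor
    · intro h; linear_combination h
    · intro h; linear_combination h
  rw [h1]
  exact pow_left_inj₀ (norm_nonneg _) h0 two_ne_zero

theorem gd_circle_inter_disk (P : GD) (h : 0 < P.disc) :
    IsPreconnected {z : ℂ | P.q z = 0 ∧ ‖z‖ < 1} := by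
  rcases eq_or_ne P.a 0 with ha | ha
  · have h1 : Convex ℝ {z : ℂ | P.q z = 0 ∧ ‖z‖ < 1} := by
      intro x hx y hy s t hs ht hst
      have hx1 := hx.1
      have hy1 := hy.1
      simp only [GD.q, ha, zero_mul, zero_add] at hx1 hy1
      refine ⟨?_, ?_⟩
      · simp only [GD.q, ha, zero_mul, zero_add]
        have h2 : (conj P.b * (s • x + t • y)).re =
            s * (conj P.b * x).re + t * (conj P.b * y).re := by
          simp only [real_smul, mul_re, mul_im, add_re, add_im, ofReal_re, ofReal_im]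
          ring
        rw [h2]
        linear_combination s * hx1 + t * hy1 - P.c * hst
      · have h3 := (convex_ball (0 : ℂ) 1) (x := x) (by simpa using hx.2) (y := y)
          (by simpa using hy.2) hs ht hst
        simpa using h3
    exact h1.isPreconnected
  · have h1 : {z : ℂ | P.q z = 0 ∧ ‖z‖ < 1} =
        {z : ℂ | ‖z - (-(P.b / P.a))‖ = √P.disc / |P.a| ∧
          (conj (((-2 * P.a : ℝ) : ℂ) * P.b) * z).re < P.a ^ 2 + P.a * P.c} := by
      ext z
      rw [mem_ofPred_eq, mem_ofPred_eq, ← conn_q_iff P ha h]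
      refine and_congr_right fun hq => ?_
      have h2 : (conj (((-2 * P.a : ℝ) : ℂ) * P.b) * z).re =
          -2 * P.a * (conj P.b * z).re := by
        rw [map_mul, conj_ofReal, mul_assoc, re_ofReal_mul]
      rw [h2]
      have h3 : -2 * P.a * (conj P.b * z).re = P.a ^ 2 * ‖z‖ ^ 2 + P.a * P.c := by
        rw [GD.q] at hq
        linear_combination (-P.a) * hq
      rw [h3]
      have h4 : 0 < P.a ^ 2 := by positivity
      have h5 : ‖z‖ < 1 ↔ ‖z‖ ^ 2 < 1 := by
        rw [sq_lt_one_iff₀ (norm_nonneg _)]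
      rw [h5]
      constructor
      · intro h6
        nlinarith
      · intro h6
        by_contra h7
        nlinarith
    rw [h1]
    exact sphere_halfplane_preconnected _ _ _ _

theorem circle_inter_gd (P : GD) : IsPreconnected {z : ℂ | ‖z‖ = 1 ∧ P.q z < 0} := by
  have h1 : {z : ℂ | ‖z‖ = 1 ∧ P.q z < 0} =
      {z : ℂ | ‖z - 0‖ = 1 ∧ (conj (((2 : ℝ) : ℂ) * P.b) * z).re < -P.a - P.c} := by
    ext z
    rw [mem_ofPred_eq, mem_ofPred_eq, sub_zero]
    refine and_congr_right fun hz => ?_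
    rw [map_mul, conj_ofReal, mul_assoc, re_ofReal_mul, GD.q, hz]
    constructor
    · intro h; linarith
    · intro h; linarith
  rw [h1]
  exact sphere_halfplane_preconnected _ _ _ _

theorem gd_circle_closure (P : GD) (h : 0 < P.disc) (ζ p : ℂ) (hζ : ‖ζ‖ = 1) (hq : P.q ζ = 0)
    (hp : ‖p‖ < 1) (hpq : P.q p = 0) : ζ ∈ closure {z : ℂ | P.q z = 0 ∧ ‖z‖ < 1} := by
  rcases eq_or_ne P.a 0 with ha | ha
  · have h1 : Tendsto (fun t : ℝ => (1 - t) • ζ + t • p) (𝓝[>] 0) (𝓝 ζ) := by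
      have h2 : Continuous fun t : ℝ => (1 - t) • ζ + t • p := by fun_prop
      have h3 := h2.tendsto 0
      simp only [sub_zero, one_smul, zero_smul, add_zero] at h3
      exact h3.mono_left nhdsWithin_le_nhds
    refine mem_closure_of_tendsto h1 ?_
    filter_upwards [Ioo_mem_nhdsGT (zero_lt_one' ℝ)] with t ht
    simp only [GD.q, ha, zero_mul, zero_add] at hq hpq
    refine ⟨?_, ?_⟩
    · simp only [GD.q, ha, zero_mul, zero_add]
      have h2 : (conj P.b * ((1 - t) • ζ + t • p)).re =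
          (1 - t) * (conj P.b * ζ).re + t * (conj P.b * p).re := by
        simp only [real_smul, mul_re, mul_im, add_re, add_im, ofReal_re, ofReal_im]
        ring
      rw [h2]
      linear_combination (1 - t) * hq + t * hpq
    · calc ‖(1 - t) • ζ + t • p‖ ≤ ‖(1 - t) • ζ‖ + ‖t • p‖ := norm_add_le _ _
        _ = (1 - t) + t * ‖p‖ := by
          rw [norm_smul, norm_smul, Real.norm_eq_abs, Real.norm_eq_abs, abs_of_pos (by linarith [ht.2]),
            abs_of_pos ht.1, hζ, mul_one]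
        _ < 1 := by nlinarith [ht.1]
  · set m : ℂ := -(P.b / P.a) with hm
    set R : ℝ := √P.disc / |P.a| with hR
    have hR0 : 0 < R := by positivity
    obtain ⟨u, hu, hmu⟩ := conn_unit m
    obtain ⟨t0, ht0, hζ'⟩ := conn_param m hu ((conn_q_iff P ha h ζ).1 hq)
    obtain ⟨t1, ht1, hp'⟩ := conn_param m hu ((conn_q_iff P ha h p).1 hpq)
    have hnorm : ∀ t : ℝ, ‖m - R * u * exp (t * I)‖ ^ 2 =
        ‖m‖ ^ 2 + R ^ 2 - 2 * R * ‖m‖ * Real.cos t := by
      intro t
      have h1 := conn_re m m hu hmu R t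
      have h2 : ‖m - R * u * exp (t * I) - m‖ ^ 2 = R ^ 2 := by
        rw [conn_norm m hu, sq_abs]
      set z := m - R * u * exp (t * I)
      have h3 : ‖z - m‖ ^ 2 = ‖z‖ ^ 2 - 2 * (conj m * z).re + ‖m‖ ^ 2 := by
        rw [← normSq_eq_norm_sq, ← normSq_eq_norm_sq, ← normSq_eq_norm_sq]
        simp only [normSq_apply, sub_re, sub_im, mul_re, conj_re, conj_im]
        ring
      have h4 : (conj m * m).re = ‖m‖ ^ 2 := by
        rw [← normSq_eq_norm_sq]
        simp only [normSq_apply, mul_re, conj_re, conj_im]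
        ring
      rw [h3, h1, h4] at h2
      linarith
    have h1 := hnorm t0
    have h2 := hnorm t1
    rw [← hζ', hζ] at h1
    rw [← hp'] at h2
    have h3 : ‖p‖ ^ 2 < 1 := by
      rw [sq_lt_one_iff₀ (norm_nonneg _)]
      exact hp
    have h4 : R * ‖m‖ * Real.cos t0 < R * ‖m‖ * Real.cos t1 := by nlinarith
    have hm0 : 0 < R * ‖m‖ := by
      rcases eq_or_lt_of_le (norm_nonneg m) with h5 | h5
      · rw [← h5] at h4
        simp at h4
      · exact mul_pos hR0 h5
    have h5 : Real.cos t0 < Real.cos t1 := lt_of_mul_lt_mul_left h4 hm0.le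
    have h6 : 0 < |t0| := by
      rw [abs_pos]
      rintro rfl
      rw [Real.cos_zero] at h5
      exact absurd (Real.cos_le_one t1) (not_le.2 h5)
    have h7 : Tendsto (fun s : ℝ => m - R * u * exp (((1 - s) * t0 : ℝ) * I)) (𝓝[>] 0) (𝓝 ζ) := by
      have h8 : Continuous fun s : ℝ => m - R * u * exp (((1 - s) * t0 : ℝ) * I) := by fun_prop
      have h9 := h8.tendsto 0
      simp only [sub_zero, one_mul] at h9
      rw [← hζ'] at h9
      exact h9.mono_left nhdsWithin_le_nhds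
    refine mem_closure_of_tendsto h7 ?_
    filter_upwards [Ioo_mem_nhdsGT (zero_lt_one' ℝ)] with s hs
    refine ⟨?_, ?_⟩
    · rw [conn_q_iff P ha h, ← hm, conn_norm m hu, abs_of_pos hR0]
    · rw [← sq_lt_one_iff₀ (norm_nonneg _), hnorm]
      have h8 : Real.cos t0 < Real.cos ((1 - s) * t0) := by
        rw [← Real.cos_abs t0, ← Real.cos_abs ((1 - s) * t0)]
        refine Real.cos_lt_cos_of_nonneg_of_le_pi (abs_nonneg _) (abs_le.2 ht0) ?_
        rw [abs_mul, abs_of_pos (by linarith [hs.2])]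
        nlinarith [hs.1]
      have h9 := mul_lt_mul_of_pos_left h8 hm0
      linarith

end Pool.Agent.H385
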