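import Pool.Agent.H385.Defs
import Pool.Agent.H385.Conn

open Complex Metric Set Filter Topology ComplexConjugate MeasureTheory
open scoped ContDiff ENNReal

namespace Pool.Agent.H385

/-- denominator of the reflection -/
noncomputable def kstep_D (P : GD) (z : ℂ) : ℂ := (P.a : ℂ) * conj z + conj P.b

/-- numerator of the reflection (up to sign) -/
noncomputable def kstep_N (P : GD) (z : ℂ) : ℂ := P.b * conj z + (P.c : ℂ)

theorem kstep_inv_eq (P : GD) (z : ℂ) : P.inv z = -kstep_N P z / kstep_D P z := rfl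

theorem kstep_norm_sq (w : ℂ) : ‖w‖ ^ 2 = w.re ^ 2 + w.im ^ 2 := by
  rw [← Complex.normSq_eq_norm_sq, Complex.normSq_apply]; ring

theorem kstep_id1 (P : GD) (z : ℂ) : ‖kstep_D P z‖ ^ 2 - ‖kstep_N P z‖ ^ 2 =
    (P.a - P.c) * P.q z + P.disc * (1 - ‖z‖ ^ 2) := by
  simp only [kstep_D, kstep_N, GD.q, GD.disc, kstep_norm_sq, add_re, add_im, mul_re, mul_im,
    conj_re, conj_im, ofReal_re, ofReal_im]
  ring

theorem kstep_id2 (P : GD) (z : ℂ) : ‖kstep_D P z‖ ^ 2 = P.a * P.q z + P.disc := by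
  simp only [kstep_D, GD.q, GD.disc, kstep_norm_sq, add_re, add_im, mul_re, mul_im,
    conj_re, conj_im, ofReal_re, ofReal_im]
  ring

theorem kstep_id3 (P : GD) (z : ℂ) : z * kstep_D P z + kstep_N P z = (P.q z : ℂ) := by
  apply Complex.ext
  · simp only [kstep_D, kstep_N, GD.q, kstep_norm_sq, add_re, add_im, mul_re, mul_im,
      conj_re, conj_im, ofReal_re, ofReal_im]
    ring
  · simp only [kstep_D, kstep_N, GD.q, add_re, add_im, mul_re, mul_im,
      conj_re, conj_im, ofReal_re, ofReal_im]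
    ring

theorem kstep_D_inv (P : GD) (z : ℂ) (hD : kstep_D P z ≠ 0) :
    kstep_D P (P.inv z) = (P.disc : ℂ) / conj (kstep_D P z) := by
  have hD' : conj (kstep_D P z) ≠ 0 := by simpa using hD
  rw [eq_div_iff hD', kstep_inv_eq]
  have : kstep_D P (-kstep_N P z / kstep_D P z) * conj (kstep_D P z) =
      -(P.a : ℂ) * conj (kstep_N P z) + conj P.b * conj (kstep_D P z) := by
    conv_lhs => rw [kstep_D]
    rw [map_div₀, map_neg]
    field_simp
  rw [this]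
  apply Complex.ext
  · simp only [kstep_D, kstep_N, GD.disc, kstep_norm_sq, add_re, add_im, mul_re, mul_im,
      conj_re, conj_im, ofReal_re, ofReal_im, neg_re, neg_im]
    ring
  · simp only [kstep_D, kstep_N, GD.disc, kstep_norm_sq, add_re, add_im, mul_re, mul_im,
      conj_re, conj_im, ofReal_re, ofReal_im, neg_re, neg_im]
    ring

theorem kstep_inv_inv (P : GD) (h : 0 < P.disc) (z : ℂ) (hD : kstep_D P z ≠ 0) :
    P.inv (P.inv z) = z := by
  have hD' : conj (kstep_D P z) ≠ 0 := by simpa using hD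
  have hd : (P.disc : ℂ) ≠ 0 := by exact_mod_cast h.ne'
  rw [kstep_inv_eq P (P.inv z), kstep_D_inv P z hD]
  have hN : kstep_N P (P.inv z) * conj (kstep_D P z) = - z * (P.disc : ℂ) := by
    rw [kstep_inv_eq]
    have : kstep_N P (-kstep_N P z / kstep_D P z) * conj (kstep_D P z) =
        -P.b * conj (kstep_N P z) + P.c * conj (kstep_D P z) := by
      conv_lhs => rw [kstep_N]
      rw [map_div₀, map_neg]
      field_simp
    rw [this]
    apply Complex.ext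
    · simp only [kstep_D, kstep_N, GD.disc, kstep_norm_sq, add_re, add_im, mul_re, mul_im,
        conj_re, conj_im, ofReal_re, ofReal_im, neg_re, neg_im]
      ring
    · simp only [kstep_D, kstep_N, GD.disc, kstep_norm_sq, add_re, add_im, mul_re, mul_im,
        conj_re, conj_im, ofReal_re, ofReal_im, neg_re, neg_im]
      ring
  field_simp
  rw [hN]; ring

theorem kstep_q_inv (P : GD) (z : ℂ) (hD : kstep_D P z ≠ 0) :
    P.q (P.inv z) * ‖kstep_D P z‖ ^ 2 = - P.disc * P.q z := by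
  have hD2 : ‖kstep_D P z‖ ^ 2 ≠ 0 := by
    have := norm_pos_iff.mpr hD
    positivity
  have h1 : P.inv z * kstep_D P z = - kstep_N P z := by
    rw [kstep_inv_eq]; field_simp
  have h2 : P.q (P.inv z) * ‖kstep_D P z‖ ^ 2 =
      P.a * ‖kstep_N P z‖ ^ 2 - 2 * (conj P.b * kstep_N P z * conj (kstep_D P z)).re +
        P.c * ‖kstep_D P z‖ ^ 2 := by
    rw [GD.q, add_mul, add_mul]
    congr 1
    congr 1
    · rw [mul_assoc, ← mul_pow, ← norm_mul, h1, norm_neg]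
    · have h3 : (((conj P.b * P.inv z).re * ‖kstep_D P z‖ ^ 2 : ℝ)) =
          (conj P.b * P.inv z * (kstep_D P z * conj (kstep_D P z))).re := by
        rw [Complex.mul_conj, Complex.normSq_eq_norm_sq, Complex.re_mul_ofReal]
      have h4 : conj P.b * P.inv z * (kstep_D P z * conj (kstep_D P z)) =
          -(conj P.b * kstep_N P z * conj (kstep_D P z)) := by
        calc _ = conj P.b * (P.inv z * kstep_D P z) * conj (kstep_D P z) := by ring
          _ = _ := by rw [h1]; ring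
      rw [h4, neg_re] at h3
      linarith
  rw [h2]
  simp only [kstep_D, kstep_N, GD.q, GD.disc, kstep_norm_sq, add_re, add_im, mul_re, mul_im,
    conj_re, conj_im, ofReal_re, ofReal_im]
  ring

/-- the region where the reflection is defined and lands in the unit disk -/
theorem kstep_region (P : GD) (z : ℂ)
    (h : 0 < (P.a - P.c) * P.q z + P.disc * (1 - ‖z‖ ^ 2)) :
    kstep_D P z ≠ 0 ∧ ‖P.inv z‖ < 1 := by
  rw [← kstep_id1] at h
  have h1 : ‖kstep_N P z‖ ^ 2 < ‖kstep_D P z‖ ^ 2 := by linarith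
  have h2 : ‖kstep_N P z‖ < ‖kstep_D P z‖ :=
    lt_of_pow_lt_pow_left₀ 2 (norm_nonneg _) h1
  have h3 : 0 < ‖kstep_D P z‖ := lt_of_le_of_lt (norm_nonneg _) h2
  refine ⟨norm_pos_iff.mp h3, ?_⟩
  rw [kstep_inv_eq, norm_div, norm_neg, div_lt_one h3]
  exact h2

theorem kstep_inv_fix (P : GD) (h : 0 < P.disc) (z : ℂ) (hq : P.q z = 0) :
    kstep_D P z ≠ 0 ∧ P.inv z = z := by
  have h2 := kstep_id2 P z
  rw [hq, mul_zero, zero_add] at h2
  have hD : kstep_D P z ≠ 0 := by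
    intro h0
    rw [h0, norm_zero] at h2
    norm_num at h2
    linarith
  refine ⟨hD, ?_⟩
  have h3 := kstep_id3 P z
  rw [hq] at h3
  rw [kstep_inv_eq, div_eq_iff hD]
  push_cast at h3
  linear_combination -h3

theorem kstep_D_cont (P : GD) : Continuous (kstep_D P) := by
  unfold kstep_D; fun_prop

theorem kstep_q_cont (P : GD) : Continuous P.q := by
  unfold GD.q; fun_prop

theorem kstep_inv_cont (P : GD) (z : ℂ) (hD : kstep_D P z ≠ 0) : ContinuousAt P.inv z := by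
  have : P.inv = fun z => -kstep_N P z / kstep_D P z := rfl
  rw [this]
  apply ContinuousAt.div _ _ hD
  · unfold kstep_N; fun_prop
  · exact (kstep_D_cont P).continuousAt

/-- reflection of analytic functions -/
theorem kstep_refl_an (P : GD) (z : ℂ) (hD : kstep_D P z ≠ 0) (f : ℂ → ℂ)
    (hf : AnalyticAt ℂ f (P.inv z)) : AnalyticAt ℂ (fun w => conj (f (P.inv w))) z := by
  rw [Complex.analyticAt_iff_eventually_differentiableAt]
  have hf' := (Complex.analyticAt_iff_eventually_differentiableAt.mp hf)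
  have h1 : ∀ᶠ w in 𝓝 z, DifferentiableAt ℂ f (P.inv w) :=
    (kstep_inv_cont P z hD).eventually hf'
  have h2 : ∀ᶠ w in 𝓝 z, kstep_D P w ≠ 0 :=
    (kstep_D_cont P).continuousAt.eventually_ne hD
  filter_upwards [h1, h2] with w hw1 hw2
  have h3 : (fun w => conj (f (P.inv w))) =
      conj ∘ (fun u => f (-(P.b * u + (P.c : ℂ)) / ((P.a : ℂ) * u + conj P.b))) ∘ conj := by
    funext w; rfl
  rw [h3]
  have h4 : DifferentiableAt ℂ
      (fun u => f (-(P.b * u + (P.c : ℂ)) / ((P.a : ℂ) * u + conj P.b))) (conj w) := by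
    apply DifferentiableAt.comp (conj w) (g := f)
      (f := fun u => -(P.b * u + (P.c : ℂ)) / ((P.a : ℂ) * u + conj P.b))
    · exact hw1
    · apply DifferentiableAt.div
      · fun_prop
      · fun_prop
      · exact hw2
  have h5 := DifferentiableAt.conj_conj h4
  simpa using h5

/-- identity theorem: the germs agree along a preconnected set -/
theorem kstep_prop {s : Set ℂ} (hs : IsPreconnected s) {f g : ℂ → ℂ}
    (hf : ∀ x ∈ s, AnalyticAt ℂ f x) (hg : ∀ x ∈ s, AnalyticAt ℂ g x) {x₀ : ℂ} (hx₀ : x₀ ∈ s)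
    (h : f =ᶠ[𝓝 x₀] g) : ∀ x ∈ s, f =ᶠ[𝓝 x] g := by
  have hu : IsOpen {x : ℂ | f =ᶠ[𝓝 x] g} := isOpen_setOfPred_eventually_nhds
  have key := hs.subset_of_closure_inter_subset hu ⟨x₀, hx₀, h⟩ ?_
  · exact key
  · rintro x ⟨hx, hxs⟩
    have h1 : x ∈ closure ({x : ℂ | f =ᶠ[𝓝 x] g} ∩ {x}ᶜ) := by
      have h2 : {x : ℂ | f =ᶠ[𝓝 x] g} ⊆ closure ({x : ℂ | f =ᶠ[𝓝 x] g} ∩ {x}ᶜ) :=
        (dense_compl_singleton x).open_subset_closure_inter hu
      have h3 := closure_mono h2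
      rw [closure_closure] at h3
      exact h3 hx
    rw [mem_closure_iff_frequently] at h1
    have h4 : ∃ᶠ z in 𝓝[≠] x, f z = g z := by
      rw [frequently_nhdsWithin_iff]
      refine h1.mono ?_
      rintro z ⟨hz1, hz2⟩
      exact ⟨Filter.Eventually.self_of_nhds (p := fun z => f z = g z) hz1, hz2⟩
    exact ((hf x hxs).frequently_eq_iff_eventually_eq (hg x hxs)).mp h4

/-- the local model of `W` near the circle -/
noncomputable def kstep_Y (lam : ℝ) (P : GD) (F : ℂ → ℂ) (z : ℂ) : ℂ :=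
  (F z + (lam : ℂ) * conj (F (P.inv z))) / (1 - (lam : ℂ) ^ 2)

theorem kstep_Y_an (lam : ℝ) (P : GD) (h : 0 < P.disc) (F : ℂ → ℂ) (z : ℂ) (hq : P.q z = 0)
    (hF : AnalyticAt ℂ F z) : AnalyticAt ℂ (kstep_Y lam P F) z := by
  obtain ⟨hD, hfix⟩ := kstep_inv_fix P h z hq
  have h1 : AnalyticAt ℂ (fun w => conj (F (P.inv w))) z :=
    kstep_refl_an P z hD F (by rw [hfix]; exact hF)
  have h2 : AnalyticAt ℂ
      (fun z => (F z + (lam : ℂ) * conj (F (P.inv z))) / (1 - (lam : ℂ) ^ 2)) z :=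
    (hF.add (analyticAt_const.mul h1)).div_const
  exact h2

theorem kstep_W_an {W : ℂ → ℂ} (hW : DifferentiableOn ℂ W (ball 0 1)) (z : ℂ) (hz : ‖z‖ < 1) :
    AnalyticAt ℂ W z :=
  hW.analyticAt (isOpen_ball.mem_nhds (by simpa using hz))

/-- Step 1 -/
theorem kstep_step1 {lam : ℝ} {ι : Type} {O : Set ℂ} {P : ι → GD}
    {e : ℂ → ℂ} {F : ι → ℂ → ℂ} (hs : Sys lam O P e F) {W : ℂ → ℂ}
    (hW : DifferentiableOn ℂ W (ball 0 1)) (i : ι) (hm : Matched W e (P i)) :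
    ∃ c₀ : ℂ, ∀ p : ℂ, ‖p‖ < 1 → (P i).q p = 0 →
      W =ᶠ[𝓝 p] (fun z => kstep_Y lam (P i) (F i) z + c₀) := by
  obtain ⟨p₀, hp₀, hq₀, he₀⟩ := hm
  have hrel := hs.rel i p₀ hq₀
  refine ⟨W p₀ - kstep_Y lam (P i) (F i) p₀, ?_⟩
  have hpre := gd_circle_inter_disk (P i) (hs.disc i)
  have h0 : W =ᶠ[𝓝 p₀]
      (fun z => kstep_Y lam (P i) (F i) z + (W p₀ - kstep_Y lam (P i) (F i) p₀)) := by
    have h1 : ∀ᶠ z in 𝓝 p₀,
        HasDerivAt (fun z => W z - kstep_Y lam (P i) (F i) z) 0 z := by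
      filter_upwards [he₀, hrel] with z hz1 hz2
      have h3 := hz1.sub hz2
      rw [sub_self] at h3
      exact h3
    obtain ⟨ρ, hρ, hball⟩ := Metric.eventually_nhds_iff_ball.mp h1
    filter_upwards [ball_mem_nhds p₀ hρ] with z hz
    have h2 : (fun z => W z - kstep_Y lam (P i) (F i) z) z =
        (fun z => W z - kstep_Y lam (P i) (F i) z) p₀ := by
      apply (convex_ball p₀ ρ).is_const_of_fderivWithin_eq_zero (𝕜 := ℂ)
        (f := fun z => W z - kstep_Y lam (P i) (F i) z)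
      · intro w hw
        exact (hball w hw).differentiableAt.differentiableWithinAt
      · intro w hw
        rw [fderivWithin_of_isOpen isOpen_ball hw]
        ext
        simpa using (hball w hw).deriv
      · exact hz
      · exact mem_ball_self hρ
    simp only at h2
    linear_combination h2
  intro p hp hq
  refine kstep_prop hpre (f := W) (g := fun z => kstep_Y lam (P i) (F i) z +
    (W p₀ - kstep_Y lam (P i) (F i) p₀)) ?_ ?_ (x₀ := p₀) ⟨hq₀, hp₀⟩ h0 p ⟨hq, hp⟩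
  · rintro x ⟨hx1, hx2⟩
    exact kstep_W_an hW x hx2
  · rintro x ⟨hx1, hx2⟩
    exact (kstep_Y_an lam (P i) (hs.disc i) (F i) x hx1 (hs.F_an i x hx1.le)).add
      analyticAt_const

/-- near a point of the circle in the closed disk -/
theorem kstep_bdry {lam : ℝ} {ι : Type} {O : Set ℂ} {P : ι → GD}
    {e : ℂ → ℂ} {F : ι → ℂ → ℂ} (hs : Sys lam O P e F) {W : ℂ → ℂ}
    (hW : DifferentiableOn ℂ W (ball 0 1)) (i : ι) (hm : Matched W e (P i)) (p : ℂ)
    (hp : ‖p‖ ≤ 1) (hq : (P i).q p = 0) : BdEq W e p ∧ Reg W p := by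
  obtain ⟨c₀, hc₀⟩ := kstep_step1 hs hW i hm
  obtain ⟨p₀, hp₀, hq₀, he₀⟩ := hm
  have hYan := kstep_Y_an lam (P i) (hs.disc i) (F i) p hq (hs.F_an i p hq.le)
  have h1 : ∀ᶠ z in 𝓝 p, AnalyticAt ℂ (kstep_Y lam (P i) (F i)) z ∧
      HasDerivAt (kstep_Y lam (P i) (F i)) (e z) z :=
    hYan.eventually_analyticAt.and (hs.rel i p hq)
  obtain ⟨ρ, hρ, hball⟩ := Metric.eventually_nhds_iff_ball.mp h1
  -- a point of the circle in the small ball
  have h2 : ∃ p₁ ∈ ball p ρ, (P i).q p₁ = 0 ∧ ‖p₁‖ < 1 := by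
    rcases hp.lt_or_eq with hlt | heq
    · exact ⟨p, mem_ball_self hρ, hq, hlt⟩
    · have h3 := gd_circle_closure (P i) (hs.disc i) p p₀ heq hq hp₀ hq₀
      rw [mem_closure_iff_nhds] at h3
      obtain ⟨p₁, hp₁, hp₂⟩ := h3 (ball p ρ) (ball_mem_nhds p hρ)
      exact ⟨p₁, hp₁, hp₂⟩
  obtain ⟨p₁, hp₁, hq₁, hn₁⟩ := h2
  have hconv : IsPreconnected (ball p ρ ∩ ball (0 : ℂ) 1) :=
    ((convex_ball p ρ).inter (convex_ball 0 1)).isPreconnected
  have h4 : ∀ x ∈ ball p ρ ∩ ball (0 : ℂ) 1,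
      W =ᶠ[𝓝 x] (fun z => kstep_Y lam (P i) (F i) z + c₀) := by
    refine kstep_prop hconv ?_ ?_ (x₀ := p₁) ⟨hp₁, by simpa using hn₁⟩ (hc₀ p₁ hn₁ hq₁)
    · rintro x ⟨hx1, hx2⟩
      exact kstep_W_an hW x (by simpa using hx2)
    · rintro x ⟨hx1, hx2⟩
      exact (hball x hx1).1.add analyticAt_const
  constructor
  · rw [BdEq]
    filter_upwards [ball_mem_nhds p hρ] with z hz hz1
    have h5 := h4 z ⟨hz, by simpa using hz1⟩
    have h6 : HasDerivAt (fun z => kstep_Y lam (P i) (F i) z + c₀) (e z) z :=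
      (hball z hz).2.add_const c₀
    exact h6.congr_of_eventuallyEq h5
  · refine ⟨ρ, hρ, fun z => kstep_Y lam (P i) (F i) z + c₀, ?_, ?_⟩
    · intro z hz
      exact ((hball z hz).1.differentiableAt.add_const c₀).differentiableWithinAt
    · intro z hz hz1
      exact (h4 z ⟨hz, hz1⟩).self_of_nhds

/-- the two reflection relations near the circle -/
theorem kstep_star {lam : ℝ} (h1 : |lam| < 1) {ι : Type} {O : Set ℂ} {P : ι → GD}
    {e : ℂ → ℂ} {F : ι → ℂ → ℂ} (hs : Sys lam O P e F) {W : ℂ → ℂ}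
    (hW : DifferentiableOn ℂ W (ball 0 1)) (i : ι) (hm : Matched W e (P i)) :
    ∃ c₁ : ℂ, ∀ p : ℂ, ‖p‖ < 1 → (P i).q p = 0 →
      ((fun z => W z - (lam : ℂ) * conj (W ((P i).inv z))) =ᶠ[𝓝 p] (fun z => F i z + c₁)) ∧
      ((fun z => conj (W ((P i).inv z)) - (lam : ℂ) * W z) =ᶠ[𝓝 p]
        (fun z => conj (F i ((P i).inv z)) + conj c₁)) := by
  obtain ⟨c₀, hc₀⟩ := kstep_step1 hs hW i hm
  refine ⟨c₀ - (lam : ℂ) * conj c₀, ?_⟩
  intro p hp hq
  obtain ⟨hD, hfix⟩ := kstep_inv_fix (P i) (hs.disc i) p hq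
  have hW1 := hc₀ p hp hq
  have hcont := kstep_inv_cont (P i) p hD
  have hW2 : ∀ᶠ z in 𝓝 p, W ((P i).inv z) = kstep_Y lam (P i) (F i) ((P i).inv z) + c₀ := by
    have h2 : Tendsto (P i).inv (𝓝 p) (𝓝 p) := by
      have := hcont.tendsto
      rwa [hfix] at this
    exact h2.eventually hW1
  have hD2 : ∀ᶠ z in 𝓝 p, kstep_D (P i) z ≠ 0 :=
    (kstep_D_cont (P i)).continuousAt.eventually_ne hD
  have hlam : (1 - (lam : ℂ) ^ 2) ≠ 0 := by
    have h3 : lam ^ 2 < 1 := by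
      rw [← sq_abs]
      have := abs_nonneg lam
      nlinarith
    have h4 : (1 - lam ^ 2 : ℝ) ≠ 0 := by linarith
    exact_mod_cast h4
  have hlamc : conj (1 - (lam : ℂ) ^ 2) = 1 - (lam : ℂ) ^ 2 := by simp
  constructor
  · filter_upwards [hW1, hW2, hD2] with z hz1 hz2 hz3
    rw [hz1, hz2, kstep_Y, kstep_Y, kstep_inv_inv (P i) (hs.disc i) z hz3]
    simp only [map_add, map_div₀, map_mul, hlamc, conj_ofReal, conj_conj]
    field_simp
    ring
  · filter_upwards [hW1, hW2, hD2] with z hz1 hz2 hz3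
    rw [hz1, hz2, kstep_Y, kstep_Y, kstep_inv_inv (P i) (hs.disc i) z hz3]
    simp only [map_add, map_div₀, map_mul, hlamc, conj_ofReal, conj_conj, map_sub]
    field_simp
    ring

/-- Step 3 -/
theorem kstep_le {lam : ℝ} (h1 : |lam| < 1) {ι : Type} {O : Set ℂ} {P : ι → GD}
    {e : ℂ → ℂ} {F : ι → ℂ → ℂ} (hs : Sys lam O P e F) {W : ℂ → ℂ}
    (hW : DifferentiableOn ℂ W (ball 0 1)) (i : ι) (hm : Matched W e (P i))
    (hac : (P i).a ≤ (P i).c) :
    ∃ c₁ : ℂ, ∀ z : ℂ, ‖z‖ < 1 → (P i).q z ≤ 0 →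
      W z - (lam : ℂ) * conj (W ((P i).inv z)) = F i z + c₁ := by
  obtain ⟨c₁, hc₁⟩ := kstep_star h1 hs hW i hm
  obtain ⟨p₀, hp₀, hq₀, he₀⟩ := hm
  refine ⟨c₁, ?_⟩
  have hconv : Convex ℝ {z : ℂ | ‖z‖ < 1 ∧ (P i).q z ≤ 0} := by
    have hq : ConvexOn ℝ univ (P i).q := by
      have e1 : ConvexOn ℝ univ (fun z : ℂ => (P i).a * ‖z‖ ^ 2) := by
        have e2 : ConvexOn ℝ univ (fun z : ℂ => ‖z‖ ^ 2) :=
          (convexOn_univ_norm).pow (fun _ _ => norm_nonneg _) 2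
        exact e2.smul (hs.anonneg i)
      have e3 : ConvexOn ℝ univ (fun z : ℂ => 2 * (conj (P i).b * z).re) := by
        refine ⟨convex_univ, ?_⟩
        intro x _ y _ s t _ _ _
        simp only [smul_eq_mul, mul_re, conj_re, conj_im, add_re, add_im, real_smul, mul_im,
          ofReal_re, ofReal_im]
        apply le_of_eq
        ring
      exact (e1.add e3).add (convexOn_const _ convex_univ)
    have h3 := (convex_ball (0 : ℂ) 1).inter (hq.convex_le 0)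
    have heq : {z : ℂ | ‖z‖ < 1 ∧ (P i).q z ≤ 0} =
        ball (0 : ℂ) 1 ∩ {x | x ∈ (univ : Set ℂ) ∧ (P i).q x ≤ 0} := by
      ext z
      simp
    rw [heq]
    exact h3
  have hreg : ∀ z : ℂ, ‖z‖ < 1 → (P i).q z ≤ 0 →
      kstep_D (P i) z ≠ 0 ∧ ‖(P i).inv z‖ < 1 := by
    intro z hz hqz
    apply kstep_region
    have h4 : 0 ≤ ((P i).a - (P i).c) * (P i).q z :=
      mul_nonneg_of_nonpos_of_nonpos (by linarith) hqz
    have h5 : 0 < (P i).disc * (1 - ‖z‖ ^ 2) := by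
      apply mul_pos (hs.disc i)
      have := norm_nonneg z
      nlinarith
    linarith
  intro z hz hqz
  have key := kstep_prop hconv.isPreconnected
    (f := fun z => W z - (lam : ℂ) * conj (W ((P i).inv z))) (g := fun z => F i z + c₁)
    ?_ ?_ (x₀ := p₀) ⟨hp₀, hq₀.le⟩ (hc₁ p₀ hp₀ hq₀).1 z ⟨hz, hqz⟩
  · exact key.self_of_nhds
  · rintro x ⟨hx1, hx2⟩
    obtain ⟨hD, hn⟩ := hreg x hx1 hx2
    exact (kstep_W_an hW x hx1).sub
      (analyticAt_const.mul (kstep_refl_an (P i) x hD W (kstep_W_an hW _ hn)))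
  · rintro x ⟨hx1, hx2⟩
    exact (hs.F_an i x hx2).add analyticAt_const

theorem kstep_inside {lam : ℝ} (h1 : |lam| < 1) {ι : Type} {O : Set ℂ} {P : ι → GD}
    {e : ℂ → ℂ} {F : ι → ℂ → ℂ} (hs : Sys lam O P e F) {W : ℂ → ℂ}
    (hW : DifferentiableOn ℂ W (ball 0 1)) (i : ι) (hm : Matched W e (P i))
    (hac : (P i).a ≤ (P i).c) (ζ : ℂ) (hq : (P i).q ζ < 0) :
    Reg (fun z => W z - (lam : ℂ) * conj (W ((P i).inv z))) ζ := by
  obtain ⟨c₁, hc₁⟩ := kstep_le h1 hs hW i hm hac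
  have h2 : ∀ᶠ z in 𝓝 ζ, AnalyticAt ℂ (F i) z ∧ (P i).q z < 0 :=
    (hs.F_an i ζ hq.le).eventually_analyticAt.and
      ((kstep_q_cont (P i)).continuousAt.eventually_lt continuousAt_const hq)
  obtain ⟨ρ, hρ, hball⟩ := Metric.eventually_nhds_iff_ball.mp h2
  refine ⟨ρ, hρ, fun z => F i z + c₁, ?_, ?_⟩
  · intro z hz
    exact ((hball z hz).1.differentiableAt.add_const c₁).differentiableWithinAt
  · intro z hz hz1
    exact hc₁ z (by simpa using hz1) (hball z hz).2.le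

theorem K_bdEq {lam : ℝ} (h0 : lam ≠ 0) (h1 : |lam| < 1) {ι : Type} {O : Set ℂ} {P : ι → GD}
    {e : ℂ → ℂ} {F : ι → ℂ → ℂ} (hs : Sys lam O P e F) {W : ℂ → ℂ}
    (hW : DifferentiableOn ℂ W (ball 0 1)) (i : ι) (hm : Matched W e (P i)) (p : ℂ)
    (hp : ‖p‖ ≤ 1) (hq : (P i).q p = 0) : BdEq W e p :=
  (kstep_bdry hs hW i hm p hp hq).1

theorem K_lt {lam : ℝ} (h0 : lam ≠ 0) (h1 : |lam| < 1) {ι : Type} {O : Set ℂ} {P : ι → GD}
    {e : ℂ → ℂ} {F : ι → ℂ → ℂ} (hs : Sys lam O P e F) {W : ℂ → ℂ}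
    (hW : DifferentiableOn ℂ W (ball 0 1)) (i : ι) (hm : Matched W e (P i))
    (hac : (P i).a < (P i).c) (ζ : ℂ) (hζ : ‖ζ‖ = 1) (hq : (P i).q ζ < 0) : Reg W ζ := by
  obtain ⟨ρ, hρ, g, hg, hgW⟩ := kstep_inside h1 hs hW i hm hac.le ζ hq
  have hreg : kstep_D (P i) ζ ≠ 0 ∧ ‖(P i).inv ζ‖ < 1 := by
    apply kstep_region
    have h4 : 0 < ((P i).a - (P i).c) * (P i).q ζ :=
      mul_pos_of_neg_of_neg (by linarith) hq
    rw [hζ]; linarith
  have hr := kstep_refl_an (P i) ζ hreg.1 W (kstep_W_an hW _ hreg.2)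
  obtain ⟨ρ', hρ', hball⟩ := Metric.eventually_nhds_iff_ball.mp hr.eventually_analyticAt
  refine ⟨min ρ ρ', lt_min hρ hρ',
    fun z => g z + (lam : ℂ) * conj (W ((P i).inv z)), ?_, ?_⟩
  · intro z hz
    have hz1 : z ∈ ball ζ ρ := ball_subset_ball (min_le_left _ _) hz
    have hz2 : z ∈ ball ζ ρ' := ball_subset_ball (min_le_right _ _) hz
    have hgz : DifferentiableAt ℂ g z := (hg z hz1).differentiableAt (isOpen_ball.mem_nhds hz1)
    exact (hgz.add ((hball z hz2).differentiableAt.const_mul (lam : ℂ))).differentiableWithinAt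
  · intro z hz hz0
    have hz1 : z ∈ ball ζ ρ := ball_subset_ball (min_le_left _ _) hz
    have := hgW z hz1 hz0
    simp only at this ⊢
    rw [← this]; ring

theorem kstep_gt_region {lam : ℝ} {ι : Type} {O : Set ℂ} {P : ι → GD}
    {e : ℂ → ℂ} {F : ι → ℂ → ℂ} (hs : Sys lam O P e F) (i : ι) (z : ℂ)
    (h : 0 < ((P i).a - (P i).c) * (P i).q z + (P i).disc * (1 - ‖z‖ ^ 2))
    (hq : 0 ≤ (P i).q z) : AnalyticAt ℂ (fun w => conj (F i ((P i).inv w))) z := by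
  obtain ⟨hD, hn⟩ := kstep_region (P i) z h
  apply kstep_refl_an (P i) z hD
  apply hs.F_an i
  have h2 := kstep_q_inv (P i) z hD
  have h3 : 0 < ‖kstep_D (P i) z‖ ^ 2 := by
    have := norm_pos_iff.mpr hD
    positivity
  have h4 := hs.disc i
  by_contra hcon
  push Not at hcon
  nlinarith [mul_pos hcon h3, mul_nonneg h4.le hq]

theorem K_gt {lam : ℝ} (h0 : lam ≠ 0) (h1 : |lam| < 1) {ι : Type} {O : Set ℂ} {P : ι → GD}
    {e : ℂ → ℂ} {F : ι → ℂ → ℂ} (hs : Sys lam O P e F) {W : ℂ → ℂ}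
    (hW : DifferentiableOn ℂ W (ball 0 1)) (i : ι) (hm : Matched W e (P i))
    (hac : (P i).c < (P i).a) (ζ : ℂ) (hζ : ‖ζ‖ = 1) (hq : 0 < (P i).q ζ) : Reg W ζ := by
  obtain ⟨c₁, hc₁⟩ := kstep_star h1 hs hW i hm
  have ha : 0 < (P i).a := lt_of_le_of_lt (hs.cnonneg i) hac
  have hdisc := hs.disc i
  -- the geometry
  set a := (P i).a with ha_def
  set b := (P i).b with hb_def
  set c := (P i).c with hc_def
  set m : ℂ := -b / (a : ℂ) with hm_def
  set R : ℝ := Real.sqrt ((P i).disc) / a with hR_def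
  have hRpos : 0 < R := div_pos (Real.sqrt_pos.mpr hdisc) ha
  have hR2 : a ^ 2 * R ^ 2 = (P i).disc := by
    rw [hR_def, div_pow, Real.sq_sqrt hdisc.le]; field_simp
  have haC : (a : ℂ) ≠ 0 := by exact_mod_cast ha.ne'
  have ham : (a : ℂ) * m = -b := by rw [hm_def]; field_simp
  have hqform : ∀ z : ℂ, (P i).q z = a * (‖z - m‖ ^ 2 - R ^ 2) := by
    intro z
    have hb : b = -((a : ℂ) * m) := by rw [ham]; ring
    have h3 : a * (a * (‖z - m‖ ^ 2 - R ^ 2)) = a * (P i).q z := by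
      have h5 : a * (a * (‖z - m‖ ^ 2 - R ^ 2)) = a ^ 2 * ‖z - m‖ ^ 2 - (P i).disc := by
        rw [← hR2]; ring
      rw [h5, GD.q, GD.disc, ← ha_def, ← hb_def, ← hc_def, hb]
      simp only [kstep_norm_sq, mul_re, mul_im, conj_re, conj_im, ofReal_re, ofReal_im, neg_re,
        neg_im, sub_re, sub_im]
      ring
    exact (mul_left_cancel₀ ha.ne' h3).symm
  have hmR : ‖m‖ ^ 2 < 1 + R ^ 2 := by
    have h3 : a ^ 2 * ‖m‖ ^ 2 = ‖b‖ ^ 2 := by
      have : ‖(a : ℂ) * m‖ = ‖b‖ := by rw [ham, norm_neg]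
      rw [norm_mul, Complex.norm_real, Real.norm_eq_abs, abs_of_pos ha] at this
      rw [← this]; ring
    have h4 : (P i).disc = ‖b‖ ^ 2 - a * c := rfl
    have h5 : a ^ 2 * ‖m‖ ^ 2 < a ^ 2 * (1 + R ^ 2) := by
      rw [h3, mul_add, hR2, h4]
      nlinarith
    exact lt_of_mul_lt_mul_left h5 (by positivity)
  set s₁ : ℝ := ‖ζ - m‖ with hs₁_def
  have hs₁R : R < s₁ := by
    rw [hqform ζ] at hq
    have h3 : R ^ 2 < s₁ ^ 2 := by
      by_contra hcon
      push Not at hcon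
      nlinarith
    exact lt_of_pow_lt_pow_left₀ 2 (norm_nonneg _) h3
  have hs₁ : 0 < s₁ := hRpos.trans hs₁R
  -- the segment
  set L : ℝ → ℂ := fun s => m + (s : ℂ) * (ζ - m) with hL_def
  have hLq : ∀ s : ℝ, (P i).q (L s) = a * (s ^ 2 * s₁ ^ 2 - R ^ 2) := by
    intro s
    rw [hqform, hL_def]
    simp only [add_sub_cancel_left, norm_mul, Complex.norm_real, Real.norm_eq_abs, mul_pow,
      sq_abs]
    rfl
  have hLn : ∀ s : ℝ, ‖L s‖ ^ 2 - 1 = (1 - s) * (‖m‖ ^ 2 - 1 - s * s₁ ^ 2) := by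
    intro s
    have h3 : ‖ζ‖ ^ 2 = 1 := by rw [hζ]; norm_num
    rw [hs₁_def, hL_def]
    rw [kstep_norm_sq] at h3
    simp only [kstep_norm_sq, mul_re, mul_im, ofReal_re, ofReal_im, sub_re, sub_im, add_re,
      add_im]
    linear_combination s * h3
  have hLlt : ∀ s : ℝ, R / s₁ ≤ s → s < 1 → ‖L s‖ < 1 := by
    intro s hs1 hs2
    have h3 := hLn s
    have h4 : R ≤ s * s₁ := by rwa [div_le_iff₀ hs₁] at hs1
    have h5 : R ^ 2 < s * s₁ ^ 2 := by nlinarith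
    have h6 : (1 - s) * (‖m‖ ^ 2 - 1 - s * s₁ ^ 2) < 0 :=
      mul_neg_of_pos_of_neg (by linarith) (by linarith)
    have h7 : ‖L s‖ ^ 2 < 1 ^ 2 := by linarith
    exact lt_of_pow_lt_pow_left₀ 2 zero_le_one h7
  have hLqn : ∀ s : ℝ, R / s₁ ≤ s → 0 ≤ (P i).q (L s) := by
    intro s hs1
    rw [hLq]
    have h4 : R ≤ s * s₁ := by rwa [div_le_iff₀ hs₁] at hs1
    apply mul_nonneg ha.le
    nlinarith
  have hRs : R / s₁ < 1 := by rwa [div_lt_one hs₁]
  have hRs0 : 0 < R / s₁ := div_pos hRpos hs₁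
  have hq' : (P i).q (L (R / s₁)) = 0 := by
    rw [hLq]; field_simp; ring
  -- analyticity on the region
  set G1 : ℂ → ℂ := fun z => conj (W ((P i).inv z)) - (lam : ℂ) * W z with hG1
  set G2 : ℂ → ℂ := fun z => conj (F i ((P i).inv z)) + conj c₁ with hG2
  have hposn : ∀ z : ℂ, ‖z‖ < 1 → 0 ≤ (P i).q z →
      0 < ((P i).a - (P i).c) * (P i).q z + (P i).disc * (1 - ‖z‖ ^ 2) := by
    intro z hz hqz
    have h4 : 0 ≤ ((P i).a - (P i).c) * (P i).q z := mul_nonneg (by linarith) hqz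
    have h5 : 0 < (P i).disc * (1 - ‖z‖ ^ 2) := by
      apply mul_pos hdisc
      have := norm_nonneg z
      nlinarith
    linarith
  have hG1an : ∀ z : ℂ, ‖z‖ < 1 → 0 ≤ (P i).q z → AnalyticAt ℂ G1 z := by
    intro z hz hqz
    obtain ⟨hD, hn⟩ := kstep_region (P i) z (hposn z hz hqz)
    exact (kstep_refl_an (P i) z hD W (kstep_W_an hW _ hn)).sub
      (analyticAt_const.mul (kstep_W_an hW z hz))
  have hG2an : ∀ z : ℂ, ‖z‖ < 1 → 0 ≤ (P i).q z → AnalyticAt ℂ G2 z := by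
    intro z hz hqz
    exact (kstep_gt_region hs i z (hposn z hz hqz) hqz).add analyticAt_const
  -- propagate along the segment
  have hseg : IsPreconnected (L '' Ico (R / s₁) 1) := by
    apply (isPreconnected_Ico).image
    apply Continuous.continuousOn
    rw [hL_def]; fun_prop
  have hstar : ∀ s ∈ Ico (R / s₁) 1, G1 =ᶠ[𝓝 (L s)] G2 := by
    intro s hs1
    refine kstep_prop hseg (f := G1) (g := G2) ?_ ?_ (x₀ := L (R / s₁))
      ⟨R / s₁, ⟨le_refl _, hRs⟩, rfl⟩ ?_ (L s) ⟨s, hs1, rfl⟩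
    · rintro _ ⟨t, ht, rfl⟩
      exact hG1an _ (hLlt t ht.1 ht.2) (hLqn t ht.1)
    · rintro _ ⟨t, ht, rfl⟩
      exact hG2an _ (hLlt t ht.1 ht.2) (hLqn t ht.1)
    · exact (hc₁ (L (R / s₁)) (hLlt _ le_rfl hRs) hq').2
  -- near ζ
  have hposζ : 0 < ((P i).a - (P i).c) * (P i).q ζ + (P i).disc * (1 - ‖ζ‖ ^ 2) := by
    rw [hζ]
    have := mul_pos (sub_pos.mpr hac) hq
    linarith
  obtain ⟨hDζ, hnζ⟩ := kstep_region (P i) ζ hposζ
  have hr1 := kstep_refl_an (P i) ζ hDζ W (kstep_W_an hW _ hnζ)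
  have hr2 := kstep_gt_region hs i ζ hposζ hq.le
  have h2 : ∀ᶠ z in 𝓝 ζ, AnalyticAt ℂ (fun w => conj (W ((P i).inv w))) z ∧
      AnalyticAt ℂ (fun w => conj (F i ((P i).inv w))) z ∧ 0 < (P i).q z :=
    hr1.eventually_analyticAt.and (hr2.eventually_analyticAt.and
      (continuousAt_const.eventually_lt (kstep_q_cont (P i)).continuousAt hq))
  obtain ⟨ρ, hρ, hball⟩ := Metric.eventually_nhds_iff_ball.mp h2
  have hconv : IsPreconnected (ball ζ ρ ∩ ball (0 : ℂ) 1) :=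
    ((convex_ball ζ ρ).inter (convex_ball 0 1)).isPreconnected
  have hL1 : L 1 = ζ := by simp [hL_def]
  have hex : ∃ s ∈ Ico (R / s₁) 1, L s ∈ ball ζ ρ := by
    have hLc : ContinuousAt L 1 := by
      rw [hL_def]; fun_prop
    have h3 : ∀ᶠ s in 𝓝 (1 : ℝ), L s ∈ ball ζ ρ := by
      apply hLc.eventually
      rw [hL1]
      exact ball_mem_nhds ζ hρ
    have h4 : ∀ᶠ s in 𝓝[<] (1 : ℝ), L s ∈ ball ζ ρ := h3.filter_mono nhdsWithin_le_nhds
    have h5 : ∀ᶠ s in 𝓝[<] (1 : ℝ), s ∈ Ico (R / s₁) 1 := Ico_mem_nhdsLT hRs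
    obtain ⟨s, hs1, hs2⟩ := (h5.and h4).exists
    exact ⟨s, hs1, hs2⟩
  obtain ⟨s, hs1, hs2⟩ := hex
  have hfin : ∀ z ∈ ball ζ ρ ∩ ball (0 : ℂ) 1, G1 =ᶠ[𝓝 z] G2 := by
    refine kstep_prop hconv (f := G1) (g := G2) ?_ ?_ (x₀ := L s)
      ⟨hs2, by simpa using hLlt s hs1.1 hs1.2⟩ (hstar s hs1)
    · rintro x ⟨hx1, hx2⟩
      exact hG1an x (by simpa using hx2) (hball x hx1).2.2.le
    · rintro x ⟨hx1, hx2⟩
      exact hG2an x (by simpa using hx2) (hball x hx1).2.2.le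
  have hlamC : (lam : ℂ) ≠ 0 := by exact_mod_cast h0
  refine ⟨ρ, hρ, fun z => (lam : ℂ)⁻¹ *
    (conj (W ((P i).inv z)) - (conj (F i ((P i).inv z)) + conj c₁)), ?_, ?_⟩
  · intro z hz
    obtain ⟨g1, g2, -⟩ := hball z hz
    exact (((g1.sub (g2.add analyticAt_const)).differentiableAt).const_mul
      ((lam : ℂ)⁻¹)).differentiableWithinAt
  · intro z hz hz1
    have h3 := (hfin z ⟨hz, hz1⟩).self_of_nhds
    simp only [hG1, hG2] at h3
    rw [eq_comm, inv_mul_eq_iff_eq_mul₀ hlamC, ← h3]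
    ring

theorem K_good {lam : ℝ} (h0 : lam ≠ 0) (h1 : |lam| < 1) {ι : Type} {O : Set ℂ} {P : ι → GD}
    {e : ℂ → ℂ} {F : ι → ℂ → ℂ} (hs : Sys lam O P e F) {W : ℂ → ℂ}
    (hW : DifferentiableOn ℂ W (ball 0 1)) (i : ι) (hm : Matched W e (P i))
    (hac : (P i).a = (P i).c) : Good lam W (P i) where
  orth := hac
  disc := hs.disc i
  inside := fun p _ hq => kstep_inside h1 hs hW i hm hac.le p hq
  bdry := fun p hp hq => (kstep_bdry hs hW i hm p hp.le hq).2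

end Pool.Agent.H385
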