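import Pool.Agent.H385.Defs

open Complex Metric Set Filter Topology ComplexConjugate MeasureTheory
open scoped ContDiff ENNReal

set_option linter.unusedSimpArgs false

namespace Pool.Agent.H385

theorem pull_q (x y : ℂ) (ρ : ℝ) (a : ℂ) (r : ℝ) (ζ : ℂ) :
    (pullGD x y ρ a r).q ζ =
      ‖(x - a) - (ρ : ℂ) * (y - a) * ζ‖ ^ 2 - r ^ 2 * ‖1 - (ρ : ℂ) * ζ‖ ^ 2 := by
  simp only [GD.q, pullGD, ← Complex.normSq_eq_norm_sq, normSq_apply, sub_re, sub_im, mul_re,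
    mul_im, ofReal_re, ofReal_im, one_re, one_im, map_mul, map_neg, conj_ofReal, conj_conj,
    neg_re, neg_im, conj_re, conj_im, map_sub]
  simp only [pow_two, mul_re, mul_im, ofReal_re, ofReal_im, map_mul, conj_ofReal, sub_re, sub_im,
    conj_re, conj_im]
  ring

theorem pull_disc (x y : ℂ) (ρ : ℝ) (a : ℂ) (r : ℝ) :
    (pullGD x y ρ a r).disc = ρ ^ 2 * r ^ 2 * ‖x - y‖ ^ 2 := by
  simp only [GD.disc, pullGD, ← Complex.normSq_eq_norm_sq, normSq_apply, sub_re, sub_im, mul_re,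
    mul_im, ofReal_re, ofReal_im, one_re, one_im, map_mul, map_neg, conj_ofReal, conj_conj,
    neg_re, neg_im, conj_re, conj_im, map_sub]
  simp only [pow_two, mul_re, mul_im, ofReal_re, ofReal_im, map_mul, conj_ofReal, sub_re, sub_im,
    conj_re, conj_im]
  ring

theorem pull_sub (x y : ℂ) (ρ : ℝ) (a : ℂ) {ζ : ℂ} (h : 1 - (ρ : ℂ) * ζ ≠ 0) :
    mob x y ρ ζ - a = ((x - a) - (ρ : ℂ) * (y - a) * ζ) / (1 - (ρ : ℂ) * ζ) := by
  rw [mob]
  field_simp
  ring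

theorem pull_q' (x y : ℂ) (ρ : ℝ) (a : ℂ) (r : ℝ) {ζ : ℂ} (h : 1 - (ρ : ℂ) * ζ ≠ 0) :
    (pullGD x y ρ a r).q ζ = ‖1 - (ρ : ℂ) * ζ‖ ^ 2 * (‖mob x y ρ ζ - a‖ ^ 2 - r ^ 2) := by
  have h1 : ‖1 - (ρ : ℂ) * ζ‖ ≠ 0 := norm_ne_zero_iff.mpr h
  rw [pull_q, pull_sub x y ρ a h, norm_div]
  field_simp

theorem pull_q_pole (x y : ℂ) (ρ : ℝ) (a : ℂ) (r : ℝ) {ζ : ℂ} (h : 1 - (ρ : ℂ) * ζ = 0) :
    (pullGD x y ρ a r).q ζ = ‖x - y‖ ^ 2 := by
  have h1 : (ρ : ℂ) * ζ = 1 := by linear_combination -h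
  rw [pull_q, h, norm_zero, show (x - a) - (ρ : ℂ) * (y - a) * ζ = x - y by
    linear_combination -(y - a) * h1]
  ring

/-- the denominator of the reflection does not vanish on the circle -/
theorem pull_den {x y : ℂ} (hxy : x ≠ y) {ρ : ℝ} (hρ : 0 < ρ) {a : ℂ} {r : ℝ} (hr : 0 < r) {ζ : ℂ}
    (h : (pullGD x y ρ a r).q ζ = 0) :
    ((pullGD x y ρ a r).a : ℂ) * conj ζ + conj (pullGD x y ρ a r).b ≠ 0 := by
  set P := pullGD x y ρ a r with hP
  intro h0
  have h1 : P.a * P.q ζ = ‖(P.a : ℂ) * conj ζ + conj P.b‖ ^ 2 - P.disc := by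
    simp only [GD.q, GD.disc, ← Complex.normSq_eq_norm_sq, normSq_apply, add_re, add_im, mul_re,
      mul_im, ofReal_re, ofReal_im, conj_re, conj_im]
    ring
  rw [h, h0, hP, pull_disc, norm_zero] at h1
  have h2 : 0 < ρ ^ 2 * r ^ 2 * ‖x - y‖ ^ 2 := by
    have : 0 < ‖x - y‖ := norm_pos_iff.mpr (sub_ne_zero.mpr hxy)
    positivity
  linarith

theorem pull_inv (x y : ℂ) {ρ : ℝ} (hρ : 0 < ρ) (hxy : x ≠ y) (a : ℂ) (r : ℝ) {ζ : ℂ}
    (h1 : 1 - (ρ : ℂ) * ζ ≠ 0) (h2 : mob x y ρ ζ ≠ a)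
    (h3 : ((pullGD x y ρ a r).a : ℂ) * conj ζ + conj (pullGD x y ρ a r).b ≠ 0) :
    mob x y ρ ((pullGD x y ρ a r).inv ζ) = cinv a r (mob x y ρ ζ) := by
  have hρ' : (ρ : ℂ) ≠ 0 := by exact_mod_cast hρ.ne'
  have hxy' : x - y ≠ 0 := sub_ne_zero.mpr hxy
  have h1' : 1 - (ρ : ℂ) * conj ζ ≠ 0 := by
    intro h
    apply h1
    have := congrArg conj h
    simpa using this
  have h2' : (x - a) - (ρ : ℂ) * (y - a) * ζ ≠ 0 := by
    intro h
    apply h2
    have h4 := pull_sub x y ρ a h1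
    rw [h, zero_div] at h4
    linear_combination h4
  have h2'' : conj (x - a) - (ρ : ℂ) * conj (y - a) * conj ζ ≠ 0 := by
    intro h
    apply h2'
    have := congrArg conj h
    simpa using this
  set X := x - a with hX
  set Y := y - a with hY
  have hXY : X - Y = x - y := by rw [hX, hY]; ring
  set Z := conj ζ with hZ
  set Dn : ℂ := ((pullGD x y ρ a r).a : ℂ) * Z + conj (pullGD x y ρ a r).b with hD
  have hnX : ((‖X‖ ^ 2 : ℝ) : ℂ) = X * conj X := by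
    rw [Complex.mul_conj, Complex.normSq_eq_norm_sq]
  have hnY : ((‖Y‖ ^ 2 : ℝ) : ℂ) = Y * conj Y := by
    rw [Complex.mul_conj, Complex.normSq_eq_norm_sq]
  have hDe : Dn = (ρ : ℂ) ^ 2 * (Y * conj Y - (r : ℂ) ^ 2) * Z -
      (ρ : ℂ) * (conj X * Y - (r : ℂ) ^ 2) := by
    rw [hD]
    simp only [pullGD, map_mul, map_neg, conj_conj, conj_ofReal]
    rw [← hX, ← hY]
    push_cast
    have := hnY
    push_cast at this
    rw [this]
    ring
  have hI : (pullGD x y ρ a r).inv ζ = -((-(ρ : ℂ) * (X * conj Y - (r : ℂ) ^ 2)) * Z +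
      (X * conj X - (r : ℂ) ^ 2)) / Dn := by
    rw [GD.inv]
    rw [← hZ, ← hD]
    congr 2
    simp only [pullGD]
    rw [← hX, ← hY]
    have := hnX
    push_cast at this
    push_cast
    rw [this]
    simp only [map_sub, map_mul, conj_conj, map_pow, conj_ofReal]
  have hden : 1 - (ρ : ℂ) * (pullGD x y ρ a r).inv ζ =
      (ρ : ℂ) * (X - Y) * (conj X - (ρ : ℂ) * conj Y * Z) / Dn := by
    rw [hI, eq_div_iff h3, sub_mul, mul_div_assoc', div_mul_cancel₀ _ h3, hDe]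
    ring
  have hnum : X - (ρ : ℂ) * Y * (pullGD x y ρ a r).inv ζ =
      (ρ : ℂ) * (r : ℂ) ^ 2 * (X - Y) * (1 - (ρ : ℂ) * Z) / Dn := by
    rw [hI, eq_div_iff h3, sub_mul, mul_div_assoc', div_mul_cancel₀ _ h3, hDe]
    ring
  have hden0 : 1 - (ρ : ℂ) * (pullGD x y ρ a r).inv ζ ≠ 0 := by
    rw [hden, hXY]
    exact div_ne_zero (mul_ne_zero (mul_ne_zero hρ' hxy') h2'') h3
  have hmain : mob x y ρ ((pullGD x y ρ a r).inv ζ) - a = (r : ℂ) ^ 2 / conj (mob x y ρ ζ - a) := by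
    rw [pull_sub x y ρ a hden0, pull_sub x y ρ a h1, ← hX, ← hY, hnum, hden, hXY]
    have e1 : conj (X - (ρ : ℂ) * Y * ζ) = conj X - (ρ : ℂ) * conj Y * Z := by
      rw [map_sub conj X, map_mul, map_mul, conj_ofReal]
    have e2 : conj (1 - (ρ : ℂ) * ζ) = 1 - (ρ : ℂ) * Z := by
      rw [map_sub, map_mul, map_one, conj_ofReal]
    rw [map_div₀, e1, e2]
    field_simp
  rw [cinv, ← hmain]
  ring

theorem pull_conj_an {b : ℂ → ℂ} {u : ℂ} (h : AnalyticAt ℂ b (conj u)) :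
    AnalyticAt ℂ (fun w => conj (b (conj w))) u := by
  rw [analyticAt_iff_eventually_differentiableAt] at h ⊢
  have h1 : Tendsto (fun w : ℂ => conj w) (𝓝 u) (𝓝 (conj u)) := continuous_conj.tendsto u
  filter_upwards [h1.eventually h] with w hw
  have h2 := hw.conj_conj
  rw [conj_conj] at h2
  exact h2

theorem pull_conj_cinv (a : ℂ) (r : ℝ) (z : ℂ) :
    conj (conj a + (r : ℂ) ^ 2 / (z - a)) = cinv a r z := by
  rw [cinv]
  simp

theorem pull_Phi_eq (a : ℂ) (r : ℝ) (b : ℂ → ℂ) (z : ℂ) :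
    Phi a r b z = (r : ℂ) ^ 2 / (z - a) ^ 2 *
      (fun w => conj (b (conj w))) (conj a + (r : ℂ) ^ 2 / (z - a)) := by
  simp only [Phi]
  rw [pull_conj_cinv]

theorem pull_cinv_mem {a : ℂ} {r : ℝ} (hr : 0 < r) {z : ℂ} (hz : r ≤ ‖z - a‖) :
    cinv a r z ∈ closedBall a r := by
  rw [mem_closedBall, dist_eq_norm, cinv, add_sub_cancel_left, norm_div, norm_conj, norm_pow,
    norm_real, Real.norm_eq_abs, abs_of_pos hr, div_le_iff₀ (hr.trans_le hz), sq]
  exact mul_le_mul_of_nonneg_left hz hr.le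

theorem pull_Phi_an {a : ℂ} {r : ℝ} (hr : 0 < r) {b : ℂ → ℂ}
    (hb : ∀ z ∈ closedBall a r, AnalyticAt ℂ b z) {z : ℂ} (hz : r ≤ ‖z - a‖) :
    AnalyticAt ℂ (Phi a r b) z := by
  have hza : z - a ≠ 0 := norm_pos_iff.mp (hr.trans_le hz)
  have h1 : AnalyticAt ℂ (fun w => conj (b (conj w))) (conj a + (r : ℂ) ^ 2 / (z - a)) := by
    apply pull_conj_an
    rw [pull_conj_cinv]
    exact hb _ (pull_cinv_mem hr hz)
  have h2 : AnalyticAt ℂ (fun z : ℂ => conj a + (r : ℂ) ^ 2 / (z - a)) z :=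
    analyticAt_const.add (analyticAt_const.div (analyticAt_id.sub analyticAt_const) hza)
  have h3 : AnalyticAt ℂ (fun z : ℂ => (r : ℂ) ^ 2 / (z - a) ^ 2) z :=
    analyticAt_const.div ((analyticAt_id.sub analyticAt_const).pow 2) (pow_ne_zero 2 hza)
  have h5 : AnalyticAt ℂ ((fun w => conj (b (conj w))) ∘
      (fun z : ℂ => conj a + (r : ℂ) ^ 2 / (z - a))) z := AnalyticAt.comp_of_eq h1 h2 rfl
  have h4 := h3.mul h5
  refine h4.congr (Eventually.of_forall fun w => ?_)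
  simp only [Pi.mul_apply, Function.comp_apply]
  rw [pull_Phi_eq]

theorem pull_Ext_an {k : ℝ} {Ω : Set ℂ} {ι : Type} [Fintype ι] {a : ι → ℂ} {r : ι → ℝ} {H : ℂ → ℂ}
    {b : ι → ℂ → ℂ} (hZ : ZSys k Ω a r H b) {z : ℂ} (hz : z ∈ Ω) (hz' : ∀ i, r i ≤ ‖z - a i‖) :
    AnalyticAt ℂ (Ext k a r H b) z := by
  have h1 : AnalyticAt ℂ H z := hZ.H_hol.analyticAt (hZ.isOpen.mem_nhds hz)
  have h2 : AnalyticAt ℂ (fun z => ∑ i, Phi (a i) (r i) (b i) z) z :=
    Finset.analyticAt_fun_sum _ fun i _ => pull_Phi_an (hZ.pos i) (hZ.b_an i) (hz' i)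
  exact h1.sub (analyticAt_const.mul h2)

theorem pull_mob_deriv (x y : ℂ) (ρ : ℝ) {ζ : ℂ} (h : 1 - (ρ : ℂ) * ζ ≠ 0) :
    HasDerivAt (mob x y ρ) ((ρ : ℂ) * (x - y) / (1 - (ρ : ℂ) * ζ) ^ 2) ζ := by
  have h1 : HasDerivAt (fun ζ : ℂ => x - (ρ : ℂ) * y * ζ) (-((ρ : ℂ) * y)) ζ := by
    have := ((hasDerivAt_id ζ).const_mul ((ρ : ℂ) * y)).const_sub x
    simpa using this
  have h2 : HasDerivAt (fun ζ : ℂ => 1 - (ρ : ℂ) * ζ) (-(ρ : ℂ)) ζ := by
    have := ((hasDerivAt_id ζ).const_mul (ρ : ℂ)).const_sub 1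
    simpa using this
  have h3 := h1.div h2 h
  have h4 : (ρ : ℂ) * (x - y) / (1 - (ρ : ℂ) * ζ) ^ 2 =
      (-((ρ : ℂ) * y) * (1 - (ρ : ℂ) * ζ) - (x - (ρ : ℂ) * y * ζ) * -(ρ : ℂ)) /
        (1 - (ρ : ℂ) * ζ) ^ 2 := by
    congr 1
    ring
  rw [h4]
  exact h3

/-- primitive near a closed ball -/
theorem pull_prim {a : ℂ} {r : ℝ} {b : ℂ → ℂ} (hb : ∀ z ∈ closedBall a r, AnalyticAt ℂ b z) :
    ∃ (R : ℝ) (f : ℂ → ℂ), r < R ∧ ∀ z ∈ ball a R, HasDerivAt f (b z) z := by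
  have hopen : IsOpen {z | AnalyticAt ℂ b z} := isOpen_analyticAt ℂ b
  obtain ⟨δ, hδ, hsub⟩ := (isCompact_closedBall a r).exists_cthickening_subset_open hopen hb
  rcases lt_or_ge r 0 with hr | hr
  · refine ⟨0, 0, hr, fun z hz => ?_⟩
    rw [ball_zero] at hz
    exact absurd hz (notMem_empty z)
  have hball : ball a (r + δ) ⊆ {z | AnalyticAt ℂ b z} := by
    refine subset_trans ?_ hsub
    refine subset_trans ?_ (thickening_subset_cthickening _ _)
    rw [thickening_closedBall hδ hr]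
    rw [add_comm]
  have hd : DifferentiableOn ℂ b (ball a (r + δ)) := fun z hz =>
    (hball hz).differentiableAt.differentiableWithinAt
  obtain ⟨f, hf⟩ := hd.isExactOn_ball
  exact ⟨r + δ, f, by linarith, hf⟩

/-- transport to the normalised plane -/
theorem sys_pull {k : ℝ} (hk : 0 < k) (hk1 : k ≠ 1) {Ω : Set ℂ}
    {ι : Type} [Fintype ι] {a : ι → ℂ} {r : ι → ℝ} {H : ℂ → ℂ} {b : ι → ℂ → ℂ}
    (hZ : ZSys k Ω a r H b) (x y : ℂ) (hxy : x ≠ y) (ρ : ℝ) (hρ : 0 < ρ)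
    (hx : ∀ i, x ∉ ball (a i) (r i)) (hy : ∀ i, y ∉ ball (a i) (r i)) :
    ∃ F : ι → ℂ → ℂ, Sys ((1 - k) / (1 + k)) {ζ | 1 - (ρ : ℂ) * ζ ≠ 0 ∧ mob x y ρ ζ ∈ Ω}
      (fun i => pullGD x y ρ (a i) (r i)) (pullF x y ρ (Ext k a r H b)) F := by
  have hk' : (0 : ℝ) < 1 + k := by linarith
  choose R f hR hf using fun i => pull_prim (hZ.b_an i)
  have hX : ∀ i, r i ≤ ‖x - a i‖ := by
    intro i
    have := hx i
    rwa [mem_ball, dist_eq_norm, not_lt] at this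
  have hY : ∀ i, r i ≤ ‖y - a i‖ := by
    intro i
    have := hy i
    rwa [mem_ball, dist_eq_norm, not_lt] at this
  have hxy0 : 0 < ‖x - y‖ := norm_pos_iff.mpr (sub_ne_zero.mpr hxy)
  have hq : ∀ i ζ, (pullGD x y ρ (a i) (r i)).q ζ ≤ 0 →
      1 - (ρ : ℂ) * ζ ≠ 0 ∧ ‖mob x y ρ ζ - a i‖ ≤ r i := by
    intro i ζ h
    have h1 : 1 - (ρ : ℂ) * ζ ≠ 0 := by
      intro h0
      rw [pull_q_pole x y ρ _ _ h0] at h
      have : 0 < ‖x - y‖ ^ 2 := by positivity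
      linarith
    refine ⟨h1, ?_⟩
    rw [pull_q' x y ρ _ _ h1] at h
    have h2 : 0 < ‖1 - (ρ : ℂ) * ζ‖ ^ 2 := by
      have := norm_pos_iff.mpr h1
      positivity
    have h3 : ‖mob x y ρ ζ - a i‖ ^ 2 - r i ^ 2 ≤ 0 := by
      by_contra hcon
      push Not at hcon
      have := mul_pos h2 hcon
      linarith
    exact (pow_le_pow_iff_left₀ (norm_nonneg _) (hZ.pos i).le two_ne_zero).mp (by linarith)
  have hq0 : ∀ i ζ, 1 - (ρ : ℂ) * ζ ≠ 0 → 0 ≤ (pullGD x y ρ (a i) (r i)).q ζ →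
      r i ≤ ‖mob x y ρ ζ - a i‖ := by
    intro i ζ h1 h
    rw [pull_q' x y ρ _ _ h1] at h
    have h2 : 0 < ‖1 - (ρ : ℂ) * ζ‖ ^ 2 := by
      have := norm_pos_iff.mpr h1
      positivity
    have h3 : 0 ≤ ‖mob x y ρ ζ - a i‖ ^ 2 - r i ^ 2 := by
      by_contra hcon
      push Not at hcon
      have := mul_neg_of_pos_of_neg h2 hcon
      linarith
    exact (pow_le_pow_iff_left₀ (hZ.pos i).le (norm_nonneg _) two_ne_zero).mp (by linarith)
  have hopen1 : IsOpen {ζ : ℂ | 1 - (ρ : ℂ) * ζ ≠ 0} :=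
    isOpen_ne_fun (by fun_prop) continuous_const
  have hcont : ∀ ζ, 1 - (ρ : ℂ) * ζ ≠ 0 → ContinuousAt (mob x y ρ) ζ := fun ζ h =>
    (pull_mob_deriv x y ρ h).continuousAt
  have hmoban : ∀ ζ, 1 - (ρ : ℂ) * ζ ≠ 0 → AnalyticAt ℂ (mob x y ρ) ζ := by
    intro ζ h
    rw [analyticAt_iff_eventually_differentiableAt]
    filter_upwards [hopen1.mem_nhds h] with w hw
    exact (pull_mob_deriv x y ρ hw).differentiableAt
  refine ⟨fun i ζ => ((2 * k / (1 + k) : ℝ) : ℂ) * f i (mob x y ρ ζ), ?_⟩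
  constructor
  · -- disc
    intro i
    rw [pull_disc]
    have := hZ.pos i
    positivity
  · -- anonneg
    intro i
    have h1 := hY i
    have h2 := hZ.pos i
    have h3 : 0 ≤ ‖y - a i‖ ^ 2 - r i ^ 2 := by nlinarith
    exact mul_nonneg (by positivity) h3
  · -- cnonneg
    intro i
    have h1 := hX i
    have h2 := hZ.pos i
    have h3 : 0 ≤ ‖x - a i‖ ^ 2 - r i ^ 2 := by nlinarith
    exact h3
  · -- disj
    intro i i' hii z hz
    obtain ⟨h1, h2⟩ := hq i z hz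
    rw [pull_q' x y ρ _ _ h1]
    have h3 : mob x y ρ z ∉ closedBall (a i') (r i') := by
      intro h
      exact Set.disjoint_left.mp (hZ.disj i i' hii) (by rwa [mem_closedBall, dist_eq_norm]) h
    rw [mem_closedBall, dist_eq_norm, not_le] at h3
    have h4 := norm_pos_iff.mpr h1
    have h5 := hZ.pos i'
    have h6 : 0 < ‖mob x y ρ z - a i'‖ ^ 2 - r i' ^ 2 := by nlinarith
    positivity
  · -- isOpen
    rw [isOpen_iff_mem_nhds]
    rintro ζ ⟨h1, h2⟩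
    have h3 := (hcont ζ h1).preimage_mem_nhds (hZ.isOpen.mem_nhds h2)
    filter_upwards [hopen1.mem_nhds h1, h3] with w hw1 hw2
    exact ⟨hw1, hw2⟩
  · -- sub
    intro i z hz
    obtain ⟨h1, h2⟩ := hq i z hz
    exact ⟨h1, hZ.sub i (by rwa [mem_closedBall, dist_eq_norm])⟩
  · -- e_an
    rintro z ⟨h1, h2⟩ h3
    have h4 : AnalyticAt ℂ (Ext k a r H b) (mob x y ρ z) :=
      pull_Ext_an hZ h2 fun i => hq0 i z h1 (h3 i)
    have h5 : AnalyticAt ℂ (fun ζ : ℂ => (ρ : ℂ) * (x - y) / (1 - (ρ : ℂ) * ζ) ^ 2) z :=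
      analyticAt_const.div ((analyticAt_const.sub (analyticAt_const.mul analyticAt_id)).pow 2)
        (pow_ne_zero 2 h1)
    have h6 : AnalyticAt ℂ (Ext k a r H b ∘ mob x y ρ) z := h4.comp (hmoban z h1)
    exact h6.mul h5
  · -- F_an
    intro i z hz
    obtain ⟨h1, h2⟩ := hq i z hz
    have h3 : mob x y ρ z ∈ ball (a i) (R i) := by
      rw [mem_ball, dist_eq_norm]; exact h2.trans_lt (hR i)
    have h4 : AnalyticAt ℂ (f i) (mob x y ρ z) := by
      rw [analyticAt_iff_eventually_differentiableAt]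
      filter_upwards [isOpen_ball.mem_nhds h3] with w hw
      exact (hf i w hw).differentiableAt
    have h5 : AnalyticAt ℂ (f i ∘ mob x y ρ) z := h4.comp (hmoban z h1)
    exact analyticAt_const.mul h5
  · -- rel
    intro i z hz
    obtain ⟨h1, h2⟩ := hq i z hz.le
    have h2' := hq0 i z h1 hz.ge
    have hrp := hZ.pos i
    have hden := pull_den hxy hρ hrp hz
    have hza : mob x y ρ z ≠ a i := by
      intro h
      rw [h, sub_self, norm_zero] at h2'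
      linarith
    have hz1 : mob x y ρ z ∈ closedBall (a i) (r i) := by rwa [mem_closedBall, dist_eq_norm]
    have hz2 : mob x y ρ z ∈ ball (a i) (R i) := closedBall_subset_ball (hR i) hz1
    have hz3 : cinv (a i) (r i) (mob x y ρ z) ∈ ball (a i) (R i) :=
      closedBall_subset_ball (hR i) (pull_cinv_mem hrp h2')
    have hcc : ContinuousAt (fun ζ => cinv (a i) (r i) (mob x y ρ ζ)) z := by
      have e1 : ContinuousAt (fun ζ => conj (mob x y ρ ζ - a i)) z :=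
        continuous_conj.continuousAt.comp ((hcont z h1).sub continuousAt_const)
      have e2 : conj (mob x y ρ z - a i) ≠ 0 := by
        rw [Ne, map_eq_zero, sub_eq_zero]; exact hza
      exact continuousAt_const.add (continuousAt_const.div e1 e2)
    have hrep := hZ.rep i _ hz1
    have hA : ∀ᶠ w in 𝓝 z, 1 - (ρ : ℂ) * w ≠ 0 ∧ mob x y ρ w ≠ a i ∧
        ((pullGD x y ρ (a i) (r i)).a : ℂ) * conj w + conj (pullGD x y ρ (a i) (r i)).b ≠ 0 ∧
        mob x y ρ w ∈ ball (a i) (R i) ∧ cinv (a i) (r i) (mob x y ρ w) ∈ ball (a i) (R i) ∧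
        (1 + (k : ℂ)) / 2 * b i (mob x y ρ w) =
          Ext k a r H b (mob x y ρ w) + (1 - (k : ℂ)) / 2 * Phi (a i) (r i) (b i) (mob x y ρ w) := by
      have e1 := hopen1.mem_nhds h1
      have e2 := (hcont z h1).eventually_ne hza
      have e3 : ∀ᶠ w in 𝓝 z, ((pullGD x y ρ (a i) (r i)).a : ℂ) * conj w +
          conj (pullGD x y ρ (a i) (r i)).b ≠ 0 := by
        have : ContinuousAt (fun w : ℂ => ((pullGD x y ρ (a i) (r i)).a : ℂ) * conj w +
          conj (pullGD x y ρ (a i) (r i)).b) z :=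
          (continuous_const.mul continuous_conj |>.add continuous_const).continuousAt
        exact this.eventually_ne hden
      have e4 := (hcont z h1).preimage_mem_nhds (isOpen_ball.mem_nhds hz2)
      have e5 := hcc.preimage_mem_nhds (isOpen_ball.mem_nhds hz3)
      have e6 := (hcont z h1).eventually hrep
      filter_upwards [e1, e2, e3, e4, e5, e6] with w w1 w2 w3 w4 w5 w6
      exact ⟨w1, w2, w3, w4, w5, w6⟩
    filter_upwards [hA.eventually_nhds] with w hw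
    obtain ⟨w1, w2, w3, w4, w5, w6⟩ := hw.self_of_nhds
    have hk0 : (k : ℂ) ≠ 0 := by exact_mod_cast hk.ne'
    have hk2 : (1 + (k : ℂ)) ≠ 0 := by exact_mod_cast hk'.ne'
    have hlam : (1 : ℂ) - (((1 - k) / (1 + k) : ℝ) : ℂ) ^ 2 = 4 * k / (1 + k) ^ 2 := by
      push_cast
      field_simp
      ring
    set N' : ℂ := (ρ : ℂ) * (x - y) / (1 - (ρ : ℂ) * w) ^ 2 with hN'
    have hdN : HasDerivAt (mob x y ρ) N' w := pull_mob_deriv x y ρ w1
    have hd1 : HasDerivAt (fun ζ => f i (mob x y ρ ζ)) (b i (mob x y ρ w) * N') w :=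
      (hf i _ w4).comp w hdN
    have hwa : mob x y ρ w - a i ≠ 0 := sub_ne_zero.mpr w2
    have hd2 : HasDerivAt (fun ζ => conj (a i) + (r i : ℂ) ^ 2 / (mob x y ρ ζ - a i))
        (-((r i : ℂ) ^ 2 * N') / (mob x y ρ w - a i) ^ 2) w := by
      have e1 := ((hasDerivAt_const w ((r i : ℂ) ^ 2)).div (hdN.sub_const (a i)) hwa).const_add
        (conj (a i))
      have e2 : -((r i : ℂ) ^ 2 * N') / (mob x y ρ w - a i) ^ 2 =
          (0 * (mob x y ρ w - a i) - (r i : ℂ) ^ 2 * N') / (mob x y ρ w - a i) ^ 2 := by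
        congr 1
        ring
      rw [e2]
      exact e1
    have hd3 : HasDerivAt (fun ζ => conj (f i (cinv (a i) (r i) (mob x y ρ ζ))))
        (conj (b i (cinv (a i) (r i) (mob x y ρ w))) *
          (-((r i : ℂ) ^ 2 * N') / (mob x y ρ w - a i) ^ 2)) w := by
      have e1 := (hf i _ w5).conj_conj
      have e2 : conj (cinv (a i) (r i) (mob x y ρ w)) =
          conj (a i) + (r i : ℂ) ^ 2 / (mob x y ρ w - a i) := by
        rw [← pull_conj_cinv, conj_conj]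
      have e3 := HasDerivAt.comp_of_eq w e1 hd2 e2
      refine e3.congr_of_eventuallyEq (Eventually.of_forall fun ζ => ?_)
      simp only [Function.comp_apply]
      rw [pull_conj_cinv]
    have hd4 : HasDerivAt (fun ζ => (1 + (k : ℂ)) / 2 * f i (mob x y ρ ζ) +
        (1 - (k : ℂ)) / 2 * conj (f i (cinv (a i) (r i) (mob x y ρ ζ))))
        (pullF x y ρ (Ext k a r H b) w) w := by
      have e1 := (hd1.const_mul ((1 + (k : ℂ)) / 2)).add (hd3.const_mul ((1 - (k : ℂ)) / 2))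
      have e2 : pullF x y ρ (Ext k a r H b) w = (1 + (k : ℂ)) / 2 * (b i (mob x y ρ w) * N') +
          (1 - (k : ℂ)) / 2 * (conj (b i (cinv (a i) (r i) (mob x y ρ w))) *
          (-((r i : ℂ) ^ 2 * N') / (mob x y ρ w - a i) ^ 2)) := by
        have e3 : pullF x y ρ (Ext k a r H b) w = Ext k a r H b (mob x y ρ w) * N' := rfl
        have e4 : Ext k a r H b (mob x y ρ w) = (1 + (k : ℂ)) / 2 * b i (mob x y ρ w) -
            (1 - (k : ℂ)) / 2 * Phi (a i) (r i) (b i) (mob x y ρ w) := by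
          rw [w6]; ring
        rw [e3, e4, Phi]
        ring
      rw [e2]
      exact e1
    refine hd4.congr_of_eventuallyEq ?_
    filter_upwards [hw] with ζ hζ
    obtain ⟨z1, z2, z3, z4, z5, z6⟩ := hζ
    rw [pull_inv x y hρ hxy (a i) (r i) z1 z2 z3, hlam, map_mul, conj_ofReal]
    push_cast
    field_simp
    ring

end Pool.Agent.H385
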