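import Pool.Agent.H385.Defs
import Pool.Agent.H385.Energy
import Pool.Agent.H385.Pull
import Pool.Agent.H385.Kstep
import Pool.Agent.H385.Conn

open Complex Metric Set Filter Topology ComplexConjugate MeasureTheory
open scoped ContDiff ENNReal

namespace Pool.Agent.H385

theorem endl_q_mob (x y : ℂ) (ρ : ℝ) (a : ℂ) (r : ℝ) (ζ : ℂ) :
    (pullGD x y ρ a r).q ζ = ‖(x - a) - (ρ : ℂ) * (y - a) * ζ‖ ^ 2 - r ^ 2 * ‖1 - (ρ : ℂ) * ζ‖ ^ 2 := by
  simp only [GD.q, pullGD, Complex.sq_norm, Complex.normSq_apply, ← Complex.ofReal_pow]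
  simp only [Complex.sub_re, Complex.sub_im, Complex.mul_re, Complex.mul_im, Complex.ofReal_re,
    Complex.ofReal_im, Complex.conj_re, Complex.conj_im, Complex.neg_re, Complex.neg_im,
    Complex.one_re, Complex.one_im, map_sub, map_mul, map_neg, Complex.conj_ofReal,
    Complex.conj_conj]
  ring

theorem endl_q_pos {x y : ℂ} (hxy : x ≠ y) {ρ : ℝ} {a : ℂ} {r : ℝ} {ζ : ℂ}
    (h : 1 - (ρ : ℂ) * ζ = 0) : 0 < (pullGD x y ρ a r).q ζ := by
  rw [endl_q_mob, h]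
  have : (x - a) - (ρ : ℂ) * (y - a) * ζ = x - y := by
    have h' : (ρ : ℂ) * ζ = 1 := by linear_combination -h
    linear_combination (-(y - a)) * h'
  rw [this]
  simp only [norm_zero]
  have := norm_pos_iff.2 (sub_ne_zero.2 hxy)
  nlinarith [pow_pos this 2]

theorem endl_q_eq (x y : ℂ) (ρ : ℝ) (a : ℂ) (r : ℝ) {ζ : ℂ} (h : 1 - (ρ : ℂ) * ζ ≠ 0) :
    (pullGD x y ρ a r).q ζ = ‖1 - (ρ : ℂ) * ζ‖ ^ 2 * (‖mob x y ρ ζ - a‖ ^ 2 - r ^ 2) := by
  rw [endl_q_mob]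
  have : (x - a) - (ρ : ℂ) * (y - a) * ζ = (1 - (ρ : ℂ) * ζ) * (mob x y ρ ζ - a) := by
    rw [mob]
    field_simp
    ring
  rw [this, norm_mul]
  ring

theorem endl_one_sub {x y : ℂ} {ρ : ℝ} (hρ : 0 < ρ) {z : ℂ} (hz : z ≠ y) :
    1 - (ρ : ℂ) * mobInv x y ρ z = (x - y) / (z - y) := by
  have h1 : z - y ≠ 0 := sub_ne_zero.2 hz
  have h2 : (ρ : ℂ) ≠ 0 := by exact_mod_cast hρ.ne'
  rw [mobInv]
  field_simp
  ring

theorem endl_one_sub_ne {x y : ℂ} (hxy : x ≠ y) {ρ : ℝ} (hρ : 0 < ρ) {z : ℂ} (hz : z ≠ y) :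
    1 - (ρ : ℂ) * mobInv x y ρ z ≠ 0 := by
  rw [endl_one_sub hρ hz]
  exact div_ne_zero (sub_ne_zero.2 hxy) (sub_ne_zero.2 hz)

theorem endl_mob_mobInv {x y : ℂ} (hxy : x ≠ y) {ρ : ℝ} (hρ : 0 < ρ) {z : ℂ} (hz : z ≠ y) :
    mob x y ρ (mobInv x y ρ z) = z := by
  have h1 : z - y ≠ 0 := sub_ne_zero.2 hz
  have h3 : x - y ≠ 0 := sub_ne_zero.2 hxy
  have h2 : (ρ : ℂ) ≠ 0 := by exact_mod_cast hρ.ne'
  rw [mob, endl_one_sub hρ hz, mobInv]
  field_simp
  ring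

theorem endl_mob_ne {x y : ℂ} (hxy : x ≠ y) {ρ : ℝ} {ζ : ℂ} (h : 1 - (ρ : ℂ) * ζ ≠ 0) :
    mob x y ρ ζ ≠ y := by
  intro he
  rw [mob, div_eq_iff h] at he
  apply hxy
  linear_combination he

theorem endl_mobInv_mob {x y : ℂ} (hxy : x ≠ y) {ρ : ℝ} (hρ : 0 < ρ) {ζ : ℂ}
    (h : 1 - (ρ : ℂ) * ζ ≠ 0) : mobInv x y ρ (mob x y ρ ζ) = ζ := by
  have h3 : x - y ≠ 0 := sub_ne_zero.2 hxy
  have h2 : (ρ : ℂ) ≠ 0 := by exact_mod_cast hρ.ne'
  have h4 : mob x y ρ ζ - y = (x - y) / (1 - (ρ : ℂ) * ζ) := by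
    rw [mob]; field_simp; ring
  have h5 : mob x y ρ ζ - x = ρ * ζ * (x - y) / (1 - (ρ : ℂ) * ζ) := by
    rw [mob]; field_simp; ring
  rw [mobInv, h4, h5]
  field_simp

theorem endl_norm_mobInv {x y : ℂ} {ρ : ℝ} (hρ : 0 < ρ) (z : ℂ) :
    ‖mobInv x y ρ z‖ = ‖z - x‖ / (ρ * ‖z - y‖) := by
  rw [mobInv, norm_div, norm_mul, Complex.norm_real, Real.norm_of_nonneg hρ.le]

theorem endl_norm_lt {x y : ℂ} {ρ : ℝ} (hρ : 0 < ρ) {z : ℂ} (hz : z ≠ y) :
    ‖mobInv x y ρ z‖ < 1 ↔ ‖z - x‖ < ρ * ‖z - y‖ := by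
  have h1 : 0 < ‖z - y‖ := norm_pos_iff.2 (sub_ne_zero.2 hz)
  rw [endl_norm_mobInv hρ, div_lt_one (by positivity)]

theorem endl_norm_eq {x y : ℂ} {ρ : ℝ} (hρ : 0 < ρ) {z : ℂ} (hz : z ≠ y) :
    ‖mobInv x y ρ z‖ = 1 ↔ ‖z - x‖ = ρ * ‖z - y‖ := by
  have h1 : 0 < ‖z - y‖ := norm_pos_iff.2 (sub_ne_zero.2 hz)
  rw [endl_norm_mobInv hρ, div_eq_one_iff_eq (by positivity)]

theorem endl_norm_le {x y : ℂ} {ρ : ℝ} (hρ : 0 < ρ) {z : ℂ} (hz : z ≠ y) :
    ‖mobInv x y ρ z‖ ≤ 1 ↔ ‖z - x‖ ≤ ρ * ‖z - y‖ := by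
  have h1 : 0 < ‖z - y‖ := norm_pos_iff.2 (sub_ne_zero.2 hz)
  rw [endl_norm_mobInv hρ, div_le_one (by positivity)]

/-- the sign of `q` at `M z` -/
theorem endl_q_mobInv {x y : ℂ} (hxy : x ≠ y) {ρ : ℝ} (hρ : 0 < ρ) (a : ℂ) (r : ℝ) {z : ℂ}
    (hz : z ≠ y) : (pullGD x y ρ a r).q (mobInv x y ρ z) =
      ‖(x - y) / (z - y)‖ ^ 2 * (‖z - a‖ ^ 2 - r ^ 2) := by
  rw [endl_q_eq x y ρ a r (endl_one_sub_ne hxy hρ hz), endl_mob_mobInv hxy hρ hz,
    endl_one_sub hρ hz]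

theorem endl_fac_pos {x y : ℂ} (hxy : x ≠ y) {z : ℂ} (hz : z ≠ y) :
    0 < ‖(x - y) / (z - y)‖ ^ 2 :=
  pow_pos (norm_pos_iff.2 (div_ne_zero (sub_ne_zero.2 hxy) (sub_ne_zero.2 hz))) 2

theorem endl_q_lt {x y : ℂ} (hxy : x ≠ y) {ρ : ℝ} (hρ : 0 < ρ) (a : ℂ) {r : ℝ} (hr : 0 < r)
    {z : ℂ} (hz : z ≠ y) :
    (pullGD x y ρ a r).q (mobInv x y ρ z) < 0 ↔ ‖z - a‖ < r := by
  rw [endl_q_mobInv hxy hρ a r hz]
  have h1 := endl_fac_pos hxy hz
  constructor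
  · intro h
    have : ‖z - a‖ ^ 2 < r ^ 2 := by
      by_contra hc
      push Not at hc
      have := mul_nonneg h1.le (sub_nonneg.2 hc)
      linarith
    exact lt_of_pow_lt_pow_left₀ 2 hr.le this
  · intro h
    apply mul_neg_of_pos_of_neg h1
    have := norm_nonneg (z - a)
    nlinarith

theorem endl_q_eq_zero {x y : ℂ} (hxy : x ≠ y) {ρ : ℝ} (hρ : 0 < ρ) (a : ℂ) {r : ℝ} (hr : 0 < r)
    {z : ℂ} (hz : z ≠ y) :
    (pullGD x y ρ a r).q (mobInv x y ρ z) = 0 ↔ ‖z - a‖ = r := by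
  rw [endl_q_mobInv hxy hρ a r hz]
  have h1 := endl_fac_pos hxy hz
  rw [mul_eq_zero, or_iff_right h1.ne', sub_eq_zero]
  exact pow_left_inj₀ (norm_nonneg _) hr.le two_ne_zero

theorem endl_q_nonneg {x y : ℂ} (hxy : x ≠ y) {ρ : ℝ} (hρ : 0 < ρ) (a : ℂ) {r : ℝ} (hr : 0 < r)
    {z : ℂ} (hz : z ≠ y) :
    0 ≤ (pullGD x y ρ a r).q (mobInv x y ρ z) ↔ r ≤ ‖z - a‖ := by
  rw [← not_lt, endl_q_lt hxy hρ a hr hz, not_lt]

theorem endl_q_mob_lt {x y : ℂ} {ρ : ℝ} (a : ℂ) {r : ℝ} (hr : 0 < r)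
    {ζ : ℂ} (h : 1 - (ρ : ℂ) * ζ ≠ 0) :
    (pullGD x y ρ a r).q ζ < 0 ↔ ‖mob x y ρ ζ - a‖ < r := by
  rw [endl_q_eq x y ρ a r h]
  have h1 : 0 < ‖1 - (ρ : ℂ) * ζ‖ ^ 2 := pow_pos (norm_pos_iff.2 h) 2
  constructor
  · intro h
    have : ‖mob x y ρ ζ - a‖ ^ 2 < r ^ 2 := by
      by_contra hc
      push Not at hc
      have := mul_nonneg h1.le (sub_nonneg.2 hc)
      linarith
    exact lt_of_pow_lt_pow_left₀ 2 hr.le this
  · intro h
    apply mul_neg_of_pos_of_neg h1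
    have := norm_nonneg (mob x y ρ ζ - a)
    nlinarith

theorem endl_q_mob_eq {x y : ℂ} {ρ : ℝ} (a : ℂ) {r : ℝ} (hr : 0 < r)
    {ζ : ℂ} (h : 1 - (ρ : ℂ) * ζ ≠ 0) :
    (pullGD x y ρ a r).q ζ = 0 ↔ ‖mob x y ρ ζ - a‖ = r := by
  rw [endl_q_eq x y ρ a r h]
  have h1 : 0 < ‖1 - (ρ : ℂ) * ζ‖ ^ 2 := pow_pos (norm_pos_iff.2 h) 2
  rw [mul_eq_zero, or_iff_right h1.ne', sub_eq_zero]
  exact pow_left_inj₀ (norm_nonneg _) hr.le two_ne_zero

theorem endl_hasDerivAt_mobInv {x y : ℂ} {ρ : ℝ} (hρ : 0 < ρ) {z : ℂ} (hz : z ≠ y) :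
    HasDerivAt (mobInv x y ρ) ((x - y) / (ρ * (z - y) ^ 2)) z := by
  have h1 : z - y ≠ 0 := sub_ne_zero.2 hz
  have h2 : (ρ : ℂ) ≠ 0 := by exact_mod_cast hρ.ne'
  have h3 : HasDerivAt (fun z : ℂ => z - x) 1 z := (hasDerivAt_id z).sub_const x
  have h4 : HasDerivAt (fun z : ℂ => (ρ : ℂ) * (z - y)) ((ρ : ℂ) * 1) z :=
    ((hasDerivAt_id z).sub_const y).const_mul _
  have h5 := h3.div h4 (mul_ne_zero h2 h1)
  have h6 : (1 * ((ρ : ℂ) * (z - y)) - (z - x) * ((ρ : ℂ) * 1)) / ((ρ : ℂ) * (z - y)) ^ 2 =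
      (x - y) / (ρ * (z - y) ^ 2) := by
    field_simp
    ring
  rw [h6] at h5
  exact h5

/-- `BdEq` at `M z`, read in the physical plane -/
theorem endl_bdEq {x y : ℂ} (hxy : x ≠ y) {ρ : ℝ} (hρ : 0 < ρ) {W E : ℂ → ℂ} {z : ℂ}
    (hz : z ≠ y) (h : BdEq W (pullF x y ρ E) (mobInv x y ρ z)) :
    ∀ᶠ w in 𝓝 z, ‖w - x‖ < ρ * ‖w - y‖ →
      deriv W (mobInv x y ρ w) * ((x - y) / (ρ * (w - y) ^ 2)) = E w := by
  have hc : ContinuousAt (mobInv x y ρ) z := (endl_hasDerivAt_mobInv hρ hz).continuousAt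
  have h1 := hc.eventually h
  have h2 : ∀ᶠ w in 𝓝 z, w ≠ y := isOpen_ne.eventually_mem hz
  filter_upwards [h1, h2] with w hw hwy hlt
  have h3 := hw ((endl_norm_lt hρ hwy).2 hlt)
  rw [h3.deriv, pullF, endl_mob_mobInv hxy hρ hwy, endl_one_sub hρ hwy]
  have h4 : w - y ≠ 0 := sub_ne_zero.2 hwy
  have h5 : (ρ : ℂ) ≠ 0 := by exact_mod_cast hρ.ne'
  have h6 : x - y ≠ 0 := sub_ne_zero.2 hxy
  field_simp

theorem endl_conj_cinv (a : ℂ) (r : ℝ) (z : ℂ) :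
    cinv a r z = conj (conj a + (r : ℂ) ^ 2 / (z - a)) := by
  simp [cinv]

theorem endl_cinv_mem {a : ℂ} {r : ℝ} (hr : 0 < r) {z : ℂ} (hz : r ≤ ‖z - a‖) :
    cinv a r z ∈ closedBall a r := by
  rw [mem_closedBall, dist_eq_norm, cinv]
  simp only [add_sub_cancel_left, norm_div, norm_pow, Complex.norm_real, Complex.norm_conj,
    Real.norm_of_nonneg hr.le]
  have : 0 < ‖z - a‖ := lt_of_lt_of_le hr hz
  rw [div_le_iff₀ this]
  nlinarith

theorem endl_Phi_diff {a : ℂ} {r : ℝ} (hr : 0 < r) {b : ℂ → ℂ}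
    (hb : ∀ z ∈ closedBall a r, AnalyticAt ℂ b z) {z : ℂ} (hz : r ≤ ‖z - a‖) :
    DifferentiableAt ℂ (Phi a r b) z := by
  have hza : z - a ≠ 0 := norm_pos_iff.1 (lt_of_lt_of_le hr hz)
  have h1 : DifferentiableAt ℂ b (cinv a r z) := (hb _ (endl_cinv_mem hr hz)).differentiableAt
  rw [endl_conj_cinv] at h1
  have h2 : DifferentiableAt ℂ (conj ∘ b ∘ conj) (conj a + (r : ℂ) ^ 2 / (z - a)) := by
    have := h1.conj_conj
    rwa [Complex.conj_conj] at this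
  have h3 : DifferentiableAt ℂ (fun z : ℂ => conj a + (r : ℂ) ^ 2 / (z - a)) z := by
    apply DifferentiableAt.const_add
    exact (differentiableAt_const _).div (differentiableAt_id.sub_const _) hza
  have h4 : DifferentiableAt ℂ (fun z : ℂ => conj (b (cinv a r z))) z := by
    have h5 := h2.comp z h3
    refine h5.congr_of_eventuallyEq (Eventually.of_forall fun w => ?_)
    simp only [Function.comp, endl_conj_cinv]
  have h6 : DifferentiableAt ℂ (fun z : ℂ => (r : ℂ) ^ 2 / (z - a) ^ 2) z :=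
    (differentiableAt_const _).div ((differentiableAt_id.sub_const _).pow 2) (pow_ne_zero 2 hza)
  exact h6.mul h4

theorem endl_Phi_tendsto {a : ℂ} {r : ℝ} (hr : 0 < r) {b : ℂ → ℂ}
    (hb : ∀ z ∈ closedBall a r, AnalyticAt ℂ b z) :
    Tendsto (Phi a r b) (cocompact ℂ) (𝓝 0) := by
  have h1 : Tendsto (fun z : ℂ => z - a) (cocompact ℂ) (cocompact ℂ) := by
    have := (Homeomorph.addRight (-a) : ℂ ≃ₜ ℂ).isClosedEmbedding.tendsto_cocompact
    simpa [sub_eq_add_neg] using this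
  have h2 : Tendsto (fun z : ℂ => (z - a)⁻¹) (cocompact ℂ) (𝓝 0) := by
    rw [← Metric.cobounded_eq_cocompact] at h1 ⊢
    exact tendsto_inv₀_cobounded.comp h1
  have h3 : Tendsto (fun z : ℂ => cinv a r z) (cocompact ℂ) (𝓝 a) := by
    have h4 : Tendsto (fun z : ℂ => conj (conj a + (r : ℂ) ^ 2 * (z - a)⁻¹)) (cocompact ℂ)
        (𝓝 (conj (conj a + (r : ℂ) ^ 2 * 0))) :=
      (Complex.continuous_conj.tendsto _).comp
        (tendsto_const_nhds.add (tendsto_const_nhds.mul h2))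
    simp only [mul_zero, add_zero, Complex.conj_conj] at h4
    refine h4.congr fun z => ?_
    rw [endl_conj_cinv, div_eq_mul_inv]
  have h5 : Tendsto (fun z : ℂ => conj (b (cinv a r z))) (cocompact ℂ) (𝓝 (conj (b a))) :=
    (Complex.continuous_conj.tendsto _).comp
      (((hb a (mem_closedBall_self hr.le)).continuousAt.tendsto).comp h3)
  have h6 : Tendsto (fun z : ℂ => (r : ℂ) ^ 2 * ((z - a)⁻¹ * (z - a)⁻¹) *
      conj (b (cinv a r z))) (cocompact ℂ) (𝓝 ((r : ℂ) ^ 2 * (0 * 0) * conj (b a))) :=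
    ((tendsto_const_nhds.mul (h2.mul h2))).mul h5
  simp only [mul_zero, zero_mul] at h6
  refine h6.congr fun z => ?_
  rw [Phi, div_eq_mul_inv, sq (z - a), mul_inv]

theorem endl_gd_cont (P : GD) : Continuous P.q := by
  unfold GD.q
  fun_prop

theorem endl_f_cont (x y : ℂ) (ρ : ℝ) : Continuous fun z : ℂ => ‖z - x‖ - ρ * ‖z - y‖ := by
  fun_prop

/-- a preconnected set which misses the circle `‖z - x‖ = ρ ‖z - y‖` and has a point on its
inner side lies on the inner side -/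
theorem endl_side {x y : ℂ} {ρ : ℝ} {S : Set ℂ} (hS : IsPreconnected S)
    (hmiss : ∀ z ∈ S, ‖z - x‖ ≠ ρ * ‖z - y‖) {z₀ : ℂ} (hz₀ : z₀ ∈ S)
    (h₀ : ‖z₀ - x‖ < ρ * ‖z₀ - y‖) : ∀ z ∈ S, ‖z - x‖ < ρ * ‖z - y‖ := by
  intro z hz
  by_contra hc
  push Not at hc
  obtain ⟨w, hw, hwe⟩ := hS.intermediate_value₂ hz₀ hz (f := fun z : ℂ => ‖z - x‖)
    (g := fun z : ℂ => ρ * ‖z - y‖) (by fun_prop) (by fun_prop) h₀.le hc
  exact hmiss w hw hwe

theorem endl_large {x y : ℂ} {ρ : ℝ} (hρ : 1 < ρ) {z : ℂ}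
    (hz : ‖x - y‖ / (ρ - 1) + ‖y‖ < ‖z‖) : ‖z - x‖ < ρ * ‖z - y‖ := by
  have h1 : 0 < ρ - 1 := sub_pos.2 hρ
  have h2 : ‖z‖ - ‖y‖ ≤ ‖z - y‖ := norm_sub_norm_le z y
  have h3 : ‖z - x‖ ≤ ‖z - y‖ + ‖x - y‖ := by
    have : z - x = (z - y) - (x - y) := by ring
    rw [this]; exact norm_sub_le _ _
  have h4 : ‖x - y‖ / (ρ - 1) < ‖z - y‖ := by linarith
  rw [div_lt_iff₀ h1] at h4
  nlinarith

/-- a point of an unbounded set with large norm -/
theorem endl_unbdd {S : Set ℂ} (hS : ¬ Bornology.IsBounded S) (R : ℝ) : ∃ z ∈ S, R < ‖z‖ := by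
  by_contra hc
  push Not at hc
  exact hS ((isBounded_iff_forall_norm_le).2 ⟨R, hc⟩)

/-- last step of the crossing case -/
theorem end_lemma {k : ℝ} (hk : 0 < k) (hk1 : k ≠ 1) {Ω : Set ℂ} (hΩ : Bornology.IsBounded Ω)
    (hΩc : IsPreconnected Ωᶜ)
    {ι κ : Type} [Fintype ι] [Fintype κ] {a : ι → ℂ} {r : ι → ℝ} {c : κ → ℂ} {s : κ → ℝ}
    {H : ℂ → ℂ} {b : ι → ℂ → ℂ} {B : κ → ℂ → ℂ}
    (hZ : ZSys k Ω a r H b) (hZ' : ZSys k Ω c s H B)
    (x y : ℂ) (hxy : x ≠ y) (ρ : ℝ) (hρ : 0 < ρ)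
    (i₀ : ι) (hxi : ‖x - a i₀‖ = r i₀) (hyi : ‖y - a i₀‖ = r i₀)
    (S : Set ℂ) (hS : IsPreconnected S) (hSb : ¬ Bornology.IsBounded S)
    (hS1 : ∀ i, (∀ j, ¬ (c j = a i ∧ s j = r i)) → ∀ z ∈ S, z ∉ ball (a i) (r i))
    (hS2 : ∀ j, (∀ i, ¬ (c j = a i ∧ s j = r i)) → ∀ z ∈ S, z ∉ ball (c j) (s j))
    (hxS : x ∈ S) (W : ℂ → ℂ) (hW : DifferentiableOn ℂ W (ball 0 1))
    (hm : ∀ᶠ z in 𝓝 (0 : ℂ), HasDerivAt W (pullF x y ρ (Ext k a r H b) z) z)
    (hT : ∀ ζ : ℂ, ‖ζ‖ = 1 → TT W (pullF x y ρ (Ext k a r H b))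
      (fun i => pullGD x y ρ (a i) (r i)) ζ)
    (hC : ∀ ζ : ℂ, ‖ζ‖ = 1 →
      ((∃ i, (pullGD x y ρ (a i) (r i)).q ζ < 0 ∧ ∃ j w, (pullGD x y ρ (c j) (s j)).q w = 0 ∧
          (pullGD x y ρ (a i) (r i)).q w < 0) ∨
        (∃ j, (pullGD x y ρ (c j) (s j)).q ζ < 0 ∧ ∃ i w, (pullGD x y ρ (a i) (r i)).q w = 0 ∧
          (pullGD x y ρ (c j) (s j)).q w < 0))) :
    ∃ i, ∀ z ∈ ball (a i) (r i), b i z = 0 := by
  classical
  set E : ℂ → ℂ := Ext k a r H b with hE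
  set e : ℂ → ℂ := pullF x y ρ E with he
  -- disjointness in metric form
  have hdisj : ∀ i i' z, ‖z - a i‖ ≤ r i → ‖z - a i'‖ ≤ r i' → i = i' := by
    intro i i' z h1 h2
    by_contra hne
    exact Set.disjoint_left.1 (hZ.disj i i' hne) (mem_closedBall_iff_norm.2 h1)
      (mem_closedBall_iff_norm.2 h2)
  have hdisj' : ∀ i i' z, ‖z - c i‖ ≤ s i → ‖z - c i'‖ ≤ s i' → i = i' := by
    intro i i' z h1 h2
    by_contra hne
    exact Set.disjoint_left.1 (hZ'.disj i i' hne) (mem_closedBall_iff_norm.2 h1)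
      (mem_closedBall_iff_norm.2 h2)
  -- x and y are in no open ball of the first family
  have hxb : ∀ i, r i ≤ ‖x - a i‖ := by
    intro i
    by_contra hc
    push Not at hc
    have := hdisj i i₀ x hc.le hxi.le
    subst this
    linarith
  have hyb : ∀ i, r i ≤ ‖y - a i‖ := by
    intro i
    by_contra hc
    push Not at hc
    have := hdisj i i₀ y hc.le hyi.le
    subst this
    linarith
  obtain ⟨F, hsys⟩ := sys_pull hk hk1 hZ x y hxy ρ hρ
    (fun i h => absurd (mem_ball_iff_norm.1 h) (not_lt.2 (hxb i)))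
    (fun i h => absurd (mem_ball_iff_norm.1 h) (not_lt.2 (hyb i)))
  -- points of the circle lie in a non common ball
  have hyC : ∀ z, ‖z - x‖ = ρ * ‖z - y‖ → z ≠ y := by
    intro z hz hzy
    subst hzy
    simp only [sub_self, norm_zero, mul_zero, norm_eq_zero] at hz
    exact hxy (sub_eq_zero.1 hz).symm
  have hyD : ∀ z, ‖z - x‖ < ρ * ‖z - y‖ → z ≠ y := by
    intro z hz hzy
    subst hzy
    simp only [sub_self, norm_zero, mul_zero] at hz
    exact absurd hz (not_lt.2 (norm_nonneg _))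
  have hqne : ∀ (a : ℂ) (r : ℝ) (w : ℂ), (pullGD x y ρ a r).q w ≤ 0 → 1 - (ρ : ℂ) * w ≠ 0 := by
    intro a r w hw h0
    exact absurd (endl_q_pos (a := a) (r := r) hxy h0) (not_lt.2 hw)
  have hP0 : ∀ z, ‖z - x‖ = ρ * ‖z - y‖ →
      (∃ i, ‖z - a i‖ < r i ∧ ∀ j, ¬ (c j = a i ∧ s j = r i)) ∨
      (∃ j, ‖z - c j‖ < s j ∧ ∀ i, ¬ (c j = a i ∧ s j = r i)) := by
    intro z hz
    have hzy := hyC z hz
    have hζ : ‖mobInv x y ρ z‖ = 1 := (endl_norm_eq hρ hzy).2 hz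
    rcases hC _ hζ with ⟨i, hi, j, w, hj, hw⟩ | ⟨j, hj, i, w, hi, hw⟩
    · left
      refine ⟨i, (endl_q_lt hxy hρ (a i) (hZ.pos i) hzy).1 hi, ?_⟩
      rintro j' ⟨h1, h2⟩
      have hne := hqne _ _ _ hw.le
      have h3 := (endl_q_mob_lt (a i) (hZ.pos i) hne).1 hw
      have h4 := (endl_q_mob_eq (c j) (hZ'.pos j) hne).1 hj
      rw [← h1, ← h2] at h3
      have h5 := hdisj' j' j _ h3.le h4.le
      subst h5
      linarith
    · right
      refine ⟨j, (endl_q_lt hxy hρ (c j) (hZ'.pos j) hzy).1 hj, ?_⟩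
      rintro i' ⟨h1, h2⟩
      have hne := hqne _ _ _ hw.le
      have h3 := (endl_q_mob_lt (c j) (hZ'.pos j) hne).1 hw
      have h4 := (endl_q_mob_eq (a i) (hZ.pos i) hne).1 hi
      rw [h1, h2] at h3
      have h5 := hdisj i' i _ h3.le h4.le
      subst h5
      linarith
  have hρ1 : ρ ≠ 1 := by
    intro h1
    subst h1
    have h2 : (1 : ℂ) - ((1 : ℝ) : ℂ) * 1 = 0 := by simp
    rcases hC 1 (by simp) with ⟨i, hi, -⟩ | ⟨j, hj, -⟩
    · exact hqne _ _ _ hi.le h2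
    · exact hqne _ _ _ hj.le h2
  have hSmiss : ∀ z ∈ S, ‖z - x‖ ≠ ρ * ‖z - y‖ := by
    intro z hz hze
    rcases hP0 z hze with ⟨i, hi, hn⟩ | ⟨j, hj, hn⟩
    · exact hS1 i hn z hz (mem_ball_iff_norm.2 hi)
    · exact hS2 j hn z hz (mem_ball_iff_norm.2 hj)
  have hSside := endl_side hS hSmiss hxS (by
    rw [sub_self, norm_zero]
    exact mul_pos hρ (norm_pos_iff.2 (sub_ne_zero.2 hxy)))
  have hρgt : 1 < ρ := by
    rcases lt_or_gt_of_ne hρ1 with hlt | hgt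
    · exfalso
      have h1 : 0 < 1 - ρ := sub_pos.2 hlt
      obtain ⟨z, hz, hzR⟩ := endl_unbdd hSb (ρ * ‖x - y‖ / (1 - ρ) + ‖x‖)
      have h2 := hSside z hz
      have h3 : ‖z - y‖ ≤ ‖z - x‖ + ‖x - y‖ := by
        have : z - y = (z - x) + (x - y) := by ring
        rw [this]; exact norm_add_le _ _
      have h4 : ‖z‖ - ‖x‖ ≤ ‖z - x‖ := norm_sub_norm_le z x
      have h5 : ρ * ‖x - y‖ / (1 - ρ) < ‖z - x‖ := by linarith
      rw [div_lt_iff₀ h1] at h5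
      nlinarith
    · exact hgt
  -- the complement of Ω is inside
  have hΩin : ∀ z, ρ * ‖z - y‖ ≤ ‖z - x‖ → z ∈ Ω := by
    have hmiss : ∀ z ∈ Ωᶜ, ‖z - x‖ ≠ ρ * ‖z - y‖ := by
      intro z hz hze
      rcases hP0 z hze with ⟨i, hi, -⟩ | ⟨j, hj, -⟩
      · exact hz (hZ.sub i (mem_closedBall_iff_norm.2 hi.le))
      · exact hz (hZ'.sub j (mem_closedBall_iff_norm.2 hj.le))
    obtain ⟨R, hR⟩ := (isBounded_iff_forall_norm_le).1 hΩ
    obtain ⟨z₀, hz₀⟩ : ∃ z : ℂ, max R (‖x - y‖ / (ρ - 1) + ‖y‖) < ‖z‖ := by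
      refine ⟨((max R (‖x - y‖ / (ρ - 1) + ‖y‖) + 1 : ℝ) : ℂ), ?_⟩
      rw [Complex.norm_real]
      exact lt_of_lt_of_le (lt_add_one _) (le_abs_self _)
    have hz₀Ω : z₀ ∈ Ωᶜ := fun h => absurd (hR z₀ h) (not_le.2 (lt_of_le_of_lt (le_max_left _ _) hz₀))
    have hside := endl_side hΩc hmiss hz₀Ω
      (endl_large hρgt (lt_of_le_of_lt (le_max_right _ _) hz₀))
    intro z hz
    by_contra hn
    exact absurd (hside z hn) (not_lt.2 hz)
  -- the family of good indices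
  set J : Finset ι := Finset.univ.filter (fun i =>
    Matched W e (pullGD x y ρ (a i) (r i)) ∨
      ∀ z, ‖z - a i‖ < r i → ρ * ‖z - y‖ ≤ ‖z - x‖) with hJ
  have hJmem : ∀ i, i ∈ J ↔ (Matched W e (pullGD x y ρ (a i) (r i)) ∨
      ∀ z, ‖z - a i‖ < r i → ρ * ‖z - y‖ ≤ ‖z - x‖) := by
    intro i; simp [hJ]
  -- on the circle
  have hTC : ∀ z, ‖z - x‖ = ρ * ‖z - y‖ →
      (∃ i, ‖z - a i‖ < r i ∧ Matched W e (pullGD x y ρ (a i) (r i))) ∨
      ((∀ i, r i ≤ ‖z - a i‖) ∧ BdEq W e (mobInv x y ρ z)) := by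
    intro z hz
    have hzy := hyC z hz
    rcases hT _ ((endl_norm_eq hρ hzy).2 hz) with ⟨i, hi, him⟩ | ⟨h1, h2⟩
    · exact Or.inl ⟨i, (endl_q_lt hxy hρ (a i) (hZ.pos i) hzy).1 hi, him⟩
    · exact Or.inr ⟨fun i => (endl_q_nonneg hxy hρ (a i) (hZ.pos i) hzy).1 (h1 i), h2⟩
  -- claim (2)
  have hout : ∀ i, i ∉ J → ∀ z, ‖z - a i‖ ≤ r i → ‖z - x‖ < ρ * ‖z - y‖ := by
    intro i hi
    rw [hJmem] at hi
    push Not at hi
    obtain ⟨hnm, z₁, hz₁, hz₁D⟩ := hi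
    intro z₂ hz₂
    by_contra hc
    push Not at hc
    obtain ⟨z, hz, hze⟩ := (convex_closedBall (a i) (r i)).isPreconnected.intermediate_value₂
      (mem_closedBall_iff_norm.2 hz₁.le) (mem_closedBall_iff_norm.2 hz₂)
      (f := fun z : ℂ => ‖z - x‖)
      (g := fun z : ℂ => ρ * ‖z - y‖) (by fun_prop) (by fun_prop) hz₁D.le hc
    have hzb := mem_closedBall_iff_norm.1 hz
    have hzy := hyC z hze
    rcases hTC z hze with ⟨i', hi', him⟩ | ⟨h1, h2⟩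
    · have := hdisj i i' z hzb hi'.le
      subst this
      exact hnm him
    · apply hnm
      have hzr : ‖z - a i‖ = r i := le_antisymm hzb (h1 i)
      have hqζ : (pullGD x y ρ (a i) (r i)).q (mobInv x y ρ z) = 0 :=
        (endl_q_eq_zero hxy hρ (a i) (hZ.pos i) hzy).2 hzr
      have hz₁y := hyD z₁ hz₁D
      have hq1 : (pullGD x y ρ (a i) (r i)).q (mobInv x y ρ z₁) < 0 :=
        (endl_q_lt hxy hρ (a i) (hZ.pos i) hz₁y).2 hz₁
      have hn1 : ‖mobInv x y ρ z₁‖ < 1 := (endl_norm_lt hρ hz₁y).2 hz₁D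
      have hq0 : 0 ≤ (pullGD x y ρ (a i) (r i)).q 0 := by
        have h0 : mobInv x y ρ x = 0 := by simp [mobInv]
        rw [← h0]
        exact (endl_q_nonneg hxy hρ (a i) (hZ.pos i) hxy).2 (hxb i)
      obtain ⟨p, hp, hpe⟩ := (convex_ball (0 : ℂ) 1).isPreconnected.intermediate_value₂
        (mem_ball_zero_iff.2 hn1) (mem_ball_self one_pos)
        (f := (pullGD x y ρ (a i) (r i)).q) (g := fun _ => 0)
        (endl_gd_cont _).continuousOn continuousOn_const hq1.le hq0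
      have hcl := gd_circle_closure _ (hsys.disc i) _ p ((endl_norm_eq hρ hzy).2 hze) hqζ
        (mem_ball_zero_iff.1 hp) hpe
      have hev : ∀ᶠ p' in 𝓝 (mobInv x y ρ z), ∀ᶠ w in 𝓝 p', ‖w‖ < 1 → HasDerivAt W (e w) w :=
        eventually_eventually_nhds.2 h2
      obtain ⟨p', hp'1, hp'2, hp'3⟩ := mem_closure_iff_nhds.1 hcl _ hev
      refine ⟨p', hp'3, hp'2, ?_⟩
      have hlt : ∀ᶠ w in 𝓝 p', ‖w‖ < 1 := (continuous_norm.tendsto p').eventually_lt_const hp'3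
      have hp'1' : ∀ᶠ w in 𝓝 p', ‖w‖ < 1 → HasDerivAt W (e w) w := hp'1
      filter_upwards [hp'1', hlt] with w h3 h4 using h3 h4
  -- i₀ is good
  have hi₀ : i₀ ∈ J := by
    rw [hJmem]
    left
    refine ⟨0, by simp, ?_, hm⟩
    have h0 : mobInv x y ρ x = 0 := by simp [mobInv]
    rw [← h0]
    exact (endl_q_eq_zero hxy hρ (a i₀) (hZ.pos i₀) hxy).2 hxi
  -- functions
  set Q : ℂ → ℂ := fun z => ∑ i ∈ J, Phi (a i) (r i) (b i) z with hQ
  set G : ℂ → ℂ := fun z => H z - (1 - (k : ℂ)) / 2 * ∑ i ∈ Jᶜ, Phi (a i) (r i) (b i) z with hG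
  set fB : ℂ → ℂ := fun z => deriv W (mobInv x y ρ z) * ((x - y) / (ρ * (z - y) ^ 2)) +
    (1 - (k : ℂ)) / 2 * Q z with hfB
  have hGE : ∀ z, G z = E z + (1 - (k : ℂ)) / 2 * Q z := by
    intro z
    have h1 : ∑ i, Phi (a i) (r i) (b i) z = Q z + ∑ i ∈ Jᶜ, Phi (a i) (r i) (b i) z :=
      (Finset.sum_add_sum_compl J _).symm
    simp only [hG, hE, Ext]
    rw [h1]
    ring
  have hPhid : ∀ i z, r i ≤ ‖z - a i‖ → DifferentiableAt ℂ (Phi (a i) (r i) (b i)) z :=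
    fun i z hz => endl_Phi_diff (hZ.pos i) (hZ.b_an i) hz
  have hGd : ∀ z, z ∈ Ω → (∀ i, i ∉ J → r i < ‖z - a i‖) → DifferentiableAt ℂ G z := by
    intro z hz h
    have h1 : DifferentiableAt ℂ H z := hZ.H_hol.differentiableAt (hZ.isOpen.mem_nhds hz)
    have h2 : DifferentiableAt ℂ (fun z => ∑ i ∈ Jᶜ, Phi (a i) (r i) (b i) z) z := by
      apply DifferentiableAt.fun_sum
      intro i hi
      exact hPhid i z (h i (Finset.mem_compl.1 hi)).le
    exact h1.sub (h2.const_mul _)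
  have hfBd : ∀ z, ‖z - x‖ < ρ * ‖z - y‖ → (∀ i ∈ J, r i < ‖z - a i‖) →
      DifferentiableAt ℂ fB z := by
    intro z hz h
    have hzy := hyD z hz
    have h1 : DifferentiableAt ℂ (deriv W) (mobInv x y ρ z) :=
      (hW.deriv isOpen_ball).differentiableAt
        (isOpen_ball.mem_nhds (mem_ball_zero_iff.2 ((endl_norm_lt hρ hzy).2 hz)))
    have h2 := h1.comp z (endl_hasDerivAt_mobInv (x := x) hρ hzy).differentiableAt
    have h3 : DifferentiableAt ℂ (fun z : ℂ => (x - y) / (ρ * (z - y) ^ 2)) z := by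
      apply (differentiableAt_const _).div
      · exact ((differentiableAt_id.sub_const _).pow 2).const_mul _
      · exact mul_ne_zero (by exact_mod_cast hρ.ne') (pow_ne_zero 2 (sub_ne_zero.2 hzy))
    have h4 : DifferentiableAt ℂ Q z := by
      apply DifferentiableAt.fun_sum
      intro i hi
      exact hPhid i z (h i hi).le
    exact (h2.mul h3).add (h4.const_mul _)
  set Hs : ℂ → ℂ := fun z => if ‖z - x‖ < ρ * ‖z - y‖ ∧ ∀ i ∈ J, r i < ‖z - a i‖ then fB z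
    else G z with hHs
  have hopen : ∀ z, ‖z - x‖ < ρ * ‖z - y‖ → ∀ᶠ w in 𝓝 z, ‖w - x‖ < ρ * ‖w - y‖ := by
    intro z hz
    have : IsOpen {w : ℂ | ‖w - x‖ < ρ * ‖w - y‖} := isOpen_lt (by fun_prop) (by fun_prop)
    exact this.mem_nhds hz
  have hopen' : ∀ z, ρ * ‖z - y‖ < ‖z - x‖ → ∀ᶠ w in 𝓝 z, ρ * ‖w - y‖ < ‖w - x‖ := by
    intro z hz
    have : IsOpen {w : ℂ | ρ * ‖w - y‖ < ‖w - x‖} := isOpen_lt (by fun_prop) (by fun_prop)
    exact this.mem_nhds hz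
  have hbd : ∀ z, z ≠ y → BdEq W e (mobInv x y ρ z) →
      ∀ᶠ w in 𝓝 z, ‖w - x‖ < ρ * ‖w - y‖ → fB w = G w := by
    intro z hzy h
    filter_upwards [endl_bdEq hxy hρ hzy h] with w hw hlt
    simp only [hfB]
    rw [hw hlt, hGE]
  have hHsd : Differentiable ℂ Hs := by
    intro z
    by_cases hz : ‖z - x‖ < ρ * ‖z - y‖ ∧ ∀ i ∈ J, r i < ‖z - a i‖
    · -- near z the function is fB
      have h1 : ∀ᶠ w in 𝓝 z, ∀ i ∈ J, r i < ‖w - a i‖ := by
        rw [Filter.eventually_all_finset]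
        intro i hi
        have : IsOpen {w : ℂ | r i < ‖w - a i‖} := isOpen_lt (by fun_prop) (by fun_prop)
        exact this.mem_nhds (hz.2 i hi)
      refine (hfBd z hz.1 hz.2).congr_of_eventuallyEq ?_
      filter_upwards [hopen z hz.1, h1] with w h2 h3
      simp only [hHs]
      rw [if_pos ⟨h2, h3⟩]
    · -- near z the function is G
      have hGz : DifferentiableAt ℂ G z := by
        by_cases hz1 : ‖z - x‖ < ρ * ‖z - y‖
        · have : ∃ i ∈ J, ‖z - a i‖ ≤ r i := by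
            by_contra hc
            push Not at hc
            exact hz ⟨hz1, hc⟩
          obtain ⟨i, hi, hzi⟩ := this
          apply hGd z (hZ.sub i (mem_closedBall_iff_norm.2 hzi))
          intro i' hi'
          by_contra hc
          push Not at hc
          have := hdisj i i' z hzi hc
          subst this
          exact hi' hi
        · have hz2 := not_lt.1 hz1
          apply hGd z (hΩin z hz2)
          intro i' hi'
          by_contra hc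
          push Not at hc
          exact hz1 (hout i' hi' z hc)
      refine hGz.congr_of_eventuallyEq ?_
      -- reduction
      suffices h : ∀ᶠ w in 𝓝 z, ‖w - x‖ < ρ * ‖w - y‖ → (∀ i ∈ J, r i < ‖w - a i‖) →
          fB w = G w by
        filter_upwards [h] with w hw
        simp only [hHs]
        split_ifs with h1
        · exact hw h1.1 h1.2
        · rfl
      by_cases hzb : ∃ i ∈ J, ‖z - a i‖ < r i
      · obtain ⟨i, hi, hzi⟩ := hzb
        have : IsOpen {w : ℂ | ‖w - a i‖ < r i} := isOpen_lt (by fun_prop) (by fun_prop)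
        filter_upwards [this.mem_nhds hzi] with w hw _ h2
        exact absurd (h2 i hi) (not_lt.2 (le_of_lt hw))
      push Not at hzb
      rcases lt_trichotomy (‖z - x‖) (ρ * ‖z - y‖) with hlt | heq | hgt
      · -- on a circle of J
        have : ∃ i ∈ J, ‖z - a i‖ ≤ r i := by
          by_contra hc
          push Not at hc
          exact hz ⟨hlt, hc⟩
        obtain ⟨i, hi, hzi⟩ := this
        have hzr : ‖z - a i‖ = r i := le_antisymm hzi (hzb i hi)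
        have hzy := hyD z hlt
        have him : Matched W e (pullGD x y ρ (a i) (r i)) := by
          rcases (hJmem i).1 hi with h | h
          · exact h
          · exfalso
            have hcl : z ∈ closure (ball (a i) (r i)) := by
              rw [closure_ball _ (hZ.pos i).ne']
              exact mem_closedBall_iff_norm.2 hzi
            obtain ⟨w, hw1, hw2⟩ := mem_closure_iff_nhds.1 hcl _ (hopen z hlt)
            exact absurd (h w (mem_ball_iff_norm.1 hw2)) (not_le.2 hw1)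
        have hlam0 : (1 - k) / (1 + k) ≠ 0 :=
          div_ne_zero (sub_ne_zero.2 (Ne.symm hk1)) (by positivity)
        have hlam1 : |(1 - k) / (1 + k)| < 1 := by
          rw [abs_div, abs_of_pos (by positivity : 0 < 1 + k), div_lt_one (by positivity),
            abs_lt]
          constructor <;> linarith
        have h1 := K_bdEq hlam0 hlam1 hsys hW i him (mobInv x y ρ z)
          ((endl_norm_lt hρ hzy).2 hlt).le
          ((endl_q_eq_zero hxy hρ (a i) (hZ.pos i) hzy).2 hzr)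
        filter_upwards [hbd z hzy h1] with w hw h2 _ using hw h2
      · -- on the circle C
        rcases hTC z heq with ⟨i, hi, him⟩ | ⟨-, h2⟩
        · exact absurd (hzb i ((hJmem i).2 (Or.inl him))) (not_le.2 hi)
        · filter_upwards [hbd z (hyC z heq) h2] with w hw h2 _ using hw h2
      · filter_upwards [hopen' z hgt] with w hw h2
        exact absurd h2 (not_lt.2 hw.le)
  -- behaviour at infinity
  have hlim : Tendsto Hs (cocompact ℂ) (𝓝 0) := by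
    have hQ0 : Tendsto Q (cocompact ℂ) (𝓝 0) := by
      have := tendsto_finsetSum J (fun i _ => endl_Phi_tendsto (hZ.pos i) (hZ.b_an i))
      simpa using this
    have hinv : Tendsto (fun z : ℂ => (z - y)⁻¹) (cocompact ℂ) (𝓝 0) := by
      have h1 : Tendsto (fun z : ℂ => z - y) (cocompact ℂ) (cocompact ℂ) := by
        have := (Homeomorph.addRight (-y) : ℂ ≃ₜ ℂ).isClosedEmbedding.tendsto_cocompact
        simpa [sub_eq_add_neg] using this
      rw [← Metric.cobounded_eq_cocompact] at h1 ⊢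
      exact tendsto_inv₀_cobounded.comp h1
    have hne : ∀ᶠ z : ℂ in cocompact ℂ, z ≠ y := by
      have := (isCompact_singleton (x := y)).compl_mem_cocompact
      filter_upwards [this] with z hz using hz
    have hρc : (ρ : ℂ) ≠ 0 := by exact_mod_cast hρ.ne'
    have hM : Tendsto (mobInv x y ρ) (cocompact ℂ) (𝓝 ((ρ : ℂ)⁻¹)) := by
      have h1 : Tendsto (fun z : ℂ => (ρ : ℂ)⁻¹ * (1 + (y - x) * (z - y)⁻¹)) (cocompact ℂ)
          (𝓝 ((ρ : ℂ)⁻¹ * (1 + (y - x) * 0))) :=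
        tendsto_const_nhds.mul (tendsto_const_nhds.add (tendsto_const_nhds.mul hinv))
      simp only [mul_zero, add_zero, mul_one] at h1
      refine h1.congr' ?_
      filter_upwards [hne] with z hz
      have := sub_ne_zero.2 hz
      rw [mobInv]
      field_simp
      ring
    have hmem : (ρ : ℂ)⁻¹ ∈ ball (0 : ℂ) 1 := by
      rw [mem_ball_zero_iff, norm_inv, Complex.norm_real, Real.norm_of_nonneg hρ.le]
      exact inv_lt_one_of_one_lt₀ hρgt
    have hdW : ContinuousAt (deriv W) ((ρ : ℂ)⁻¹) :=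
      ((hW.deriv isOpen_ball).differentiableAt (isOpen_ball.mem_nhds hmem)).continuousAt
    have hM' : Tendsto (fun z : ℂ => (x - y) / (ρ * (z - y) ^ 2)) (cocompact ℂ) (𝓝 0) := by
      have h1 : Tendsto (fun z : ℂ => (x - y) / ρ * ((z - y)⁻¹ * (z - y)⁻¹)) (cocompact ℂ)
          (𝓝 ((x - y) / ρ * (0 * 0))) := tendsto_const_nhds.mul (hinv.mul hinv)
      simp only [mul_zero] at h1
      refine h1.congr' ?_
      filter_upwards [hne] with z hz
      have := sub_ne_zero.2 hz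
      field_simp
    have hfB0 : Tendsto fB (cocompact ℂ) (𝓝 0) := by
      have h1 := (hdW.tendsto.comp hM).mul hM'
      have h2 := h1.add (hQ0.const_mul ((1 - (k : ℂ)) / 2))
      simp only [mul_zero, add_zero] at h2
      exact h2
    have hevD : ∀ᶠ z : ℂ in cocompact ℂ, ‖z - x‖ < ρ * ‖z - y‖ := by
      have := (isCompact_closedBall (0 : ℂ) (‖x - y‖ / (ρ - 1) + ‖y‖)).compl_mem_cocompact
      filter_upwards [this] with z hz
      apply endl_large hρgt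
      simpa using hz
    have hevJ : ∀ᶠ z : ℂ in cocompact ℂ, ∀ i ∈ J, r i < ‖z - a i‖ := by
      rw [Filter.eventually_all_finset]
      intro i _
      filter_upwards [(isCompact_closedBall (a i) (r i)).compl_mem_cocompact] with z hz
      simpa [dist_eq_norm] using hz
    refine hfB0.congr' ?_
    filter_upwards [hevD, hevJ] with z h1 h2
    simp only [hHs]
    rw [if_pos ⟨h1, h2⟩]
  have hzero : ∀ z, Hs z = 0 := fun z => hHsd.apply_eq_of_tendsto_cocompact z hlim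
  have key : ∀ i ∈ J, ∀ z, ‖z - a i‖ < r i →
      (1 + (k : ℂ)) / 2 * b i z = -((1 - (k : ℂ)) / 2 * (Q z - Phi (a i) (r i) (b i) z)) := by
    intro i hi z hz
    have h1 : Hs z = G z := by
      simp only [hHs]
      rw [if_neg]
      rintro ⟨-, h⟩
      exact absurd (h i hi) (not_lt.2 hz.le)
    have h2 := (hZ.rep i z (mem_closedBall_iff_norm.2 hz.le)).self_of_nhds
    have h3 := hzero z
    rw [h1, hGE] at h3
    linear_combination h2 + h3
  refine ⟨i₀, ?_⟩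
  have hfin := global_zero k hk (κ := {i // i ∈ J}) (fun i => a i) (fun i => r i)
    (fun i => hZ.pos i) (fun i => b i) (fun i => hZ.b_an i)
    (fun i j hij => hZ.disj i j (fun h => hij (Subtype.ext h))) (by
      rintro ⟨i, hi⟩ z hz
      have h1 := key i hi z (mem_ball_iff_norm.1 hz)
      have h2 : ∑ i : {i // i ∈ J}, Phi (a i) (r i) (b i) z = Q z :=
        Finset.sum_coe_sort J (fun i => Phi (a i) (r i) (b i) z)
      simp only [h2]
      exact h1)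
  exact hfin ⟨i₀, hi₀⟩

end Pool.Agent.H385
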