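import Pool.Agent.H385.Defs

open Complex Metric Set Filter Topology ComplexConjugate MeasureTheory
open scoped ContDiff ENNReal

namespace Pool.Agent.H385

/-- conjugating on both sides preserves analyticity -/
theorem entire_conj_conj {b : ℂ → ℂ} {z : ℂ} (hb : AnalyticAt ℂ b (conj z)) :
    AnalyticAt ℂ (fun w => conj (b (conj w))) z := by
  rw [analyticAt_iff_eventually_differentiableAt] at hb ⊢
  have hc : Tendsto (fun w : ℂ => conj w) (𝓝 z) (𝓝 (conj z)) := Complex.continuous_conj.continuousAt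
  filter_upwards [hc.eventually hb] with w hw
  have h := differentiableAt_conj_conj_iff.2 hw
  exact h

/-- the reflected field is analytic outside the open disk -/
theorem entire_Phi {a : ℂ} {r : ℝ} (hr : 0 < r) {b : ℂ → ℂ}
    (hb : ∀ z ∈ closedBall a r, AnalyticAt ℂ b z) {z : ℂ} (hz : r ≤ ‖z - a‖) :
    AnalyticAt ℂ (Phi a r b) z := by
  have hza : z - a ≠ 0 := by
    intro h
    rw [h, norm_zero] at hz
    linarith
  have h1 : AnalyticAt ℂ (fun w : ℂ => conj a + (r : ℂ) ^ 2 / (w - a)) z := by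
    have h0 : AnalyticAt ℂ (fun w : ℂ => w - a) z := analyticAt_id.sub analyticAt_const
    exact analyticAt_const.add (analyticAt_const.fun_div h0 hza)
  have h2 : conj (conj a + (r : ℂ) ^ 2 / (z - a)) ∈ closedBall a r := by
    rw [mem_closedBall, dist_eq_norm]
    have : conj (conj a + (r : ℂ) ^ 2 / (z - a)) - a = conj ((r : ℂ) ^ 2 / (z - a)) := by
      rw [map_add, Complex.conj_conj]
      ring
    rw [this, RCLike.norm_conj, norm_div, norm_pow, Complex.norm_real, Real.norm_eq_abs, abs_of_pos hr,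
      div_le_iff₀ (by linarith), sq]
    exact mul_le_mul_of_nonneg_left hz hr.le
  have h3 : AnalyticAt ℂ (fun w : ℂ => conj (b (conj (conj a + (r : ℂ) ^ 2 / (w - a))))) z :=
    AnalyticAt.fun_comp (g := fun w => conj (b (conj w))) (f := fun w : ℂ => conj a + (r : ℂ) ^ 2 / (w - a))
      (entire_conj_conj (hb _ h2)) h1
  have h4 : AnalyticAt ℂ (fun w : ℂ => (r : ℂ) ^ 2 / (w - a) ^ 2) z := by
    have h0 : AnalyticAt ℂ (fun w : ℂ => (w - a) ^ 2) z := (analyticAt_id.sub analyticAt_const).pow 2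
    exact analyticAt_const.fun_div h0 (pow_ne_zero 2 hza)
  have h5 : Phi a r b = fun w : ℂ => (r : ℂ) ^ 2 / (w - a) ^ 2 *
      conj (b (conj (conj a + (r : ℂ) ^ 2 / (w - a)))) := by
    funext w
    unfold Phi cinv
    rw [map_add, Complex.conj_conj, map_div₀, map_pow, Complex.conj_ofReal]
  rw [h5]
  exact h4.mul h3

/-- the exterior field is analytic on the boundary circles -/
theorem entire_Ext {k : ℝ} {Ω : Set ℂ} {ι : Type} [Fintype ι] {a : ι → ℂ} {r : ι → ℝ} {H : ℂ → ℂ}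
    {b : ι → ℂ → ℂ} (hZ : ZSys k Ω a r H b) {i : ι} {z : ℂ} (hz : ‖z - a i‖ = r i) :
    AnalyticAt ℂ (Ext k a r H b) z := by
  have hmem : z ∈ closedBall (a i) (r i) := by
    rw [mem_closedBall, dist_eq_norm, hz]
  have hH : AnalyticAt ℂ H z :=
    hZ.H_hol.analyticAt (hZ.isOpen.mem_nhds (hZ.sub i hmem))
  have hP : ∀ j, AnalyticAt ℂ (Phi (a j) (r j) (b j)) z := by
    intro j
    apply entire_Phi (hZ.pos j) (hZ.b_an j)
    by_cases hji : j = i
    · subst hji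
      exact hz.ge
    · by_contra hlt
      push Not at hlt
      have hj : z ∈ closedBall (a j) (r j) := by
        rw [mem_closedBall, dist_eq_norm]
        exact hlt.le
      exact Set.disjoint_left.1 (hZ.disj j i hji) hj hmem
  have hE : Ext k a r H b = fun w => H w - (1 - (k : ℂ)) / 2 * ∑ j, Phi (a j) (r j) (b j) w := rfl
  rw [hE]
  apply hH.sub
  apply analyticAt_const.mul
  exact Finset.analyticAt_fun_sum _ fun j _ => hP j

/-- the exterior of a disk is preconnected -/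
theorem entire_ext_preconnected {R : ℝ} (hR : 0 < R) : IsPreconnected {ζ : ℂ | R < ‖ζ‖} := by
  have h1 : IsPreconnected ((Ioi R ×ˢ (univ : Set ℝ)) : Set (ℝ × ℝ)) :=
    isPreconnected_Ioi.prod isPreconnected_univ
  have h2 : Continuous (fun p : ℝ × ℝ => (p.1 : ℂ) * exp ((p.2 : ℂ) * I)) := by fun_prop
  have h3 := h1.image _ h2.continuousOn
  convert h3 using 1
  ext ζ
  simp only [Set.mem_image, Set.mem_prod, Set.mem_univ, and_true, Set.mem_Ioi, Prod.exists, Set.mem_ofPred_eq]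
  constructor
  · intro h
    exact ⟨‖ζ‖, arg ζ, h, Complex.norm_mul_exp_arg_mul_I ζ⟩
  · rintro ⟨s, t, hs, rfl⟩
    rw [norm_mul, Complex.norm_exp_ofReal_mul_I, mul_one, Complex.norm_real, Real.norm_eq_abs,
      abs_of_pos (hR.trans hs)]
    exact hs

/-- the pulled back field is analytic where the field is -/
theorem entire_pull {E : ℂ → ℂ} {x y ζ : ℂ} (hζ : ζ ≠ 1) (hE : AnalyticAt ℂ E (mob x y 1 ζ)) :
    AnalyticAt ℂ (pullF x y 1 E) ζ := by
  have h1 : AnalyticAt ℂ (fun w : ℂ => 1 - ((1 : ℝ) : ℂ) * w) ζ :=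
    analyticAt_const.sub (analyticAt_const.mul analyticAt_id)
  have h1' : (1 : ℂ) - ((1 : ℝ) : ℂ) * ζ ≠ 0 := by
    rw [Complex.ofReal_one, one_mul]
    exact sub_ne_zero.2 (Ne.symm hζ)
  have h2 : AnalyticAt ℂ (mob x y 1) ζ := by
    have : mob x y 1 = fun w : ℂ => (x - ((1 : ℝ) : ℂ) * y * w) / (1 - ((1 : ℝ) : ℂ) * w) := rfl
    rw [this]
    exact (analyticAt_const.sub (analyticAt_const.mul analyticAt_id)).div h1 h1'
  have h3 : pullF x y 1 E = fun w : ℂ =>
      E (mob x y 1 w) * (((1 : ℝ) : ℂ) * (x - y) / (1 - ((1 : ℝ) : ℂ) * w) ^ 2) := rfl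
  rw [h3]
  exact (hE.fun_comp h2).mul (analyticAt_const.fun_div (h1.fun_pow 2) (pow_ne_zero 2 h1'))

theorem entire_mob_sub {x y ζ : ℂ} (hζ : ζ ≠ 1) : mob x y 1 ζ = y + (x - y) * (1 - ζ)⁻¹ := by
  have h : (1 : ℂ) - ζ ≠ 0 := sub_ne_zero.2 (Ne.symm hζ)
  unfold mob
  rw [Complex.ofReal_one, one_mul, one_mul]
  field_simp
  ring

/-- the line through `0` which is the preimage of the circle -/
theorem entire_line {a x y : ℂ} {r : ℝ} (hxy : x ≠ y) (hx : ‖x - a‖ = r)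
    (hy : ‖y - a‖ = r) :
    ∃ v : ℂ, v ≠ 0 ∧ ∀ t : ℝ, (t : ℂ) * v ≠ 1 ∧ ‖mob x y 1 ((t : ℂ) * v) - a‖ = r := by
  set c : ℂ := conj (x - a) * (y - a) - (r : ℂ) ^ 2 with hc
  have hcre : c.re = -(‖x - y‖ ^ 2 / 2) := by
    rw [hc, ← Complex.ofReal_pow, ← hx]
    have h1 := hx.trans hy.symm
    have h2 : ‖x - a‖ ^ 2 = ‖y - a‖ ^ 2 := by rw [h1]
    rw [← Complex.normSq_eq_norm_sq, ← Complex.normSq_eq_norm_sq] at h2
    rw [← Complex.normSq_eq_norm_sq, ← Complex.normSq_eq_norm_sq]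
    simp only [Complex.normSq_apply, Complex.sub_re, Complex.sub_im, Complex.mul_re, Complex.conj_re,
      Complex.conj_im, Complex.ofReal_re, map_sub] at h2 ⊢
    linarith
  have hxy' : 0 < ‖x - y‖ ^ 2 / 2 := by
    have : 0 < ‖x - y‖ := norm_pos_iff.2 (sub_ne_zero.2 hxy)
    positivity
  have hcne : c ≠ 0 := by
    intro h
    rw [h, Complex.zero_re] at hcre
    linarith
  have hzero : ∀ t : ℝ, (c * ((t : ℂ) * (I * conj c))).re = 0 := by
    intro t
    simp only [Complex.mul_re, Complex.mul_im, Complex.ofReal_re, Complex.ofReal_im, Complex.I_re, Complex.I_im,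
      Complex.conj_re, Complex.conj_im]
    ring
  refine ⟨I * conj c, mul_ne_zero I_ne_zero ((map_ne_zero _).2 hcne), fun t => ?_⟩
  have hne : (t : ℂ) * (I * conj c) ≠ 1 := by
    intro h
    have h0 := hzero t
    rw [h, mul_one] at h0
    rw [h0] at hcre
    linarith
  refine ⟨hne, ?_⟩
  set ζ : ℂ := (t : ℂ) * (I * conj c) with hζ
  have h0 : (c * ζ).re = 0 := hzero t
  have hd : (1 : ℂ) - ζ ≠ 0 := sub_ne_zero.2 (Ne.symm hne)
  have h1 : mob x y 1 ζ - a = ((x - a) - (y - a) * ζ) / (1 - ζ) := by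
    unfold mob
    rw [Complex.ofReal_one, one_mul, one_mul]
    field_simp
    ring
  have hr0 : 0 ≤ r := hx ▸ norm_nonneg _
  rw [h1, norm_div, div_eq_iff (norm_ne_zero_iff.2 hd)]
  have hsq : ‖(x - a) - (y - a) * ζ‖ ^ 2 = (r * ‖1 - ζ‖) ^ 2 := by
    have h2 : ‖x - a‖ ^ 2 = r ^ 2 := by rw [hx]
    have h3 : ‖y - a‖ ^ 2 = r ^ 2 := by rw [hy]
    rw [mul_pow]
    rw [hc, ← Complex.ofReal_pow] at h0
    rw [← Complex.normSq_eq_norm_sq] at h2 h3
    rw [← Complex.normSq_eq_norm_sq, ← Complex.normSq_eq_norm_sq]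
    clear_value ζ
    simp only [Complex.normSq_apply, Complex.sub_re, Complex.sub_im, Complex.mul_re, Complex.mul_im, Complex.conj_re,
      Complex.conj_im, Complex.ofReal_re, Complex.ofReal_im, map_sub, Complex.one_re, Complex.one_im] at h2 h3 h0 ⊢
    linear_combination h2 + (ζ.re * ζ.re + ζ.im * ζ.im) * h3 - 2 * h0
  exact (sq_eq_sq₀ (norm_nonneg _) (mul_nonneg hr0 (norm_nonneg _))).1 hsq

/-- the entire case -/
theorem entire_case {k : ℝ} (hk : 0 < k) (hk1 : k ≠ 1) {Ω : Set ℂ}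
    {ι : Type} [Fintype ι] {a : ι → ℂ} {r : ι → ℝ} {H : ℂ → ℂ} {b : ι → ℂ → ℂ}
    (hZ : ZSys k Ω a r H b) (x y : ℂ) (hxy : x ≠ y) (i : ι) (hx : ‖x - a i‖ = r i)
    (hy : ‖y - a i‖ = r i) (W : ℂ → ℂ) (hW : Differentiable ℂ W)
    (hm : ∀ᶠ z in 𝓝 (0 : ℂ), HasDerivAt W (pullF x y 1 (Ext k a r H b) z) z) :
    ∀ᶠ z in 𝓝 x, Ext k a r H b z = 0 := by
  set E := Ext k a r H b with hE
  have hEan : ∀ z, ‖z - a i‖ = r i → AnalyticAt ℂ E z := fun z hz => entire_Ext hZ hz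
  have hxyn : 0 < ‖x - y‖ := norm_pos_iff.2 (sub_ne_zero.2 hxy)
  -- exterior region
  obtain ⟨δ, hδ, hball⟩ : ∃ δ > 0, ∀ z, ‖z - y‖ < δ → AnalyticAt ℂ E z := by
    have h := (hEan y hy).eventually_analyticAt
    obtain ⟨δ, hδ, h⟩ := Metric.eventually_nhds_iff.1 h
    exact ⟨δ, hδ, fun z hz => h (by rw [dist_eq_norm]; exact hz)⟩
  set R : ℝ := 1 + ‖x - y‖ / δ with hR
  have hRpos : 1 < R := by
    have : 0 < ‖x - y‖ / δ := by positivity
    linarith
  have hext : ∀ ζ : ℂ, R < ‖ζ‖ → ζ ≠ 1 ∧ AnalyticAt ℂ (pullF x y 1 E) ζ := by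
    intro ζ hζ
    have h1 : ζ ≠ 1 := by
      rintro rfl
      rw [norm_one] at hζ
      linarith
    refine ⟨h1, entire_pull h1 (hball _ ?_)⟩
    have h2 : ‖x - y‖ / δ < ‖1 - ζ‖ := by
      have h3 : ‖ζ‖ - ‖(1 : ℂ)‖ ≤ ‖ζ - 1‖ := norm_sub_norm_le ζ 1
      rw [norm_one, norm_sub_rev] at h3
      linarith
    have h3 : 0 < ‖1 - ζ‖ := lt_of_le_of_lt (by positivity) h2
    rw [entire_mob_sub h1, add_sub_cancel_left, norm_mul, norm_inv, ← div_eq_mul_inv, div_lt_iff₀ h3]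
    rwa [div_lt_iff₀ hδ, mul_comm] at h2
  obtain ⟨v, hv, hline⟩ := entire_line hxy hx hy
  set L : Set ℂ := Set.range (fun t : ℝ => (t : ℂ) * v) with hL
  have hLpre : IsPreconnected L := by
    apply isPreconnected_range
    fun_prop
  have h0L : (0 : ℂ) ∈ L := ⟨0, by simp⟩
  have hLan : ∀ ζ ∈ L, AnalyticAt ℂ (pullF x y 1 E) ζ := by
    rintro ζ ⟨t, rfl⟩
    exact entire_pull (hline t).1 (hEan _ (hline t).2)
  have hmeet : ∃ ζ, ζ ∈ L ∧ R < ‖ζ‖ := by
    have hvn : 0 < ‖v‖ := norm_pos_iff.2 hv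
    refine ⟨((2 * R / ‖v‖ : ℝ) : ℂ) * v, ⟨_, rfl⟩, ?_⟩
    rw [norm_mul, Complex.norm_real, Real.norm_eq_abs, abs_of_pos (by positivity), div_mul_cancel₀ _ hvn.ne']
    linarith
  obtain ⟨ζ₁, hζ₁L, hζ₁R⟩ := hmeet
  have hA : IsPreconnected (L ∪ {ζ : ℂ | R < ‖ζ‖}) :=
    hLpre.union ζ₁ hζ₁L hζ₁R (entire_ext_preconnected (by linarith))
  have hdW : Differentiable ℂ (deriv W) := hW.deriv
  have hWan : AnalyticOnNhd ℂ (deriv W) (L ∪ {ζ : ℂ | R < ‖ζ‖}) := fun z _ =>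
    hdW.analyticAt z
  have hean : AnalyticOnNhd ℂ (pullF x y 1 E) (L ∪ {ζ : ℂ | R < ‖ζ‖}) := by
    rintro z (hz | hz)
    · exact hLan z hz
    · exact (hext z hz).2
  have hev : deriv W =ᶠ[𝓝 0] pullF x y 1 E := by
    filter_upwards [hm] with z hz
    exact hz.deriv
  have heq := hWan.eqOn_of_preconnected_of_eventuallyEq hean hA (Or.inl h0L) hev
  -- Liouville
  have hlim : Tendsto (deriv W) (cocompact ℂ) (𝓝 0) := by
    rw [← Metric.cobounded_eq_cocompact]
    have hc : Tendsto (fun ζ : ℂ => (1 - ζ)⁻¹) (Bornology.cobounded ℂ) (𝓝 0) :=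
      Filter.tendsto_inv₀_cobounded.comp (tendsto_const_sub_cobounded 1)
    have hN : Tendsto (fun ζ : ℂ => y + (x - y) * (1 - ζ)⁻¹) (Bornology.cobounded ℂ) (𝓝 y) := by
      have := (hc.const_mul (x - y)).const_add y
      simpa using this
    have hEN : Tendsto (fun ζ : ℂ => E (y + (x - y) * (1 - ζ)⁻¹)) (Bornology.cobounded ℂ) (𝓝 (E y)) :=
      (hEan y hy).continuousAt.tendsto.comp hN
    have hall : Tendsto (fun ζ : ℂ => E (y + (x - y) * (1 - ζ)⁻¹) * ((x - y) * ((1 - ζ)⁻¹) ^ 2))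
        (Bornology.cobounded ℂ) (𝓝 0) := by
      have := hEN.mul ((hc.pow 2).const_mul (x - y))
      simpa using this
    refine hall.congr' ?_
    have hbig : ∀ᶠ ζ : ℂ in Bornology.cobounded ℂ, R < ‖ζ‖ :=
      tendsto_norm_cobounded_atTop.eventually (eventually_gt_atTop R)
    filter_upwards [hbig] with ζ hζ
    rw [heq (Or.inr hζ)]
    unfold pullF
    rw [entire_mob_sub (hext ζ hζ).1, Complex.ofReal_one, one_mul, one_mul, inv_pow, div_eq_mul_inv]
  have hzero : ∀ z, deriv W z = 0 := fun z => hdW.apply_eq_of_tendsto_cocompact z hlim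
  -- conclusion
  have hz0 : ∀ᶠ z in 𝓝 (0 : ℂ), pullF x y 1 E z = 0 := by
    filter_upwards [hev] with z hz
    rw [← hz, hzero]
  have hback : Tendsto (fun w : ℂ => (w - x) / (w - y)) (𝓝 x) (𝓝 0) := by
    have hcont : ContinuousAt (fun w : ℂ => (w - x) / (w - y)) x := by
      apply ContinuousAt.div
      · fun_prop
      · fun_prop
      · exact sub_ne_zero.2 hxy
    have := hcont.tendsto
    simpa using this
  filter_upwards [hback.eventually hz0, isOpen_compl_singleton.mem_nhds (show x ∈ ({y} : Set ℂ)ᶜ from hxy)]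
    with w hw hwy
  have hwy' : w - y ≠ 0 := sub_ne_zero.2 hwy
  have hxy2 : x - y ≠ 0 := sub_ne_zero.2 hxy
  have hden : (1 : ℂ) - (w - x) / (w - y) = (x - y) / (w - y) := by
    field_simp
    ring
  have hmob : mob x y 1 ((w - x) / (w - y)) = w := by
    unfold mob
    rw [Complex.ofReal_one, one_mul, one_mul, hden]
    field_simp
    ring
  unfold pullF at hw
  rw [hmob, Complex.ofReal_one, one_mul, one_mul, hden] at hw
  rcases mul_eq_zero.1 hw with h | h
  · exact h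
  · exfalso
    exact (div_ne_zero hxy2 (pow_ne_zero 2 (div_ne_zero hxy2 hwy'))) h

end Pool.Agent.H385
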