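import Pool.Agent.H385.Defs

open Complex Metric Set Filter Topology ComplexConjugate MeasureTheory
open scoped ContDiff ENNReal

namespace Pool.Agent.H385

/-- identity theorem on the intersection of two balls centred at points of the unit circle -/
theorem radius_glue {p p' : ℂ} {δ : ℝ} (hp : ‖p‖ = 1) (hδ : 0 < δ) (hδ1 : δ ≤ 1)
    (hpp : ‖p - p'‖ < δ / 2) {W h h' : ℂ → ℂ}
    (hh : DifferentiableOn ℂ h (ball p δ)) (hh' : DifferentiableOn ℂ h' (ball p' δ))
    (hW : ∀ z ∈ ball p δ, z ∈ ball (0 : ℂ) 1 → W z = h z)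
    (hW' : ∀ z ∈ ball p' δ, z ∈ ball (0 : ℂ) 1 → W z = h' z) :
    ∀ z ∈ ball p δ ∩ ball p' δ, h z = h' z := by
  have ho : IsOpen (ball p δ ∩ ball p' δ) := isOpen_ball.inter isOpen_ball
  have hc : IsPreconnected (ball p δ ∩ ball p' δ) :=
    ((convex_ball p δ).inter (convex_ball p' δ)).isPreconnected
  have h1 : AnalyticOnNhd ℂ h (ball p δ ∩ ball p' δ) :=
    (hh.mono inter_subset_left).analyticOnNhd ho
  have h2 : AnalyticOnNhd ℂ h' (ball p δ ∩ ball p' δ) :=
    (hh'.mono inter_subset_right).analyticOnNhd ho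
  set q : ℂ := ((1 - δ / 4 : ℝ) : ℂ) * p with hq
  have hqp : ‖q - p‖ = δ / 4 := by
    have : q - p = ((-(δ / 4) : ℝ) : ℂ) * p := by
      rw [hq]; push_cast; ring
    rw [this, norm_mul, hp, mul_one, Complex.norm_real, Real.norm_eq_abs, abs_neg,
      abs_of_pos (by positivity)]
  have hq0 : q ∈ ball (0 : ℂ) 1 := by
    rw [mem_ball_zero_iff, hq, norm_mul, hp, mul_one, Complex.norm_real, Real.norm_eq_abs,
      abs_of_nonneg (by linarith)]
    linarith
  have hq1 : q ∈ ball p δ := by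
    rw [mem_ball_iff_norm, hqp]
    linarith
  have hq2 : q ∈ ball p' δ := by
    rw [mem_ball_iff_norm]
    have : ‖q - p'‖ ≤ ‖q - p‖ + ‖p - p'‖ := norm_sub_le_norm_sub_add_norm_sub q p p'
    linarith
  intro z hz
  refine h1.eqOn_of_preconnected_of_eventuallyEq h2 hc ⟨hq1, hq2⟩ ?_ hz
  filter_upwards [(ho.inter isOpen_ball).mem_nhds (show q ∈ (ball p δ ∩ ball p' δ) ∩
    ball (0 : ℂ) 1 from ⟨⟨hq1, hq2⟩, hq0⟩)] with w hw
  rw [← hW w hw.1.1 hw.2, ← hW' w hw.1.2 hw.2]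

theorem radius_proj {z : ℂ} (hz : 1 ≤ ‖z‖) :
    ‖z / (‖z‖ : ℂ)‖ = 1 ∧ ‖z - z / (‖z‖ : ℂ)‖ = ‖z‖ - 1 := by
  have h0 : (‖z‖ : ℂ) ≠ 0 := by
    exact_mod_cast (by linarith : ‖z‖ ≠ 0)
  have h1 : ‖z‖ ≠ 0 := by linarith
  constructor
  · rw [norm_div, Complex.norm_real, norm_norm, div_self h1]
  · have h2 : z - z / (‖z‖ : ℂ) = (((‖z‖ - 1) / ‖z‖ : ℝ) : ℂ) * z := by
      push_cast
      field_simp
    rw [h2, norm_mul, Complex.norm_real, Real.norm_eq_abs, abs_of_nonneg (by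
      apply div_nonneg <;> linarith)]
    field_simp

theorem extend_of_reg {W : ℂ → ℂ} (hW : DifferentiableOn ℂ W (ball 0 1))
    (h : ∀ p : ℂ, ‖p‖ = 1 → Reg W p) :
    ∃ R > 1, ∃ V : ℂ → ℂ, DifferentiableOn ℂ V (ball 0 R) ∧ ∀ z : ℂ, ‖z‖ < 1 → V z = W z := by
  classical
  choose ρ hρ H hH1 hH2 using fun p : sphere (0 : ℂ) 1 => h p.1 (mem_sphere_zero_iff_norm.1 p.2)
  obtain ⟨δ0, hδ0, hleb⟩ := lebesgue_number_lemma_of_metric (isCompact_sphere (0 : ℂ) 1)
    (c := fun p : sphere (0 : ℂ) 1 => ball p.1 (ρ p)) (fun p => isOpen_ball)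
    (fun x hx => mem_iUnion.2 ⟨⟨x, hx⟩, mem_ball_self (hρ _)⟩)
  set δ : ℝ := min δ0 1 with hδ
  have hδp : 0 < δ := lt_min hδ0 one_pos
  have hδ1 : δ ≤ 1 := min_le_right _ _
  have hex : ∀ x : ℂ, ‖x‖ = 1 → ∃ g : ℂ → ℂ, DifferentiableOn ℂ g (ball x δ) ∧
      ∀ z ∈ ball x δ, z ∈ ball (0 : ℂ) 1 → W z = g z := by
    intro x hx
    obtain ⟨p, hp⟩ := hleb x (mem_sphere_zero_iff_norm.2 hx)
    have hsub : ball x δ ⊆ ball p.1 (ρ p) := (ball_subset_ball (min_le_left _ _)).trans hp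
    exact ⟨H p, (hH1 p).mono hsub, fun z hz hz' => hH2 p z (hsub hz) hz'⟩
  choose! g hg1 hg2 using hex
  set V : ℂ → ℂ := fun z => if ‖z‖ < 1 then W z else g (z / (‖z‖ : ℂ)) z with hV
  refine ⟨1 + δ / 8, by linarith, V, ?_, fun z hz => by simp only [hV]; rw [if_pos hz]⟩
  intro z hz
  rw [mem_ball_zero_iff] at hz
  refine DifferentiableAt.differentiableWithinAt ?_
  rcases lt_or_ge ‖z‖ 1 with h1 | h1
  · have h2 : DifferentiableAt ℂ W z :=
      hW.differentiableAt (isOpen_ball.mem_nhds (mem_ball_zero_iff.2 h1))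
    refine h2.congr_of_eventuallyEq ?_
    filter_upwards [isOpen_ball.mem_nhds (mem_ball_zero_iff.2 h1)] with w hw
    simp only [hV]
    rw [if_pos (mem_ball_zero_iff.1 hw)]
  · set p : ℂ := z / (‖z‖ : ℂ) with hp
    obtain ⟨hp1, hp2⟩ := radius_proj h1
    rw [← hp] at hp1 hp2
    have hzp : z ∈ ball p δ := by
      rw [mem_ball_iff_norm, hp2]
      linarith
    have h2 : DifferentiableAt ℂ (g p) z :=
      (hg1 p hp1).differentiableAt (isOpen_ball.mem_nhds hzp)
    refine h2.congr_of_eventuallyEq ?_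
    filter_upwards [ball_mem_nhds z (show 0 < δ / 16 by positivity)] with w hw
    rw [mem_ball_iff_norm] at hw
    have hwp : w ∈ ball p δ := by
      rw [mem_ball_iff_norm]
      have : ‖w - p‖ ≤ ‖w - z‖ + ‖z - p‖ := norm_sub_le_norm_sub_add_norm_sub w z p
      linarith
    simp only [hV]
    rcases lt_or_ge ‖w‖ 1 with h3 | h3
    · rw [if_pos h3]
      exact hg2 p hp1 w hwp (mem_ball_zero_iff.2 h3)
    · rw [if_neg (not_lt.2 h3)]
      obtain ⟨hp1', hp2'⟩ := radius_proj h3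
      set p' : ℂ := w / (‖w‖ : ℂ) with hp'
      have hwn : ‖w‖ ≤ ‖w - z‖ + ‖z‖ := by
        have := norm_add_le (w - z) z
        rwa [sub_add_cancel] at this
      have hwp' : w ∈ ball p' δ := by
        rw [mem_ball_iff_norm, hp2']
        linarith
      have hpp : ‖p - p'‖ < δ / 2 := by
        have e1 : ‖p - p'‖ ≤ ‖p - w‖ + ‖w - p'‖ := norm_sub_le_norm_sub_add_norm_sub p w p'
        have e2 : ‖p - w‖ ≤ ‖p - z‖ + ‖z - w‖ := norm_sub_le_norm_sub_add_norm_sub p z w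
        rw [norm_sub_rev p z, norm_sub_rev z w] at e2
        linarith
      exact (radius_glue hp1 hδp hδ1 hpp (hg1 p hp1) (hg1 p' hp1') (hg2 p hp1) (hg2 p' hp1') w
        ⟨hwp, hwp'⟩).symm

theorem radius (e : ℂ → ℂ) (he : AnalyticAt ℂ e 0) :
    (∃ W : ℂ → ℂ, Differentiable ℂ W ∧ ∀ᶠ z in 𝓝 (0 : ℂ), HasDerivAt W (e z) z) ∨
    ∃ ρ : ℝ, 0 < ρ ∧ ∃ W : ℂ → ℂ, DifferentiableOn ℂ W (ball 0 1) ∧
      (∀ᶠ z in 𝓝 (0 : ℂ), HasDerivAt W ((ρ : ℂ) * e ((ρ : ℂ) * z)) z) ∧ ∃ s, Sing W s := by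
  classical
  -- primitive
  obtain ⟨ε, hε, hball⟩ := Metric.eventually_nhds_iff_ball.1 he.eventually_analyticAt
  have hed : DifferentiableOn ℂ e (ball 0 ε) := fun z hz =>
    (hball z hz).differentiableAt.differentiableWithinAt
  obtain ⟨E, hE⟩ := hed.isExactOn_ball
  have hEd : DifferentiableOn ℂ E (ball 0 ε) := fun z hz =>
    (hE z hz).differentiableAt.differentiableWithinAt
  have hEa : AnalyticAt ℂ E 0 := hEd.analyticAt (ball_mem_nhds 0 hε)
  obtain ⟨p, hp⟩ := hEa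
  have hpr : 0 < p.radius := hp.radius_pos
  have hS := p.hasFPowerSeriesOnBall hpr
  have hSE : ∀ᶠ z in 𝓝 (0 : ℂ), E z = p.sum z := by
    obtain ⟨r, hr⟩ := hp
    have h1 : ∀ᶠ z in 𝓝 (0 : ℂ), z ∈ Metric.eball (0 : ℂ) r :=
      Metric.eball_mem_nhds 0 hr.r_pos
    filter_upwards [h1] with z hz
    have h2 := hr.sum hz
    rwa [zero_add] at h2
  have hSd : ∀ᶠ z in 𝓝 (0 : ℂ), HasDerivAt p.sum (e z) z := by
    filter_upwards [hSE.eventually_nhds, ball_mem_nhds (0 : ℂ) hε] with z hz hz'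
    refine (hE z hz').congr_of_eventuallyEq ?_
    filter_upwards [hz] with w hw
    exact hw.symm
  by_cases htop : p.radius = ⊤
  · left
    refine ⟨p.sum, ?_, hSd⟩
    have h1 := hS.differentiableOn
    rw [htop, Metric.eball_top] at h1
    exact differentiableOn_univ.1 h1
  · right
    set ρ : ℝ := p.radius.toReal with hρ
    have hρ0 : 0 < ρ := ENNReal.toReal_pos hpr.ne' htop
    have hρr : ENNReal.ofReal ρ = p.radius := ENNReal.ofReal_toReal htop
    have hSball : DifferentiableOn ℂ p.sum (ball 0 ρ) := by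
      have h1 := hS.differentiableOn
      rwa [← hρr, Metric.eball_ofReal] at h1
    have hρc : (ρ : ℂ) ≠ 0 := by exact_mod_cast hρ0.ne'
    set W : ℂ → ℂ := fun z => p.sum ((ρ : ℂ) * z) with hW
    have hWd : DifferentiableOn ℂ W (ball 0 1) := by
      refine hSball.comp ((differentiable_const _).mul differentiable_id).differentiableOn ?_
      intro z hz
      rw [mem_ball_zero_iff] at hz ⊢
      rw [norm_mul, Complex.norm_real, Real.norm_eq_abs, abs_of_pos hρ0]
      nlinarith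
    refine ⟨ρ, hρ0, W, hWd, ?_, ?_⟩
    · have hc : Tendsto (fun z : ℂ => (ρ : ℂ) * z) (𝓝 0) (𝓝 0) := by
        have : Continuous fun z : ℂ => (ρ : ℂ) * z := by fun_prop
        simpa using this.tendsto 0
      filter_upwards [hc.eventually hSd] with z hz
      have h1 : HasDerivAt (fun z : ℂ => (ρ : ℂ) * z) (ρ : ℂ) z := by
        simpa using (hasDerivAt_id z).const_mul (ρ : ℂ)
      have h2 := hz.comp z h1
      rwa [mul_comm] at h2
    · by_contra hcon
      push Not at hcon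
      have hreg : ∀ s : ℂ, ‖s‖ = 1 → Reg W s := by
        intro s hs
        by_contra hr
        exact hcon s ⟨hs, hr⟩
      obtain ⟨R, hR, V, hV, hVW⟩ := extend_of_reg hWd hreg
      set G : ℂ → ℂ := fun u => V (u / (ρ : ℂ)) with hG
      set r' : ℝ := ρ * ((1 + R) / 2) with hr'
      have hr'0 : 0 < r' := by positivity
      have hGd : DifferentiableOn ℂ G (closedBall 0 r') := by
        refine hV.comp (differentiable_id.div_const _).differentiableOn ?_
        intro u hu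
        rw [mem_closedBall_zero_iff] at hu
        rw [mem_ball_zero_iff]
        rw [norm_div, Complex.norm_real, Real.norm_eq_abs, abs_of_pos hρ0, div_lt_iff₀ hρ0]
        rw [hr'] at hu
        nlinarith
      have hcoe : ((r'.toNNReal : NNReal) : ℝ) = r' := Real.coe_toNNReal r' hr'0.le
      have h4 := DifferentiableOn.hasFPowerSeriesOnBall (R := r'.toNNReal) (c := (0 : ℂ)) (f := G)
        (by rw [hcoe]; exact hGd) (Real.toNNReal_pos.2 hr'0)
      have h5 : ∀ᶠ z in 𝓝 (0 : ℂ), G z = p.sum z := by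
        filter_upwards [ball_mem_nhds (0 : ℂ) hρ0] with u hu
        rw [mem_ball_zero_iff] at hu
        have h6 : ‖u / (ρ : ℂ)‖ < 1 := by
          rw [norm_div, Complex.norm_real, Real.norm_eq_abs, abs_of_pos hρ0, div_lt_iff₀ hρ0,
            one_mul]
          exact hu
        simp only [hG]
        rw [hVW _ h6]
        simp only [hW]
        rw [mul_div_cancel₀ u hρc]
      have h7 := h4.hasFPowerSeriesAt.eq_formalMultilinearSeries_of_eventually
        hS.hasFPowerSeriesAt h5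
      have h8 := h4.r_le
      rw [h7, ← hρr] at h8
      have h9 : (r'.toNNReal : ENNReal) = ENNReal.ofReal r' := rfl
      rw [h9, ENNReal.ofReal_le_ofReal_iff hρ0.le, hr'] at h8
      nlinarith

end Pool.Agent.H385
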