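import Pool.Agent.H385.Chain
import Pool.Agent.H385.EndL
import Pool.Agent.H385.Entire
import Pool.Agent.H385.Radius
import Pool.Agent.H385.Pull

open Complex Metric Set Filter Topology ComplexConjugate

namespace Pool.Agent.H385

/-- the other intersection point of two crossing circles -/
theorem other_point {a c x : ℂ} {r s : ℝ} (hxa : ‖x - a‖ = r) (hxc : ‖x - c‖ = s)
    (h1 : |r - s| < ‖a - c‖) (h2 : ‖a - c‖ < r + s) :
    ∃ y : ℂ, x ≠ y ∧ ‖y - a‖ = r ∧ ‖y - c‖ = s ∧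
      ((conj (x - a) * (y - a) - (r : ℂ) ^ 2) *
        conj (conj (x - c) * (y - c) - (s : ℂ) ^ 2)).im ≠ 0 := by
  have hac : 0 < ‖a - c‖ := (abs_nonneg _).trans_lt h1
  have hca : c - a ≠ 0 := by
    intro h
    rw [← neg_sub, norm_neg, h, norm_zero] at hac
    exact lt_irrefl _ hac
  obtain ⟨w, hw⟩ : ∃ w : ℂ, x - a = w * (c - a) := ⟨(x - a) / (c - a), by field_simp⟩
  have hx : x = a + w * (c - a) := by rw [← hw]; ring
  have hxc' : x - c = (w - 1) * (c - a) := by rw [hx]; ring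
  have hr : r = ‖w‖ * ‖c - a‖ := by rw [← hxa, hw, norm_mul]
  have hs : s = ‖w - 1‖ * ‖c - a‖ := by rw [← hxc, hxc', norm_mul]
  have hd : 0 < ‖c - a‖ := norm_pos_iff.2 hca
  have hdd : ‖a - c‖ = ‖c - a‖ := norm_sub_rev a c
  have him : w.im ≠ 0 := by
    intro him
    have hwr : w = (w.re : ℂ) := Complex.ext (by simp) (by simp [him])
    have e1 : ‖w‖ = |w.re| := by
      rw [hwr, Complex.norm_real, Real.norm_eq_abs, Complex.ofReal_re]
    have e2 : ‖w - 1‖ = |w.re - 1| := by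
      rw [hwr]
      have : ((w.re : ℂ) - 1) = ((w.re - 1 : ℝ) : ℂ) := by push_cast; ring
      rw [this, Complex.norm_real, Real.norm_eq_abs, Complex.ofReal_re]
    rw [hdd, hr, hs, e1, e2] at h1 h2
    rw [← sub_mul, abs_mul, abs_of_pos hd] at h1
    rw [← add_mul] at h2
    have h3 : |(|w.re| - |w.re - 1|)| < 1 := by
      by_contra hc
      push Not at hc
      nlinarith
    have h4 : 1 < |w.re| + |w.re - 1| := by
      by_contra hc
      push Not at hc
      nlinarith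
    rcases le_total 0 w.re with h5 | h5
    · rcases le_total 1 w.re with h6 | h6
      · rw [abs_of_nonneg h5, abs_of_nonneg (by linarith : 0 ≤ w.re - 1)] at h3
        norm_num at h3
      · rw [abs_of_nonneg h5, abs_of_nonpos (by linarith : w.re - 1 ≤ 0)] at h4
        linarith
    · rw [abs_of_nonpos h5, abs_of_nonpos (by linarith : w.re - 1 ≤ 0)] at h3
      rw [abs_lt] at h3
      linarith [h3.1]
  refine ⟨a + conj w * (c - a), ?_, ?_, ?_, ?_⟩
  · intro h
    rw [hx] at h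
    have h3 : w * (c - a) = conj w * (c - a) := by linear_combination h
    have h4 := mul_right_cancel₀ hca h3
    apply him
    have := congrArg Complex.im h4
    rw [Complex.conj_im] at this
    linarith
  · rw [add_sub_cancel_left, norm_mul, RCLike.norm_conj, hr]
  · have h3 : a + conj w * (c - a) - c = conj (w - 1) * (c - a) := by
      rw [map_sub, map_one]; ring
    rw [h3, norm_mul, RCLike.norm_conj, hs]
  · have h3 : a + conj w * (c - a) - c = conj (w - 1) * (c - a) := by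
      rw [map_sub, map_one]; ring
    have h4 : a + conj w * (c - a) - a = conj w * (c - a) := by ring
    have hr2 : (r : ℂ) ^ 2 = w * conj w * ((c - a) * conj (c - a)) := by
      rw [Complex.mul_conj, Complex.mul_conj, Complex.normSq_eq_norm_sq, Complex.normSq_eq_norm_sq,
        hr]
      push_cast
      ring
    have hs2 : (s : ℂ) ^ 2 = (w - 1) * conj (w - 1) * ((c - a) * conj (c - a)) := by
      rw [Complex.mul_conj, Complex.mul_conj, Complex.normSq_eq_norm_sq, Complex.normSq_eq_norm_sq,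
        hs]
      push_cast
      ring
    rw [h3, h4, hw, hxc', hr2, hs2]
    have h5 : (conj (w * (c - a)) * (conj w * (c - a)) -
        w * conj w * ((c - a) * conj (c - a))) *
        conj (conj ((w - 1) * (c - a)) * (conj (w - 1) * (c - a)) -
          (w - 1) * conj (w - 1) * ((c - a) * conj (c - a))) =
        (((c - a) * conj (c - a)) ^ 2) * (conj w * (w - 1)) * (-(conj w - w) ^ 2) := by
      simp only [map_mul, map_sub, map_one, Complex.conj_conj]
      ring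
    rw [h5]
    have h6 : (c - a) * conj (c - a) = ((‖c - a‖ ^ 2 : ℝ) : ℂ) := by
      rw [Complex.mul_conj, Complex.normSq_eq_norm_sq]
    have h7 : -(conj w - w) ^ 2 = ((4 * w.im ^ 2 : ℝ) : ℂ) := by
      apply Complex.ext
      · simp [pow_two]
        ring
      · simp [pow_two]
    rw [h6, h7]
    have h8 : ((((‖c - a‖ ^ 2 : ℝ) : ℂ)) ^ 2 * (conj w * (w - 1)) * ((4 * w.im ^ 2 : ℝ) : ℂ)).im =
        (‖c - a‖ ^ 2) ^ 2 * (4 * w.im ^ 2) * w.im := by
      have : (((‖c - a‖ ^ 2 : ℝ) : ℂ)) ^ 2 * (conj w * (w - 1)) * ((4 * w.im ^ 2 : ℝ) : ℂ) =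
          (((‖c - a‖ ^ 2) ^ 2 * (4 * w.im ^ 2) : ℝ) : ℂ) * (conj w * (w - 1)) := by
        push_cast
        ring
      rw [this, Complex.im_ofReal_mul]
      congr 1
      simp
      ring
    rw [h8]
    positivity

theorem mob_scale (x y : ℂ) (ρ : ℝ) (E : ℂ → ℂ) (z : ℂ) :
    (ρ : ℂ) * pullF x y 1 E ((ρ : ℂ) * z) = pullF x y ρ E z := by
  unfold pullF mob
  have h1 : (x - ((1 : ℝ) : ℂ) * y * ((ρ : ℂ) * z)) / (1 - ((1 : ℝ) : ℂ) * ((ρ : ℂ) * z)) =
      (x - (ρ : ℂ) * y * z) / (1 - (ρ : ℂ) * z) := by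
    push_cast
    ring_nf
  rw [h1]
  push_cast
  ring

theorem lam_ne {k : ℝ} (hk : 0 < k) (hk1 : k ≠ 1) : (1 - k) / (1 + k) ≠ 0 := by
  have h1 : 1 - k ≠ 0 := sub_ne_zero.2 (Ne.symm hk1)
  have h2 : 1 + k ≠ 0 := by positivity
  exact div_ne_zero h1 h2

theorem lam_lt {k : ℝ} (hk : 0 < k) : |(1 - k) / (1 + k)| < 1 := by
  have h2 : 0 < 1 + k := by positivity
  rw [abs_div, abs_of_pos h2, div_lt_one h2, abs_lt]
  constructor <;> linarith

theorem not_ball_of_disj {ι : Type} {a : ι → ℂ} {r : ι → ℝ}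
    (hd : ∀ i j, i ≠ j → Disjoint (closedBall (a i) (r i)) (closedBall (a j) (r j))) {x : ℂ}
    {i : ι} (hx : ‖x - a i‖ = r i) (j : ι) : x ∉ ball (a j) (r j) := by
  intro h
  by_cases hij : j = i
  · rw [hij, mem_ball, dist_eq_norm, hx] at h
    exact lt_irrefl _ h
  · exact Set.disjoint_left.1 (hd j i hij) (ball_subset_closedBall h)
      (by rw [mem_closedBall, dist_eq_norm, hx])

/-- case X -/
theorem case_X {k : ℝ} (hk : 0 < k) (hk1 : k ≠ 1) {Ω : Set ℂ} (hΩ : Bornology.IsBounded Ω)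
    (hΩc : IsPreconnected Ωᶜ)
    {ι κ : Type} [Fintype ι] [Fintype κ] {a : ι → ℂ} {r : ι → ℝ} {c : κ → ℂ} {s : κ → ℝ}
    {H : ℂ → ℂ} {b : ι → ℂ → ℂ} {B : κ → ℂ → ℂ}
    (hZ : ZSys k Ω a r H b) (hZ' : ZSys k Ω c s H B)
    (S : Set ℂ) (hS : IsPreconnected S) (hSb : ¬ Bornology.IsBounded S)
    (hS1 : ∀ i, (∀ j, ¬ (c j = a i ∧ s j = r i)) → ∀ z ∈ S, z ∉ ball (a i) (r i))
    (hS2 : ∀ j, (∀ i, ¬ (c j = a i ∧ s j = r i)) → ∀ z ∈ S, z ∉ ball (c j) (s j))
    (i : ι) (j : κ) (x : ℂ) (hx : x ∈ S) (hxi : ‖x - a i‖ = r i) (hxj : ‖x - c j‖ = s j)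
    (h1 : |r i - s j| < ‖a i - c j‖) (h2 : ‖a i - c j‖ < r i + s j)
    (hm : ∀ᶠ w in 𝓝 x, ∑ i, Phi (a i) (r i) (b i) w = ∑ j, Phi (c j) (s j) (B j) w) :
    (∀ᶠ w in 𝓝 x, Ext k a r H b w = 0) ∨ (∃ i, ∀ z ∈ ball (a i) (r i), b i z = 0) := by
  obtain ⟨y, hxy, hyi, hyj, hcr⟩ := other_point hxi hxj h1 h2
  have hxb : ∀ i', x ∉ ball (a i') (r i') := not_ball_of_disj hZ.disj hxi
  have hyb : ∀ i', y ∉ ball (a i') (r i') := not_ball_of_disj hZ.disj hyi
  have hxb' : ∀ j', x ∉ ball (c j') (s j') := not_ball_of_disj hZ'.disj hxj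
  have hyb' : ∀ j', y ∉ ball (c j') (s j') := not_ball_of_disj hZ'.disj hyj
  have hEE : ∀ᶠ w in 𝓝 x, Ext k a r H b w = Ext k c s H B w := by
    filter_upwards [hm] with w hw
    unfold Ext
    rw [hw]
  have hxΩ : x ∈ Ω := hZ.sub i (by rw [mem_closedBall, dist_eq_norm, hxi])
  -- mob is continuous at zero
  have hmob : ∀ ρ : ℝ, Tendsto (mob x y ρ) (𝓝 0) (𝓝 x) := by
    intro ρ
    have : ContinuousAt (mob x y ρ) 0 := by
      unfold mob
      refine ContinuousAt.div (f := fun ζ : ℂ => x - (ρ : ℂ) * y * ζ)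
        (g := fun ζ : ℂ => 1 - (ρ : ℂ) * ζ) ?_ ?_ (by simp)
      · fun_prop
      · fun_prop
    have h3 : mob x y ρ 0 = x := by simp [mob]
    rw [ContinuousAt, h3] at this
    exact this
  have he : AnalyticAt ℂ (pullF x y 1 (Ext k a r H b)) 0 := by
    obtain ⟨F, hF⟩ := sys_pull hk hk1 hZ x y hxy 1 one_pos hxb hyb
    apply hF.e_an
    · refine ⟨by simp, ?_⟩
      have : mob x y 1 0 = x := by simp [mob]
      rw [this]
      exact hxΩ
    · intro i'
      have h3 : 0 ≤ ‖x - a i'‖ ^ 2 - (r i') ^ 2 := by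
        have h4 := hxb i'
        rw [mem_ball, dist_eq_norm, not_lt] at h4
        have h5 := hZ.pos i'
        nlinarith
      simpa [GD.q, pullGD] using h3
  rcases radius _ he with ⟨W, hW, hWd⟩ | ⟨ρ, hρ, W, hW, hWd, hSing⟩
  · left
    exact entire_case hk hk1 hZ x y hxy i hxi hyi W hW hWd
  · right
    simp_rw [mob_scale] at hWd
    obtain ⟨F, hF⟩ := sys_pull hk hk1 hZ x y hxy ρ hρ hxb hyb
    obtain ⟨F', hF'⟩ := sys_pull hk hk1 hZ' x y hxy ρ hρ hxb' hyb'
    have hWd' : ∀ᶠ z in 𝓝 (0 : ℂ), HasDerivAt W (pullF x y ρ (Ext k c s H B) z) z := by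
      filter_upwards [hWd, (hmob ρ).eventually hEE] with z h3 h4
      unfold pullF at h3 ⊢
      rw [← h4]
      exact h3
    have hch := chain (lam_ne hk hk1) (lam_lt hk) hF hF' hW i j
      (by simp [pullGD, hyi]) (by simp [pullGD, hxi]) (by simp [pullGD, hyj])
      (by simp [pullGD, hxj]) (by
        simp only [pullGD]
        have h3 : conj (-(ρ : ℂ) * conj (conj (x - a i) * (y - a i) - (r i : ℂ) ^ 2)) *
            (-(ρ : ℂ) * conj (conj (x - c j) * (y - c j) - (s j : ℂ) ^ 2)) =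
            ((ρ ^ 2 : ℝ) : ℂ) * ((conj (x - a i) * (y - a i) - (r i : ℂ) ^ 2) *
              conj (conj (x - c j) * (y - c j) - (s j : ℂ) ^ 2)) := by
          simp only [map_mul, map_neg, Complex.conj_ofReal, Complex.conj_conj]
          push_cast
          ring
        rw [h3, Complex.im_ofReal_mul]
        exact mul_ne_zero (by positivity) hcr) hWd hWd' hSing
    exact end_lemma hk hk1 hΩ hΩc hZ hZ' x y hxy ρ hρ i hxi hyi S hS hSb hS1 hS2 hx W hW hWd
      (fun ζ hζ => (hch ζ hζ).1) (fun ζ hζ => (hch ζ hζ).2.2)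

end Pool.Agent.H385
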