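import Pool.Agent.H385.Defs
import Pool.Agent.H385.Kstep
import Pool.Agent.H385.Conn

open Complex Metric Set Filter Topology ComplexConjugate MeasureTheory
open scoped ContDiff ENNReal

namespace Pool.Agent.H385

theorem cover_q_continuous (P : GD) : Continuous P.q := by
  unfold GD.q
  exact (((continuous_const.mul (continuous_norm.pow 2)).add
    (continuous_const.mul (Complex.continuous_re.comp (continuous_const.mul continuous_id)))).add
    continuous_const)

/-- points of the unit disk accumulate at the points of the closed unit disk -/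
theorem cover_freq {z : ℂ} (hz : ‖z‖ ≤ 1) : ∃ᶠ w in 𝓝 z, ‖w‖ < 1 := by
  have h : z ∈ closure (ball (0 : ℂ) 1) := by
    rw [closure_ball (0 : ℂ) one_ne_zero]
    simpa using hz
  rw [mem_closure_iff_frequently] at h
  refine h.mono fun w hw => by simpa using hw

theorem reg_of_bdEq {W e : ℂ → ℂ} {ζ : ℂ} (hζ : ‖ζ‖ = 1) (he : AnalyticAt ℂ e ζ)
    (h : BdEq W e ζ) : Reg W ζ := by
  have h1 : ∀ᶠ z in 𝓝 ζ, AnalyticAt ℂ e z := he.eventually_analyticAt
  have h2 := h1.and h
  obtain ⟨ρ, hρ, hb⟩ := Metric.eventually_nhds_iff_ball.mp h2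
  have hd : DifferentiableOn ℂ e (ball ζ ρ) := fun z hz =>
    ((hb z hz).1.differentiableAt).differentiableWithinAt
  obtain ⟨E, hE⟩ := hd.isExactOn_ball
  -- the intersection is convex
  have hconv : Convex ℝ (ball ζ ρ ∩ ball (0 : ℂ) 1) := (convex_ball ζ ρ).inter (convex_ball 0 1)
  have hopen : IsOpen (ball ζ ρ ∩ ball (0 : ℂ) 1) := isOpen_ball.inter isOpen_ball
  by_cases hne : (ball ζ ρ ∩ ball (0 : ℂ) 1).Nonempty
  · obtain ⟨z₁, hz₁⟩ := hne
    have hderiv : ∀ z ∈ ball ζ ρ ∩ ball (0 : ℂ) 1, HasDerivAt (fun z => W z - E z) 0 z := by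
      intro z hz
      have hW := (hb z hz.1).2 (by simpa using hz.2)
      have h3 := hW.fun_sub (hE z hz.1)
      rwa [sub_self] at h3
    have hconst : ∀ z ∈ ball ζ ρ ∩ ball (0 : ℂ) 1, W z - E z = W z₁ - E z₁ := by
      intro z hz
      have hdo : DifferentiableOn ℂ (fun z => W z - E z) (ball ζ ρ ∩ ball (0 : ℂ) 1) :=
        fun w hw => (hderiv w hw).differentiableAt.differentiableWithinAt
      have hz0 : (ball ζ ρ ∩ ball (0 : ℂ) 1).EqOn (deriv (fun z => W z - E z)) 0 :=
        fun w hw => (hderiv w hw).deriv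
      exact hopen.is_const_of_deriv_eq_zero hconv.isPreconnected hdo hz0 hz hz₁
    refine ⟨ρ, hρ, fun z => E z + (W z₁ - E z₁), ?_, ?_⟩
    · intro z hz
      exact ((hE z hz).differentiableAt.add_const _).differentiableWithinAt
    · intro z hz hz'
      have := hconst z ⟨hz, hz'⟩
      rw [← this]; ring
  · refine ⟨ρ, hρ, E, ?_, ?_⟩
    · intro z hz
      exact (hE z hz).differentiableAt.differentiableWithinAt
    · intro z hz hz'
      exact absurd ⟨z, hz, hz'⟩ hne

theorem cover_deriv_eq {W e : ℂ → ℂ} {z z' : ℂ} {r : ℝ} (hW : DifferentiableOn ℂ W (ball 0 1))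
    (he : ∀ w ∈ ball z r, AnalyticAt ℂ e w) (hz' : z' ∈ ball z r) (hz1 : ‖z'‖ ≤ 1)
    (h : BdEq W e z') : ∀ w ∈ ball z r, ‖w‖ < 1 → HasDerivAt W (e w) w := by
  set S : Set ℂ := ball z r ∩ ball (0 : ℂ) 1 with hS
  have hconv : Convex ℝ S := (convex_ball z r).inter (convex_ball 0 1)
  have hopen : IsOpen S := isOpen_ball.inter isOpen_ball
  have hWd : AnalyticOnNhd ℂ (deriv W) S := by
    have h1 : AnalyticOnNhd ℂ W (ball 0 1) := hW.analyticOnNhd isOpen_ball
    exact fun w hw => (h1.deriv) w hw.2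
  have heA : AnalyticOnNhd ℂ e S := fun w hw => he w hw.1
  -- a point near z' in S where the derivative is e nearby
  have hev : ∀ᶠ w in 𝓝 z', w ∈ ball z r ∧ ∀ᶠ u in 𝓝 w, ‖u‖ < 1 → HasDerivAt W (e u) u :=
    Filter.Eventually.and (isOpen_ball.mem_nhds hz') (eventually_eventually_nhds.mpr h)
  obtain ⟨w, hw1, hw2, hw3⟩ := ((cover_freq hz1).and_eventually hev).exists
  have hwS : w ∈ S := ⟨hw2, by simpa using hw1⟩
  have hee : deriv W =ᶠ[𝓝 w] e := by
    have hn : ∀ᶠ u in 𝓝 w, ‖u‖ < 1 := by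
      have : ball (0 : ℂ) 1 ∈ 𝓝 w := isOpen_ball.mem_nhds (by simpa using hw1)
      filter_upwards [this] with u hu
      simpa using hu
    filter_upwards [hw3, hn] with u hu hu1
    exact (hu hu1).deriv
  have hEq := hWd.eqOn_of_preconnected_of_eventuallyEq heA hconv.isPreconnected hwS hee
  intro u hu hu1
  have huS : u ∈ S := ⟨hu, by simpa using hu1⟩
  have hd : DifferentiableAt ℂ W u :=
    (hW u (by simpa using hu1)).differentiableAt (isOpen_ball.mem_nhds (by simpa using hu1))
  have := hd.hasDerivAt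
  rwa [hEq huS] at this

theorem cover {lam : ℝ} (h0 : lam ≠ 0) (h1 : |lam| < 1) {ι : Type} [Finite ι] {O : Set ℂ}
    {P : ι → GD} {e : ℂ → ℂ} {F : ι → ℂ → ℂ} (hs : Sys lam O P e F) {W : ℂ → ℂ}
    (hW : DifferentiableOn ℂ W (ball 0 1)) (A : Set ℂ) (hA : IsPreconnected A)
    (hA1 : ∀ z ∈ A, ‖z‖ = 1) (hAO : A ⊆ O) (z₀ : ℂ) (hz₀ : z₀ ∈ A) (hT : TT W e P z₀) :
    ∀ z ∈ A, TT W e P z := by
  -- signs persist
  have hpos : ∀ z : ℂ, ∀ᶠ z' in 𝓝 z, ∀ i, 0 < (P i).q z → 0 < (P i).q z' := by
    intro z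
    rw [Filter.eventually_all]
    intro i
    by_cases h : 0 < (P i).q z
    · filter_upwards [(cover_q_continuous (P i)).continuousAt.eventually (lt_mem_nhds h)]
        with z' hz' _ using hz'
    · exact Eventually.of_forall fun _ h' => absurd h' h
  have hneg : ∀ z : ℂ, ∀ i, (P i).q z < 0 → ∀ᶠ z' in 𝓝 z, (P i).q z' < 0 := by
    intro z i h
    exact (cover_q_continuous (P i)).continuousAt.eventually (gt_mem_nhds h)
  -- open
  have hopen : ∀ z ∈ A, TT W e P z → ∀ᶠ z' in 𝓝 z, z' ∈ A → TT W e P z' := by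
    intro z hz hTz
    rcases hTz with ⟨i, hi, hm⟩ | ⟨hge, hbd⟩
    · filter_upwards [hneg z i hi] with z' hz' _
      exact Or.inl ⟨i, hz', hm⟩
    · filter_upwards [hpos z, eventually_eventually_nhds.mpr hbd] with z' hz'p hz'b hz'A
      by_cases hall : ∀ i, 0 ≤ (P i).q z'
      · exact Or.inr ⟨hall, hz'b⟩
      · push Not at hall
        obtain ⟨i, hi⟩ := hall
        refine Or.inl ⟨i, hi, ?_⟩
        have hzi : (P i).q z = 0 := by
          by_contra hne
          have : 0 < (P i).q z := lt_of_le_of_ne (hge i) (Ne.symm hne)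
          exact absurd (hz'p i this) (not_lt.mpr hi.le)
        -- a zero on the segment from z' to 0
        have hcont : ContinuousOn (fun t : ℝ => (P i).q ((t : ℂ) * z')) (Icc 0 1) :=
          ((cover_q_continuous (P i)).comp
            (Complex.continuous_ofReal.mul continuous_const)).continuousOn
        have h00 : 0 ≤ (P i).q (((0 : ℝ) : ℂ) * z') := by
          have : (P i).q (((0 : ℝ) : ℂ) * z') = (P i).c := by simp [GD.q]
          rw [this]; exact hs.cnonneg i
        have h11 : (P i).q (((1 : ℝ) : ℂ) * z') < 0 := by simpa using hi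
        obtain ⟨t, ht, htq⟩ : ∃ t ∈ Icc (0 : ℝ) 1, (P i).q ((t : ℂ) * z') = 0 := by
          have := intermediate_value_Icc' (zero_le_one) hcont
          exact this ⟨h11.le, h00⟩
        have ht1 : t < 1 := by
          rcases lt_or_eq_of_le ht.2 with h | h
          · exact h
          · exfalso
            rw [h] at htq
            rw [htq] at h11
            exact lt_irrefl _ h11
        have hn : ‖(t : ℂ) * z'‖ < 1 := by
          rw [norm_mul, hA1 z' hz'A, mul_one, Complex.norm_real, Real.norm_of_nonneg ht.1]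
          exact ht1
        have hcl := gd_circle_closure (P i) (hs.disc i) z ((t : ℂ) * z') (hA1 z hz) hzi hn htq
        rw [mem_closure_iff_frequently] at hcl
        obtain ⟨p, ⟨hp1, hp2⟩, hp3⟩ :=
          (hcl.and_eventually (eventually_eventually_nhds.mpr hbd)).exists
        refine ⟨p, hp2, hp1, ?_⟩
        have hn' : ∀ᶠ u in 𝓝 p, ‖u‖ < 1 := by
          have : ball (0 : ℂ) 1 ∈ 𝓝 p := isOpen_ball.mem_nhds (by simpa using hp2)
          filter_upwards [this] with u hu
          simpa using hu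
        filter_upwards [hp3, hn'] with u hu hu1 using hu hu1
  -- closed
  have hclosed : ∀ z ∈ A, ∀ᶠ z' in 𝓝 z, z' ∈ A → TT W e P z' → TT W e P z := by
    intro z hz
    by_cases hall : ∀ i, 0 ≤ (P i).q z
    · have han : AnalyticAt ℂ e z := hs.e_an z (hAO hz) hall
      obtain ⟨r, hr, hb⟩ := Metric.eventually_nhds_iff_ball.mp han.eventually_analyticAt
      filter_upwards [hpos z, isOpen_ball.mem_nhds (mem_ball_self hr)] with z' hz'p hz'b hz'A hT'
      rcases hT' with ⟨i, hi, hm⟩ | ⟨_, hbd⟩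
      · have hzi : (P i).q z = 0 := by
          by_contra hne
          have : 0 < (P i).q z := lt_of_le_of_ne (hall i) (Ne.symm hne)
          exact absurd (hz'p i this) (not_lt.mpr hi.le)
        exact Or.inr ⟨hall, K_bdEq h0 h1 hs hW i hm z (hA1 z hz).le hzi⟩
      · refine Or.inr ⟨hall, ?_⟩
        have := cover_deriv_eq hW hb hz'b (hA1 z' hz'A).le hbd
        unfold BdEq
        filter_upwards [isOpen_ball.mem_nhds (mem_ball_self hr)] with u hu
        exact this u hu
    · push Not at hall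
      obtain ⟨i, hi⟩ := hall
      filter_upwards [hneg z i hi] with z' hz'i _ hT'
      rcases hT' with ⟨j, hj, hm⟩ | ⟨hge, _⟩
      · by_cases hij : i = j
        · subst hij
          exact Or.inl ⟨i, hi, hm⟩
        · exact absurd (hs.disj i j hij z' hz'i.le) (not_lt.mpr hj.le)
      · exact absurd (hge i) (not_le.mpr hz'i)
  -- conclusion
  intro z hz
  have key := hA.induction₂' (fun x y => TT W e P x → TT W e P y) ?_ ?_ hz₀ hz
  · exact key hT
  · intro x hx
    have h2 := hclosed x hx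
    have h1 : ∀ᶠ z' in 𝓝 x, z' ∈ A → (TT W e P x → TT W e P z') := by
      by_cases hTx : TT W e P x
      · filter_upwards [hopen x hx hTx] with y hy hyA _ using hy hyA
      · exact Eventually.of_forall fun _ _ h => absurd h hTx
    rw [eventually_nhdsWithin_iff]
    filter_upwards [h1, h2] with y hy1 hy2 hyA using ⟨hy1 hyA, hy2 hyA⟩
  · intro x y z _ _ _ hxy hyz hx
    exact hyz (hxy hx)

end Pool.Agent.H385
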