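import Pool.Agent.H385.Defs

open Complex Metric Set Filter Topology ComplexConjugate

namespace Pool.Agent.H385

theorem Reg.add {f g : ℂ → ℂ} {p : ℂ} (hf : Reg f p) (hg : Reg g p) :
    Reg (fun z => f z + g z) p := by
  obtain ⟨ρ₁, hρ₁, h₁, hd₁, he₁⟩ := hf
  obtain ⟨ρ₂, hρ₂, h₂, hd₂, he₂⟩ := hg
  refine ⟨min ρ₁ ρ₂, lt_min hρ₁ hρ₂, fun z => h₁ z + h₂ z, ?_, ?_⟩
  · exact (hd₁.mono (ball_subset_ball (min_le_left _ _))).add
      (hd₂.mono (ball_subset_ball (min_le_right _ _)))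
  · intro z hz hz1
    simp only
    rw [he₁ z (ball_subset_ball (min_le_left _ _) hz) hz1,
      he₂ z (ball_subset_ball (min_le_right _ _) hz) hz1]

theorem Reg.const_mul {f : ℂ → ℂ} {p : ℂ} (c : ℂ) (hf : Reg f p) :
    Reg (fun z => c * f z) p := by
  obtain ⟨ρ₁, hρ₁, h₁, hd₁, he₁⟩ := hf
  refine ⟨ρ₁, hρ₁, fun z => c * h₁ z, hd₁.const_mul c, ?_⟩
  intro z hz hz1
  simp only
  rw [he₁ z hz hz1]

theorem Reg.congr {f g : ℂ → ℂ} {p : ℂ} (hf : Reg f p) (h : ∀ z, ‖z‖ < 1 → f z = g z) :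
    Reg g p := by
  obtain ⟨ρ₁, hρ₁, h₁, hd₁, he₁⟩ := hf
  refine ⟨ρ₁, hρ₁, h₁, hd₁, ?_⟩
  intro z hz hz1
  rw [← h z (by simpa using hz1)]
  exact he₁ z hz hz1

theorem Reg.sub {f g : ℂ → ℂ} {p : ℂ} (hf : Reg f p) (hg : Reg g p) :
    Reg (fun z => f z - g z) p := by
  refine (hf.add (hg.const_mul (-1))).congr ?_
  intro z _
  ring

theorem Reg.of_const_mul {f : ℂ → ℂ} {p : ℂ} (c : ℂ) (hc : c ≠ 0) (hf : Reg (fun z => c * f z) p) :
    Reg f p := by
  refine (hf.const_mul c⁻¹).congr ?_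
  intro z _
  field_simp

theorem reg_of_analyticAt {f : ℂ → ℂ} {p : ℂ} (h : AnalyticAt ℂ f p) : Reg f p := by
  obtain ⟨ρ, hρ, h1⟩ := Metric.eventually_nhds_iff_ball.1 h.eventually_analyticAt
  exact ⟨ρ, hρ, f, fun z hz => (h1 z hz).differentiableAt.differentiableWithinAt,
    fun z _ _ => rfl⟩

/-- main identity: the denominator and the position of the reflected point -/
theorem den_sq (P : GD) (z : ℂ) :
    ‖(P.a : ℂ) * conj z + conj P.b‖ ^ 2 = P.a * P.q z + P.disc := by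
  unfold GD.q GD.disc
  rw [← Complex.normSq_eq_norm_sq, ← Complex.normSq_eq_norm_sq, ← Complex.normSq_eq_norm_sq]
  simp only [Complex.normSq_apply, Complex.add_re, Complex.add_im, Complex.mul_re, Complex.mul_im,
    Complex.ofReal_re, Complex.ofReal_im, Complex.conj_re, Complex.conj_im]
  ring

theorem num_sq (P : GD) (z : ℂ) :
    ‖P.b * conj z + (P.c : ℂ)‖ ^ 2 =
      ‖(P.a : ℂ) * conj z + conj P.b‖ ^ 2 - (P.a - P.c) * P.q z - P.disc * (1 - ‖z‖ ^ 2) := by
  unfold GD.q GD.disc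
  simp only [← Complex.normSq_eq_norm_sq]
  simp only [Complex.normSq_apply, Complex.add_re, Complex.add_im, Complex.mul_re, Complex.mul_im,
    Complex.ofReal_re, Complex.ofReal_im, Complex.conj_re, Complex.conj_im]
  ring

theorem abs_lt_of_disc {P : GD} (h : P.a = P.c) (hd : 0 < P.disc) : |P.a| < ‖P.b‖ := by
  unfold GD.disc at hd
  rw [← h] at hd
  have h1 : P.a ^ 2 < ‖P.b‖ ^ 2 := by nlinarith
  exact abs_lt_of_sq_lt_sq h1 (norm_nonneg _)

theorem inv_den_ne {P : GD} (h : P.a = P.c) (hd : 0 < P.disc) {z : ℂ} (hz : ‖z‖ ≤ 1) :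
    (P.a : ℂ) * conj z + conj P.b ≠ 0 := by
  intro h0
  have h1 := abs_lt_of_disc h hd
  have h2 : conj P.b = -((P.a : ℂ) * conj z) := by linear_combination h0
  have h3 : ‖P.b‖ = |P.a| * ‖z‖ := by
    have := congrArg norm h2
    rw [norm_neg, norm_mul, Complex.norm_real, RCLike.norm_conj, RCLike.norm_conj,
      Real.norm_eq_abs] at this
    exact this
  have h4 : |P.a| * ‖z‖ ≤ |P.a| * 1 := mul_le_mul_of_nonneg_left hz (abs_nonneg _)
  linarith

theorem inv_norm_sq {P : GD} (h : P.a = P.c) (hd : 0 < P.disc) {z : ℂ} (hz : ‖z‖ ≤ 1) :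
    (1 - ‖P.inv z‖ ^ 2) * ‖(P.a : ℂ) * conj z + conj P.b‖ ^ 2 = P.disc * (1 - ‖z‖ ^ 2) := by
  have hne := inv_den_ne h hd hz
  have hne' : ‖(P.a : ℂ) * conj z + conj P.b‖ ≠ 0 := norm_ne_zero_iff.2 hne
  have h1 := num_sq P z
  unfold GD.inv
  rw [norm_div, norm_neg, div_pow, sub_mul, div_mul_cancel₀ _ (pow_ne_zero 2 hne'), h1, ← h]
  ring

theorem inv_norm_eq {P : GD} (h : P.a = P.c) (hd : 0 < P.disc) {z : ℂ} (hz : ‖z‖ = 1) :
    ‖P.inv z‖ = 1 := by
  have h1 := inv_norm_sq h hd hz.le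
  have hne := inv_den_ne h hd hz.le
  have hne' : 0 < ‖(P.a : ℂ) * conj z + conj P.b‖ := norm_pos_iff.2 hne
  rw [hz] at h1
  have h2 : (1 - ‖P.inv z‖ ^ 2) = 0 := by
    have h3 : (1 - ‖P.inv z‖ ^ 2) * ‖(P.a : ℂ) * conj z + conj P.b‖ ^ 2 = 0 := by
      rw [h1]; ring
    rcases mul_eq_zero.1 h3 with h4 | h4
    · exact h4
    · exact absurd h4 (by positivity)
  have h3 : ‖P.inv z‖ ^ 2 = 1 := by linarith
  exact (pow_eq_one_iff_of_nonneg (norm_nonneg _) (by norm_num)).1 h3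

theorem inv_norm_lt {P : GD} (h : P.a = P.c) (hd : 0 < P.disc) {z : ℂ} (hz : ‖z‖ < 1) :
    ‖P.inv z‖ < 1 := by
  have h1 := inv_norm_sq h hd hz.le
  have hne := inv_den_ne h hd hz.le
  have hne' : 0 < ‖(P.a : ℂ) * conj z + conj P.b‖ := norm_pos_iff.2 hne
  have h2 : 0 < P.disc * (1 - ‖z‖ ^ 2) := by
    apply mul_pos hd
    have := norm_nonneg z
    nlinarith
  rw [← h1] at h2
  have h3 : 0 < 1 - ‖P.inv z‖ ^ 2 := by
    rcases pos_and_pos_or_neg_and_neg_of_mul_pos h2 with h4 | h4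
    · exact h4.1
    · exact absurd h4.2 (not_lt.2 (by positivity))
  have h4 : ‖P.inv z‖ ^ 2 < 1 ^ 2 := by linarith
  exact lt_of_pow_lt_pow_left₀ 2 (by norm_num) h4

theorem inv_q {P : GD} (h : P.a = P.c) (hd : 0 < P.disc) {z : ℂ} (hz : ‖z‖ ≤ 1) :
    P.q (P.inv z) * ‖(P.a : ℂ) * conj z + conj P.b‖ ^ 2 = -P.disc * P.q z := by
  have hne := inv_den_ne h hd hz
  set D : ℂ := (P.a : ℂ) * conj z + conj P.b with hD
  have hDn : ‖D‖ ^ 2 ≠ 0 := by
    have : 0 < ‖D‖ := norm_pos_iff.2 hne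
    positivity
  have h1 : ‖P.inv z‖ ^ 2 * ‖D‖ ^ 2 = ‖P.b * conj z + (P.c : ℂ)‖ ^ 2 := by
    unfold GD.inv
    rw [norm_div, norm_neg, div_pow, ← hD]
    field_simp
  have h2 : (conj P.b * P.inv z).re * ‖D‖ ^ 2 =
      (conj P.b * (-(P.b * conj z + (P.c : ℂ))) * conj D).re := by
    unfold GD.inv
    rw [← hD]
    have h3 : ((‖D‖ ^ 2 : ℝ) : ℂ) = D * conj D := by
      rw [Complex.mul_conj, Complex.normSq_eq_norm_sq]
    have h4 : conj P.b * (-(P.b * conj z + (P.c : ℂ)) / D) * ((‖D‖ ^ 2 : ℝ) : ℂ) =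
        conj P.b * (-(P.b * conj z + (P.c : ℂ))) * conj D := by
      rw [h3]
      field_simp
    rw [← h4, Complex.re_mul_ofReal]
  have h5 : P.q (P.inv z) * ‖D‖ ^ 2 = P.a * (‖P.inv z‖ ^ 2 * ‖D‖ ^ 2) +
      2 * ((conj P.b * P.inv z).re * ‖D‖ ^ 2) + P.c * ‖D‖ ^ 2 := by
    unfold GD.q
    ring
  rw [h5, h1, h2, hD]
  unfold GD.q GD.disc
  simp only [← Complex.normSq_eq_norm_sq]
  simp only [Complex.normSq_apply, Complex.add_re, Complex.add_im, Complex.mul_re, Complex.mul_im,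
    Complex.ofReal_re, Complex.ofReal_im, Complex.conj_re, Complex.conj_im, Complex.neg_re,
    Complex.neg_im, map_add, map_mul, Complex.conj_ofReal, Complex.conj_conj]
  ring

theorem inv_inv {P : GD} (h : P.a = P.c) (hd : 0 < P.disc) {z : ℂ} (hz : ‖z‖ ≤ 1) :
    P.inv (P.inv z) = z := by
  have hne := inv_den_ne h hd hz
  have h1 : ‖P.inv z‖ ≤ 1 := by
    rcases hz.lt_or_eq with h2 | h2
    · exact (inv_norm_lt h hd h2).le
    · exact (inv_norm_eq h hd h2).le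
  have hne2 := inv_den_ne h hd h1
  have hdc : ((P.disc : ℝ) : ℂ) = P.b * conj P.b - (P.a : ℂ) * (P.c : ℂ) := by
    unfold GD.disc
    rw [Complex.mul_conj, Complex.normSq_eq_norm_sq]
    push_cast
    ring
  have hne' : (P.a : ℂ) * z + P.b ≠ 0 := by
    intro h0
    apply hne
    have := congrArg conj h0
    simpa using this
  have hc : conj (P.inv z) = -(conj P.b * z + (P.c : ℂ)) / ((P.a : ℂ) * z + P.b) := by
    unfold GD.inv
    simp
  rw [hc] at hne2
  unfold GD.inv at *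
  rw [hc]
  have hdn : ((P.disc : ℝ) : ℂ) ≠ 0 := by exact_mod_cast hd.ne'
  have e1 : (P.a : ℂ) * (-(conj P.b * z + (P.c : ℂ)) / ((P.a : ℂ) * z + P.b)) + conj P.b =
      (P.disc : ℂ) / ((P.a : ℂ) * z + P.b) := by
    rw [eq_div_iff hne', add_mul, mul_assoc, div_mul_cancel₀ _ hne', hdc]
    ring
  have e2 : -(P.b * (-(conj P.b * z + (P.c : ℂ)) / ((P.a : ℂ) * z + P.b)) + (P.c : ℂ)) =
      (P.disc : ℂ) * z / ((P.a : ℂ) * z + P.b) := by
    rw [eq_div_iff hne', neg_mul, add_mul, mul_assoc, div_mul_cancel₀ _ hne', hdc]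
    ring
  rw [e1, e2, div_div_div_cancel_right₀ hne', mul_comm, mul_div_assoc, div_self hdn, mul_one]

theorem inv_eq_self {P : GD} (h : P.a = P.c) (hd : 0 < P.disc) {z : ℂ} (hz : ‖z‖ ≤ 1) :
    P.inv z = z ↔ P.q z = 0 := by
  have hne := inv_den_ne h hd hz
  have hdc : ((‖z‖ ^ 2 : ℝ) : ℂ) = z * conj z := by
    rw [Complex.mul_conj, Complex.normSq_eq_norm_sq]
  have key : P.inv z = z ↔ (((P.q z : ℝ)) : ℂ) = 0 := by
    unfold GD.inv
    rw [div_eq_iff hne]
    have h1 : ((P.q z : ℝ) : ℂ) = (P.a : ℂ) * (z * conj z) + (conj P.b * z + P.b * conj z) +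
        (P.c : ℂ) := by
      unfold GD.q
      push_cast
      rw [← hdc]
      push_cast
      have h2 : (2 : ℂ) * ((conj P.b * z).re : ℂ) = conj P.b * z + P.b * conj z := by
        have := Complex.re_eq_add_conj (conj P.b * z)
        rw [this]
        simp
        ring
      rw [h2]
    constructor
    · intro h2
      rw [h1]
      linear_combination -h2
    · intro h2
      rw [h1] at h2
      linear_combination -h2
  rw [key]
  exact_mod_cast Iff.rfl

theorem inv_continuousAt {P : GD} (h : P.a = P.c) (hd : 0 < P.disc) {z : ℂ} (hz : ‖z‖ ≤ 1) :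
    ContinuousAt P.inv z := by
  have hne := inv_den_ne h hd hz
  unfold GD.inv
  refine ContinuousAt.div (f := fun z : ℂ => -(P.b * conj z + (P.c : ℂ)))
    (g := fun z : ℂ => (P.a : ℂ) * conj z + conj P.b) ?_ ?_ hne
  · fun_prop
  · fun_prop

/-- `z ↦ conj (P.inv z)` is holomorphic -/
theorem conj_inv_differentiableAt (P : GD) {z : ℂ} (hz : (P.a : ℂ) * conj z + conj P.b ≠ 0) :
    DifferentiableAt ℂ (fun w => conj (P.inv w)) z := by
  have hne' : (P.a : ℂ) * z + P.b ≠ 0 := by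
    intro h0
    apply hz
    have := congrArg conj h0
    simpa using this
  have h1 : (fun w => conj (P.inv w)) =
      fun w => -(conj P.b * w + (P.c : ℂ)) / ((P.a : ℂ) * w + P.b) := by
    funext w
    unfold GD.inv
    simp
  rw [h1]
  refine DifferentiableAt.div (c := fun w : ℂ => -(conj P.b * w + (P.c : ℂ)))
    (d := fun w : ℂ => (P.a : ℂ) * w + P.b) ?_ ?_ hne'
  · fun_prop
  · fun_prop

/-- reflected function is differentiable -/
theorem reflect_differentiableAt (P : GD) {f : ℂ → ℂ} {z : ℂ}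
    (hz : (P.a : ℂ) * conj z + conj P.b ≠ 0) (hf : DifferentiableAt ℂ f (P.inv z)) :
    DifferentiableAt ℂ (fun w => conj (f (P.inv w))) z := by
  have h1 : DifferentiableAt ℂ (fun w => conj (f (conj w))) (conj (P.inv z)) := by
    have h2 := DifferentiableAt.star_star (f := f) (z := P.inv z) hf
    exact h2
  have h3 := conj_inv_differentiableAt P hz
  have h4 := DifferentiableAt.comp z (g := fun w => conj (f (conj w)))
    (f := fun w => conj (P.inv w)) h1 h3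
  have h5 : (fun w => conj (f (P.inv w))) =
      (fun w => conj (f (conj w))) ∘ (fun w => conj (P.inv w)) := by
    funext w
    simp
  rw [h5]
  exact h4

theorem Reg.reflect {f : ℂ → ℂ} {P : GD} (h : P.a = P.c) (hd : 0 < P.disc) {p : ℂ}
    (hp : ‖p‖ = 1) (hf : Reg f (P.inv p)) : Reg (fun z => conj (f (P.inv z))) p := by
  obtain ⟨ρ, hρ, g, hg, he⟩ := hf
  have hc := inv_continuousAt h hd hp.le
  have hne := inv_den_ne h hd hp.le
  have hcd : ContinuousAt (fun z : ℂ => (P.a : ℂ) * conj z + conj P.b) p := by fun_prop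
  have h1 : ∀ᶠ z in 𝓝 p, P.inv z ∈ ball (P.inv p) ρ := hc (ball_mem_nhds _ hρ)
  have h2 : ∀ᶠ z in 𝓝 p, (P.a : ℂ) * conj z + conj P.b ≠ 0 := hcd.eventually_ne hne
  obtain ⟨δ, hδ, h3⟩ := Metric.eventually_nhds_iff_ball.1 (h1.and h2)
  refine ⟨δ, hδ, fun z => conj (g (P.inv z)), ?_, ?_⟩
  · intro z hz
    obtain ⟨h4, h5⟩ := h3 z hz
    exact (reflect_differentiableAt P h5
      ((hg _ h4).differentiableAt (isOpen_ball.mem_nhds h4))).differentiableWithinAt
  · intro z hz hz1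
    simp only
    rw [he _ (h3 z hz).1]
    have := inv_norm_lt h hd (z := z) (by simpa using hz1)
    simpa using this

theorem isClosed_sing (W : ℂ → ℂ) : IsClosed {p | Sing W p} := by
  have h1 : {p | Sing W p} = {p | ‖p‖ = 1} ∩ {p | ¬ Reg W p} := rfl
  rw [h1]
  apply IsClosed.inter
  · exact isClosed_eq continuous_norm continuous_const
  · rw [← isOpen_compl_iff]
    rw [isOpen_iff_mem_nhds]
    intro p hp
    simp only [mem_compl_iff, mem_setOf_eq, not_not] at hp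
    obtain ⟨ρ, hρ, g, hg, he⟩ := hp
    filter_upwards [ball_mem_nhds p (half_pos hρ)] with w hw
    simp only [mem_compl_iff, mem_setOf_eq, not_not]
    have hsub : ball w (ρ / 2) ⊆ ball p ρ := by
      intro z hz
      rw [mem_ball] at *
      calc dist z p ≤ dist z w + dist w p := dist_triangle _ _ _
        _ < ρ / 2 + ρ / 2 := add_lt_add hz hw
        _ = ρ := by ring
    exact ⟨ρ / 2, half_pos hρ, g, hg.mono hsub, fun z hz hz1 => he z (hsub hz) hz1⟩

theorem Good.reg_of_reg_inv {lam : ℝ} (h0 : lam ≠ 0) {W : ℂ → ℂ} {P : GD} (hP : Good lam W P)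
    (p : ℂ) (hp : ‖p‖ = 1) (h : Reg W (P.inv p)) : Reg W p := by
  have hq := inv_q hP.orth hP.disc hp.le
  have hne := inv_den_ne hP.orth hP.disc hp.le
  have hne' : 0 < ‖(P.a : ℂ) * conj p + conj P.b‖ ^ 2 := by
    have : 0 < ‖(P.a : ℂ) * conj p + conj P.b‖ := norm_pos_iff.2 hne
    positivity
  have hd := hP.disc
  rcases lt_trichotomy (P.q p) 0 with h1 | h1 | h1
  · have h2 := hP.inside p hp h1
    have h3 := h.reflect hP.orth hP.disc hp
    refine (h2.add (h3.const_mul (lam : ℂ))).congr ?_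
    intro z _
    ring
  · exact hP.bdry p hp h1
  · have h4 : P.q (P.inv p) < 0 := by
      by_contra h5
      push Not at h5
      have h6 : 0 ≤ P.q (P.inv p) * ‖(P.a : ℂ) * conj p + conj P.b‖ ^ 2 :=
        mul_nonneg h5 hne'.le
      rw [hq] at h6
      nlinarith
    have h2 := hP.inside _ (inv_norm_eq hP.orth hP.disc hp) h4
    have h3 := (h.sub h2).reflect hP.orth hP.disc hp
    apply Reg.of_const_mul (lam : ℂ) (by exact_mod_cast h0)
    refine h3.congr ?_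
    intro z hz
    have : P.inv (P.inv z) = z := inv_inv hP.orth hP.disc hz.le
    simp only [this]
    simp

theorem Good.sing_inv {lam : ℝ} (h0 : lam ≠ 0) {W : ℂ → ℂ} {P : GD} (hP : Good lam W P) (p : ℂ)
    (hp : ‖p‖ = 1) : Sing W (P.inv p) ↔ Sing W p := by
  have h1 := inv_norm_eq hP.orth hP.disc hp
  have h2 := inv_inv hP.orth hP.disc hp.le
  constructor
  · intro h
    refine ⟨hp, fun h3 => h.2 ?_⟩
    apply hP.reg_of_reg_inv h0 _ h1
    rw [h2]
    exact h3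
  · intro h
    refine ⟨h1, fun h3 => h.2 ?_⟩
    exact hP.reg_of_reg_inv h0 _ hp h3

end Pool.Agent.H385
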