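import Pool.Agent.H385.Defs
import Pool.Agent.H385.Conn
import Pool.Agent.H385.Reg

open Complex Metric Set Filter Topology ComplexConjugate MeasureTheory
open scoped ContDiff ENNReal

namespace Pool.Agent.H385

theorem gap_arc (s e₀ : ℂ) (hs : ‖s‖ = 1) (he₀ : ‖e₀‖ = 1) (hne : s ≠ e₀) :
    ∃ γ : ℝ → ℂ, Continuous γ ∧ γ 0 = e₀ ∧ γ 1 = s ∧ (∀ t, ‖γ t‖ = 1) ∧
      ∀ t, 0 ≤ t → t < 1 → (s * conj e₀).re < (γ t * conj e₀).re := by
  have hee : e₀ * conj e₀ = 1 := by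
    rw [Complex.mul_conj, Complex.normSq_eq_norm_sq, he₀]; norm_num
  have hn : ‖s * conj e₀‖ = 1 := by
    rw [norm_mul, hs, RCLike.norm_conj, he₀]; norm_num
  set θ : ℝ := Complex.arg (s * conj e₀) with hθ
  have hexp : Complex.exp (θ * I) = s * conj e₀ := by
    have := Complex.norm_mul_exp_arg_mul_I (s * conj e₀)
    rw [hn] at this
    simpa using this
  have hγ : ∀ t : ℝ, (e₀ * Complex.exp ((t * θ : ℝ) * I)) * conj e₀
      = Complex.exp ((t * θ : ℝ) * I) := by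
    intro t
    calc (e₀ * Complex.exp ((t * θ : ℝ) * I)) * conj e₀
        = (e₀ * conj e₀) * Complex.exp ((t * θ : ℝ) * I) := by ring
      _ = _ := by rw [hee, one_mul]
  refine ⟨fun t => e₀ * Complex.exp ((t * θ : ℝ) * I), by fun_prop, by simp, ?_, ?_, ?_⟩
  · show e₀ * Complex.exp (((1 : ℝ) * θ : ℝ) * I) = s
    rw [one_mul, hexp]
    calc e₀ * (s * conj e₀) = s * (e₀ * conj e₀) := by ring
      _ = s := by rw [hee, mul_one]
  · intro t
    rw [norm_mul, he₀, Complex.norm_exp_ofReal_mul_I]; norm_num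
  · intro t ht0 ht1
    show _ < ((e₀ * Complex.exp ((t * θ : ℝ) * I)) * conj e₀).re
    rw [hγ, ← hexp, Complex.exp_ofReal_mul_I_re, Complex.exp_ofReal_mul_I_re]
    have hθ0 : θ ≠ 0 := by
      intro h0
      apply hne
      rw [h0] at hexp
      simp only [Complex.ofReal_zero, zero_mul, Complex.exp_zero] at hexp
      calc s = s * (e₀ * conj e₀) := by rw [hee, mul_one]
        _ = (s * conj e₀) * e₀ := by ring
        _ = e₀ := by rw [← hexp, one_mul]
    rw [← Real.cos_abs θ, ← Real.cos_abs (t * θ), abs_mul, abs_of_nonneg ht0]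
    have hpi : |θ| ≤ Real.pi := Complex.abs_arg_le_pi _
    have hpos : 0 < |θ| := abs_pos.mpr hθ0
    apply Real.cos_lt_cos_of_nonneg_of_le_pi (by positivity) hpi
    nlinarith

theorem gap_two (e₀ z s s' : ℂ) (he₀ : ‖e₀‖ = 1) (hz : ‖z‖ = 1) (hs : ‖s‖ = 1) (hs' : ‖s'‖ = 1)
    (c : ℝ) (hzc : (z * conj e₀).re = c) (hsc : (s * conj e₀).re = c)
    (hsc' : (s' * conj e₀).re = c) (hne : s ≠ s') : z = s ∨ z = s' := by
  have hc0 : conj e₀ ≠ 0 := by
    intro h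
    have : ‖conj e₀‖ = 0 := by rw [h, norm_zero]
    rw [RCLike.norm_conj, he₀] at this
    norm_num at this
  have key : ∀ w : ℂ, ‖w‖ = 1 → (w * conj e₀).re = c → (w * conj e₀).im ^ 2 = 1 - c ^ 2 := by
    intro w hw hwc
    have h1 : ‖w * conj e₀‖ = 1 := by rw [norm_mul, hw, RCLike.norm_conj, he₀]; norm_num
    have h2 : Complex.normSq (w * conj e₀) = 1 := by
      rw [Complex.normSq_eq_norm_sq, h1]; norm_num
    rw [Complex.normSq_apply, hwc] at h2
    nlinarith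
  have e1 := key z hz hzc
  have e2 := key s hs hsc
  have e3 := key s' hs' hsc'
  have inj : ∀ w w' : ℂ, (w * conj e₀).re = c → (w' * conj e₀).re = c →
      (w * conj e₀).im = (w' * conj e₀).im → w = w' := by
    intro w w' h1 h2 h3
    have : w * conj e₀ = w' * conj e₀ := Complex.ext (by rw [h1, h2]) h3
    exact mul_right_cancel₀ hc0 this
  have h23 : (s * conj e₀).im = -(s' * conj e₀).im := by
    rcases sq_eq_sq_iff_eq_or_eq_neg.mp (e2.trans e3.symm) with h | h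
    · exact absurd (inj s s' hsc hsc' h) hne
    · exact h
  rcases sq_eq_sq_iff_eq_or_eq_neg.mp (e1.trans e2.symm) with h | h
  · left; exact inj z s hzc hsc h
  · right
    apply inj z s' hzc hsc'
    rw [h, h23, neg_neg]

theorem gap_lt_one (e₀ e : ℂ) (he₀ : ‖e₀‖ = 1) (he : ‖e‖ = 1) : (e * conj e₀).re ≤ 1 := by
  calc (e * conj e₀).re ≤ ‖e * conj e₀‖ := Complex.re_le_norm _
    _ = 1 := by rw [norm_mul, he, RCLike.norm_conj, he₀]; norm_num

theorem gap_swap (S : Set ℂ) (hS : ∀ z ∈ S, ‖z‖ = 1) (e₀ : ℂ) (he₀ : ‖e₀‖ = 1) (c : ℝ)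
    (s s' : ℂ) (hs : s ∈ S) (hs' : s' ∈ S) (hsc : (s * conj e₀).re = c)
    (hsc' : (s' * conj e₀).re = c) (hne : s ≠ s') (hgap : ∀ z ∈ S, (z * conj e₀).re ≤ c)
    (σ : ℂ → ℂ) (hσ : ContinuousOn σ {z | ‖z‖ = 1}) (hm : ∀ z, ‖z‖ = 1 → ‖σ z‖ = 1)
    (hσS : ∀ z, ‖z‖ = 1 → (σ z ∈ S ↔ z ∈ S)) (e : ℂ) (he : ‖e‖ = 1)
    (hec : c < (e * conj e₀).re) (hfix : σ e = e) (hns : σ s ≠ s) : σ s = s' := by
  have hsn : ‖s‖ = 1 := hS s hs
  have hsn' : ‖s'‖ = 1 := hS s' hs'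
  have hc1 : c < 1 := lt_of_lt_of_le hec (gap_lt_one e₀ e he₀ he)
  have hse : s ≠ e₀ := by
    intro h
    rw [h, Complex.mul_conj, Complex.normSq_eq_norm_sq, he₀] at hsc
    norm_num at hsc
    linarith
  have hG : IsPreconnected {z : ℂ | ‖z‖ = 1 ∧ c < (z * conj e₀).re} := by
    have h := sphere_halfplane_preconnected 0 1 (-e₀) (-c)
    have hEq : {z : ℂ | ‖z‖ = 1 ∧ c < (z * conj e₀).re}
        = {z : ℂ | ‖z - 0‖ = 1 ∧ (conj (-e₀) * z).re < -c} := by
      ext z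
      simp only [Set.mem_ofPred_eq, sub_zero, map_neg, neg_mul, Complex.neg_re, neg_lt_neg_iff,
        mul_comm z (conj e₀)]
    rw [hEq]; exact h
  have hcontre : Continuous fun z : ℂ => (z * conj e₀).re := by fun_prop
  have huopen : IsOpen {z : ℂ | c < (z * conj e₀).re} := isOpen_lt continuous_const hcontre
  have hclosed : IsClosed {z : ℂ | c ≤ (z * conj e₀).re} := isClosed_le continuous_const hcontre
  have hpre : IsPreconnected (σ '' {z : ℂ | ‖z‖ = 1 ∧ c < (z * conj e₀).re}) :=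
    hG.image σ (hσ.mono fun z hz => hz.1)
  have hsub : σ '' {z : ℂ | ‖z‖ = 1 ∧ c < (z * conj e₀).re} ⊆ {z : ℂ | c < (z * conj e₀).re} := by
    apply hpre.subset_of_closure_inter_subset huopen
    · exact ⟨e, ⟨e, ⟨he, hec⟩, hfix⟩, hec⟩
    · rintro z ⟨hz1, g, ⟨hg1, hg2⟩, rfl⟩
      have hge : c ≤ (σ g * conj e₀).re :=
        (closure_minimal (fun w (hw : c < (w * conj e₀).re) => le_of_lt hw) hclosed) hz1
      rcases lt_or_eq_of_le hge with h | h
      · exact h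
      · exfalso
        have hmem : σ g ∈ S := by
          rcases gap_two e₀ (σ g) s s' he₀ (hm g hg1) hsn hsn' c h.symm hsc hsc' hne with h' | h'
          · rw [h']; exact hs
          · rw [h']; exact hs'
        have := hgap g ((hσS g hg1).1 hmem)
        linarith
  obtain ⟨γ, hγc, hγ0, hγ1, hγn, hγG⟩ := gap_arc s e₀ hsn he₀ hse
  have htend : Tendsto (fun t => σ (γ t)) (𝓝[<] (1 : ℝ)) (𝓝 (σ s)) := by
    have h1 : Tendsto γ (𝓝[<] (1 : ℝ)) (𝓝[{z : ℂ | ‖z‖ = 1}] s) := by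
      apply tendsto_nhdsWithin_iff.mpr
      refine ⟨?_, Eventually.of_forall fun t => hγn t⟩
      have := (hγc.tendsto 1).mono_left (nhdsWithin_le_nhds (s := Set.Iio (1 : ℝ)))
      rwa [hγ1] at this
    exact (hσ s hsn).tendsto.comp h1
  have htend2 : Tendsto (fun t => (σ (γ t) * conj e₀).re) (𝓝[<] (1 : ℝ))
      (𝓝 (σ s * conj e₀).re) := (hcontre.tendsto (σ s)).comp htend
  have hge : c ≤ (σ s * conj e₀).re := by
    apply ge_of_tendsto htend2
    have hmem : Set.Ioo (0 : ℝ) 1 ∈ 𝓝[<] (1 : ℝ) := Ioo_mem_nhdsLT (by norm_num)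
    filter_upwards [hmem] with t ht
    have hG' : γ t ∈ {z : ℂ | ‖z‖ = 1 ∧ c < (z * conj e₀).re} := by
      refine ⟨hγn t, ?_⟩
      rw [← hsc]
      exact hγG t ht.1.le ht.2
    exact le_of_lt (hsub ⟨γ t, hG', rfl⟩)
  have hle : (σ s * conj e₀).re ≤ c := hgap _ ((hσS s hsn).2 hs)
  rcases gap_two e₀ (σ s) s s' he₀ (hm s hsn) hsn hsn' c (le_antisymm hle hge) hsc hsc' hne
    with h | h
  · exact absurd h hns
  · exact h

theorem swap_of_gap {lam : ℝ} (h0 : lam ≠ 0) {W : ℂ → ℂ} {P : GD} (hP : Good lam W P)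
    (e₀ : ℂ) (he₀ : ‖e₀‖ = 1) (c : ℝ) (s s' : ℂ) (hs : Sing W s) (hs' : Sing W s')
    (hsc : (s * conj e₀).re = c) (hsc' : (s' * conj e₀).re = c) (hne : s ≠ s')
    (hgap : ∀ z, Sing W z → (z * conj e₀).re ≤ c) (hq : P.q s * P.q e₀ ≤ 0) : P.inv s = s' := by
  have hsn : ‖s‖ = 1 := hs.1
  have hsn' : ‖s'‖ = 1 := hs'.1
  have hqs : P.q s ≠ 0 := fun h => hs.2 (hP.bdry s hsn h)
  have hse : s ≠ e₀ := by
    intro h
    have h1 : c = 1 := by
      rw [← hsc, h, Complex.mul_conj, Complex.normSq_eq_norm_sq, he₀]; norm_num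
    apply hne
    have key : ∀ w : ℂ, ‖w‖ = 1 → (w * conj e₀).re = c → w = e₀ := by
      intro w hw hwc
      have hn : ‖w * conj e₀‖ = 1 := by rw [norm_mul, hw, RCLike.norm_conj, he₀]; norm_num
      have h2 : Complex.normSq (w * conj e₀) = 1 := by
        rw [Complex.normSq_eq_norm_sq, hn]; norm_num
      rw [Complex.normSq_apply, hwc, h1] at h2
      have him : (w * conj e₀).im = 0 := by nlinarith
      have hw1 : w * conj e₀ = 1 := Complex.ext (by rw [hwc, h1]; simp) (by rw [him]; simp)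
      have hee : conj e₀ * e₀ = 1 := by
        rw [mul_comm, Complex.mul_conj, Complex.normSq_eq_norm_sq, he₀]; norm_num
      calc w = w * (conj e₀ * e₀) := by rw [hee, mul_one]
        _ = (w * conj e₀) * e₀ := by ring
        _ = e₀ := by rw [hw1, one_mul]
    rw [key s hsn hsc, key s' hsn' hsc']
  have hqc : Continuous P.q := by
    unfold GD.q
    fun_prop
  obtain ⟨γ, hγc, hγ0, hγ1, hγn, hγG⟩ := gap_arc s e₀ hsn he₀ hse
  obtain ⟨t, ht, ht0⟩ : ∃ t ∈ Set.uIcc (0 : ℝ) 1, P.q (γ t) = 0 := by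
    have hcont : ContinuousOn (fun t => P.q (γ t)) (Set.uIcc (0 : ℝ) 1) :=
      (hqc.comp hγc).continuousOn
    have h0 : (0 : ℝ) ∈ Set.uIcc (P.q (γ 0)) (P.q (γ 1)) := by
      rw [hγ0, hγ1, Set.mem_uIcc]
      rcases mul_nonpos_iff.mp hq with h | h
      · left; exact ⟨h.2, h.1⟩
      · right; exact ⟨h.1, h.2⟩
    obtain ⟨t, ht, h⟩ := intermediate_value_uIcc hcont h0
    exact ⟨t, ht, h⟩
  rw [Set.uIcc_of_le zero_le_one] at ht
  have ht1 : t < 1 := by
    rcases lt_or_eq_of_le ht.2 with h | h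
    · exact h
    · exfalso; rw [h, hγ1] at ht0; exact hqs ht0
  have hmax : ∀ z : ℂ, ‖z‖ = 1 → ‖z‖ ≤ 1 := fun z hz => hz.le
  apply gap_swap {z | Sing W z} (fun z hz => hz.1) e₀ he₀ c s s' hs hs' hsc hsc' hne hgap P.inv
    ?_ (fun z hz => inv_norm_eq hP.orth hP.disc hz) (fun z hz => hP.sing_inv h0 z hz) (γ t) (hγn t)
    ?_ ((inv_eq_self hP.orth hP.disc (hγn t).le).2 ht0) ?_
  · unfold GD.inv
    apply ContinuousOn.div
    · fun_prop
    · fun_prop
    · intro z hz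
      exact inv_den_ne hP.orth hP.disc (hmax z hz)
  · rw [← hsc]; exact hγG t ht.1 ht1
  · intro h
    exact hqs ((inv_eq_self hP.orth hP.disc hsn.le).1 h)

end Pool.Agent.H385
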