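import Pool.Agent.H385.Defs
import Pool.Agent.H385.Reg

open Complex Metric Set Filter Topology ComplexConjugate MeasureTheory
open scoped ContDiff ENNReal

namespace Pool.Agent.H385

theorem odd_half_q (s t : ℝ) (z : ℂ) :
    (half s t).q z = -2 * s * (conj (exp (I * t)) * z).im := by
  simp only [GD.q, half, map_mul, map_neg, conj_I, conj_ofReal, neg_neg]
  generalize conj (exp (I * (t : ℂ))) = u
  simp [Complex.mul_re, Complex.mul_im]
  ring

theorem odd_half_inv {s : ℝ} (hs : 0 < s) (t : ℝ) (z : ℂ) :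
    (half s t).inv z = exp (I * t) ^ 2 * conj z := by
  have hu : exp (I * (t : ℂ)) * conj (exp (I * (t : ℂ))) = 1 := by
    rw [← exp_conj, ← exp_add]
    simp
  simp only [GD.inv, half, map_mul, map_neg, conj_I, conj_ofReal, neg_neg]
  generalize exp (I * (t : ℂ)) = u at hu ⊢
  have hc : conj u ≠ 0 := by
    intro h
    rw [h, mul_zero] at hu
    exact zero_ne_one hu
  have hs' : (s : ℂ) ≠ 0 := by exact_mod_cast hs.ne'
  have hden : (0 : ℝ) * conj z + I * (s : ℂ) * conj u ≠ 0 := by
    simp [hs', hc, I_ne_zero]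
  rw [div_eq_iff hden]
  push_cast
  linear_combination (-(I * s * u * conj z)) * hu

theorem odd_reg_rot {g : ℂ → ℂ} {u p : ℂ} (hu : ‖u‖ = 1) (h : Reg g (u * p)) :
    Reg (fun w => g (u * w)) p := by
  obtain ⟨ρ, hρ, h, hd, he⟩ := h
  have hm : ∀ z ∈ ball p ρ, u * z ∈ ball (u * p) ρ := by
    intro z hz
    rw [mem_ball, dist_eq_norm] at hz ⊢
    rw [← mul_sub, norm_mul, hu, one_mul]
    exact hz
  refine ⟨ρ, hρ, fun w => h (u * w), ?_, ?_⟩
  · exact hd.comp ((differentiable_id.const_mul u).differentiableOn) hm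
  · intro z hz hz1
    refine he _ (hm z hz) ?_
    rw [mem_ball, dist_zero_right] at hz1 ⊢
    rw [norm_mul, hu, one_mul]
    exact hz1

theorem odd_rel {lam : ℝ} (h0 : lam ≠ 0) {W : ℂ → ℂ} {P : GD} (hP : Good lam W P) (p : ℂ)
    (hp : ‖p‖ = 1) (hq : P.q p ≠ 0) :
    Reg (fun w => W w - (lam : ℂ) ^ (if P.q p < 0 then (1 : ℤ) else -1) *
      conj (W (P.inv w))) p := by
  split_ifs with hneg
  · simpa using hP.inside p hp hneg
  · have hpos : 0 < P.q p := lt_of_le_of_ne (not_lt.mp hneg) (Ne.symm hq)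
    have hip : ‖P.inv p‖ = 1 := inv_norm_eq hP.orth hP.disc hp
    have hiq : P.q (P.inv p) < 0 := by
      have h1 := inv_q hP.orth hP.disc (z := p) hp.le
      have h2 : 0 < ‖(P.a : ℂ) * conj p + conj P.b‖ ^ 2 := by
        have := inv_den_ne hP.orth hP.disc (z := p) hp.le
        positivity
      have h3 : -P.disc * P.q p < 0 := by
        have := mul_pos hP.disc hpos
        linarith
      by_contra hcon
      push Not at hcon
      have : 0 ≤ P.q (P.inv p) * ‖(P.a : ℂ) * conj p + conj P.b‖ ^ 2 := by positivity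
      linarith
    have hR := hP.inside (P.inv p) hip hiq
    have hR2 := Reg.reflect hP.orth hP.disc hp hR
    have hR3 := Reg.const_mul (-((lam : ℂ)⁻¹)) hR2
    refine hR3.congr ?_
    intro z hz
    have hl : (lam : ℂ) ≠ 0 := by exact_mod_cast h0
    have hii := inv_inv hP.orth hP.disc (z := z) hz.le
    simp only [hii, map_sub, map_mul, conj_ofReal, conj_conj, zpow_neg, zpow_one]
    field_simp
    ring

/-- sign as an integer -/
noncomputable def odd_sg (x : ℝ) : ℤ := if 0 < x then 1 else -1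

theorem odd_sg_neg {x : ℝ} (hx : x ≠ 0) : odd_sg (-x) = -odd_sg x := by
  unfold odd_sg
  rcases lt_or_gt_of_ne hx with h | h
  · rw [if_pos (by linarith), if_neg (by linarith)]; norm_num
  · rw [if_neg (by linarith), if_pos h]

theorem odd_sg_odd (x : ℝ) : Odd (odd_sg x) := by
  unfold odd_sg
  split_ifs <;> decide

/-- the odd-odd case -/
theorem odd_odd {lam : ℝ} (h0 : lam ≠ 0) (h1 : |lam| < 1) {W : ℂ → ℂ} {t₁ t₂ ε : ℝ}
    (ht₁ : 0 < t₁) (ht₂ : 0 < t₂)
    (hP₁ : Good lam W (half t₁ ε)) (hP₂ : Good lam W (half t₂ 0)) (n : ℕ) (hn : Odd n)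
    (hv : exp (I * ε) ^ n = -1) (s : ℂ) : ¬ Sing W s := by
  have hl : (lam : ℂ) ≠ 0 := by exact_mod_cast h0
  have hvn : ‖exp (I * (ε : ℂ))‖ = 1 := by
    rw [mul_comm]; exact norm_exp_ofReal_mul_I ε
  have hq₁ : ∀ z, (half t₁ ε).q z = -2 * t₁ * (conj (exp (I * ε)) * z).im := odd_half_q t₁ ε
  have hq₂ : ∀ z, (half t₂ 0).q z = -2 * t₂ * z.im := by
    intro z
    rw [odd_half_q]
    simp
  have hi₁ : ∀ z, (half t₁ ε).inv z = exp (I * ε) ^ 2 * conj z := odd_half_inv ht₁ ε
  have hi₂ : ∀ z, (half t₂ 0).inv z = conj z := by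
    intro z
    rw [odd_half_inv ht₂]
    simp
  generalize exp (I * (ε : ℂ)) = v at hvn hv hq₁ hi₁
  -- stability of the singular set
  have hS₂ : ∀ z, Sing W z → Sing W (conj z) := by
    intro z hz
    have := (Good.sing_inv h0 hP₂ z hz.1).2 hz
    rwa [hi₂] at this
  have hS₁ : ∀ z, Sing W z → Sing W (v ^ 2 * conj z) := by
    intro z hz
    have := (Good.sing_inv h0 hP₁ z hz.1).2 hz
    rwa [hi₁] at this
  have hS : ∀ z, Sing W z → Sing W (v ^ 2 * z) := by
    intro z hz
    have := hS₁ _ (hS₂ z hz)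
    rwa [conj_conj] at this
  have him₂ : ∀ z, Sing W z → z.im ≠ 0 := by
    intro z hz h
    refine hz.2 (hP₂.bdry z hz.1 ?_)
    rw [hq₂, h, mul_zero]
  have him₁ : ∀ z, Sing W z → (conj v * z).im ≠ 0 := by
    intro z hz h
    refine hz.2 (hP₁.bdry z hz.1 ?_)
    rw [hq₁, h, mul_zero]
  have him₁' : ∀ z, Sing W z → (v * z).im ≠ 0 := by
    intro z hz h
    refine him₁ _ (hS₂ z hz) ?_
    rw [← map_mul, conj_im, h, neg_zero]
  -- one step
  have hstep : ∀ z, Sing W z →
      Reg (fun w => W w - (lam : ℂ) ^ (odd_sg z.im - odd_sg (v * z).im) * W (v ^ 2 * w)) z := by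
    intro z hz
    have hq2 : (half t₂ 0).q z ≠ 0 := by
      rw [hq₂]
      have := him₂ z hz
      simp [this, ht₂.ne']
    have hA := odd_rel h0 hP₂ z hz.1 hq2
    have hcz := hS₂ z hz
    have hq1 : (half t₁ ε).q (conj z) ≠ 0 := by
      rw [hq₁]
      have := him₁ _ hcz
      have h2 : -2 * t₁ ≠ 0 := by
        have := ht₁.ne'
        simp [this]
      exact mul_ne_zero h2 this
    have hB := odd_rel h0 hP₁ (conj z) hcz.1 hq1
    have hB' : Reg (fun w => conj (W ((half t₂ 0).inv w) -
        (lam : ℂ) ^ (if (half t₁ ε).q (conj z) < 0 then (1 : ℤ) else -1) *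
        conj (W ((half t₁ ε).inv ((half t₂ 0).inv w))))) z := by
      refine Reg.reflect (f := fun w => W w -
        (lam : ℂ) ^ (if (half t₁ ε).q (conj z) < 0 then (1 : ℤ) else -1) *
        conj (W ((half t₁ ε).inv w))) hP₂.orth hP₂.disc hz.1 ?_
      rw [hi₂]
      exact hB
    have e2 : (if (half t₂ 0).q z < 0 then (1 : ℤ) else -1) = odd_sg z.im := by
      unfold odd_sg
      congr 1
      rw [hq₂]
      apply propext
      constructor
      · intro h
        by_contra hc
        push Not at hc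
        have := mul_nonneg ht₂.le (neg_nonneg.mpr hc)
        nlinarith
      · intro h
        have := mul_pos ht₂ h
        nlinarith
    have e1 : (if (half t₁ ε).q (conj z) < 0 then (1 : ℤ) else -1) = -odd_sg (v * z).im := by
      rw [← odd_sg_neg (him₁' z hz)]
      unfold odd_sg
      congr 1
      rw [hq₁, ← map_mul, conj_im]
      apply propext
      constructor
      · intro h
        by_contra hc
        push Not at hc
        have := mul_nonneg ht₁.le (neg_nonneg.mpr hc)
        nlinarith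
      · intro h
        have := mul_pos ht₁ h
        nlinarith
    rw [e2] at hA
    rw [e1] at hB'
    have hC := hA.add (hB'.const_mul ((lam : ℂ) ^ (odd_sg z.im)))
    refine hC.congr ?_
    intro w _
    simp only [hi₁, hi₂, conj_conj, map_sub, map_mul, map_zpow₀, conj_ofReal]
    rw [sub_eq_add_neg (odd_sg z.im), zpow_add₀ hl]
    ring
  -- iteration
  have hiter : ∀ N : ℕ, ∀ z, Sing W z → Sing W (v ^ (2 * N) * z) ∧
      Reg (fun w => W w - (lam : ℂ) ^ (∑ j ∈ Finset.range (2 * N),
        (-1) ^ j * odd_sg (v ^ j * z).im) * W (v ^ (2 * N) * w)) z := by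
    intro N
    induction N with
    | zero =>
      intro z hz
      refine ⟨by simpa using hz, ?_⟩
      have := reg_of_analyticAt (f := fun _ => (0 : ℂ)) (p := z) analyticAt_const
      refine this.congr ?_
      intro w _
      simp
    | succ N ih =>
      intro z hz
      obtain ⟨hs1, hr1⟩ := ih z hz
      have hs2 := hS _ hs1
      have hst := hstep _ hs1
      have hpow : v ^ (2 * (N + 1)) = v ^ 2 * v ^ (2 * N) := by ring
      refine ⟨by rw [hpow, mul_assoc]; exact hs2, ?_⟩
      have hun : ‖v ^ (2 * N)‖ = 1 := by rw [norm_pow, hvn, one_pow]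
      have hrot := odd_reg_rot hun hst
      have hC := hr1.add (hrot.const_mul ((lam : ℂ) ^ (∑ j ∈ Finset.range (2 * N),
        (-1) ^ j * odd_sg (v ^ j * z).im)))
      refine hC.congr ?_
      intro w _
      have hsum : (∑ j ∈ Finset.range (2 * (N + 1)), (-1) ^ j * odd_sg (v ^ j * z).im) =
          (∑ j ∈ Finset.range (2 * N), (-1) ^ j * odd_sg (v ^ j * z).im) +
          (odd_sg (v ^ (2 * N) * z).im - odd_sg (v * (v ^ (2 * N) * z)).im) := by
        rw [show 2 * (N + 1) = 2 * N + 1 + 1 by ring, Finset.sum_range_succ,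
          Finset.sum_range_succ]
        have h1 : ((-1 : ℤ)) ^ (2 * N) = 1 := by rw [pow_mul]; norm_num
        have h2 : ((-1 : ℤ)) ^ (2 * N + 1) = -1 := by rw [pow_succ, h1]; norm_num
        have h3 : v ^ (2 * N + 1) * z = v * (v ^ (2 * N) * z) := by ring
        rw [h1, h2, h3]
        ring
      rw [hsum, zpow_add₀ hl, hpow]
      simp only [mul_assoc]
      ring
  intro hs
  obtain ⟨-, hR⟩ := hiter n s hs
  set T : ℤ := ∑ j ∈ Finset.range (2 * n), (-1) ^ j * odd_sg (v ^ j * s).im with hT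
  have hv2 : v ^ (2 * n) = 1 := by
    rw [mul_comm, pow_mul, hv]; norm_num
  have him : ∀ j : ℕ, (v ^ j * s).im ≠ 0 := by
    intro j
    rcases Nat.even_or_odd' j with ⟨k, hk | hk⟩
    · rw [hk]
      exact him₂ _ (hiter k s hs).1
    · rw [hk, pow_succ, mul_comm (v ^ (2 * k)) v, mul_assoc]
      exact him₁' _ (hiter k s hs).1
  have hT2 : T = 2 * ∑ j ∈ Finset.range n, (-1) ^ j * odd_sg (v ^ j * s).im := by
    rw [hT, two_mul n, Finset.sum_range_add, two_mul]
    congr 1
    refine Finset.sum_congr rfl ?_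
    intro j _
    have h1 : v ^ (n + j) * s = -(v ^ j * s) := by
      rw [pow_add, hv]; ring
    rw [h1, neg_im, odd_sg_neg (him j), pow_add, hn.neg_one_pow]
    ring
  have hodd : Odd (∑ j ∈ Finset.range n, (-1 : ℤ) ^ j * odd_sg (v ^ j * s).im) := by
    have key : ∀ m : ℕ, ((∑ j ∈ Finset.range m, (-1 : ℤ) ^ j * odd_sg (v ^ j * s).im)
        - (m : ℤ)) % 2 = 0 := by
      intro m
      induction m with
      | zero => simp
      | succ m ih =>
        rw [Finset.sum_range_succ]
        have ho : Odd ((-1 : ℤ) ^ m * odd_sg (v ^ m * s).im) :=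
          Odd.mul (Odd.pow (by decide)) (odd_sg_odd _)
        obtain ⟨k, hk⟩ := ho
        push_cast
        omega
    have := key n
    obtain ⟨k, hk⟩ := hn
    rw [Int.odd_iff]
    omega
  have hTne : T ≠ 0 := by
    intro h
    rw [hT2] at h
    obtain ⟨k, hk⟩ := hodd
    omega
  have hne : (1 : ℂ) - (lam : ℂ) ^ T ≠ 0 := by
    intro h
    have h2 : (lam : ℂ) ^ T = 1 := by linear_combination -h
    have h3 : |lam| ^ T = 1 := by
      have := congrArg norm h2
      rw [norm_zpow, norm_one] at this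
      simpa using this
    have hpos : 0 < |lam| := abs_pos.mpr h0
    rcases lt_or_gt_of_ne hTne with hlt | hgt
    · have := one_lt_zpow_of_neg₀ hpos h1 hlt
      linarith
    · have := zpow_lt_one₀ hpos h1 hgt
      linarith
  refine hs.2 (Reg.of_const_mul _ hne (hR.congr ?_))
  intro w _
  rw [hv2, one_mul]
  ring

end Pool.Agent.H385
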