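import Pool.Agent.H385.Defs

open Complex Metric Set Filter Topology ComplexConjugate MeasureTheory
open scoped ContDiff ENNReal

namespace Pool.Agent.H385

theorem rl_limit (V h : ℝ → ℂ) (β μ δ : ℝ) (h0 : ℂ) (hβ : 0 < β) (hβ1 : β < 1) (hμ : |μ| < 1)
    (hδ : 0 < δ) (hV : ContinuousOn V (Ioi 0)) (hh : Tendsto h (𝓝[>] 0) (𝓝 h0))
    (hrel : ∀ t : ℝ, 0 < t → t < δ → V (β * t) = (μ : ℂ) * V t + h t) :
    Tendsto V (𝓝[>] 0) (𝓝 (h0 / (1 - (μ : ℂ)))) := by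
  set L : ℂ := h0 / (1 - (μ : ℂ)) with hL
  have hne : (1 : ℂ) - (μ : ℂ) ≠ 0 := by
    intro h1
    have h2 : (μ : ℂ) = 1 := (sub_eq_zero.1 h1).symm
    have h3 : μ = 1 := by exact_mod_cast h2
    rw [h3, abs_one] at hμ
    exact lt_irrefl _ hμ
  have hLe : (μ : ℂ) * L + h0 = L := by
    rw [hL]; field_simp; ring
  have hE : ∀ t : ℝ, 0 < t → t < δ → V (β * t) - L = (μ : ℂ) * (V t - L) + (h t - h0) := by
    intro t h1 h2
    rw [hrel t h1 h2]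
    linear_combination hLe
  have hμn : ‖(μ : ℂ)‖ = |μ| := by rw [Complex.norm_real, Real.norm_eq_abs]
  have h1μ : 0 < 1 - |μ| := by linarith
  have hμ0 : 0 ≤ |μ| := abs_nonneg μ
  rw [Metric.tendsto_nhds]
  intro ε hε
  set η : ℝ := ε / 4 * (1 - |μ|) with hη
  have hη0 : 0 < η := by positivity
  have hηd : η / (1 - |μ|) = ε / 4 := by rw [hη]; field_simp
  obtain ⟨t₁, ht₁, ht₁h⟩ : ∃ t₁ : ℝ, 0 < t₁ ∧ ∀ t, 0 < t → t < t₁ → ‖h t - h0‖ < η := by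
    have h1 := (Metric.tendsto_nhds.1 hh) η hη0
    rw [eventually_nhdsWithin_iff, Metric.eventually_nhds_iff] at h1
    obtain ⟨t₁, ht₁, h2⟩ := h1
    refine ⟨t₁, ht₁, fun t h3 h4 => ?_⟩
    have h5 := h2 (y := t) (by rw [Real.dist_0_eq_abs, abs_of_pos h3]; exact h4) h3
    rwa [dist_eq_norm] at h5
  set t₀ : ℝ := min (t₁ / 2) (δ / 2) with ht₀
  have ht₀0 : 0 < t₀ := lt_min (by linarith) (by linarith)
  have ht₀1 : t₀ < t₁ := lt_of_le_of_lt (min_le_left _ _) (by linarith)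
  have ht₀δ : t₀ < δ := lt_of_le_of_lt (min_le_right _ _) (by linarith)
  obtain ⟨M, hM⟩ : ∃ M : ℝ, ∀ t ∈ Icc (β * t₀) t₀, ‖V t - L‖ ≤ M := by
    have hc : ContinuousOn (fun t => V t - L) (Icc (β * t₀) t₀) := by
      refine (hV.mono ?_).sub continuousOn_const
      intro t ht
      exact lt_of_lt_of_le (by positivity) ht.1
    exact isCompact_Icc.exists_bound_of_continuousOn hc
  have hM0 : 0 ≤ M := (norm_nonneg _).trans (hM t₀ ⟨by nlinarith, le_rfl⟩)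
  have key : ∀ n : ℕ, ∀ t ∈ Icc (β * t₀) t₀, ‖V (β ^ n * t) - L‖ ≤ |μ| ^ n * M + η / (1 - |μ|) := by
    intro n
    induction n with
    | zero =>
      intro t ht
      have := hM t ht
      have h2 : 0 ≤ η / (1 - |μ|) := by positivity
      rw [pow_zero, pow_zero, one_mul, one_mul]
      linarith
    | succ n ih =>
      intro t ht
      have ht0 : 0 < t := lt_of_lt_of_le (by positivity) ht.1
      have hbn : 0 < β ^ n * t := by positivity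
      have hbn1 : β ^ n * t ≤ t₀ := by
        have : β ^ n ≤ 1 := pow_le_one₀ hβ.le hβ1.le
        nlinarith [ht.2]
      have h1 := hE (β ^ n * t) hbn (lt_of_le_of_lt hbn1 ht₀δ)
      have h2 : β ^ (n + 1) * t = β * (β ^ n * t) := by ring
      rw [h2, h1]
      have h3 := ht₁h (β ^ n * t) hbn (lt_of_le_of_lt hbn1 ht₀1)
      calc ‖(μ : ℂ) * (V (β ^ n * t) - L) + (h (β ^ n * t) - h0)‖
          ≤ ‖(μ : ℂ) * (V (β ^ n * t) - L)‖ + ‖h (β ^ n * t) - h0‖ := norm_add_le _ _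
        _ = |μ| * ‖V (β ^ n * t) - L‖ + ‖h (β ^ n * t) - h0‖ := by rw [norm_mul, hμn]
        _ ≤ |μ| * (|μ| ^ n * M + η / (1 - |μ|)) + η := by
            have := mul_le_mul_of_nonneg_left (ih t ht) hμ0
            linarith
        _ = |μ| ^ (n + 1) * M + η / (1 - |μ|) := by
            field_simp
            ring
  obtain ⟨N, hN⟩ : ∃ N : ℕ, ∀ n, N ≤ n → |μ| ^ n * M < ε / 4 := by
    have h1 : Tendsto (fun n : ℕ => |μ| ^ n * M) atTop (𝓝 (0 * M)) :=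
      (tendsto_pow_atTop_nhds_zero_of_lt_one hμ0 hμ).mul_const M
    rw [zero_mul] at h1
    have h2 := h1.eventually_lt_const (show (0 : ℝ) < ε / 4 by positivity)
    rw [eventually_atTop] at h2
    exact h2
  rw [eventually_nhdsWithin_iff, Metric.eventually_nhds_iff]
  refine ⟨β ^ N * t₀, by positivity, fun t ht ht' => ?_⟩
  have ht0 : 0 < t := ht'
  rw [Real.dist_0_eq_abs, abs_of_pos ht0] at ht
  have hβN : β ^ N ≤ 1 := pow_le_one₀ hβ.le hβ1.le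
  have hx0 : 0 < t / t₀ := by positivity
  have hxN : t / t₀ < β ^ N := by rw [div_lt_iff₀ ht₀0]; exact ht
  obtain ⟨n, hn1, hn2⟩ := exists_nat_pow_near_of_lt_one hx0 (hxN.le.trans hβN) hβ hβ1
  have hNn : N ≤ n := by
    have h1 : β ^ (n + 1) < β ^ N := hn1.trans hxN
    have h2 := (pow_lt_pow_iff_right_of_lt_one₀ hβ hβ1).1 h1
    omega
  have hβn : 0 < β ^ n := by positivity
  have hmem : t / β ^ n ∈ Icc (β * t₀) t₀ := by
    constructor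
    · rw [le_div_iff₀ hβn]
      rw [lt_div_iff₀ ht₀0] at hn1
      have : β * t₀ * β ^ n = β ^ (n + 1) * t₀ := by ring
      rw [this]; exact hn1.le
    · rw [div_le_iff₀ hβn]
      rw [div_le_iff₀ ht₀0] at hn2
      linarith
  have h3 := key n _ hmem
  have h4 : β ^ n * (t / β ^ n) = t := by field_simp
  rw [h4] at h3
  rw [dist_eq_norm]
  have h5 := hN n hNn
  rw [hηd] at h3
  linarith

private theorem real_ext_cone_lt (K : Set ℂ) (hK : ∀ w ∈ K, ∀ t : ℝ, 0 < t → (t : ℂ) * w ∈ K)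
    (V h : ℂ → ℂ) (δ τ : ℝ) (hδ : 0 < δ) (hτ : 0 < τ) (hτ1 : τ < 1)
    (hh : DifferentiableOn ℂ h (ball 0 δ))
    (hrel : ∀ w ∈ K, ‖w‖ < δ → V ((τ : ℂ) * w) = V w + h w)
    (L : ℂ) (hL : ∀ w ∈ K, Tendsto (fun t : ℝ => V ((t : ℂ) * w)) (𝓝[>] 0) (𝓝 L)) :
    ∃ δ' > 0, ∃ g : ℂ → ℂ, DifferentiableOn ℂ g (ball 0 δ') ∧ ∀ w ∈ K, ‖w‖ < δ' → V w = g w := by
  rcases K.eq_empty_or_nonempty with hKe | ⟨w₀, hw₀⟩
  · refine ⟨1, one_pos, fun _ => 0, differentiableOn_const 0, ?_⟩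
    intro w hw
    rw [hKe] at hw
    exact absurd hw (Set.notMem_empty w)
  have hτn : ‖(τ : ℂ)‖ = τ := by rw [Complex.norm_real, Real.norm_eq_abs, abs_of_pos hτ]
  have hpowK : ∀ w ∈ K, ∀ n : ℕ, (τ : ℂ) ^ n * w ∈ K := by
    intro w hw n
    have := hK w hw (τ ^ n) (by positivity)
    rwa [Complex.ofReal_pow] at this
  have hpown : ∀ w : ℂ, ∀ n : ℕ, ‖(τ : ℂ) ^ n * w‖ ≤ ‖w‖ := by
    intro w n
    rw [norm_mul, norm_pow, hτn]
    exact mul_le_of_le_one_left (norm_nonneg _) (pow_le_one₀ hτ.le hτ1.le)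
  have hpt : Tendsto (fun n : ℕ => τ ^ n) atTop (𝓝[>] 0) := by
    rw [tendsto_nhdsWithin_iff]
    exact ⟨tendsto_pow_atTop_nhds_zero_of_lt_one hτ.le hτ1, Eventually.of_forall fun n => by
      show (0 : ℝ) < τ ^ n
      positivity⟩
  have hVt : ∀ w ∈ K, Tendsto (fun n : ℕ => V ((τ : ℂ) ^ n * w)) atTop (𝓝 L) := by
    intro w hw
    have := (hL w hw).comp hpt
    refine this.congr fun n => ?_
    simp only [Function.comp_apply, Complex.ofReal_pow]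
  have hstep : ∀ w ∈ K, ‖w‖ < δ → ∀ n : ℕ,
      V ((τ : ℂ) ^ (n + 1) * w) = V ((τ : ℂ) ^ n * w) + h ((τ : ℂ) ^ n * w) := by
    intro w hw hwδ n
    have := hrel _ (hpowK w hw n) (lt_of_le_of_lt (hpown w n) hwδ)
    rw [← this]
    congr 1
    ring
  have h0d : (0 : ℂ) ∈ ball (0 : ℂ) δ := mem_ball_self hδ
  have hd0 : DifferentiableAt ℂ h 0 := hh.differentiableAt (isOpen_ball.mem_nhds h0d)
  have hh0 : h 0 = 0 := by
    -- scale w₀ into the ball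
    obtain ⟨w, hw, hwδ⟩ : ∃ w ∈ K, ‖w‖ < δ := by
      have hs : 0 < δ / (2 * (‖w₀‖ + 1)) := by positivity
      refine ⟨((δ / (2 * (‖w₀‖ + 1)) : ℝ) : ℂ) * w₀, hK w₀ hw₀ _ hs, ?_⟩
      rw [norm_mul, Complex.norm_real, Real.norm_eq_abs, abs_of_pos hs]
      have h1 : δ / (2 * (‖w₀‖ + 1)) * ‖w₀‖ = δ * (‖w₀‖ / (2 * (‖w₀‖ + 1))) := by ring
      rw [h1]
      have h2 : ‖w₀‖ / (2 * (‖w₀‖ + 1)) < 1 := by
        rw [div_lt_one (by positivity)]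
        linarith [norm_nonneg w₀]
      nlinarith
    have h1 : Tendsto (fun n : ℕ => V ((τ : ℂ) ^ (n + 1) * w) - V ((τ : ℂ) ^ n * w)) atTop (𝓝 (L - L)) :=
      ((hVt w hw).comp (tendsto_add_atTop_nat 1)).sub (hVt w hw)
    have h2 : Tendsto (fun n : ℕ => h ((τ : ℂ) ^ n * w)) atTop (𝓝 (L - L)) := by
      refine h1.congr fun n => ?_
      rw [hstep w hw hwδ n]; ring
    have h3 : Tendsto (fun n : ℕ => (τ : ℂ) ^ n * w) atTop (𝓝 0) := by
      have h4 : Tendsto (fun n : ℕ => (τ : ℂ) ^ n * w) atTop (𝓝 (0 * w)) :=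
        (tendsto_pow_atTop_nhds_zero_of_norm_lt_one (by rw [hτn]; exact hτ1)).mul_const w
      rwa [zero_mul] at h4
    have h5 : Tendsto (fun n : ℕ => h ((τ : ℂ) ^ n * w)) atTop (𝓝 (h 0)) :=
      hd0.continuousAt.tendsto.comp h3
    have h6 := tendsto_nhds_unique h5 h2
    rw [h6, sub_self]
  obtain ⟨C, hC⟩ := hd0.hasDerivAt.isBigO_sub.bound
  rw [Metric.eventually_nhds_iff] at hC
  obtain ⟨δ₁, hδ₁, hC⟩ := hC
  have hCb : ∀ z : ℂ, ‖z‖ < δ₁ → ‖h z‖ ≤ |C| * ‖z‖ := by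
    intro z hz
    have h1 := hC (y := z) (by rw [dist_zero_right]; exact hz)
    rw [hh0, sub_zero, sub_zero] at h1
    exact h1.trans (mul_le_mul_of_nonneg_right (le_abs_self C) (norm_nonneg _))
  set δ' := min δ₁ δ with hδ'
  have hδ'0 : 0 < δ' := lt_min hδ₁ hδ
  have hδ'1 : δ' ≤ δ₁ := min_le_left _ _
  have hδ'2 : δ' ≤ δ := min_le_right _ _
  have hFle : ∀ n : ℕ, ∀ w ∈ ball (0 : ℂ) δ', ‖h ((τ : ℂ) ^ n * w)‖ ≤ |C| * δ' * τ ^ n := by
    intro n w hw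
    rw [mem_ball_zero_iff] at hw
    refine (hCb _ (lt_of_le_of_lt (hpown w n) (lt_of_lt_of_le hw hδ'1))).trans ?_
    rw [norm_mul, norm_pow, hτn]
    have h1 : τ ^ n * ‖w‖ ≤ τ ^ n * δ' := mul_le_mul_of_nonneg_left hw.le (by positivity)
    calc |C| * (τ ^ n * ‖w‖) ≤ |C| * (τ ^ n * δ') := mul_le_mul_of_nonneg_left h1 (abs_nonneg C)
      _ = |C| * δ' * τ ^ n := by ring
  have hsum : Summable fun n : ℕ => |C| * δ' * τ ^ n :=
    (summable_geometric_of_lt_one hτ.le hτ1).mul_left _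
  have hS : DifferentiableOn ℂ (fun w => ∑' n : ℕ, h ((τ : ℂ) ^ n * w)) (ball 0 δ') := by
    refine Complex.differentiableOn_tsum_of_summable_norm hsum (fun n => ?_) isOpen_ball hFle
    refine hh.comp ((differentiable_id.const_mul _).differentiableOn) ?_
    intro w hw
    rw [mem_ball_zero_iff] at hw ⊢
    exact lt_of_le_of_lt (hpown w n) (lt_of_lt_of_le hw hδ'2)
  refine ⟨δ', hδ'0, fun w => L - ∑' n : ℕ, h ((τ : ℂ) ^ n * w), (differentiableOn_const L).sub hS, ?_⟩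
  intro w hw hwδ
  have hwB : w ∈ ball (0 : ℂ) δ' := by rw [mem_ball_zero_iff]; exact hwδ
  have hsm : Summable fun n : ℕ => h ((τ : ℂ) ^ n * w) :=
    Summable.of_norm_bounded hsum fun n => hFle n w hwB
  have htel : ∀ n : ℕ, V ((τ : ℂ) ^ n * w) = V w + ∑ j ∈ Finset.range n, h ((τ : ℂ) ^ j * w) := by
    intro n
    induction n with
    | zero => simp
    | succ n ih =>
      rw [hstep w hw (lt_of_lt_of_le hwδ hδ'2) n, ih, Finset.sum_range_succ]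
      ring
  have h1 : Tendsto (fun n : ℕ => V w + ∑ j ∈ Finset.range n, h ((τ : ℂ) ^ j * w)) atTop
      (𝓝 (V w + ∑' n : ℕ, h ((τ : ℂ) ^ n * w))) := hsm.hasSum.tendsto_sum_nat.const_add _
  have h2 := tendsto_nhds_unique (h1.congr fun n => (htel n).symm) (hVt w hw)
  show V w = L - ∑' n : ℕ, h ((τ : ℂ) ^ n * w)
  rw [← h2]; ring

theorem ext_cone (K : Set ℂ) (hK : ∀ w ∈ K, ∀ t : ℝ, 0 < t → (t : ℂ) * w ∈ K)
    (V h : ℂ → ℂ) (δ τ : ℝ) (hδ : 0 < δ) (hτ : 0 < τ) (hτ1 : τ ≠ 1)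
    (hh : DifferentiableOn ℂ h (ball 0 δ))
    (hrel : ∀ w ∈ K, ‖w‖ < δ → V ((τ : ℂ) * w) = V w + h w)
    (L : ℂ) (hL : ∀ w ∈ K, Tendsto (fun t : ℝ => V ((t : ℂ) * w)) (𝓝[>] 0) (𝓝 L)) :
    ∃ δ' > 0, ∃ g : ℂ → ℂ, DifferentiableOn ℂ g (ball 0 δ') ∧ ∀ w ∈ K, ‖w‖ < δ' → V w = g w := by
  rcases lt_or_gt_of_ne hτ1 with h1 | h1
  · exact real_ext_cone_lt K hK V h δ τ hδ hτ h1 hh hrel L hL
  · have hτi : 0 < τ⁻¹ := inv_pos.2 hτ
    have hτi1 : τ⁻¹ < 1 := inv_lt_one_of_one_lt₀ h1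
    have hτC : (τ : ℂ) ≠ 0 := by exact_mod_cast hτ.ne'
    have hnorm : ∀ w : ℂ, ‖((τ⁻¹ : ℝ) : ℂ) * w‖ ≤ ‖w‖ := by
      intro w
      rw [norm_mul, Complex.norm_real, Real.norm_eq_abs, abs_of_pos hτi]
      exact mul_le_of_le_one_left (norm_nonneg _) hτi1.le
    refine real_ext_cone_lt K hK V (fun w => - h (((τ⁻¹ : ℝ) : ℂ) * w)) δ τ⁻¹ hδ hτi hτi1 ?_ ?_ L hL
    · refine DifferentiableOn.neg ?_
      refine hh.comp ((differentiable_id.const_mul _).differentiableOn) ?_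
      intro w hw
      rw [mem_ball_zero_iff] at hw ⊢
      exact lt_of_le_of_lt (hnorm w) hw
    · intro w hw hwδ
      have h2 := hrel (((τ⁻¹ : ℝ) : ℂ) * w) (hK w hw _ hτi) (lt_of_le_of_lt (hnorm w) hwδ)
      have h3 : (τ : ℂ) * (((τ⁻¹ : ℝ) : ℂ) * w) = w := by
        rw [Complex.ofReal_inv, ← mul_assoc, mul_inv_cancel₀ hτC, one_mul]
      rw [h3] at h2
      rw [h2]; ring

end Pool.Agent.H385
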