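import Pool.Agent.H385.Defs
import Pool.Agent.H385.RealL
import Pool.Agent.H385.Reg

open Complex Metric Set Filter Topology ComplexConjugate MeasureTheory
open scoped ContDiff ENNReal

namespace Pool.Agent.H385

/-! ### auxiliary lemmas -/

/-- denominator of the reflection -/
noncomputable def ray_D (P : GD) (z : ℂ) : ℂ := (P.a : ℂ) * conj z + conj P.b

theorem ray_ne {s ζ : ℂ} (hs : ‖s‖ = 1) (hζ : ‖ζ‖ < 1) : ζ ≠ s := by
  rintro rfl
  rw [hs] at hζ
  exact lt_irrefl _ hζ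

theorem ray_conj {s : ℂ} (hs : ‖s‖ = 1) : s * conj s = 1 := by
  rw [Complex.mul_conj, Complex.normSq_eq_norm_sq, hs]
  norm_num

/-- the Möbius coordinate -/
noncomputable def ray_m (s s' z : ℂ) : ℂ := (z - s) / (z - s')

theorem ray_m_inj {s s' x y : ℂ} (hne : s ≠ s') (hx : x ≠ s') (hy : y ≠ s')
    (h : ray_m s s' x = ray_m s s' y) : x = y := by
  unfold ray_m at h
  have h1 : x - s' ≠ 0 := sub_ne_zero.2 hx
  have h2 : y - s' ≠ 0 := sub_ne_zero.2 hy
  rw [div_eq_div_iff h1 h2] at h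
  have h3 : (x - y) * (s - s') = 0 := by linear_combination h
  rcases mul_eq_zero.1 h3 with h4 | h4
  · exact sub_eq_zero.1 h4
  · exact absurd (sub_eq_zero.1 h4) hne

theorem ray_norm_id {s s' ζ : ℂ} (hs : ‖s‖ = 1) (hs' : ‖s'‖ = 1) (t : ℝ) :
    ‖(ζ - s') - (t : ℂ) * (ζ - s)‖ ^ 2 - ‖s * (ζ - s') - s' * ((t : ℂ) * (ζ - s))‖ ^ 2 =
      t * (1 - ‖ζ‖ ^ 2) * ‖s - s'‖ ^ 2 := by
  have e1 := ray_conj hs
  have e2 := ray_conj hs'
  have key : (((‖(ζ - s') - (t : ℂ) * (ζ - s)‖ ^ 2 - ‖s * (ζ - s') - s' * ((t : ℂ) * (ζ - s))‖ ^ 2 : ℝ)) : ℂ) =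
      ((t * (1 - ‖ζ‖ ^ 2) * ‖s - s'‖ ^ 2 : ℝ) : ℂ) := by
    push_cast
    rw [← Complex.mul_conj', ← Complex.mul_conj', ← Complex.mul_conj', ← Complex.mul_conj']
    simp only [map_sub, map_mul, Complex.conj_ofReal]
    generalize conj s = sc at *
    generalize conj s' = sc' at *
    generalize conj ζ = zc at *
    linear_combination (-(ζ - s') * (zc - sc') +
      t * (-ζ * sc' + 2 * s' * sc' - zc * s' - (1 - ζ * zc))) * e1 +
      (-t ^ 2 * (ζ - s) * (zc - sc) + t * (-zc * s + 2 - ζ * sc - (1 - ζ * zc))) * e2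
  exact_mod_cast key

theorem ray_den_ne {s s' ζ : ℂ} (hs : ‖s‖ = 1) (hs' : ‖s'‖ = 1) (hne : s ≠ s')
    (hζ : ‖ζ‖ < 1) {t : ℝ} (ht : 0 < t) : (ζ - s') - (t : ℂ) * (ζ - s) ≠ 0 := by
  intro h
  have h1 := ray_norm_id (ζ := ζ) hs hs' t
  rw [h, norm_zero] at h1
  have h2 : 0 < ‖s - s'‖ := norm_pos_iff.2 (sub_ne_zero.2 hne)
  have h3 : 0 < 1 - ‖ζ‖ ^ 2 := by nlinarith [norm_nonneg ζ]
  have h4 : 0 < t * (1 - ‖ζ‖ ^ 2) * ‖s - s'‖ ^ 2 := by positivity
  rw [← h1] at h4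
  nlinarith [sq_nonneg ‖s * (ζ - s') - s' * ((t : ℂ) * (ζ - s))‖]

theorem ray_norm_lt {s s' ζ : ℂ} (hs : ‖s‖ = 1) (hs' : ‖s'‖ = 1) (hne : s ≠ s')
    (hζ : ‖ζ‖ < 1) {t : ℝ} (ht : 0 < t) : ‖ray s s' ζ t‖ < 1 := by
  have h0 := ray_den_ne hs hs' hne hζ ht
  have h1 := ray_norm_id (ζ := ζ) hs hs' t
  have h2 : 0 < ‖s - s'‖ := norm_pos_iff.2 (sub_ne_zero.2 hne)
  have h3 : 0 < 1 - ‖ζ‖ ^ 2 := by nlinarith [norm_nonneg ζ]
  have h4 : 0 < t * (1 - ‖ζ‖ ^ 2) * ‖s - s'‖ ^ 2 := by positivity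
  unfold ray
  rw [norm_div, div_lt_one (norm_pos_iff.2 h0)]
  apply lt_of_pow_lt_pow_left₀ 2 (norm_nonneg _)
  linarith

theorem ray_m_ray {s s' ζ : ℂ} (hs : ‖s‖ = 1) (hs' : ‖s'‖ = 1) (hne : s ≠ s')
    (hζ : ‖ζ‖ < 1) {t : ℝ} (ht : 0 < t) : ray_m s s' (ray s s' ζ t) = (t : ℂ) * ray_m s s' ζ := by
  have h0 := ray_den_ne hs hs' hne hζ ht
  have h1 : ζ - s' ≠ 0 := sub_ne_zero.2 (ray_ne hs' hζ)
  have h2 : s - s' ≠ 0 := sub_ne_zero.2 hne
  unfold ray_m ray
  have e1 : (s * (ζ - s') - s' * ((t : ℂ) * (ζ - s))) / (ζ - s' - (t : ℂ) * (ζ - s)) - s =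
      (t : ℂ) * (ζ - s) * (s - s') / (ζ - s' - (t : ℂ) * (ζ - s)) := by
    field_simp
    ring
  have e2 : (s * (ζ - s') - s' * ((t : ℂ) * (ζ - s))) / (ζ - s' - (t : ℂ) * (ζ - s)) - s' =
      (ζ - s') * (s - s') / (ζ - s' - (t : ℂ) * (ζ - s)) := by
    field_simp
    ring
  rw [e1, e2]
  field_simp

theorem ray_ray {s s' ζ : ℂ} (hs : ‖s‖ = 1) (hs' : ‖s'‖ = 1) (hne : s ≠ s')
    (hζ : ‖ζ‖ < 1) {t u : ℝ} (ht : 0 < t) (hu : 0 < u) :
    ray s s' (ray s s' ζ t) u = ray s s' ζ (u * t) := by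
  have h1 := ray_norm_lt hs hs' hne hζ ht
  have h2 := ray_norm_lt hs hs' hne h1 hu
  have h3 := ray_norm_lt hs hs' hne hζ (mul_pos hu ht)
  apply ray_m_inj hne (ray_ne hs' h2) (ray_ne hs' h3)
  rw [ray_m_ray hs hs' hne h1 hu, ray_m_ray hs hs' hne hζ ht,
    ray_m_ray hs hs' hne hζ (mul_pos hu ht)]
  push_cast
  ring

theorem ray_one {s s' ζ : ℂ} (hs : ‖s‖ = 1) (hs' : ‖s'‖ = 1) (hne : s ≠ s')
    (hζ : ‖ζ‖ < 1) : ray s s' ζ 1 = ζ := by
  apply ray_m_inj hne (ray_ne hs' (ray_norm_lt hs hs' hne hζ one_pos)) (ray_ne hs' hζ)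
  rw [ray_m_ray hs hs' hne hζ one_pos]
  simp

/-- the rays are continuous, and tend to `s` -/
theorem ray_cont {s s' ζ : ℂ} (hs : ‖s‖ = 1) (hs' : ‖s'‖ = 1) (hne : s ≠ s')
    (hζ : ‖ζ‖ < 1) {t : ℝ} (ht : 0 ≤ t) : ContinuousAt (fun t : ℝ => ray s s' ζ t) t := by
  have h0 : (ζ - s') - (t : ℂ) * (ζ - s) ≠ 0 := by
    rcases eq_or_lt_of_le ht with h | h
    · rw [← h]
      simpa using sub_ne_zero.2 (ray_ne hs' hζ)
    · exact ray_den_ne hs hs' hne hζ h
  unfold ray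
  have h1 : Continuous fun t : ℝ => (t : ℂ) := Complex.continuous_ofReal
  refine ContinuousAt.div ?_ ?_ h0
  · exact (Continuous.continuousAt (by fun_prop))
  · exact (Continuous.continuousAt (by fun_prop))

theorem ray_zero {s s' ζ : ℂ} (hs' : ‖s'‖ = 1) (hζ : ‖ζ‖ < 1) : ray s s' ζ 0 = s := by
  have h1 : ζ - s' ≠ 0 := sub_ne_zero.2 (ray_ne hs' hζ)
  unfold ray
  simp only [Complex.ofReal_zero, zero_mul, mul_zero, sub_zero]
  field_simp

/-! reflections -/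

/-- the basic relation between `s` and `s' = P.inv s` -/
theorem ray_R1 {P : GD} (h : P.a = P.c) (hd : 0 < P.disc) {s s' : ℂ} (hs : ‖s‖ = 1)
    (hi : P.inv s = s') : (P.a : ℂ) * (s + s') + P.b + conj P.b * s * s' = 0 := by
  have hD := inv_den_ne h hd hs.le
  have e1 := ray_conj hs
  unfold GD.inv at hi
  rw [← h, div_eq_iff hD] at hi
  have : s * (-(P.b * conj s + (P.a : ℂ))) = s * (s' * ((P.a : ℂ) * conj s + conj P.b)) := by rw [hi]
  linear_combination -this - ((P.b : ℂ) + P.a * s') * e1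

/-- the value of the form on the unit circle -/
theorem ray_q {P : GD} (h : P.a = P.c) {z : ℂ} (hz : ‖z‖ = 1) :
    ((P.q z : ℝ) : ℂ) = 2 * P.a + conj P.b * z + P.b * conj z := by
  unfold GD.q
  rw [hz, ← h]
  have h1 : ((2 * (conj P.b * z).re : ℝ) : ℂ) = conj P.b * z + P.b * conj z := by
    have := Complex.add_conj (conj P.b * z)
    rw [map_mul, Complex.conj_conj] at this
    rw [← this]
  push_cast at h1 ⊢
  linear_combination h1

theorem ray_F2 {P : GD} (h : P.a = P.c) (hd : 0 < P.disc) {s s' : ℂ} (hs : ‖s‖ = 1)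
    (hs' : ‖s'‖ = 1) (hi : P.inv s = s') {z : ℂ} (hz : ‖z‖ = 1) :
    P.q z * ‖s - s'‖ ^ 2 = P.q s * ‖z - s'‖ ^ 2 + P.q s' * ‖z - s‖ ^ 2 := by
  have e1 := ray_conj hs
  have e2 := ray_conj hs'
  have e3 := ray_conj hz
  have e4 := ray_R1 h hd hs hi
  have e5 : (P.a : ℂ) * (conj s + conj s') + conj P.b + P.b * conj s * conj s' = 0 := by
    have := congrArg conj e4
    simpa using this
  have key : ((P.q z * ‖s - s'‖ ^ 2 : ℝ) : ℂ) =
      ((P.q s * ‖z - s'‖ ^ 2 + P.q s' * ‖z - s‖ ^ 2 : ℝ) : ℂ) := by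
    push_cast
    rw [ray_q h hz, ray_q h hs, ray_q h hs', ← Complex.mul_conj', ← Complex.mul_conj',
      ← Complex.mul_conj']
    simp only [map_sub]
    generalize conj s = sc at *
    generalize conj s' = sc' at *
    generalize conj z = zc at *
    generalize conj P.b = bc at *
    generalize P.b = b at *
    generalize (P.a : ℂ) = a at *
    linear_combination ((2 * a + bc * z + b * zc) + (2 * a + bc * s' + b * sc')) * e1 +
      ((2 * a + bc * z + b * zc) - (2 * a + bc * s + b * sc)) * e2 -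
      ((2 * a + bc * s + b * sc) + (2 * a + bc * s' + b * sc')) * e3 +
      (-2 * sc + 2 * zc) * e4 + (-2 * s + 2 * z) * e5
  exact_mod_cast key

/-- the positive constant of a reflection -/
noncomputable def ray_k (P : GD) (s : ℂ) : ℝ := ‖(P.a : ℂ) * conj s + conj P.b‖ ^ 2 / P.disc

theorem ray_k_pos {P : GD} (h : P.a = P.c) (hd : 0 < P.disc) {s : ℂ} (hs : ‖s‖ = 1) :
    0 < ray_k P s := by
  have h1 := norm_pos_iff.2 (inv_den_ne h hd hs.le)
  unfold ray_k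
  positivity

theorem ray_disc (P : GD) (h : P.a = P.c) : (P.disc : ℂ) = P.b * conj P.b - P.a ^ 2 := by
  unfold GD.disc
  rw [← h]
  push_cast
  rw [← Complex.mul_conj']
  ring

theorem ray_k_q {P : GD} (h : P.a = P.c) (hd : 0 < P.disc) {s s' : ℂ} (hs : ‖s‖ = 1)
    (hi : P.inv s = s') : ray_k P s * P.q s' = - P.q s := by
  have h1 := inv_q h hd hs.le
  rw [hi] at h1
  unfold ray_k
  field_simp
  linarith

/-- the difference of two reflected points -/
theorem ray_inv_sub {P : GD} (h : P.a = P.c) {z w : ℂ}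
    (hz : (P.a : ℂ) * conj z + conj P.b ≠ 0) (hw : (P.a : ℂ) * conj w + conj P.b ≠ 0) :
    P.inv z - P.inv w = -(P.disc : ℂ) * (conj z - conj w) /
      (((P.a : ℂ) * conj z + conj P.b) * ((P.a : ℂ) * conj w + conj P.b)) := by
  unfold GD.inv
  rw [ray_disc P h, ← h, div_sub_div _ _ hz hw]
  congr 1
  ring

theorem ray_m_inv {P : GD} (h : P.a = P.c) (hd : 0 < P.disc) {s s' : ℂ} (hs : ‖s‖ = 1)
    (hs' : ‖s'‖ = 1) (hi : P.inv s = s') {z : ℂ} (hz : ‖z‖ < 1) :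
    ray_m s s' (P.inv z) = (ray_k P s : ℂ) / conj (ray_m s s' z) := by
  have hi' : P.inv s' = s := by rw [← hi]; exact inv_inv h hd hs.le
  have d1 := inv_den_ne h hd hs.le
  have d2 := inv_den_ne h hd hs'.le
  have d3 := inv_den_ne h hd hz.le
  have n1 : conj z - conj s ≠ 0 := by
    rw [← map_sub]
    exact (map_ne_zero _).2 (sub_ne_zero.2 (ray_ne hs hz))
  have n2 : conj z - conj s' ≠ 0 := by
    rw [← map_sub]
    exact (map_ne_zero _).2 (sub_ne_zero.2 (ray_ne hs' hz))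
  have hdc : (P.disc : ℂ) ≠ 0 := by exact_mod_cast hd.ne'
  have e1 : P.inv z - s = -(P.disc : ℂ) * (conj z - conj s') /
      (((P.a : ℂ) * conj z + conj P.b) * ((P.a : ℂ) * conj s' + conj P.b)) := by
    rw [← ray_inv_sub h d3 d2, hi']
  have e2 : P.inv z - s' = -(P.disc : ℂ) * (conj z - conj s) /
      (((P.a : ℂ) * conj z + conj P.b) * ((P.a : ℂ) * conj s + conj P.b)) := by
    rw [← ray_inv_sub h d3 d1, hi]
  -- the constant
  have e3 : ((P.a : ℂ) * conj s + conj P.b) = (ray_k P s : ℂ) * ((P.a : ℂ) * conj s' + conj P.b) := by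
    unfold ray_k
    push_cast
    rw [← Complex.mul_conj']
    rw [← hi]
    unfold GD.inv
    rw [← h]
    simp only [map_add, map_mul, Complex.conj_conj, Complex.conj_ofReal, map_div₀, map_neg]
    have d1' : (P.a : ℂ) * s + P.b ≠ 0 := by
      intro h0
      apply d1
      have := congrArg conj h0
      simpa using this
    rw [ray_disc P h] at hdc ⊢
    have e4 : (P.a : ℂ) * (-(conj P.b * s + P.a) / ((P.a : ℂ) * s + P.b)) + conj P.b =
        (P.b * conj P.b - P.a ^ 2) / ((P.a : ℂ) * s + P.b) := by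
      rw [eq_div_iff d1', add_mul, mul_assoc, div_mul_cancel₀ _ d1']
      ring
    rw [e4]
    rw [div_mul_div_comm, eq_div_iff (mul_ne_zero hdc d1')]
    ring
  unfold ray_m
  rw [e1, e2, map_div₀, map_sub, map_sub]
  rw [e3]
  have hk : (ray_k P s : ℂ) ≠ 0 := by exact_mod_cast (ray_k_pos h hd hs).ne'
  generalize (P.a : ℂ) * conj z + conj P.b = A at *
  generalize (P.a : ℂ) * conj s' + conj P.b = B at *
  generalize conj z = zc at *
  generalize conj s = sc at *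
  generalize conj s' = sc' at *
  field_simp

theorem ray_inv_inv {P P' : GD} (h : P.a = P.c) (hd : 0 < P.disc) (h' : P'.a = P'.c)
    (hd' : 0 < P'.disc) {s s' : ℂ} (hs : ‖s‖ = 1) (hs' : ‖s'‖ = 1) (hne : s ≠ s')
    (hi : P.inv s = s') (hi' : P'.inv s = s') {z : ℂ} (hz : ‖z‖ < 1) :
    P'.inv (P.inv z) = ray s s' z (ray_k P' s / ray_k P s) := by
  have k1 := ray_k_pos h hd hs
  have k2 := ray_k_pos h' hd' hs
  have h1 := inv_norm_lt h hd hz
  have h2 := inv_norm_lt h' hd' h1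
  have ht : 0 < ray_k P' s / ray_k P s := div_pos k2 k1
  apply ray_m_inj hne (ray_ne hs' h2) (ray_ne hs' (ray_norm_lt hs hs' hne hz ht))
  rw [ray_m_inv h' hd' hs hs' hi' h1, ray_m_inv h hd hs hs' hi hz, ray_m_ray hs hs' hne hz ht]
  have k1' : (ray_k P s : ℂ) ≠ 0 := by exact_mod_cast k1.ne'
  have n1 : ray_m s s' z ≠ 0 := by
    unfold ray_m
    exact div_ne_zero (sub_ne_zero.2 (ray_ne hs hz)) (sub_ne_zero.2 (ray_ne hs' hz))
  rw [map_div₀, Complex.conj_conj, Complex.conj_ofReal]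
  push_cast
  field_simp

/-- there is a point of the circle on each Apollonius circle -/
theorem ray_exists {s s' : ℂ} (hs : ‖s‖ = 1) (hs' : ‖s'‖ = 1) (hne : s ≠ s') {k : ℝ} (hk : 0 < k) :
    ∃ z : ℂ, ‖z‖ = 1 ∧ ‖z - s‖ ^ 2 = k * ‖z - s'‖ ^ 2 := by
  have hc : IsPreconnected (sphere (0 : ℂ) 1) :=
    isPreconnected_sphere (by rw [Complex.rank_real_complex]; norm_num) 0 1
  have hcont : ContinuousOn (fun z : ℂ => ‖z - s‖ ^ 2 - k * ‖z - s'‖ ^ 2) (sphere (0 : ℂ) 1) := by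
    apply Continuous.continuousOn
    fun_prop
  have hpos : 0 < ‖s - s'‖ := norm_pos_iff.2 (sub_ne_zero.2 hne)
  have hpos' : 0 < ‖s' - s‖ := norm_pos_iff.2 (sub_ne_zero.2 hne.symm)
  have h1 := hc.intermediate_value (a := s) (b := s') (by simp [hs]) (by simp [hs']) hcont
  obtain ⟨z, hz, hz'⟩ := h1 (show (0 : ℝ) ∈ Icc _ _ by
    constructor
    · simp only [sub_self, norm_zero]
      nlinarith [mul_pos hk (pow_pos hpos 2)]
    · simp only [sub_self, norm_zero]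
      nlinarith [pow_pos hpos' 2])
  refine ⟨z, by simpa using hz, ?_⟩
  simp only at hz'
  linarith

theorem ray_tendsto {s s' ζ : ℂ} (hs : ‖s‖ = 1) (hs' : ‖s'‖ = 1) (hne : s ≠ s')
    (hζ : ‖ζ‖ < 1) (β : ℝ) :
    Tendsto (fun t : ℝ => ray s s' ζ (β * t)) (𝓝[>] 0) (𝓝 s) := by
  have h1 := ray_cont hs hs' hne hζ (t := 0) le_rfl
  have h2 : Tendsto (fun t : ℝ => β * t) (𝓝[>] 0) (𝓝 0) := by
    have : Tendsto (fun t : ℝ => β * t) (𝓝 0) (𝓝 (β * 0)) :=
      (continuous_const.mul continuous_id).tendsto 0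
    rw [mul_zero] at this
    exact this.mono_left nhdsWithin_le_nhds
  have h3 := h1.tendsto.comp h2
  simp only [ray_zero hs' hζ] at h3
  exact h3

theorem ray_limit_of_good {lam : ℝ} (h0 : lam ≠ 0) (h1 : |lam| < 1) {W : ℂ → ℂ}
    (hW : DifferentiableOn ℂ W (ball 0 1)) {P P' : GD} (hP : Good lam W P) (hP' : Good lam W P')
    {s s' : ℂ} (hs : ‖s‖ = 1) (hs' : ‖s'‖ = 1) (hne : s ≠ s') (hi : P.inv s = s')
    (hi' : P'.inv s = s') (hq : P.q s < 0) (hq' : P'.q s' < 0)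
    (hdisj : ∀ z, ‖z‖ = 1 → P.q z ≤ 0 → 0 < P'.q z) : RL W s s' := by
  have k1 := ray_k_pos hP.orth hP.disc hs
  have k2 := ray_k_pos hP'.orth hP'.disc hs
  have kq := ray_k_q hP.orth hP.disc hs hi
  have kq' := ray_k_q hP'.orth hP'.disc hs hi'
  have hii : ∀ z : ℂ, ‖z‖ < 1 → P'.inv (P.inv z) = ray s s' z (ray_k P' s / ray_k P s) :=
    fun z hz => ray_inv_inv hP.orth hP.disc hP'.orth hP'.disc hs hs' hne hi hi' hz
  generalize ray_k P s = k at *
  generalize ray_k P' s = k' at *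
  have hss : 0 < ‖s - s'‖ := norm_pos_iff.2 (sub_ne_zero.2 hne)
  have hss2 : 0 < ‖s - s'‖ ^ 2 := pow_pos hss 2
  have hkk : k < k' := by
    by_contra hle
    push Not at hle
    obtain ⟨z, hz, hz2⟩ := ray_exists hs hs' hne k1
    have f1 := ray_F2 hP.orth hP.disc hs hs' hi hz
    have f2 := ray_F2 hP'.orth hP'.disc hs hs' hi' hz
    have g1 : P.q z * ‖s - s'‖ ^ 2 = 0 := by
      rw [f1, hz2]; linear_combination ‖z - s'‖ ^ 2 * kq
    have g2 : P.q z = 0 := (mul_eq_zero.1 g1).resolve_right hss2.ne'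
    have g3 := hdisj z hz g2.le
    have g4 : P'.q z * ‖s - s'‖ ^ 2 = P'.q s' * (k - k') * ‖z - s'‖ ^ 2 := by
      rw [f2, hz2]; linear_combination ‖z - s'‖ ^ 2 * kq'
    have g5 : P'.q s' * (k - k') * ‖z - s'‖ ^ 2 ≤ 0 := by
      apply mul_nonpos_of_nonpos_of_nonneg
      · exact mul_nonpos_of_nonpos_of_nonneg hq'.le (sub_nonneg.2 hle)
      · positivity
    have g6 := mul_pos g3 hss2
    linarith
  have r1 := hP.inside s hs hq
  have r2 : Reg (fun z => W z - (lam : ℂ) * conj (W (P'.inv z))) (P.inv s) := by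
    rw [hi]; exact hP'.inside s' hs' hq'
  have r3 := Reg.reflect hP.orth hP.disc hs r2
  have r4 : Reg (fun z => W z - (lam : ℂ) ^ 2 * W (ray s s' z (k' / k))) s := by
    refine (r1.add (r3.const_mul (lam : ℂ))).congr fun z hz => ?_
    simp only [map_sub, map_mul, Complex.conj_conj, Complex.conj_ofReal]
    rw [hii z hz]
    ring
  obtain ⟨ρ, hρ, A, hA, hAe⟩ := r4
  have hlt : |lam ^ 2| < 1 := by
    rw [abs_pow]
    exact pow_lt_one₀ (abs_nonneg _) h1 two_ne_zero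
  have hβ : 0 < k / k' := div_pos k1 k2
  have hβ1 : k / k' < 1 := (div_lt_one k2).2 hkk
  refine ⟨A s / (1 - ((lam ^ 2 : ℝ) : ℂ)), fun ζ hζ => ?_⟩
  refine rl_limit (fun t => W (ray s s' ζ t))
    (fun t => W (ray s s' ζ (k / k' * t)) - ((lam ^ 2 : ℝ) : ℂ) * W (ray s s' ζ t)) (k / k')
    (lam ^ 2) 1 (A s) hβ hβ1 hlt one_pos ?_ ?_ ?_
  · intro t ht
    have ht' : 0 < t := ht
    have hn := ray_norm_lt hs hs' hne hζ ht'
    have c1 : ContinuousAt W (ray s s' ζ t) :=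
      (hW.differentiableAt (isOpen_ball.mem_nhds (by simpa using hn))).continuousAt
    exact (ContinuousAt.comp (f := fun t : ℝ => ray s s' ζ t) c1
      (ray_cont hs hs' hne hζ ht'.le)).continuousWithinAt
  · have t1 := ray_tendsto hs hs' hne hζ (k / k')
    have cA : ContinuousAt A s := (hA.differentiableAt (ball_mem_nhds s hρ)).continuousAt
    have t2 := cA.tendsto.comp t1
    refine t2.congr' ?_
    have ev1 : ∀ᶠ t : ℝ in 𝓝[>] 0, ray s s' ζ (k / k' * t) ∈ ball s ρ :=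
      t1.eventually (ball_mem_nhds s hρ)
    filter_upwards [ev1, self_mem_nhdsWithin] with t ht htp
    have htp' : 0 < t := htp
    have hn := ray_norm_lt hs hs' hne hζ (mul_pos hβ htp')
    have e1 : W (ray s s' ζ (k / k' * t)) -
        (lam : ℂ) ^ 2 * W (ray s s' (ray s s' ζ (k / k' * t)) (k' / k)) =
        A (ray s s' ζ (k / k' * t)) := hAe _ ht (by simpa using hn)
    rw [ray_ray hs hs' hne hζ (mul_pos hβ htp') (div_pos k2 k1)] at e1
    have e2 : k' / k * (k / k' * t) = t := by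
      field_simp
    rw [e2] at e1
    simp only [Function.comp]
    rw [← e1]
    push_cast
    ring
  · intro t _ _
    ring

theorem reg_of_ray_limit {lam : ℝ} (h0 : lam ≠ 0) (h1 : |lam| < 1) {W : ℂ → ℂ}
    (hW : DifferentiableOn ℂ W (ball 0 1)) {P P' : GD} (hP : Good lam W P) (hP' : Good lam W P')
    {s s' : ℂ} (hs : ‖s‖ = 1) (hs' : ‖s'‖ = 1) (hne : s ≠ s') (hi : P.inv s = s')
    (hi' : P'.inv s = s') (hq : 0 < P.q s) (hq' : 0 < P'.q s)
    (hz : ∃ z, ‖z‖ = 1 ∧ P.q z = 0 ∧ P'.q z ≠ 0) (hRL : RL W s s') : Reg W s := by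
  have k1 := ray_k_pos hP.orth hP.disc hs
  have k2 := ray_k_pos hP'.orth hP'.disc hs
  have kq := ray_k_q hP.orth hP.disc hs hi
  have kq' := ray_k_q hP'.orth hP'.disc hs hi'
  have hii : ∀ z : ℂ, ‖z‖ < 1 → P'.inv (P.inv z) = ray s s' z (ray_k P' s / ray_k P s) :=
    fun z hz => ray_inv_inv hP.orth hP.disc hP'.orth hP'.disc hs hs' hne hi hi' hz
  generalize ray_k P s = k at *
  generalize ray_k P' s = k' at *
  have hss : 0 < ‖s - s'‖ := norm_pos_iff.2 (sub_ne_zero.2 hne)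
  have hss2 : 0 < ‖s - s'‖ ^ 2 := pow_pos hss 2
  -- the constants differ
  have hkk : k' ≠ k := by
    rintro rfl
    obtain ⟨z, hz1, hz2, hz3⟩ := hz
    have f1 := ray_F2 hP.orth hP.disc hs hs' hi hz1
    have f2 := ray_F2 hP'.orth hP'.disc hs hs' hi' hz1
    apply hz3
    rw [hz2, zero_mul] at f1
    have g1 : P.q s' * (‖z - s‖ ^ 2 - k' * ‖z - s'‖ ^ 2) = 0 := by
      linear_combination -f1 - ‖z - s'‖ ^ 2 * kq
    have g0 : P.q s' ≠ 0 := by
      intro h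
      rw [h, mul_zero] at kq
      linarith
    have g2 := (mul_eq_zero.1 g1).resolve_left g0
    have g3 : P'.q z * ‖s - s'‖ ^ 2 = 0 := by
      rw [f2]
      linear_combination P'.q s' * g2 + ‖z - s'‖ ^ 2 * kq'
    exact (mul_eq_zero.1 g3).resolve_right hss2.ne'
  have q1 : P.q s' < 0 := by
    by_contra h
    push Not at h
    have := mul_nonneg k1.le h
    linarith
  have q2 : P'.q s' < 0 := by
    by_contra h
    push Not at h
    have := mul_nonneg k2.le h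
    linarith
  have r1 := hP.inside s' hs' q1
  have r2 := hP'.inside s' hs' q2
  have r3 : Reg (fun z => (lam : ℂ) * (conj (W (P'.inv z)) - conj (W (P.inv z)))) (P.inv s) := by
    rw [hi]
    refine (r1.sub r2).congr fun z hz => ?_
    ring
  have r4 := Reg.of_const_mul (lam : ℂ) (by exact_mod_cast h0) r3
  have r5 := Reg.reflect hP.orth hP.disc hs r4
  have r6 : Reg (fun z => W (ray s s' z (k' / k)) - W z) s := by
    refine r5.congr fun z hz => ?_
    simp only [map_sub, Complex.conj_conj]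
    rw [hii z hz, inv_inv hP.orth hP.disc hz.le]
  obtain ⟨ρ, hρ, A, hA, hAe⟩ := r6
  -- the inverse Möbius map
  let n : ℂ → ℂ := fun w => (s - s' * w) / (1 - w)
  have hn_m : ∀ ζ : ℂ, ‖ζ‖ < 1 → n (ray_m s s' ζ) = ζ := by
    intro ζ hζ
    have n1 : ζ - s' ≠ 0 := sub_ne_zero.2 (ray_ne hs' hζ)
    have n2 : s - s' ≠ 0 := sub_ne_zero.2 hne
    simp only [n, ray_m]
    have e1 : 1 - (ζ - s) / (ζ - s') = (s - s') / (ζ - s') := by
      field_simp
      ring
    rw [e1]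
    field_simp
    ring
  have hn_t : ∀ ζ : ℂ, ‖ζ‖ < 1 → ∀ t : ℝ, 0 < t → n ((t : ℂ) * ray_m s s' ζ) = ray s s' ζ t := by
    intro ζ hζ t ht
    rw [← ray_m_ray hs hs' hne hζ ht]
    exact hn_m _ (ray_norm_lt hs hs' hne hζ ht)
  have hn_d : ∀ w : ℂ, ‖w‖ < 1 → DifferentiableAt ℂ n w := by
    intro w hw
    have : (1 : ℂ) - w ≠ 0 := by
      intro h
      have : w = 1 := (sub_eq_zero.1 h).symm
      rw [this] at hw
      simp at hw
    exact DifferentiableAt.div (by fun_prop) (by fun_prop) this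
  have hn0 : n 0 = s := by simp [n]
  have hnc : ContinuousAt n 0 := (hn_d 0 (by simp)).continuousAt
  obtain ⟨δ₀, hδ₀, hball⟩ : ∃ δ₀ > 0, ∀ w, ‖w‖ < δ₀ → n w ∈ ball s ρ := by
    have := hnc.tendsto
    rw [hn0] at this
    obtain ⟨δ₀, h2, h3⟩ := Metric.mem_nhds_iff.1 (this (ball_mem_nhds s hρ))
    exact ⟨δ₀, h2, fun w hw => h3 (by simpa using hw)⟩
  set δ : ℝ := min δ₀ 1 with hδ
  have hδp : 0 < δ := lt_min hδ₀ one_pos
  let K : Set ℂ := ray_m s s' '' ball 0 1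
  obtain ⟨L, hL⟩ := hRL
  have hτ : 0 < k' / k := div_pos k2 k1
  obtain ⟨δ', hδ', g, hg, hge⟩ := ext_cone K (by
      rintro w ⟨ζ, hζ, rfl⟩ t ht
      have hζ' : ‖ζ‖ < 1 := by simpa using hζ
      exact ⟨ray s s' ζ t, by simpa using ray_norm_lt hs hs' hne hζ' ht,
        ray_m_ray hs hs' hne hζ' ht⟩)
    (fun w => W (n w)) (fun w => A (n w)) δ (k' / k) hδp hτ (by
      intro h
      rw [div_eq_one_iff_eq k1.ne'] at h
      exact hkk h) (by
      intro w hw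
      have hw' : ‖w‖ < δ := by simpa using hw
      have a1 : DifferentiableAt ℂ n w := hn_d w (lt_of_lt_of_le hw' (min_le_right _ _))
      have a2 : n w ∈ ball s ρ := hball w (lt_of_lt_of_le hw' (min_le_left _ _))
      exact (DifferentiableAt.comp w (hA.differentiableAt (isOpen_ball.mem_nhds a2))
        a1).differentiableWithinAt) (by
      rintro w ⟨ζ, hζ, rfl⟩ hw
      have hζ' : ‖ζ‖ < 1 := by simpa using hζ
      have a2 := hball _ (lt_of_lt_of_le hw (min_le_left _ _))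
      rw [hn_t ζ hζ' _ hτ]
      rw [hn_m ζ hζ'] at a2 ⊢
      rw [← hAe ζ a2 hζ]
      ring) L (by
      rintro w ⟨ζ, hζ, rfl⟩
      have hζ' : ‖ζ‖ < 1 := by simpa using hζ
      refine (hL ζ hζ').congr' ?_
      filter_upwards [self_mem_nhdsWithin] with t ht
      rw [hn_t ζ hζ' t ht])
  -- back to the disk
  have hmd : ∀ z ∈ ball s ‖s - s'‖, DifferentiableAt ℂ (ray_m s s') z := by
    intro z hz
    have hz' : z - s' ≠ 0 := by
      intro h
      have : z = s' := sub_eq_zero.1 h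
      rw [this, mem_ball, dist_eq_norm, norm_sub_rev] at hz
      exact lt_irrefl _ hz
    unfold ray_m
    exact DifferentiableAt.div (by fun_prop) (by fun_prop) hz'
  have hm0 : ray_m s s' s = 0 := by simp [ray_m]
  have hmc : ContinuousAt (ray_m s s') s := (hmd s (mem_ball_self hss)).continuousAt
  obtain ⟨ε, hε, hεb⟩ : ∃ ε > 0, ∀ z ∈ ball s ε, ray_m s s' z ∈ ball (0 : ℂ) δ' := by
    have := hmc.tendsto
    rw [hm0] at this
    obtain ⟨ε, h2, h3⟩ := Metric.mem_nhds_iff.1 (this (ball_mem_nhds 0 hδ'))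
    exact ⟨ε, h2, fun z hz => h3 hz⟩
  refine ⟨min ε ‖s - s'‖, lt_min hε hss, fun z => g (ray_m s s' z), ?_, ?_⟩
  · intro z hz
    have z1 : z ∈ ball s ε := ball_subset_ball (min_le_left _ _) hz
    have z2 : z ∈ ball s ‖s - s'‖ := ball_subset_ball (min_le_right _ _) hz
    exact (DifferentiableAt.comp z (hg.differentiableAt (isOpen_ball.mem_nhds (hεb z z1)))
      (hmd z z2)).differentiableWithinAt
  · intro z hz hz1
    have z1 : z ∈ ball s ε := ball_subset_ball (min_le_left _ _) hz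
    have hz' : ‖z‖ < 1 := by simpa using hz1
    have := hge (ray_m s s' z) ⟨z, hz1, rfl⟩ (by simpa using hεb z z1)
    rw [hn_m z hz'] at this
    exact this

end Pool.Agent.H385
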