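import Pool.Agent.H385.Defs
import Pool.Agent.H385.Gap
import Pool.Agent.H385.Ray
import Pool.Agent.H385.OddL
import Pool.Agent.H385.Reg

open Complex Metric Set Filter Topology ComplexConjugate MeasureTheory
open scoped ContDiff ENNReal

namespace Pool.Agent.H385

/-! auxiliary lemmas -/

lemma q0_half_q (s t : ℝ) (z : ℂ) : (half s t).q z = -2 * s * (exp (-(I * t)) * z).im := by
  unfold half GD.q
  have h1 : conj (-I * (s : ℂ) * exp (I * (t : ℂ))) = I * (s : ℂ) * exp (-(I * t)) := by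
    rw [map_mul, map_mul, map_neg, conj_I, conj_ofReal, ← exp_conj, map_mul, conj_I, conj_ofReal]
    simp
  simp only [h1]
  have h2 : I * (s : ℂ) * exp (-(I * t)) * z = I * ((s : ℂ) * (exp (-(I * t)) * z)) := by ring
  rw [h2]
  simp only [zero_mul, zero_add, add_zero, I_mul_re, im_ofReal_mul]
  ring

lemma q0_E_add (x y : ℝ) : exp (I * x) * exp (I * y) = exp (I * ((x + y : ℝ) : ℂ)) := by
  rw [← exp_add]; congr 1; push_cast; ring

lemma q0_E_conj (x : ℝ) : conj (exp (I * x)) = exp (I * ((-x : ℝ) : ℂ)) := by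
  rw [← exp_conj, map_mul, conj_I, conj_ofReal]; congr 1; push_cast; ring

lemma q0_E_im (x : ℝ) : (exp (I * x)).im = Real.sin x := by
  rw [mul_comm, exp_ofReal_mul_I_im]

lemma q0_E_re (x : ℝ) : (exp (I * x)).re = Real.cos x := by
  rw [mul_comm, exp_ofReal_mul_I_re]

lemma q0_E_norm (x : ℝ) : ‖exp (I * x)‖ = 1 := by
  rw [mul_comm, norm_exp_ofReal_mul_I]

lemma q0_E_zero : exp (I * ((0 : ℝ) : ℂ)) = 1 := by simp

lemma q0_E_pi : exp (I * ((Real.pi : ℝ) : ℂ)) = -1 := by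
  rw [mul_comm]; exact exp_pi_mul_I

lemma q0_half_q_E (s t x : ℝ) : (half s t).q (exp (I * x)) = -2 * s * Real.sin (x - t) := by
  rw [q0_half_q]
  have : exp (-(I * t)) * exp (I * x) = exp (I * ((x - t : ℝ) : ℂ)) := by
    rw [← exp_add]; congr 1; push_cast; ring
  rw [this, q0_E_im]

lemma q0_half_inv {s : ℝ} (hs : 0 < s) (t : ℝ) (z : ℂ) :
    (half s t).inv z = exp (I * t) ^ 2 * conj z := by
  unfold half GD.inv
  have h1 : conj (-I * (s : ℂ) * exp (I * (t : ℂ))) = I * (s : ℂ) * exp (-(I * t)) := by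
    rw [map_mul, map_mul, map_neg, conj_I, conj_ofReal, ← exp_conj, map_mul, conj_I, conj_ofReal]
    simp
  simp only [h1]
  have hs' : (s : ℂ) ≠ 0 := by exact_mod_cast hs.ne'
  have hE : exp (I * t) ≠ 0 := exp_ne_zero _
  rw [exp_neg]
  have hI : I ≠ 0 := I_ne_zero
  push_cast
  rw [zero_mul, zero_add, add_zero]
  field_simp

lemma q0_half_inv_E {s : ℝ} (hs : 0 < s) (t x : ℝ) :
    (half s t).inv (exp (I * x)) = exp (I * ((2 * t - x : ℝ) : ℂ)) := by
  rw [q0_half_inv hs, q0_E_conj, pow_two, q0_E_add, q0_E_add]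
  congr 2
  push_cast
  ring

/-- rotation of a regular point -/
lemma q0_reg_rot {f : ℂ → ℂ} {u z : ℂ} (hu : ‖u‖ = 1) (h : Reg f (u * z)) :
    Reg (fun ζ => f (u * ζ)) z := by
  obtain ⟨ρ, hρ, g, hg, hfg⟩ := h
  have hball : ∀ w ∈ ball z ρ, u * w ∈ ball (u * z) ρ := by
    intro w hw
    rw [mem_ball, dist_eq_norm] at hw ⊢
    rw [← mul_sub, norm_mul, hu, one_mul]
    exact hw
  refine ⟨ρ, hρ, fun ζ => g (u * ζ), ?_, ?_⟩
  · exact hg.comp ((differentiable_const u).mul differentiable_id).differentiableOn hball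
  · intro w hw hw1
    refine hfg _ (hball w hw) ?_
    rw [mem_ball, dist_zero_right] at hw1 ⊢
    rw [norm_mul, hu, one_mul]
    exact hw1

/-- a regular function has one limit along all curves in the disk -/
lemma q0_reg_tendsto {f : ℂ → ℂ} {z : ℂ} (h : Reg f z) : ∃ L : ℂ, ∀ γ : ℝ → ℂ,
    Tendsto γ (𝓝[>] 0) (𝓝 z) → (∀ᶠ t in 𝓝[>] (0 : ℝ), ‖γ t‖ < 1) →
    Tendsto (fun t => f (γ t)) (𝓝[>] 0) (𝓝 L) := by
  obtain ⟨ρ, hρ, g, hg, hfg⟩ := h
  refine ⟨g z, fun γ h1 h2 => ?_⟩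
  have hc : ContinuousAt g z :=
    (hg.continuousOn).continuousAt (ball_mem_nhds z hρ)
  have h3 : Tendsto (fun t => g (γ t)) (𝓝[>] 0) (𝓝 (g z)) := hc.tendsto.comp h1
  refine h3.congr' ?_
  filter_upwards [h1 (ball_mem_nhds z hρ), h2] with t ht1 ht2
  exact (hfg _ ht1 (by rw [mem_ball, dist_zero_right]; exact ht2)).symm

lemma q0_ray_norm {z z' ζ : ℂ} (hz : ‖z‖ = 1) (hz' : ‖z'‖ = 1) (t : ℝ) :
    ‖(ζ - z') - (t : ℂ) * (ζ - z)‖ ^ 2 - ‖z * (ζ - z') - z' * ((t : ℂ) * (ζ - z))‖ ^ 2 =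
      t * (1 - ‖ζ‖ ^ 2) * ‖z - z'‖ ^ 2 := by
  have h1 : z.re ^ 2 + z.im ^ 2 = 1 := by
    have := congrArg (fun x => x ^ 2) hz
    simp only [← normSq_eq_norm_sq, normSq_apply] at this
    nlinarith
  have h2 : z'.re ^ 2 + z'.im ^ 2 = 1 := by
    have := congrArg (fun x => x ^ 2) hz'
    simp only [← normSq_eq_norm_sq, normSq_apply] at this
    nlinarith
  simp only [← normSq_eq_norm_sq, normSq_apply, sub_re, sub_im, mul_re, mul_im, ofReal_re,
    ofReal_im]
  generalize z.re = a at *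
  generalize z.im = b at *
  generalize z'.re = c at *
  generalize z'.im = d at *
  generalize ζ.re = x
  generalize ζ.im = y
  linear_combination (-((x - c) ^ 2 + (y - d) ^ 2) - 2 * t * (x * c + y * d) + 2 * t +
      2 * t * (c ^ 2 + d ^ 2 - 1) - t * (1 - (x ^ 2 + y ^ 2))) * h1 +
    (-(t ^ 2 * ((x - a) ^ 2 + (y - b) ^ 2)) - 2 * t * (a * x + b * y) + 2 * t -
      t * (1 - (x ^ 2 + y ^ 2))) * h2

lemma q0_ray_lt {z z' ζ : ℂ} (hz : ‖z‖ = 1) (hz' : ‖z'‖ = 1) (hne : z ≠ z') (hζ : ‖ζ‖ < 1) {t : ℝ}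
    (ht : 0 < t) : ‖ray z z' ζ t‖ < 1 := by
  have h1 := q0_ray_norm (ζ := ζ) hz hz' t
  have h2 : 0 < t * (1 - ‖ζ‖ ^ 2) * ‖z - z'‖ ^ 2 := by
    have : 0 < ‖z - z'‖ := norm_pos_iff.2 (sub_ne_zero.2 hne)
    have : 0 < 1 - ‖ζ‖ ^ 2 := by nlinarith [norm_nonneg ζ]
    positivity
  have h3 : 0 < ‖(ζ - z') - (t : ℂ) * (ζ - z)‖ := by
    by_contra hc
    have h4 : ‖(ζ - z') - (t : ℂ) * (ζ - z)‖ = 0 := le_antisymm (not_lt.1 hc) (norm_nonneg _)
    rw [h4] at h1
    nlinarith [sq_nonneg ‖z * (ζ - z') - z' * ((t : ℂ) * (ζ - z))‖]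
  unfold ray
  rw [norm_div, div_lt_one h3]
  by_contra hc
  have := not_lt.1 hc
  nlinarith [norm_nonneg ((ζ - z') - (t : ℂ) * (ζ - z))]

lemma q0_ray_tendsto {z z' ζ : ℂ} (hz' : ‖z'‖ = 1) (hζ : ‖ζ‖ < 1) :
    Tendsto (fun t : ℝ => ray z z' ζ t) (𝓝[>] 0) (𝓝 z) := by
  have hne : ζ - z' ≠ 0 := by
    intro h
    rw [sub_eq_zero.1 h, hz'] at hζ
    exact lt_irrefl _ hζ
  have h1 : ContinuousAt (fun t : ℝ => ray z z' ζ t) 0 := by
    unfold ray
    refine ContinuousAt.div ?_ ?_ ?_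
    · fun_prop
    · fun_prop
    · simpa using hne
  have h2 : ray z z' ζ 0 = z := by
    unfold ray
    simp only [ofReal_zero, zero_mul, mul_zero, sub_zero]
    field_simp
  have h3 := h1.tendsto
  simp only [h2] at h3
  exact h3.mono_left nhdsWithin_le_nhds

/-- transport of ray limits -/
lemma q0_transport {W : ℂ → ℂ} {u z z' κ : ℂ} (hu : ‖u‖ = 1) (hz : ‖z‖ = 1) (hz' : ‖z'‖ = 1)
    (hne : z ≠ z') (hReg : Reg (fun ζ => W ζ - κ * W (u * ζ)) z) (hRL : RL W (u * z) (u * z')) :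
    RL W z z' := by
  obtain ⟨L, hL⟩ := hRL
  obtain ⟨L', hL'⟩ := q0_reg_tendsto hReg
  refine ⟨L' + κ * L, fun ζ hζ => ?_⟩
  have h1 := hL' (fun t => ray z z' ζ t) (q0_ray_tendsto hz' hζ) (by
    filter_upwards [self_mem_nhdsWithin] with t ht
    exact q0_ray_lt hz hz' hne hζ ht)
  have h2 := hL (u * ζ) (by rw [norm_mul, hu, one_mul]; exact hζ)
  have hu0 : u ≠ 0 := by
    intro h; rw [h, norm_zero] at hu; exact zero_ne_one hu
  have h3 : ∀ t : ℝ, ray (u * z) (u * z') (u * ζ) t = u * ray z z' ζ t := by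
    intro t
    unfold ray
    have e1 : u * z * (u * ζ - u * z') - u * z' * ((t : ℂ) * (u * ζ - u * z)) =
        u * (u * (z * (ζ - z') - z' * ((t : ℂ) * (ζ - z)))) := by ring
    have e2 : u * ζ - u * z' - (t : ℂ) * (u * ζ - u * z) = u * (ζ - z' - (t : ℂ) * (ζ - z)) := by ring
    rw [e1, e2, mul_div_mul_left _ _ hu0, mul_div_assoc]
  simp only [h3] at h2
  have h4 := h1.add (h2.const_mul κ)
  refine h4.congr fun t => ?_
  ring

/-- transport of ray limits under conjugation -/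
lemma q0_transport_conj {W : ℂ → ℂ} {z z' κ : ℂ} (hz : ‖z‖ = 1) (hz' : ‖z'‖ = 1)
    (hne : z ≠ z') (hReg : Reg (fun ζ => W ζ - κ * conj (W (conj ζ))) z)
    (hRL : RL W (conj z) (conj z')) : RL W z z' := by
  obtain ⟨L, hL⟩ := hRL
  obtain ⟨L', hL'⟩ := q0_reg_tendsto hReg
  refine ⟨L' + κ * conj L, fun ζ hζ => ?_⟩
  have h1 := hL' (fun t => ray z z' ζ t) (q0_ray_tendsto hz' hζ) (by
    filter_upwards [self_mem_nhdsWithin] with t ht
    exact q0_ray_lt hz hz' hne hζ ht)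
  have h2 := hL (conj ζ) (by rw [RCLike.norm_conj]; exact hζ)
  have h3 : ∀ t : ℝ, ray (conj z) (conj z') (conj ζ) t = conj (ray z z' ζ t) := by
    intro t
    unfold ray
    simp only [map_div₀, map_sub, map_mul, conj_ofReal]
  simp only [h3] at h2
  have h4 : Tendsto (fun t : ℝ => conj (W (conj (ray z z' ζ t)))) (𝓝[>] 0) (𝓝 (conj L)) :=
    (continuous_conj.tendsto L).comp h2
  have h5 := h1.add (h4.const_mul κ)
  refine h5.congr fun t => ?_
  ring

/-- the local relation at singular points -/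
lemma q0_sigma {lam : ℝ} (h0 : lam ≠ 0) {W : ℂ → ℂ} {P : GD} (hP : Good lam W P) {z : ℂ}
    (hz : Sing W z) : ∃ κ : ℝ, Reg (fun ζ => W ζ - (κ : ℂ) * conj (W (P.inv ζ))) z := by
  have hq : P.q z ≠ 0 := fun h => hz.2 (hP.bdry z hz.1 h)
  rcases lt_or_gt_of_ne hq with hlt | hgt
  · exact ⟨lam, hP.inside z hz.1 hlt⟩
  · have hq1 : P.q (P.inv z) < 0 := by
      have h1 := inv_q hP.orth hP.disc hz.1.le
      have h2 : 0 < ‖(P.a : ℂ) * conj z + conj P.b‖ ^ 2 := by
        have := norm_pos_iff.2 (inv_den_ne hP.orth hP.disc hz.1.le)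
        positivity
      have h3 : 0 < P.disc * P.q z := mul_pos hP.disc hgt
      by_contra hc
      have := mul_nonneg (not_lt.1 hc) h2.le
      linarith
    have h1 := hP.inside _ (inv_norm_eq hP.orth hP.disc hz.1) hq1
    have h2 := Reg.reflect hP.orth hP.disc hz.1 h1
    refine ⟨lam⁻¹, ?_⟩
    refine (Reg.const_mul (-(lam : ℂ)⁻¹) h2).congr fun ζ hζ => ?_
    rw [inv_inv hP.orth hP.disc hζ.le]
    have : (lam : ℂ) ≠ 0 := by exact_mod_cast h0
    rw [map_sub, map_mul, conj_ofReal, conj_conj]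
    push_cast
    field_simp
    ring

section main

variable {lam : ℝ} {W : ℂ → ℂ} {ε t₁ t₂ : ℝ}

lemma q0_sing_conj (h0 : lam ≠ 0) (ht₂ : 0 < t₂) (hP₂ : Good lam W (half t₂ 0)) {z : ℂ}
    (hz : Sing W z) : Sing W (conj z) := by
  have := (Good.sing_inv h0 hP₂ z hz.1).2 hz
  rw [q0_half_inv ht₂] at this
  simpa using this

lemma q0_sing_rot (h0 : lam ≠ 0) (ht₁ : 0 < t₁) (ht₂ : 0 < t₂) (hP₁ : Good lam W (half t₁ ε))
    (hP₂ : Good lam W (half t₂ 0)) {z : ℂ} : Sing W (exp (I * ε) ^ 2 * z) ↔ Sing W z := by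
  have hv : ‖exp (I * ε) ^ 2‖ = 1 := by rw [norm_pow, q0_E_norm, one_pow]
  have key : ∀ z : ℂ, ‖z‖ = 1 → (Sing W (exp (I * ε) ^ 2 * z) ↔ Sing W z) := by
    intro z hz
    have e1 : exp (I * ε) ^ 2 * z = (half t₁ ε).inv ((half t₂ 0).inv z) := by
      rw [q0_half_inv ht₁, q0_half_inv ht₂]; simp
    rw [e1, Good.sing_inv h0 hP₁ _ (inv_norm_eq hP₂.orth hP₂.disc hz), Good.sing_inv h0 hP₂ _ hz]
  constructor
  · intro h
    have : ‖z‖ = 1 := by
      have := h.1
      rwa [norm_mul, hv, one_mul] at this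
    exact (key z this).1 h
  · intro h
    exact (key z h.1).2 h

lemma q0_sing_rot_pow (h0 : lam ≠ 0) (ht₁ : 0 < t₁) (ht₂ : 0 < t₂) (hP₁ : Good lam W (half t₁ ε))
    (hP₂ : Good lam W (half t₂ 0)) (l : ℕ) {z : ℂ} :
    Sing W (exp (I * ε) ^ (2 * l) * z) ↔ Sing W z := by
  induction l with
  | zero => simp
  | succ l ih =>
    rw [show exp (I * ε) ^ (2 * (l + 1)) * z = exp (I * ε) ^ 2 * (exp (I * ε) ^ (2 * l) * z) by ring,
      q0_sing_rot h0 ht₁ ht₂ hP₁ hP₂, ih]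

lemma q0_rot_one (h0 : lam ≠ 0) (ht₁ : 0 < t₁) (ht₂ : 0 < t₂) (hP₁ : Good lam W (half t₁ ε))
    (hP₂ : Good lam W (half t₂ 0)) {z : ℂ} (hz : Sing W z) :
    ∃ κ : ℝ, Reg (fun ζ => W ζ - (κ : ℂ) * W (exp (I * ε) ^ 2 * ζ)) z := by
  obtain ⟨κ₁, h1⟩ := q0_sigma h0 hP₂ hz
  have hz2 : Sing W ((half t₂ 0).inv z) := (Good.sing_inv h0 hP₂ z hz.1).2 hz
  obtain ⟨κ₂, h2⟩ := q0_sigma h0 hP₁ hz2
  have h3 := Reg.reflect hP₂.orth hP₂.disc hz.1 h2
  refine ⟨κ₁ * κ₂, ?_⟩
  refine (h1.add (h3.const_mul (κ₁ : ℂ))).congr fun ζ hζ => ?_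
  have e1 : (half t₁ ε).inv ((half t₂ 0).inv ζ) = exp (I * ε) ^ 2 * ζ := by
    rw [q0_half_inv ht₁, q0_half_inv ht₂]; simp
  rw [e1, map_sub, map_mul, conj_ofReal, conj_conj]
  push_cast
  ring

lemma q0_rot_pow (h0 : lam ≠ 0) (ht₁ : 0 < t₁) (ht₂ : 0 < t₂) (hP₁ : Good lam W (half t₁ ε))
    (hP₂ : Good lam W (half t₂ 0)) (l : ℕ) {z : ℂ} (hz : Sing W z) :
    ∃ κ : ℝ, Reg (fun ζ => W ζ - (κ : ℂ) * W (exp (I * ε) ^ (2 * l) * ζ)) z := by
  induction l with
  | zero =>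
    refine ⟨1, ?_⟩
    refine (reg_of_analyticAt (f := fun _ => (0 : ℂ)) analyticAt_const).congr fun ζ _ => ?_
    simp
  | succ l ih =>
    obtain ⟨κ, hκ⟩ := ih
    obtain ⟨κ', hκ'⟩ := q0_rot_one h0 ht₁ ht₂ hP₁ hP₂
      ((q0_sing_rot_pow h0 ht₁ ht₂ hP₁ hP₂ l (z := z)).2 hz)
    have h1 := q0_reg_rot (by rw [norm_pow, q0_E_norm, one_pow]) hκ'
    refine ⟨κ * κ', ?_⟩
    refine (hκ.add (h1.const_mul (κ : ℂ))).congr fun ζ hζ => ?_
    rw [show exp (I * ε) ^ (2 * (l + 1)) * ζ = exp (I * ε) ^ 2 * (exp (I * ε) ^ (2 * l) * ζ) by ring]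
    push_cast
    ring

end main

/-- the arithmetic of the two reflections -/
lemma q0_arith {lam : ℝ} {W : ℂ → ℂ} {ε t₁ t₂ : ℝ} (h0 : lam ≠ 0) (h1 : |lam| < 1) (hε : 0 < ε)
    (ht₁ : 0 < t₁) (ht₂ : 0 < t₂) (hP₁ : Good lam W (half t₁ ε)) (hP₂ : Good lam W (half t₂ 0))
    (hS : ∃ s, Sing W s) : ∃ l : ℕ, exp (I * ε) ^ (2 * l) = exp (I * ε) ∨
      exp (I * ε) ^ (2 * l) = -1 := by
  obtain ⟨s₀, hs₀⟩ := hS
  let X : Set ℝ := {x | Sing W (exp (I * x))}
  have hXclosed : IsClosed X := by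
    have : Continuous (fun x : ℝ => exp (I * (x : ℂ))) := by fun_prop
    exact (isClosed_sing W).preimage this
  let G := AddSubgroup.closure ({2 * ε, 2 * Real.pi} : Set ℝ)
  have hinv : ∀ g ∈ G, ∀ x, x + g ∈ X ↔ x ∈ X := by
    intro g hg
    induction hg using AddSubgroup.closure_induction with
    | mem y hy =>
      intro x
      simp only [X, mem_ofPred_eq]
      rcases hy with rfl | hy
      · have e : exp (I * ((x + 2 * ε : ℝ) : ℂ)) = exp (I * ε) ^ 2 * exp (I * x) := by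
          rw [pow_two, q0_E_add, q0_E_add]; congr 2; push_cast; ring
        rw [e, q0_sing_rot h0 ht₁ ht₂ hP₁ hP₂]
      · rw [mem_singleton_iff] at hy
        subst hy
        have e : exp (I * ((x + 2 * Real.pi : ℝ) : ℂ)) = exp (I * x) := by
          have : I * ((x + 2 * Real.pi : ℝ) : ℂ) = I * x + 2 * Real.pi * I := by push_cast; ring
          rw [this, exp_periodic]
        rw [e]
    | zero => intro x; rw [add_zero]
    | add a b _ _ iha ihb => intro x; rw [← add_assoc, ihb, iha]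
    | neg a _ iha =>
      intro x
      have := iha (x + -a)
      rw [neg_add_cancel_right] at this
      exact this.symm
  -- a point of X
  obtain ⟨x₀, hx₀⟩ : ∃ x₀ : ℝ, x₀ ∈ X := by
    refine ⟨arg s₀, ?_⟩
    have : exp (I * (arg s₀ : ℂ)) = s₀ := by
      have h2 := norm_mul_exp_arg_mul_I s₀
      rw [hs₀.1, ofReal_one, one_mul] at h2
      rw [mul_comm]; exact h2
    show Sing W _
    rw [this]
    exact hs₀
  rcases AddSubgroup.dense_or_cyclic G with hdense | ⟨g, hg⟩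
  · -- dense case
    exfalso
    have h0X : (0 : ℝ) ∈ X := by
      have h2 : Dense ((fun y => x₀ + y) '' (G : Set ℝ)) :=
        (Homeomorph.addLeft x₀).surjective.denseRange.dense_image (Homeomorph.addLeft x₀).continuous hdense
      have h3 : (fun y => x₀ + y) '' (G : Set ℝ) ⊆ X := by
        rintro _ ⟨y, hy, rfl⟩
        exact (hinv y hy x₀).2 hx₀
      exact (hXclosed.closure_subset_iff.2 h3) (h2 0)
    have h4 : Sing W (exp (I * ((0 : ℝ) : ℂ))) := h0X
    refine h4.2 (hP₂.bdry _ h4.1 ?_)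
    rw [q0_half_q_E]; simp
  · -- cyclic case
    have hg1 : (2 * Real.pi) ∈ G := AddSubgroup.subset_closure (by simp)
    have hg2 : (2 * ε) ∈ G := AddSubgroup.subset_closure (by simp)
    have hg3 : g ∈ G := by rw [hg]; exact AddSubgroup.mem_closure_singleton.2 ⟨1, by simp⟩
    rw [hg] at hg1 hg2
    obtain ⟨n, hn⟩ := AddSubgroup.mem_closure_singleton.1 hg1
    obtain ⟨m, hm⟩ := AddSubgroup.mem_closure_singleton.1 hg2
    obtain ⟨a, b, hab⟩ := AddSubgroup.mem_closure_pair.1 hg3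
    rw [zsmul_eq_mul] at hn hm
    simp only [zsmul_eq_mul] at hab
    have hpi := Real.pi_pos
    have hg0 : g ≠ 0 := by
      rintro rfl
      rw [mul_zero] at hn
      linarith
    have hbez : a * m + b * n = 1 := by
      have : ((a * m + b * n : ℤ) : ℝ) * g = 1 * g := by
        push_cast
        rw [← hm, ← hn] at hab
        linarith
      have := mul_right_cancel₀ hg0 this
      exact_mod_cast this
    have hn0 : n ≠ 0 := by
      rintro rfl
      simp at hn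
    -- N = |n|, M = ± m with ε N = π M
    obtain ⟨N, M, hN0, hNM, hNpar, hMpar⟩ : ∃ (N : ℕ) (M : ℤ), 0 < N ∧ ε * N = Real.pi * M ∧
        (Odd N ↔ Odd n) ∧ (Odd M ↔ Odd m) := by
      have hrel : ε * n = Real.pi * m := by
        have : (ε * n - Real.pi * m) * 2 = 0 := by
          calc (ε * n - Real.pi * m) * 2 = (2 * ε) * n - (2 * Real.pi) * m := by ring
            _ = (m * g) * n - (n * g) * m := by rw [hm, hn]
            _ = 0 := by ring
        linarith
      rcases lt_or_gt_of_ne hn0 with hneg | hpos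
      · refine ⟨n.natAbs, -m, Int.natAbs_pos.2 hn0, ?_, Int.natAbs_odd, by rw [odd_neg]⟩
        have h5 : ((n.natAbs : ℕ) : ℝ) = -(n : ℝ) := by
          rw [← Int.cast_natCast, Int.ofNat_natAbs_of_nonpos hneg.le]; push_cast; ring
        rw [h5]; push_cast; linarith
      · refine ⟨n.natAbs, m, Int.natAbs_pos.2 hn0, ?_, Int.natAbs_odd, Iff.rfl⟩
        have h5 : ((n.natAbs : ℕ) : ℝ) = (n : ℝ) := by
          rw [← Int.cast_natCast, Int.natAbs_of_nonneg hpos.le]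
        rw [h5]; exact hrel
    have hvN : exp (I * ε) ^ N = exp (I * Real.pi * M) := by
      rw [← exp_nat_mul]
      congr 1
      have : (ε : ℂ) * N = Real.pi * M := by exact_mod_cast congrArg (fun x : ℝ => (x : ℂ)) hNM
      calc (N : ℂ) * (I * ε) = I * ((ε : ℂ) * N) := by ring
        _ = I * (Real.pi * M) := by rw [this]
        _ = I * Real.pi * M := by ring
    have hexpM : exp (I * Real.pi * M) = (-1) ^ M := by
      rw [← exp_pi_mul_I, ← exp_int_mul]; congr 1; ring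
    rw [hexpM] at hvN
    rcases Int.even_or_odd m with hme | hmo
    · -- m even, n odd
      have hno : Odd n := by
        rw [← Int.not_even_iff_odd]
        intro hne
        have : Even (a * m + b * n) := (hme.mul_left a).add (hne.mul_left b)
        rw [hbez] at this
        exact absurd this (by decide)
      have hMe : Even M := by
        rw [← Int.not_odd_iff_even, hMpar, Int.not_odd_iff_even]; exact hme
      rw [hMe.neg_one_zpow] at hvN
      obtain ⟨k, hk⟩ := hNpar.2 hno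
      refine ⟨k + 1, Or.inl ?_⟩
      have : 2 * (k + 1) = N + 1 := by omega
      rw [this, pow_succ, hvN, one_mul]
    · have hMo : Odd M := hMpar.2 hmo
      rw [hMo.neg_one_zpow] at hvN
      rcases Int.even_or_odd n with hne | hno
      · have hNe : Even N := by
          rw [← Nat.not_odd_iff_even, hNpar, Int.not_odd_iff_even]; exact hne
        obtain ⟨k, hk⟩ := hNe
        exact ⟨k, Or.inr (by rw [show 2 * k = N by omega]; exact hvN)⟩
      · exfalso
        exact odd_odd h0 h1 ht₁ ht₂ hP₁ hP₂ N (hNpar.2 hno) hvN s₀ hs₀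

theorem propQ0 {lam : ℝ} (h0 : lam ≠ 0) (h1 : |lam| < 1) {W : ℂ → ℂ}
    (hW : DifferentiableOn ℂ W (ball 0 1)) (A B : Set GD) (hA : ∀ P ∈ A, Good lam W P)
    (hB : ∀ P ∈ B, Good lam W P)
    (dA : ∀ P ∈ A, ∀ Q ∈ A, P ≠ Q → ∀ z : ℂ, ‖z‖ = 1 → P.q z ≤ 0 → 0 < Q.q z)
    (dB : ∀ P ∈ B, ∀ Q ∈ B, P ≠ Q → ∀ z : ℂ, ‖z‖ = 1 → P.q z ≤ 0 → 0 < Q.q z)
    (ε t₁ t₂ : ℝ) (hε : 0 < ε) (hε' : ε < Real.pi) (ht₁ : 0 < t₁) (ht₂ : 0 < t₂)
    (h1A : half t₁ ε ∈ A) (h2B : half t₂ 0 ∈ B)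
    (cov2 : ∀ s, Sing W s → (half t₂ 0).q s < 0 → ∃ P ∈ A, P.q s < 0)
    (cov1 : ∀ s, Sing W s → (half t₁ ε).q s < 0 → ∃ P ∈ B, P.q s < 0)
    (hS : ∃ s, Sing W s) : ∃ P ∈ A, P.q 1 < 0 := by
  by_contra hcon
  push Not at hcon
  have hP₁ := hA _ h1A
  have hP₂ := hB _ h2B
  -- maximal real part
  have hcomp : IsCompact {p | Sing W p} := by
    refine (isCompact_sphere (0 : ℂ) 1).of_isClosed_subset (isClosed_sing W) ?_
    intro p hp
    rw [mem_sphere, dist_zero_right]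
    exact hp.1
  obtain ⟨p₀, hp₀, hmax₀⟩ := hcomp.exists_isMaxOn hS continuous_re.continuousOn
  have hmax₁ : ∀ z, Sing W z → z.re ≤ p₀.re := fun z hz => hmax₀ hz
  obtain ⟨p, hp, hmax, him⟩ : ∃ p, Sing W p ∧ (∀ z, Sing W z → z.re ≤ p.re) ∧ 0 < p.im := by
    have hne : p₀.im ≠ 0 := by
      intro h
      refine hp₀.2 (hP₂.bdry _ hp₀.1 ?_)
      rw [q0_half_q]
      simp [h]
    rcases lt_or_gt_of_ne hne with hlt | hgt
    · exact ⟨conj p₀, q0_sing_conj h0 ht₂ hP₂ hp₀, fun z hz => by simpa using hmax₁ z hz,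
        by simpa using hlt⟩
    · exact ⟨p₀, hp₀, hmax₁, hgt⟩
  -- the angle
  have hpn : p.re ^ 2 + p.im ^ 2 = 1 := by
    have := congrArg (fun x => x ^ 2) hp.1
    simp only [← normSq_eq_norm_sq, normSq_apply] at this
    nlinarith
  obtain ⟨θ, hθ0, hθpi, hpE⟩ : ∃ θ : ℝ, 0 < θ ∧ θ < Real.pi ∧ p = exp (I * θ) := by
    have hre1 : -1 ≤ p.re := by nlinarith
    have hre2 : p.re ≤ 1 := by nlinarith
    refine ⟨Real.arccos p.re, ?_, ?_, ?_⟩
    · rw [Real.arccos_pos]; nlinarith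
    · rcases lt_or_eq_of_le (Real.arccos_le_pi p.re) with h | h
      · exact h
      · exfalso
        rw [Real.arccos_eq_pi] at h
        nlinarith
    · apply Complex.ext
      · rw [q0_E_re, Real.cos_arccos hre1 hre2]
      · rw [q0_E_im, Real.sin_arccos]
        rw [show 1 - p.re ^ 2 = p.im ^ 2 by linarith, Real.sqrt_sq him.le]
  have hc : p.re = Real.cos θ := by rw [hpE, q0_E_re]
  have hpc : conj p = exp (I * ((-θ : ℝ) : ℂ)) := by rw [hpE, q0_E_conj]
  have hsinθ : 0 < Real.sin θ := Real.sin_pos_of_pos_of_lt_pi hθ0 hθpi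
  -- θ < ε
  have hθε : θ < ε := by
    by_contra hc1
    have hc2 := not_lt.1 hc1
    rcases eq_or_lt_of_le hc2 with heq | hlt
    · refine hp.2 (hP₁.bdry _ hp.1 ?_)
      rw [hpE, q0_half_q_E, heq]; simp
    · have h2 : Sing W (exp (I * ε) ^ 2 * conj p) :=
        (q0_sing_rot h0 ht₁ ht₂ hP₁ hP₂).2 (q0_sing_conj h0 ht₂ hP₂ hp)
      have h3 : exp (I * ε) ^ 2 * conj p = exp (I * ((2 * ε - θ : ℝ) : ℂ)) := by
        rw [hpc, pow_two, q0_E_add, q0_E_add]; congr 2; push_cast; ring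
      have h4 := hmax _ h2
      rw [h3, q0_E_re, hc, ← Real.cos_abs (2 * ε - θ)] at h4
      have h5 : |2 * ε - θ| < θ := by rw [abs_lt]; constructor <;> linarith
      have h6 := Real.cos_lt_cos_of_nonneg_of_le_pi (abs_nonneg _) hθpi.le h5
      linarith
  -- basic data
  have hpne : p ≠ conj p := by
    intro h
    have := congrArg Complex.im h
    rw [conj_im] at this
    linarith
  have hcp : Sing W (conj p) := q0_sing_conj h0 ht₂ hP₂ hp
  have hκσ : ∃ κ : ℝ, Reg (fun ζ => W ζ - (κ : ℂ) * conj (W (conj ζ))) (conj p) := by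
    obtain ⟨κ, hκ⟩ := q0_sigma h0 hP₂ hcp
    refine ⟨κ, hκ.congr fun ζ _ => ?_⟩
    rw [q0_half_inv ht₂]; simp
  obtain ⟨κσ, hκσ⟩ := hκσ
  -- the key ray limit
  have hRL : RL W (conj p) p := by
    obtain ⟨l, hl⟩ := q0_arith h0 h1 hε ht₁ ht₂ hP₁ hP₂ hS
    rcases hl with hl | hl
    · -- u = v
      set v := exp (I * ε) with hv
      have hinvv : ∀ z, Sing W (v * z) ↔ Sing W z := fun z => by
        have := q0_sing_rot_pow h0 ht₁ ht₂ hP₁ hP₂ l (z := z)
        rwa [← hv, hl] at this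
      have hvn : ‖v‖ = 1 := q0_E_norm ε
      have hvv : v * conj v = 1 := by
        rw [mul_conj, normSq_eq_norm_sq, hvn]; simp
      have hs : Sing W (v * conj p) := (hinvv _).2 hcp
      have hs' : Sing W (v * p) := (hinvv _).2 hp
      have hsE : v * conj p = exp (I * ((ε - θ : ℝ) : ℂ)) := by
        rw [hpc, hv, q0_E_add]; congr 2
      have hsE' : v * p = exp (I * ((ε + θ : ℝ) : ℂ)) := by
        rw [hpE, hv, q0_E_add]
      have hne : v * conj p ≠ v * p := by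
        intro h
        have hv0 : v ≠ 0 := exp_ne_zero _
        exact hpne (mul_left_cancel₀ hv0 h).symm
      have hgap : ∀ z, Sing W z → (z * conj v).re ≤ p.re := by
        intro z hz
        refine hmax _ ?_
        rw [← hinvv]
        have : v * (z * conj v) = z := by rw [mul_comm z, ← mul_assoc, hvv, one_mul]
        rw [this]; exact hz
      have hsc : (v * conj p * conj v).re = p.re := by
        have : v * conj p * conj v = conj p := by
          rw [mul_comm v, mul_assoc, hvv, mul_one]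
        rw [this, conj_re]
      have hsc' : (v * p * conj v).re = p.re := by
        have : v * p * conj v = p := by
          rw [mul_comm v, mul_assoc, hvv, mul_one]
        rw [this]
      obtain ⟨P₅, hP₅A, hP₅⟩ := cov2 _ hs (by
        rw [hsE, q0_half_q_E]
        have := Real.sin_pos_of_pos_of_lt_pi (x := ε - θ - 0) (by linarith) (by linarith)
        nlinarith)
      have hP₁s : 0 < (half t₁ ε).q (v * conj p) := by
        rw [hsE, q0_half_q_E, show ε - θ - ε = -θ by ring, Real.sin_neg]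
        nlinarith
      have hP₁v : (half t₁ ε).q v = 0 := by
        rw [hv, q0_half_q_E]; simp
      have hne5 : half t₁ ε ≠ P₅ := by
        intro h
        rw [← h] at hP₅
        linarith
      have hP₅v : 0 < P₅.q v := dA _ h1A _ hP₅A hne5 v hvn hP₁v.le
      have hi := swap_of_gap h0 (hA _ hP₅A) v hvn p.re _ _ hs hs' hsc hsc' hne hgap
        (by nlinarith)
      have hi' := swap_of_gap h0 hP₁ v hvn p.re _ _ hs hs' hsc hsc' hne hgap
        (by rw [hP₁v, mul_zero])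
      have hP₁s' : (half t₁ ε).q (v * p) < 0 := by
        rw [hsE', q0_half_q_E, show ε + θ - ε = θ by ring]
        nlinarith
      have hR := ray_limit_of_good h0 h1 hW (hA _ hP₅A) hP₁ hs.1 hs'.1 hne hi hi' hP₅ hP₁s'
        (fun z hz hq => dA _ hP₅A _ h1A hne5.symm z hz hq)
      obtain ⟨κ, hκ⟩ := q0_rot_pow h0 ht₁ ht₂ hP₁ hP₂ l hcp
      rw [← hv, hl] at hκ
      exact q0_transport hvn hcp.1 hp.1 hpne.symm hκ hR
    · -- u = -1
      have hinvv : ∀ z, Sing W (-z) ↔ Sing W z := fun z => by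
        have := q0_sing_rot_pow h0 ht₁ ht₂ hP₁ hP₂ l (z := z)
        rwa [hl, neg_one_mul] at this
      have hs : Sing W (-p) := (hinvv _).2 hp
      have hs' : Sing W (-conj p) := (hinvv _).2 hcp
      have hsE : -p = exp (I * ((θ + Real.pi : ℝ) : ℂ)) := by
        rw [← q0_E_add, q0_E_pi, ← hpE]; ring
      have hsE' : -conj p = exp (I * ((-θ + Real.pi : ℝ) : ℂ)) := by
        rw [← q0_E_add, q0_E_pi, ← hpc]; ring
      have hne : -p ≠ -conj p := fun h => hpne (neg_injective h)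
      have hgap : ∀ z, Sing W z → (z * conj (-1 : ℂ)).re ≤ p.re := by
        intro z hz
        have : z * conj (-1 : ℂ) = -z := by simp
        rw [this]
        exact hmax _ ((hinvv _).2 hz)
      have hsc : (-p * conj (-1 : ℂ)).re = p.re := by simp
      have hsc' : (-conj p * conj (-1 : ℂ)).re = p.re := by simp
      obtain ⟨P₄, hP₄B, hP₄⟩ := cov1 _ hs (by
        rw [hsE, q0_half_q_E, show θ + Real.pi - ε = -(ε - θ) + Real.pi by ring,
          Real.sin_add_pi, Real.sin_neg]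
        have := Real.sin_pos_of_pos_of_lt_pi (x := ε - θ) (by linarith) (by linarith)
        nlinarith)
      have hP₂s : 0 < (half t₂ 0).q (-p) := by
        rw [hsE, q0_half_q_E, sub_zero, Real.sin_add_pi]
        nlinarith
      have hP₂v : (half t₂ 0).q (-1) = 0 := by
        rw [← q0_E_pi, q0_half_q_E]; simp
      have hne4 : half t₂ 0 ≠ P₄ := by
        intro h
        rw [← h] at hP₄
        linarith
      have hP₄v : 0 < P₄.q (-1) := dB _ h2B _ hP₄B hne4 (-1) (by simp) hP₂v.le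
      have hi := swap_of_gap h0 (hB _ hP₄B) (-1) (by simp) p.re _ _ hs hs' hsc hsc' hne hgap
        (by nlinarith)
      have hi' := swap_of_gap h0 hP₂ (-1) (by simp) p.re _ _ hs hs' hsc hsc' hne hgap
        (by rw [hP₂v, mul_zero])
      have hP₂s' : (half t₂ 0).q (-conj p) < 0 := by
        rw [hsE', q0_half_q_E, sub_zero, Real.sin_add_pi, Real.sin_neg]
        nlinarith
      have hR := ray_limit_of_good h0 h1 hW (hB _ hP₄B) hP₂ hs.1 hs'.1 hne hi hi' hP₄ hP₂s'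
        (fun z hz hq => dB _ hP₄B _ h2B hne4.symm z hz hq)
      obtain ⟨κ, hκ⟩ := q0_rot_pow h0 ht₁ ht₂ hP₁ hP₂ l hp
      rw [hl] at hκ
      have hR2 : RL W p (conj p) := by
        refine q0_transport (u := -1) (by simp) hp.1 hcp.1 hpne hκ ?_
        rw [neg_one_mul, neg_one_mul]
        exact hR
      refine q0_transport_conj hcp.1 hp.1 hpne.symm hκσ ?_
      rw [conj_conj]
      exact hR2
  -- the final step
  have hP₂p : (half t₂ 0).q p < 0 := by
    rw [hpE, q0_half_q_E, sub_zero]; nlinarith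
  obtain ⟨P₃, hP₃A, hP₃⟩ := cov2 _ hp hP₂p
  have hsinεθ : 0 < Real.sin (ε - θ) := Real.sin_pos_of_pos_of_lt_pi (by linarith) (by linarith)
  have hP₁p : 0 < (half t₁ ε).q p := by
    rw [hpE, q0_half_q_E, show θ - ε = -(ε - θ) by ring, Real.sin_neg]; nlinarith
  have hne3 : half t₁ ε ≠ P₃ := by
    intro h
    rw [← h] at hP₃
    linarith
  have hP₁m : (half t₁ ε).q (-1) < 0 := by
    rw [← q0_E_pi, q0_half_q_E, Real.sin_pi_sub]
    have := Real.sin_pos_of_pos_of_lt_pi hε hε'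
    nlinarith
  have hP₃m : 0 < P₃.q (-1) := dA _ h1A _ hP₃A hne3 (-1) (by simp) hP₁m.le
  have hP₃one := hcon _ hP₃A
  have hi3 : P₃.inv p = conj p := by
    refine swap_of_gap h0 (hA _ hP₃A) 1 (by simp) p.re _ _ hp hcp (by simp) (by simp) hpne
      (fun z hz => by simpa using hmax z hz) (by nlinarith)
  have hi2 : (half t₂ 0).inv p = conj p := by
    rw [q0_half_inv ht₂]; simp
  have hP₃o := (hA _ hP₃A).orth
  have hP₃d := (hA _ hP₃A).disc
  have hi3' : P₃.inv (conj p) = p := by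
    rw [← hi3]; exact inv_inv hP₃o hP₃d hp.1.le
  have hi2' : (half t₂ 0).inv (conj p) = p := by
    rw [q0_half_inv ht₂]; simp
  have hP₂c : 0 < (half t₂ 0).q (conj p) := by
    rw [hpc, q0_half_q_E, sub_zero, Real.sin_neg]; nlinarith
  have hP₃c : 0 < P₃.q (conj p) := by
    have h2 := inv_q hP₃o hP₃d hp.1.le
    rw [hi3] at h2
    have h3 : 0 < ‖(P₃.a : ℂ) * conj p + conj P₃.b‖ ^ 2 := by
      have := norm_pos_iff.2 (inv_den_ne hP₃o hP₃d hp.1.le)
      positivity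
    have h4 : 0 < -P₃.disc * P₃.q p := by nlinarith
    by_contra hc5
    have := mul_nonneg (neg_nonneg.2 (not_lt.1 hc5)) h3.le
    linarith
  have hReg := reg_of_ray_limit h0 h1 hW hP₂ (hA _ hP₃A) hcp.1 hp.1 hpne.symm hi2' hi3' hP₂c hP₃c
    ⟨-1, by simp, by rw [← q0_E_pi, q0_half_q_E]; simp, hP₃m.ne'⟩ hRL
  exact hcp.2 hReg

end Pool.Agent.H385
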