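import Pool.Agent.H385.Defs
import Pool.Agent.H385.Q0
import Pool.Agent.H385.Reg

open Complex Metric Set Filter Topology ComplexConjugate

namespace Pool.Agent.H385

/-- composition with a map of the disk -/
theorem qt_reg_comp {f M : ℂ → ℂ} {p : ℂ} (hM : AnalyticAt ℂ M p)
    (hball : ∀ z, ‖z‖ < 1 → ‖M z‖ < 1) (hf : Reg f (M p)) : Reg (fun z => f (M z)) p := by
  obtain ⟨ρ, hρ, h, hd, he⟩ := hf
  obtain ⟨ρ₁, hρ₁, h1⟩ := Metric.eventually_nhds_iff_ball.1 hM.eventually_analyticAt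
  have hc : ∀ᶠ z in 𝓝 p, M z ∈ ball (M p) ρ :=
    hM.continuousAt.eventually_mem (ball_mem_nhds _ hρ)
  obtain ⟨ρ₂, hρ₂, h2⟩ := Metric.eventually_nhds_iff_ball.1 hc
  refine ⟨min ρ₁ ρ₂, lt_min hρ₁ hρ₂, fun z => h (M z), ?_, ?_⟩
  · intro z hz
    have hz1 := h1 z (ball_subset_ball (min_le_left _ _) hz)
    have hz2 := h2 z (ball_subset_ball (min_le_right _ _) hz)
    exact ((hd.differentiableAt (isOpen_ball.mem_nhds hz2)).comp z
      hz1.differentiableAt).differentiableWithinAt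
  · intro z hz hz1
    exact he _ (h2 z (ball_subset_ball (min_le_right _ _) hz))
      (by simpa using hball z (by simpa using hz1))

/-- automorphism of the disk -/
noncomputable def qN (u o w : ℂ) : ℂ := (u * w + o) / (1 + conj o * u * w)

theorem qt_D_ne {u o w : ℂ} (hu : ‖u‖ = 1) (ho : ‖o‖ < 1) (hw : ‖w‖ ≤ 1) :
    1 + conj o * u * w ≠ 0 := by
  intro h
  have h1 : conj o * u * w = -1 := by linear_combination h
  have h2 := congrArg norm h1
  rw [norm_mul, norm_mul, RCLike.norm_conj, hu, norm_neg, norm_one, mul_one] at h2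
  have : ‖o‖ * ‖w‖ ≤ ‖o‖ * 1 := mul_le_mul_of_nonneg_left hw (norm_nonneg _)
  linarith

theorem qt_norm_id {u o w : ℂ} (hu : ‖u‖ = 1) (ho : ‖o‖ < 1) (hw : ‖w‖ ≤ 1) :
    (1 - ‖qN u o w‖ ^ 2) * ‖1 + conj o * u * w‖ ^ 2 = (1 - ‖o‖ ^ 2) * (1 - ‖w‖ ^ 2) := by
  have hD : ‖1 + conj o * u * w‖ ≠ 0 := norm_ne_zero_iff.2 (qt_D_ne hu ho hw)
  have h1 : ‖qN u o w‖ ^ 2 * ‖1 + conj o * u * w‖ ^ 2 = ‖u * w + o‖ ^ 2 := by
    unfold qN
    rw [norm_div, div_pow, div_mul_cancel₀ _ (pow_ne_zero 2 hD)]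
  have h2 : u.re * u.re + u.im * u.im = 1 := by
    have : ‖u‖ ^ 2 = 1 := by rw [hu]; norm_num
    rw [← Complex.normSq_eq_norm_sq, Complex.normSq_apply] at this
    exact this
  rw [sub_mul, h1, one_mul]
  simp only [← Complex.normSq_eq_norm_sq]
  simp only [Complex.normSq_apply, Complex.add_re, Complex.add_im, Complex.mul_re, Complex.mul_im,
    Complex.conj_re, Complex.conj_im, Complex.one_re, Complex.one_im]
  linear_combination (o.re * o.re * (w.re * w.re + w.im * w.im) + o.im * o.im * (w.re * w.re + w.im * w.im) - w.re * w.re - w.im * w.im) * h2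

theorem qt_norm_lt {u o w : ℂ} (hu : ‖u‖ = 1) (ho : ‖o‖ < 1) (hw : ‖w‖ < 1) :
    ‖qN u o w‖ < 1 := by
  have h1 := qt_norm_id hu ho hw.le
  have hD : 0 < ‖1 + conj o * u * w‖ := norm_pos_iff.2 (qt_D_ne hu ho hw.le)
  have ho2 : 0 < 1 - ‖o‖ ^ 2 := by nlinarith [norm_nonneg o]
  have hw2 : 0 < 1 - ‖w‖ ^ 2 := by nlinarith [norm_nonneg w]
  have h2 : 0 < (1 - ‖qN u o w‖ ^ 2) * ‖1 + conj o * u * w‖ ^ 2 := by
    rw [h1]; positivity
  have h3 : 0 < 1 - ‖qN u o w‖ ^ 2 := by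
    by_contra hc
    push Not at hc
    have : (1 - ‖qN u o w‖ ^ 2) * ‖1 + conj o * u * w‖ ^ 2 ≤ 0 :=
      mul_nonpos_of_nonpos_of_nonneg hc (by positivity)
    linarith
  nlinarith [norm_nonneg (qN u o w)]

theorem qt_norm_eq {u o w : ℂ} (hu : ‖u‖ = 1) (ho : ‖o‖ < 1) (hw : ‖w‖ = 1) :
    ‖qN u o w‖ = 1 := by
  have h1 := qt_norm_id hu ho hw.le
  have hD : 0 < ‖1 + conj o * u * w‖ := norm_pos_iff.2 (qt_D_ne hu ho hw.le)
  rw [hw] at h1
  have h2 : (1 - ‖qN u o w‖ ^ 2) * ‖1 + conj o * u * w‖ ^ 2 = 0 := by rw [h1]; ring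
  rcases mul_eq_zero.1 h2 with h3 | h3
  · have : ‖qN u o w‖ ^ 2 = 1 := by linarith
    exact (pow_eq_one_iff_of_nonneg (norm_nonneg _) (by norm_num)).1 this
  · exact absurd h3 (by positivity)

theorem qt_analyticAt {u o w : ℂ} (hu : ‖u‖ = 1) (ho : ‖o‖ < 1) (hw : ‖w‖ ≤ 1) :
    AnalyticAt ℂ (qN u o) w := by
  unfold qN
  have h := qt_D_ne hu ho hw
  have h1 : AnalyticAt ℂ (fun w : ℂ => u * w + o) w := by fun_prop
  have h2 : AnalyticAt ℂ (fun w : ℂ => 1 + conj o * u * w) w := by fun_prop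
  exact h1.div h2 h

theorem qt_inv_o {u o : ℂ} (hu : ‖u‖ = 1) (ho : ‖o‖ < 1) : ‖-(conj u * o)‖ < 1 := by
  rw [norm_neg, norm_mul, RCLike.norm_conj, hu, one_mul]; exact ho

theorem qt_N_M {u o z : ℂ} (hu : ‖u‖ = 1) (ho : ‖o‖ < 1) (hz : ‖z‖ ≤ 1) :
    qN u o (qN (conj u) (-(conj u * o)) z) = z := by
  have huc : u * conj u = 1 := by
    rw [Complex.mul_conj, Complex.normSq_eq_norm_sq, hu]; norm_num
  have h1 := qt_D_ne (u := conj u) (o := -(conj u * o)) (w := z)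
    (by rw [RCLike.norm_conj]; exact hu) (qt_inv_o hu ho) hz
  have h1' : 1 - conj o * z ≠ 0 := by
    intro h0
    apply h1
    simp only [map_neg, map_mul, Complex.conj_conj]
    linear_combination h0 - (conj o * z) * huc
  have e1 : qN (conj u) (-(conj u * o)) z = conj u * (z - o) / (1 - conj o * z) := by
    unfold qN
    simp only [map_neg, map_mul, Complex.conj_conj]
    have e2 : 1 + -(u * conj o) * conj u * z = 1 - conj o * z := by
      linear_combination (-(conj o * z)) * huc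
    rw [e2]
    congr 1
    ring
  rw [e1]
  unfold qN
  have h2 : 1 + conj o * u * (conj u * (z - o) / (1 - conj o * z)) =
      (1 - conj o * o) / (1 - conj o * z) := by
    rw [eq_div_iff h1', add_mul, mul_div_assoc', div_mul_cancel₀ _ h1']
    linear_combination (conj o * (z - o)) * huc
  have h3 : u * (conj u * (z - o) / (1 - conj o * z)) + o =
      (1 - conj o * o) * z / (1 - conj o * z) := by
    rw [eq_div_iff h1', add_mul, mul_div_assoc', div_mul_cancel₀ _ h1']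
    linear_combination (z - o) * huc
  have ho2 : (1 - conj o * o) ≠ 0 := by
    intro h0
    have : ((1 - ‖o‖ ^ 2 : ℝ) : ℂ) = 0 := by
      rw [← Complex.normSq_eq_norm_sq]
      push_cast
      rw [Complex.normSq_eq_conj_mul_self]
      exact h0
    have h4 : (1 - ‖o‖ ^ 2 : ℝ) = 0 := by exact_mod_cast this
    nlinarith [norm_nonneg o]
  rw [h2, h3]
  field_simp

theorem qt_M_N {u o w : ℂ} (hu : ‖u‖ = 1) (ho : ‖o‖ < 1) (hw : ‖w‖ ≤ 1) :
    qN (conj u) (-(conj u * o)) (qN u o w) = w := by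
  have h := qt_N_M (u := conj u) (o := -(conj u * o)) (z := w)
    (by rw [RCLike.norm_conj]; exact hu) (qt_inv_o hu ho) hw
  have huc : u * conj u = 1 := by
    rw [Complex.mul_conj, Complex.normSq_eq_norm_sq, hu]; norm_num
  have e : -(conj (conj u) * -(conj u * o)) = o := by
    rw [Complex.conj_conj]
    linear_combination o * huc
  rw [e, Complex.conj_conj] at h
  exact h

theorem qt_reg_N {f : ℂ → ℂ} {u o w : ℂ} (hu : ‖u‖ = 1) (ho : ‖o‖ < 1) (hw : ‖w‖ = 1) :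
    Reg (fun z => f (qN u o z)) w ↔ Reg f (qN u o w) := by
  constructor
  · intro h
    have h1 : Reg (fun z => f (qN u o z)) (qN (conj u) (-(conj u * o)) (qN u o w)) := by
      rw [qt_M_N hu ho hw.le]; exact h
    have h2 := qt_reg_comp (qt_analyticAt (by rw [RCLike.norm_conj]; exact hu) (qt_inv_o hu ho)
      (qt_norm_eq hu ho hw).le) (fun z hz => qt_norm_lt (by rw [RCLike.norm_conj]; exact hu)
      (qt_inv_o hu ho) hz) h1
    refine h2.congr ?_
    intro z hz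
    rw [qt_N_M hu ho hz.le]
  · intro h
    exact qt_reg_comp (qt_analyticAt hu ho hw.le) (fun z hz => qt_norm_lt hu ho hz) h

/-- transported form -/
noncomputable def qT (u o : ℂ) (P : GD) : GD :=
  ⟨P.a * (1 + ‖o‖ ^ 2) + 2 * (conj P.b * o).re,
    conj u * (2 * (P.a : ℂ) * o + P.b + conj P.b * o ^ 2),
    P.a * (1 + ‖o‖ ^ 2) + 2 * (conj P.b * o).re⟩

theorem qt_qc (P : GD) (z : ℂ) : ((P.q z : ℝ) : ℂ) =
    (P.a : ℂ) * (z * conj z) + (conj P.b * z + P.b * conj z) + (P.c : ℂ) := by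
  have h1 : ((2 * (conj P.b * z).re : ℝ) : ℂ) = conj P.b * z + P.b * conj z := by
    have := Complex.add_conj (conj P.b * z)
    rw [← this, map_mul, Complex.conj_conj]
  unfold GD.q
  rw [Complex.ofReal_add, Complex.ofReal_add, h1, Complex.ofReal_mul, ← Complex.normSq_eq_norm_sq,
    Complex.mul_conj]

theorem qt_a (u o : ℂ) (P : GD) : ((qT u o P).a : ℂ) =
    (P.a : ℂ) * (1 + o * conj o) + (conj P.b * o + P.b * conj o) := by
  have h1 : ((2 * (conj P.b * o).re : ℝ) : ℂ) = conj P.b * o + P.b * conj o := by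
    have := Complex.add_conj (conj P.b * o)
    rw [← this, map_mul, Complex.conj_conj]
  unfold qT
  simp only
  rw [Complex.ofReal_add, h1, Complex.ofReal_mul, Complex.ofReal_add, Complex.ofReal_one,
    ← Complex.normSq_eq_norm_sq, Complex.mul_conj]

theorem qt_b (u o : ℂ) (P : GD) : conj (qT u o P).b =
    u * (2 * (P.a : ℂ) * conj o + conj P.b + P.b * conj o ^ 2) := by
  unfold qT
  simp only [map_add, map_mul, Complex.conj_conj, Complex.conj_ofReal, map_pow,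
    Complex.conj_ofNat]

theorem qt_uc {u : ℂ} (hu : ‖u‖ = 1) : u * conj u = 1 := by
  rw [Complex.mul_conj, Complex.normSq_eq_norm_sq, hu]; norm_num

theorem qt_q {u o w : ℂ} (P : GD) (hP : P.a = P.c) (hu : ‖u‖ = 1) (ho : ‖o‖ < 1)
    (hw : ‖w‖ ≤ 1) :
    (qT u o P).q w = ‖1 + conj o * u * w‖ ^ 2 * P.q (qN u o w) := by
  have hDne := qt_D_ne hu ho hw
  have hDc : conj (1 + conj o * u * w) ≠ 0 := by
    intro h0
    apply hDne
    have := congrArg conj h0
    rwa [Complex.conj_conj, map_zero] at this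
  have huc := qt_uc hu
  have key : (((qT u o P).q w : ℝ) : ℂ) =
      ((‖1 + conj o * u * w‖ ^ 2 * P.q (qN u o w) : ℝ) : ℂ) := by
    rw [qt_qc, Complex.ofReal_mul, qt_qc, ← Complex.normSq_eq_norm_sq, ← Complex.mul_conj]
    have e1 : ((qT u o P).c : ℂ) = ((qT u o P).a : ℂ) := rfl
    have e2 : (qT u o P).b = conj (conj (qT u o P).b) := by rw [Complex.conj_conj]
    rw [e1, e2, Complex.conj_conj, qt_a, qt_b]
    have e3 : conj (qN u o w) = (conj u * conj w + conj o) / conj (1 + conj o * u * w) := by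
      unfold qN
      simp
    rw [e3]
    have e4 : (1 + conj o * u * w) * conj (1 + conj o * u * w) *
        ((P.a : ℂ) * (qN u o w * ((conj u * conj w + conj o) / conj (1 + conj o * u * w))) +
        (conj P.b * qN u o w + P.b * ((conj u * conj w + conj o) / conj (1 + conj o * u * w))) +
        (P.c : ℂ)) = (P.a : ℂ) * ((u * w + o) * (conj u * conj w + conj o)) +
        (conj P.b * (u * w + o) * conj (1 + conj o * u * w) +
          P.b * (conj u * conj w + conj o) * (1 + conj o * u * w)) +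
        (P.c : ℂ) * ((1 + conj o * u * w) * conj (1 + conj o * u * w)) := by
      unfold qN
      generalize conj (1 + conj o * u * w) = D' at *
      generalize (1 + conj o * u * w) = D at *
      field_simp
    rw [e4, ← hP]
    simp only [map_add, map_mul, map_one, Complex.conj_conj, Complex.conj_ofReal, map_pow,
      Complex.conj_ofNat]
    linear_combination (-(w * conj w) * ((P.a : ℂ) * (1 + o * conj o) +
      (conj P.b * o + P.b * conj o))) * huc
  exact_mod_cast key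

theorem qt_disc {u o : ℂ} (P : GD) (hP : P.a = P.c) (hu : ‖u‖ = 1) :
    (qT u o P).disc = (1 - ‖o‖ ^ 2) ^ 2 * P.disc := by
  have huc := qt_uc hu
  have key : (((qT u o P).disc : ℝ) : ℂ) = (((1 - ‖o‖ ^ 2) ^ 2 * P.disc : ℝ) : ℂ) := by
    unfold GD.disc
    simp only [← Complex.normSq_eq_norm_sq]
    push_cast
    rw [← Complex.mul_conj, ← Complex.mul_conj, ← Complex.mul_conj]
    have e1 : ((qT u o P).c : ℂ) = ((qT u o P).a : ℂ) := rfl
    rw [e1, qt_a, qt_b, ← hP]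
    have e3 : (qT u o P).b = conj u * (2 * (P.a : ℂ) * o + P.b + conj P.b * o ^ 2) := rfl
    rw [e3]
    linear_combination ((2 * (P.a : ℂ) * conj o + conj P.b + P.b * conj o ^ 2) *
      (2 * (P.a : ℂ) * o + P.b + conj P.b * o ^ 2)) * huc
  exact_mod_cast key

theorem qt_disc_pos {u o : ℂ} {P : GD} (hP : P.a = P.c) (hd : 0 < P.disc) (hu : ‖u‖ = 1)
    (ho : ‖o‖ < 1) : 0 < (qT u o P).disc := by
  rw [qt_disc P hP hu]
  have : 0 < 1 - ‖o‖ ^ 2 := by nlinarith [norm_nonneg o]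
  positivity

theorem qt_inv {u o w : ℂ} {P : GD} (hP : P.a = P.c) (hd : 0 < P.disc) (hu : ‖u‖ = 1)
    (ho : ‖o‖ < 1) (hw : ‖w‖ ≤ 1) :
    qN u o ((qT u o P).inv w) = P.inv (qN u o w) := by
  have huc := qt_uc hu
  have hN : ‖qN u o w‖ ≤ 1 := by
    rcases hw.lt_or_eq with h | h
    · exact (qt_norm_lt hu ho h).le
    · exact (qt_norm_eq hu ho h).le
  have hd1 := inv_den_ne hP hd hN
  have hd2 := inv_den_ne (P := qT u o P) rfl (qt_disc_pos hP hd hu ho) hw
  have hd4 := qt_D_ne hu ho hw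
  have hDc : conj (1 + conj o * u * w) ≠ 0 := by
    intro h0
    apply hd4
    have := congrArg conj h0
    rwa [Complex.conj_conj, map_zero] at this
  have e0 : conj (1 + conj o * u * w) = 1 + o * conj u * conj w := by
    simp only [map_add, map_mul, Complex.conj_conj, map_one]
  have e3 : conj (qN u o w) = (conj u * conj w + conj o) / (1 + o * conj u * conj w) := by
    unfold qN
    rw [map_div₀, e0]
    simp only [map_add, map_mul]
  rw [e0] at hDc
  have e2 : (qT u o P).b = conj u * (2 * (P.a : ℂ) * o + P.b + conj P.b * o ^ 2) := rfl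
  have e1 : ((qT u o P).c : ℂ) = ((qT u o P).a : ℂ) := rfl
  set X : ℂ := (qT u o P).b * conj w + ((qT u o P).c : ℂ) with hX
  set Y : ℂ := ((qT u o P).a : ℂ) * conj w + conj (qT u o P).b with hY
  have A1 : o * Y - u * X = u * (1 - conj o * o) *
      (-(P.b * (conj u * conj w + conj o) + (P.a : ℂ) * (1 + o * conj u * conj w))) := by
    rw [hX, hY, e1, qt_a, qt_b, e2]
    linear_combination (-(2 * (P.a : ℂ) * o + P.b + conj P.b * o ^ 2) * conj w +
      (1 - conj o * o) * (P.b + (P.a : ℂ) * o) * conj w) * huc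
  have A2 : Y - conj o * u * X = u * (1 - conj o * o) *
      ((P.a : ℂ) * (conj u * conj w + conj o) + conj P.b * (1 + o * conj u * conj w)) := by
    rw [hX, hY, e1, qt_a, qt_b, e2]
    linear_combination (-(2 * (P.a : ℂ) * o + P.b + conj P.b * o ^ 2) * conj w * conj o -
      (1 - conj o * o) * ((P.a : ℂ) + conj P.b * o) * conj w) * huc
  have hu0 : u ≠ 0 := by
    intro h; rw [h, norm_zero] at hu; norm_num at hu
  have ho2 : (1 - conj o * o) ≠ 0 := by
    intro h0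
    have : ((1 - ‖o‖ ^ 2 : ℝ) : ℂ) = 0 := by
      rw [← Complex.normSq_eq_norm_sq]
      push_cast
      rw [Complex.normSq_eq_conj_mul_self]
      exact h0
    have h4 : (1 - ‖o‖ ^ 2 : ℝ) = 0 := by exact_mod_cast this
    nlinarith [norm_nonneg o]
  have L : qN u o ((qT u o P).inv w) = (o * Y - u * X) / (Y - conj o * u * X) := by
    unfold qN GD.inv
    rw [← hX, ← hY]
    have l1 : u * (-X / Y) + o = (o * Y - u * X) / Y := by
      field_simp
      ring
    have l2 : 1 + conj o * u * (-X / Y) = (Y - conj o * u * X) / Y := by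
      field_simp
      ring
    rw [l1, l2, div_div_div_cancel_right₀ hd2]
  have R : P.inv (qN u o w) =
      (-(P.b * (conj u * conj w + conj o) + (P.a : ℂ) * (1 + o * conj u * conj w))) /
      ((P.a : ℂ) * (conj u * conj w + conj o) + conj P.b * (1 + o * conj u * conj w)) := by
    unfold GD.inv
    rw [e3, ← hP]
    have l1 : -(P.b * ((conj u * conj w + conj o) / (1 + o * conj u * conj w)) + (P.a : ℂ)) =
        (-(P.b * (conj u * conj w + conj o) + (P.a : ℂ) * (1 + o * conj u * conj w))) /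
        (1 + o * conj u * conj w) := by
      rw [eq_div_iff hDc, neg_mul, add_mul, mul_assoc, div_mul_cancel₀ _ hDc]
    have l2 : (P.a : ℂ) * ((conj u * conj w + conj o) / (1 + o * conj u * conj w)) + conj P.b =
        ((P.a : ℂ) * (conj u * conj w + conj o) + conj P.b * (1 + o * conj u * conj w)) /
        (1 + o * conj u * conj w) := by
      rw [eq_div_iff hDc, add_mul, mul_assoc, div_mul_cancel₀ _ hDc]
    rw [l1, l2, div_div_div_cancel_right₀ hDc]
  rw [L, R, A1, A2, mul_div_mul_left _ _ (mul_ne_zero hu0 ho2)]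

theorem qt_good {lam : ℝ} {W : ℂ → ℂ} {u o : ℂ} (hu : ‖u‖ = 1) (ho : ‖o‖ < 1) {P : GD}
    (h : Good lam W P) : Good lam (fun z => W (qN u o z)) (qT u o P) := by
  have hP := h.orth
  have hd := h.disc
  refine ⟨rfl, qt_disc_pos hP hd hu ho, ?_, ?_⟩
  · intro p hp hq
    rw [qt_q P hP hu ho hp.le] at hq
    have hq' : P.q (qN u o p) < 0 := by
      by_contra hc
      push Not at hc
      have : 0 ≤ ‖1 + conj o * u * p‖ ^ 2 * P.q (qN u o p) := by positivity
      linarith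
    have h1 := h.inside (qN u o p) (qt_norm_eq hu ho hp) hq'
    have h2 := (qt_reg_N (f := fun z => W z - (lam : ℂ) * conj (W (P.inv z))) hu ho hp).2 h1
    refine h2.congr ?_
    intro z hz
    rw [qt_inv hP hd hu ho hz.le]
  · intro p hp hq
    rw [qt_q P hP hu ho hp.le] at hq
    have hD : ‖1 + conj o * u * p‖ ≠ 0 := norm_ne_zero_iff.2 (qt_D_ne hu ho hp.le)
    have hq' : P.q (qN u o p) = 0 := by
      rcases mul_eq_zero.1 hq with h3 | h3
      · exact absurd h3 (pow_ne_zero 2 hD)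
      · exact h3
    exact (qt_reg_N hu ho hp).2 (h.bdry _ (qt_norm_eq hu ho hp) hq')

theorem qt_sing {W : ℂ → ℂ} {u o w : ℂ} (hu : ‖u‖ = 1) (ho : ‖o‖ < 1) :
    Sing (fun z => W (qN u o z)) w ↔ ‖w‖ = 1 ∧ Sing W (qN u o w) := by
  unfold Sing
  constructor
  · rintro ⟨h1, h2⟩
    exact ⟨h1, qt_norm_eq hu ho h1, fun h3 => h2 ((qt_reg_N hu ho h1).2 h3)⟩
  · rintro ⟨h1, _, h2⟩
    exact ⟨h1, fun h3 => h2 ((qt_reg_N hu ho h1).1 h3)⟩

/-- conj -/
theorem qt_inv_half (z : ℂ) : (half 1 0).inv z = conj z := by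
  have := q0_half_inv (s := 1) one_pos 0 z
  rw [this]
  simp

/-- mirrored form -/
noncomputable def qC (P : GD) : GD := ⟨P.a, conj P.b, P.c⟩

theorem qC_q (P : GD) (w : ℂ) : (qC P).q w = P.q (conj w) := by
  unfold GD.q qC
  simp only [Complex.conj_conj, RCLike.norm_conj]
  have : (P.b * w).re = (conj P.b * conj w).re := by
    rw [← map_mul, Complex.conj_re]
  rw [this]

theorem qC_disc (P : GD) : (qC P).disc = P.disc := by
  unfold GD.disc qC
  simp only [RCLike.norm_conj]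

theorem qC_inv (P : GD) (w : ℂ) : conj ((qC P).inv w) = P.inv (conj w) := by
  unfold GD.inv qC
  simp only [map_div₀, map_neg, map_add, map_mul, Complex.conj_conj, Complex.conj_ofReal]

theorem qC_reg' {f : ℂ → ℂ} {p : ℂ} (hp : ‖p‖ = 1) (h : Reg f (conj p)) :
    Reg (fun z => conj (f (conj z))) p := by
  have hd : 0 < (half 1 0).disc := by
    unfold half GD.disc
    simp
  have h1 := Reg.reflect (f := f) (P := half 1 0) (by simp [half]) hd hp
    (by rw [qt_inv_half]; exact h)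
  refine h1.congr ?_
  intro z _
  rw [qt_inv_half]

theorem qC_reg {f : ℂ → ℂ} {p : ℂ} (hp : ‖p‖ = 1) :
    Reg (fun z => conj (f (conj z))) p ↔ Reg f (conj p) := by
  constructor
  · intro h
    have hp' : ‖conj p‖ = 1 := by rw [RCLike.norm_conj]; exact hp
    have h1 := qC_reg' (f := fun z => conj (f (conj z))) (p := conj p) hp'
      (by rw [Complex.conj_conj]; exact h)
    refine h1.congr ?_
    intro z _
    simp only [Complex.conj_conj]
  · exact qC_reg' hp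

theorem qC_good {lam : ℝ} {W : ℂ → ℂ} {P : GD} (h : Good lam W P) :
    Good lam (fun z => conj (W (conj z))) (qC P) := by
  refine ⟨h.orth, by rw [qC_disc]; exact h.disc, ?_, ?_⟩
  · intro p hp hq
    rw [qC_q] at hq
    have h1 := h.inside (conj p) (by rw [RCLike.norm_conj]; exact hp) hq
    have h2 := (qC_reg (f := fun z => W z - (lam : ℂ) * conj (W (P.inv z))) hp).2 h1
    refine h2.congr ?_
    intro z _
    simp only [map_sub, map_mul, Complex.conj_ofReal, Complex.conj_conj]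
    rw [qC_inv]
  · intro p hp hq
    rw [qC_q] at hq
    exact (qC_reg hp).2 (h.bdry _ (by rw [RCLike.norm_conj]; exact hp) hq)

theorem qC_sing {W : ℂ → ℂ} {w : ℂ} :
    Sing (fun z => conj (W (conj z))) w ↔ Sing W (conj w) := by
  unfold Sing
  rw [RCLike.norm_conj]
  constructor
  · rintro ⟨h1, h2⟩
    exact ⟨h1, fun h3 => h2 ((qC_reg h1).2 h3)⟩
  · rintro ⟨h1, h2⟩
    exact ⟨h1, fun h3 => h2 ((qC_reg h1).1 h3)⟩

/-- normalised case -/
theorem qt_case1 {lam : ℝ} (h0 : lam ≠ 0) (h1 : |lam| < 1) {W : ℂ → ℂ}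
    (hW : DifferentiableOn ℂ W (ball 0 1)) (A B : Set GD) (hA : ∀ P ∈ A, Good lam W P)
    (hB : ∀ P ∈ B, Good lam W P)
    (dA : ∀ P ∈ A, ∀ Q ∈ A, P ≠ Q → ∀ z : ℂ, ‖z‖ = 1 → P.q z ≤ 0 → 0 < Q.q z)
    (dB : ∀ P ∈ B, ∀ Q ∈ B, P ≠ Q → ∀ z : ℂ, ‖z‖ = 1 → P.q z ≤ 0 → 0 < Q.q z)
    (Pa Pb : GD) (ha : Pa ∈ A) (hb : Pb ∈ B)
    (covB : ∀ s, Sing W s → Pb.q s < 0 → ∃ P ∈ A, P.q s < 0)
    (covA : ∀ s, Sing W s → Pa.q s < 0 → ∃ P ∈ B, P.q s < 0)
    (hS : ∃ s, Sing W s) (ha0 : Pa.a = 0) (hb0 : Pb.a = 0) (hbr : Pb.b.re = 0)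
    (hbi : Pb.b.im < 0) (ha₂ : 0 < Pa.q 1) : ∃ P ∈ A, P.q 1 < 0 := by
  have ga := hA Pa ha
  have gb := hB Pb hb
  have hac : Pa.c = 0 := by rw [← ga.orth, ha0]
  have hbc : Pb.c = 0 := by rw [← gb.orth, hb0]
  have hare : 0 < Pa.b.re := by
    unfold GD.q at ha₂
    rw [ha0, hac] at ha₂
    simp only [mul_one, Complex.conj_re] at ha₂
    linarith
  have hPb : half (-Pb.b.im) 0 = Pb := by
    have e : -I * ((-Pb.b.im : ℝ) : ℂ) * exp (I * ((0 : ℝ) : ℂ)) = Pb.b := by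
      rw [q0_E_zero]
      apply Complex.ext
      · simp [hbr]
      · simp
    unfold half
    rw [e]
    cases Pb
    simp only at hb0 hbc
    rw [hb0, hbc]
  have hIne : I * Pa.b ≠ 0 := by
    intro h
    have h2 : Pa.b = 0 := by
      rcases mul_eq_zero.1 h with h3 | h3
      · exact absurd h3 Complex.I_ne_zero
      · exact h3
    rw [h2] at hare
    simp at hare
  have him : (I * Pa.b).im = Pa.b.re := by simp
  have hε0 : 0 < arg (I * Pa.b) := by
    have h2 : 0 ≤ arg (I * Pa.b) := Complex.arg_nonneg_iff.2 (by rw [him]; exact hare.le)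
    rcases h2.lt_or_eq with h3 | h3
    · exact h3
    · exfalso
      have h4 := (Complex.arg_eq_zero_iff.1 h3.symm).2
      rw [him] at h4
      linarith
  have hε1 : arg (I * Pa.b) < Real.pi := by
    have h2 := Complex.arg_le_pi (I * Pa.b)
    rcases h2.lt_or_eq with h3 | h3
    · exact h3
    · exfalso
      have h4 := (Complex.arg_eq_pi_iff.1 h3).2
      rw [him] at h4
      linarith
  have hPa : half ‖I * Pa.b‖ (arg (I * Pa.b)) = Pa := by
    have e : -I * ((‖I * Pa.b‖ : ℝ) : ℂ) * exp (I * ((arg (I * Pa.b) : ℝ) : ℂ)) = Pa.b := by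
      have h2 := Complex.norm_mul_exp_arg_mul_I (I * Pa.b)
      rw [mul_comm I ((arg (I * Pa.b) : ℝ) : ℂ), mul_assoc, h2]
      rw [← mul_assoc, neg_mul, Complex.I_mul_I]
      ring
    unfold half
    rw [e]
    cases Pa
    simp only at ha0 hac
    rw [ha0, hac]
  refine propQ0 h0 h1 hW A B hA hB dA dB (arg (I * Pa.b)) ‖I * Pa.b‖ (-Pb.b.im) hε0 hε1
    (norm_pos_iff.2 hIne) (by linarith) (by rw [hPa]; exact ha) (by rw [hPb]; exact hb)
    ?_ ?_ hS
  · rw [hPb]; exact covB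
  · rw [hPa]; exact covA

theorem qt_transfer {lam : ℝ} {W W₁ : ℂ → ℂ} {N : ℂ → ℂ} {T : GD → GD}
    (hN : ∀ w, ‖w‖ = 1 → ‖N w‖ = 1)
    (hsurj : ∀ z, ‖z‖ = 1 → ∃ w, ‖w‖ = 1 ∧ N w = z)
    (hq : ∀ P : GD, P.a = P.c → ∀ w, ‖w‖ = 1 → ∃ c > 0, (T P).q w = c * P.q (N w))
    (hsing : ∀ w, ‖w‖ = 1 → (Sing W₁ w ↔ Sing W (N w)))
    (hgood : ∀ P, Good lam W P → Good lam W₁ (T P))
    (A B : Set GD) (hA : ∀ P ∈ A, Good lam W P)
    (hB : ∀ P ∈ B, Good lam W P)
    (dA : ∀ P ∈ A, ∀ Q ∈ A, P ≠ Q → ∀ z : ℂ, ‖z‖ = 1 → P.q z ≤ 0 → 0 < Q.q z)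
    (dB : ∀ P ∈ B, ∀ Q ∈ B, P ≠ Q → ∀ z : ℂ, ‖z‖ = 1 → P.q z ≤ 0 → 0 < Q.q z)
    (Pa Pb : GD) (ha : Pa ∈ A) (hb : Pb ∈ B)
    (covB : ∀ s, Sing W s → Pb.q s < 0 → ∃ P ∈ A, P.q s < 0)
    (covA : ∀ s, Sing W s → Pa.q s < 0 → ∃ P ∈ B, P.q s < 0)
    (hS : ∃ s, Sing W s) (e : ℂ) (he : ‖e‖ = 1)
    (main : (∀ P ∈ T '' A, Good lam W₁ P) → (∀ P ∈ T '' B, Good lam W₁ P) →
      (∀ P ∈ T '' A, ∀ Q ∈ T '' A, P ≠ Q → ∀ z : ℂ, ‖z‖ = 1 → P.q z ≤ 0 → 0 < Q.q z) →
      (∀ P ∈ T '' B, ∀ Q ∈ T '' B, P ≠ Q → ∀ z : ℂ, ‖z‖ = 1 → P.q z ≤ 0 → 0 < Q.q z) →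
      (T Pa ∈ T '' A) → (T Pb ∈ T '' B) →
      (∀ s, Sing W₁ s → (T Pb).q s < 0 → ∃ P ∈ T '' A, P.q s < 0) →
      (∀ s, Sing W₁ s → (T Pa).q s < 0 → ∃ P ∈ T '' B, P.q s < 0) →
      (∃ s, Sing W₁ s) → ∃ P ∈ T '' A, P.q e < 0) : ∃ P ∈ A, P.q (N e) < 0 := by
  have neg : ∀ P : GD, P.a = P.c → ∀ w, ‖w‖ = 1 → ((T P).q w < 0 ↔ P.q (N w) < 0) := by
    intro P hP w hw
    obtain ⟨c, hc, h⟩ := hq P hP w hw
    rw [h]
    constructor
    · intro h2
      by_contra h3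
      push Not at h3
      have := mul_nonneg hc.le h3
      linarith
    · intro h2
      exact mul_neg_of_pos_of_neg hc h2
  have pos : ∀ P : GD, P.a = P.c → ∀ w, ‖w‖ = 1 → (0 < (T P).q w ↔ 0 < P.q (N w)) := by
    intro P hP w hw
    obtain ⟨c, hc, h⟩ := hq P hP w hw
    rw [h]
    exact mul_pos_iff_of_pos_left hc
  have disj : ∀ A : Set GD, (∀ P ∈ A, Good lam W P) →
      (∀ P ∈ A, ∀ Q ∈ A, P ≠ Q → ∀ z : ℂ, ‖z‖ = 1 → P.q z ≤ 0 → 0 < Q.q z) →
      (∀ P ∈ T '' A, ∀ Q ∈ T '' A, P ≠ Q → ∀ z : ℂ, ‖z‖ = 1 → P.q z ≤ 0 → 0 < Q.q z) := by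
    rintro A hA dA _ ⟨P, hP, rfl⟩ _ ⟨Q, hQ, rfl⟩ hPQ z hz hz2
    have hne : P ≠ Q := fun h => hPQ (by rw [h])
    have h2 : P.q (N z) ≤ 0 := by
      by_contra h3
      push Not at h3
      have := (pos P (hA P hP).orth z hz).2 h3
      linarith
    exact (pos Q (hA Q hQ).orth z hz).2 (dA P hP Q hQ hne (N z) (hN z hz) h2)
  have cov : ∀ (A : Set GD) (Pb : GD), (∀ P ∈ A, Good lam W P) → Good lam W Pb →
      (∀ s, Sing W s → Pb.q s < 0 → ∃ P ∈ A, P.q s < 0) →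
      (∀ s, Sing W₁ s → (T Pb).q s < 0 → ∃ P ∈ T '' A, P.q s < 0) := by
    intro A Pb hA hPb h s hs hs2
    have hs1 := hs.1
    obtain ⟨P, hP, hP2⟩ := h (N s) ((hsing s hs1).1 hs) ((neg Pb hPb.orth s hs1).1 hs2)
    exact ⟨T P, ⟨P, hP, rfl⟩, (neg P (hA P hP).orth s hs1).2 hP2⟩
  obtain ⟨s, hs⟩ := hS
  obtain ⟨w, hw, hws⟩ := hsurj s hs.1
  obtain ⟨Q, ⟨P, hP, rfl⟩, hQ⟩ := main
    (by rintro _ ⟨P, hP, rfl⟩; exact hgood P (hA P hP))
    (by rintro _ ⟨P, hP, rfl⟩; exact hgood P (hB P hP))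
    (disj A hA dA) (disj B hB dB) ⟨Pa, ha, rfl⟩ ⟨Pb, hb, rfl⟩
    (cov A Pb hA (hB Pb hb) covB) (cov B Pa hB (hA Pa ha) covA)
    ⟨w, (hsing w hw).2 (by rw [hws]; exact hs)⟩
  exact ⟨P, hP, (neg P (hA P hP).orth e he).1 hQ⟩

theorem qt_cross {Pa Pb : GD} (hPa : Pa.a = Pa.c) (hPb : Pb.a = Pb.c) {e₁ e₂ : ℂ}
    (he₁ : ‖e₁‖ = 1) (he₂ : ‖e₂‖ = 1) (hb₁ : Pb.q e₁ = 0)
    (hb₂ : Pb.q e₂ = 0) (ha₁ : Pa.q e₁ < 0) (ha₂ : 0 < Pa.q e₂) :
    ∃ o : ℂ, ‖o‖ < 1 ∧ Pa.q o = 0 ∧ Pb.q o = 0 := by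
  have hne : e₁ ≠ e₂ := by
    intro h; rw [h] at ha₁; linarith
  -- linear functionals
  have lin : ∀ P : GD, P.a = P.c → ∀ e : ℂ, ‖e‖ = 1 → P.q e = 2 * (P.a + (conj P.b * e).re) := by
    intro P hP e he
    unfold GD.q
    rw [he, ← hP]
    ring
  rw [lin Pa hPa e₁ he₁] at ha₁
  rw [lin Pa hPa e₂ he₂] at ha₂
  rw [lin Pb hPb e₁ he₁] at hb₁
  rw [lin Pb hPb e₂ he₂] at hb₂
  set m₁ := Pa.a + (conj Pa.b * e₁).re with hm₁
  set m₂ := Pa.a + (conj Pa.b * e₂).re with hm₂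
  have hm1 : m₁ < 0 := by linarith
  have hm2 : 0 < m₂ := by linarith
  set s : ℝ := -m₁ / (m₂ - m₁) with hs
  have hden : 0 < m₂ - m₁ := by linarith
  have hs0 : 0 < s := div_pos (by linarith) hden
  have hs1 : s < 1 := by rw [hs, div_lt_one hden]; linarith
  set w : ℂ := ((1 - s : ℝ) : ℂ) * e₁ + (s : ℂ) * e₂ with hw
  have hwn : ‖w‖ < 1 := by
    have := (strictConvex_closedBall ℝ (0 : ℂ) 1)
      (show e₁ ∈ closedBall (0 : ℂ) 1 by simp [he₁]) (show e₂ ∈ closedBall (0 : ℂ) 1 by simp [he₂])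
      hne (show 0 < 1 - s by linarith) hs0 (by ring)
    rw [interior_closedBall _ one_ne_zero, mem_ball_zero_iff] at this
    rw [hw]
    simpa [Complex.real_smul] using this
  have hLa : Pa.a + (conj Pa.b * w).re = 0 := by
    have e : (conj Pa.b * w).re = (1 - s) * (conj Pa.b * e₁).re + s * (conj Pa.b * e₂).re := by
      rw [hw, mul_add, Complex.add_re, mul_left_comm, Complex.re_ofReal_mul, mul_left_comm,
        Complex.re_ofReal_mul]
    have e2 : s * (m₂ - m₁) = -m₁ := by rw [hs]; field_simp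
    rw [e]
    have e3 : (conj Pa.b * e₁).re = m₁ - Pa.a := by rw [hm₁]; ring
    have e4 : (conj Pa.b * e₂).re = m₂ - Pa.a := by rw [hm₂]; ring
    rw [e3, e4]
    linear_combination e2
  have hLb : Pb.a + (conj Pb.b * w).re = 0 := by
    have e : (conj Pb.b * w).re = (1 - s) * (conj Pb.b * e₁).re + s * (conj Pb.b * e₂).re := by
      rw [hw, mul_add, Complex.add_re, mul_left_comm, Complex.re_ofReal_mul, mul_left_comm,
        Complex.re_ofReal_mul]
    rw [e]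
    have e3 : (conj Pb.b * e₁).re = - Pb.a := by linarith
    have e4 : (conj Pb.b * e₂).re = - Pb.a := by linarith
    rw [e3, e4]
    ring
  -- o = y w with y = 1 / (1 + sqrt (1 - |w|^2))
  have h1w : 0 < 1 - ‖w‖ ^ 2 := by nlinarith [norm_nonneg w]
  set t := Real.sqrt (1 - ‖w‖ ^ 2) with ht
  have ht0 : 0 < t := Real.sqrt_pos.2 h1w
  have ht2 : t ^ 2 = 1 - ‖w‖ ^ 2 := Real.sq_sqrt h1w.le
  set y : ℝ := 1 / (1 + t) with hy
  have hy0 : 0 < y := by positivity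
  have hy1 : y < 1 := by rw [hy, div_lt_one (by linarith)]; linarith
  have hyy : y ^ 2 * ‖w‖ ^ 2 + 1 = 2 * y := by
    have e1 : ‖w‖ ^ 2 = (1 - t) * (1 + t) := by linarith
    rw [e1, hy]
    field_simp
    ring
  have hon : ‖(y : ℂ) * w‖ = y * ‖w‖ := by
    rw [norm_mul, Complex.norm_real, Real.norm_eq_abs, abs_of_pos hy0]
  have van : ∀ P : GD, P.a = P.c → P.a + (conj P.b * w).re = 0 → P.q ((y : ℂ) * w) = 0 := by
    intro P hP hL
    unfold GD.q
    rw [hon, ← hP, mul_left_comm, Complex.re_ofReal_mul]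
    have e1 : P.a * (y * ‖w‖) ^ 2 + 2 * (y * (conj P.b * w).re) + P.a =
        P.a * (y ^ 2 * ‖w‖ ^ 2 + 1) + 2 * y * (conj P.b * w).re := by ring
    rw [e1, hyy]
    linear_combination (2 * y) * hL
  refine ⟨(y : ℂ) * w, ?_, van Pa hPa hLa, van Pb hPb hLb⟩
  rw [hon]
  nlinarith [norm_nonneg w]

/-- invariant form -/
theorem propQ {lam : ℝ} (h0 : lam ≠ 0) (h1 : |lam| < 1) {W : ℂ → ℂ}
    (hW : DifferentiableOn ℂ W (ball 0 1)) (A B : Set GD) (hA : ∀ P ∈ A, Good lam W P)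
    (hB : ∀ P ∈ B, Good lam W P)
    (dA : ∀ P ∈ A, ∀ Q ∈ A, P ≠ Q → ∀ z : ℂ, ‖z‖ = 1 → P.q z ≤ 0 → 0 < Q.q z)
    (dB : ∀ P ∈ B, ∀ Q ∈ B, P ≠ Q → ∀ z : ℂ, ‖z‖ = 1 → P.q z ≤ 0 → 0 < Q.q z)
    (Pa Pb : GD) (ha : Pa ∈ A) (hb : Pb ∈ B)
    (covB : ∀ s, Sing W s → Pb.q s < 0 → ∃ P ∈ A, P.q s < 0)
    (covA : ∀ s, Sing W s → Pa.q s < 0 → ∃ P ∈ B, P.q s < 0)
    (hS : ∃ s, Sing W s) (e₁ e₂ : ℂ) (he₁ : ‖e₁‖ = 1) (he₂ : ‖e₂‖ = 1) (hb₁ : Pb.q e₁ = 0)
    (hb₂ : Pb.q e₂ = 0) (ha₁ : Pa.q e₁ < 0) (ha₂ : 0 < Pa.q e₂) : ∃ P ∈ A, P.q e₂ < 0 := by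
  have ga := hA Pa ha
  have gb := hB Pb hb
  obtain ⟨o, ho, hoa, hob⟩ := qt_cross ga.orth gb.orth he₁ he₂ hb₁ hb₂ ha₁ ha₂
  have hD : 1 - conj o * e₂ ≠ 0 := by
    have := qt_D_ne (u := -1) (o := o) (w := e₂) (by simp) ho he₂.le
    intro h
    apply this
    linear_combination h
  set u : ℂ := (e₂ - o) / (1 - conj o * e₂) with hu'
  have hu : ‖u‖ = 1 := by
    have h2 := qt_norm_eq (u := 1) (o := -o) (w := e₂) (by simp) (by rw [norm_neg]; exact ho) he₂
    have e : qN 1 (-o) e₂ = u := by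
      rw [hu']
      unfold qN
      simp only [map_neg]
      congr 1
      · ring
      · ring
    rw [e] at h2
    exact h2
  have huc := qt_uc hu
  have hN1 : qN u o 1 = e₂ := by
    have hoc : 1 + conj o * u * 1 ≠ 0 := qt_D_ne hu ho (by simp)
    have e1 : u * (1 - conj o * e₂) = e₂ - o := by rw [hu', div_mul_cancel₀ _ hD]
    unfold qN
    rw [div_eq_iff hoc]
    linear_combination e1
  set W₁ : ℂ → ℂ := fun z => W (qN u o z) with hW₁
  have hW1 : DifferentiableOn ℂ W₁ (ball 0 1) := by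
    intro z hz
    have hz1 : ‖z‖ < 1 := by simpa using hz
    have h3 := (hW.differentiableAt (isOpen_ball.mem_nhds
      (show qN u o z ∈ ball (0 : ℂ) 1 by simpa using qt_norm_lt hu ho hz1)))
    exact (h3.comp z (qt_analyticAt hu ho hz1.le).differentiableAt).differentiableWithinAt
  have hT0 : ∀ P : GD, P.a = P.c → P.q o = 0 → (qT u o P).a = 0 := by
    intro P hP h
    unfold GD.q at h
    unfold qT
    simp only
    rw [← hP] at h
    linarith
  rw [← hN1]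
  refine qt_transfer (lam := lam) (W := W) (W₁ := W₁) (N := qN u o) (T := qT u o)
    (fun w hw => qt_norm_eq hu ho hw)
    (fun z hz => ⟨qN (conj u) (-(conj u * o)) z, qt_norm_eq (by rw [RCLike.norm_conj]; exact hu)
      (qt_inv_o hu ho) hz, qt_N_M hu ho hz.le⟩)
    (fun P hP w hw => ⟨‖1 + conj o * u * w‖ ^ 2,
      by have := norm_pos_iff.2 (qt_D_ne hu ho hw.le); positivity, qt_q P hP hu ho hw.le⟩)
    (fun w hw => by
      rw [hW₁, qt_sing hu ho]
      exact ⟨fun h => h.2, fun h => ⟨hw, h⟩⟩)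
    (fun P hP => qt_good hu ho hP) A B hA hB dA dB Pa Pb ha hb covB covA hS 1 (by simp) ?_
  intro hA' hB' dA' dB' ha' hb' covB' covA' hS'
  have haa : (qT u o Pa).a = 0 := hT0 Pa ga.orth hoa
  have hba : (qT u o Pb).a = 0 := hT0 Pb gb.orth hob
  have hbc : (qT u o Pb).c = 0 := hba
  have hac : (qT u o Pa).c = 0 := haa
  have hqa : 0 < (qT u o Pa).q 1 := by
    rw [qt_q Pa ga.orth hu ho (by simp), hN1]
    have := norm_pos_iff.2 (qt_D_ne (w := 1) hu ho (by simp))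
    positivity
  have hqb : (qT u o Pb).q 1 = 0 := by
    rw [qt_q Pb gb.orth hu ho (by simp), hN1, hb₂, mul_zero]
  have hbre : (qT u o Pb).b.re = 0 := by
    unfold GD.q at hqb
    rw [hba, hbc] at hqb
    simp only [mul_one, Complex.conj_re] at hqb
    linarith
  have hbim : (qT u o Pb).b.im ≠ 0 := by
    intro h
    have h2 := (hB' _ hb').disc
    have h3 : (qT u o Pb).b = 0 := Complex.ext hbre h
    unfold GD.disc at h2
    rw [hba, h3] at h2
    simp at h2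
  rcases lt_or_gt_of_ne hbim with hneg | hpos
  · exact qt_case1 h0 h1 hW1 _ _ hA' hB' dA' dB' _ _ ha' hb' covB' covA' hS' haa hba hbre hneg hqa
  · -- mirror
    have hW2 : DifferentiableOn ℂ (fun z => conj (W₁ (conj z))) (ball 0 1) := by
      intro z hz
      have hz1 : ‖z‖ < 1 := by simpa using hz
      have h3 := hW1.differentiableAt (isOpen_ball.mem_nhds
        (show conj z ∈ ball (0 : ℂ) 1 by simpa using hz1))
      have h4 := h3.conj_conj
      rw [Complex.conj_conj] at h4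
      exact h4.differentiableWithinAt
    have key := qt_transfer (lam := lam) (W := W₁) (W₁ := fun z => conj (W₁ (conj z)))
      (N := fun z => conj z) (T := qC)
      (fun w hw => by rw [RCLike.norm_conj]; exact hw)
      (fun z hz => ⟨conj z, by rw [RCLike.norm_conj]; exact hz, Complex.conj_conj z⟩)
      (fun P hP w hw => ⟨1, one_pos, by rw [one_mul]; exact qC_q P w⟩)
      (fun w hw => qC_sing) (fun P hP => qC_good hP) _ _ hA' hB' dA' dB' _ _ ha' hb'
      covB' covA' hS' 1 (by simp)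
      (fun hA' hB' dA' dB' ha' hb' covB' covA' hS' =>
        qt_case1 h0 h1 hW2 _ _ hA' hB' dA' dB' _ _ ha' hb' covB' covA' hS' haa hba
          (by unfold qC; simpa using hbre) (by unfold qC; simpa using hpos)
          (by rw [qC_q, map_one]; exact hqa))
    simpa using key

end Pool.Agent.H385
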