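import Pool.Agent.H385.Defs
import Pool.Agent.H385.Conn
import Pool.Agent.H385.Kstep
import Pool.Agent.H385.Cover
import Pool.Agent.H385.QT
import Pool.Agent.H385.Reg

open Complex Metric Set Filter Topology ComplexConjugate MeasureTheory
open scoped ContDiff ENNReal

namespace Pool.Agent.H385

/-! ### auxiliary lemmas for the chain argument -/

theorem chain_q_eq {Q : GD} (h : Q.a = Q.c) {z : ℂ} (hz : ‖z‖ = 1) :
    Q.q z = 2 * (Q.a + (conj Q.b * z).re) := by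
  unfold GD.q
  rw [hz, ← h]
  ring

theorem chain_interlace {Q Q' : GD} (h : Q.a = Q.c) (h' : Q'.a = Q'.c) (hd : 0 < Q.disc)
    (hd' : 0 < Q'.disc) {f₁ f₂ : ℂ} (n1 : ‖f₁‖ = 1) (n2 : ‖f₂‖ = 1) (z1 : Q'.q f₁ = 0)
    (z2 : Q'.q f₂ = 0) (s1 : Q.q f₁ < 0) (s2 : 0 < Q.q f₂) :
    ∃ e₁ e₂ : ℂ, ‖e₁‖ = 1 ∧ ‖e₂‖ = 1 ∧ Q.q e₁ = 0 ∧ Q.q e₂ = 0 ∧ Q'.q e₁ < 0 ∧ 0 < Q'.q e₂ := by
  have hb : Q.b ≠ 0 := by
    intro hb
    unfold GD.disc at hd
    rw [hb, norm_zero, ← h] at hd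
    nlinarith [mul_self_nonneg Q.a]
  have hb' : Q'.b ≠ 0 := by
    intro hb
    unfold GD.disc at hd'
    rw [hb, norm_zero, ← h'] at hd'
    nlinarith [mul_self_nonneg Q'.a]
  rw [chain_q_eq h' n1] at z1
  rw [chain_q_eq h' n2] at z2
  rw [chain_q_eq h n1] at s1
  rw [chain_q_eq h n2] at s2
  set l₁ : ℝ := Q.a + (conj Q.b * f₁).re with hl₁
  set l₂ : ℝ := Q.a + (conj Q.b * f₂).re with hl₂
  have hl1 : l₁ < 0 := by linarith
  have hl2 : 0 < l₂ := by linarith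
  have hden : 0 < l₂ - l₁ := by linarith
  set s : ℝ := -l₁ / (l₂ - l₁) with hs
  have hs0 : 0 < s := div_pos (by linarith) hden
  have hs1 : s < 1 := by rw [hs, div_lt_one hden]; linarith
  have hsl : (1 - s) * l₁ + s * l₂ = 0 := by
    rw [hs]; field_simp; ring
  have hne : f₁ ≠ f₂ := by
    rintro rfl
    linarith
  set x : ℂ := (1 - s) • f₁ + s • f₂ with hx
  have hxn : ‖x‖ < 1 := by
    have := combo_mem_ball_of_ne (x := f₁) (y := f₂) (z := (0 : ℂ)) (r := 1) (a := 1 - s) (b := s)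
      (by simp [n1]) (by simp [n2]) hne (by linarith) hs0 (by ring)
    exact mem_ball_zero_iff.1 this
  have hLx : Q.a + (conj Q.b * x).re = 0 := by
    have : Q.a + (conj Q.b * x).re = (1 - s) * l₁ + s * l₂ := by
      rw [hl₁, hl₂, hx]
      simp
      ring
    rw [this, hsl]
  have hLx' : Q'.a + (conj Q'.b * x).re = 0 := by
    have : Q'.a + (conj Q'.b * x).re =
        (1 - s) * (Q'.a + (conj Q'.b * f₁).re) + s * (Q'.a + (conj Q'.b * f₂).re) := by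
      rw [hx]
      simp
      ring
    rw [this]
    have e1 : Q'.a + (conj Q'.b * f₁).re = 0 := by linarith
    have e2 : Q'.a + (conj Q'.b * f₂).re = 0 := by linarith
    rw [e1, e2]
    ring
  set d : ℂ := I * Q.b with hdd
  have hd0 : d ≠ 0 := mul_ne_zero I_ne_zero hb
  set m : ℝ := (conj Q'.b * d).re with hm
  have hm0 : m ≠ 0 := by
    intro hm0
    have e1 : Q'.b.re * (f₂.re - f₁.re) + Q'.b.im * (f₂.im - f₁.im) = 0 := by
      have := z1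
      have := z2
      simp at z1 z2
      linarith
    have e2 : -(Q'.b.re * Q.b.im) + Q'.b.im * Q.b.re = 0 := by
      have := hm0
      rw [hm, hdd] at this
      simp at this
      linarith
    have e3 : Q.b.re * (f₂.re - f₁.re) + Q.b.im * (f₂.im - f₁.im) ≠ 0 := by
      intro h3
      have : l₂ - l₁ = 0 := by
        rw [hl₁, hl₂]
        simp
        linarith
      linarith
    have e4 : Q'.b.re * (Q.b.re * (f₂.re - f₁.re) + Q.b.im * (f₂.im - f₁.im)) = 0 := by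
      linear_combination Q.b.re * e1 - (f₂.im - f₁.im) * e2
    have e5 : Q'.b.im * (Q.b.re * (f₂.re - f₁.re) + Q.b.im * (f₂.im - f₁.im)) = 0 := by
      linear_combination Q.b.im * e1 + (f₂.re - f₁.re) * e2
    have e6 := (mul_eq_zero.1 e4).resolve_right e3
    have e7 := (mul_eq_zero.1 e5).resolve_right e3
    exact hb' (Complex.ext e6 e7)
  have hLt : ∀ t : ℝ, Q.a + (conj Q.b * (x + t • d)).re = 0 := by
    intro t
    have : Q.a + (conj Q.b * (x + t • d)).re = (Q.a + (conj Q.b * x).re) := by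
      rw [hdd]
      simp
      ring
    rw [this, hLx]
  have hLt' : ∀ t : ℝ, Q'.a + (conj Q'.b * (x + t • d)).re = t * m := by
    intro t
    have : Q'.a + (conj Q'.b * (x + t • d)).re = (Q'.a + (conj Q'.b * x).re) + t * m := by
      rw [hm]
      simp
      ring
    rw [this, hLx', zero_add]
  have hg : Continuous fun t : ℝ => ‖x + t • d‖ := by fun_prop
  have hdn : 0 < ‖d‖ := norm_pos_iff.2 hd0
  set T : ℝ := 3 / ‖d‖ with hT
  have hT0 : 0 < T := by positivity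
  have hTn : ∀ t : ℝ, |t| = T → 1 < ‖x + t • d‖ := by
    intro t ht
    have h1 : ‖t • d‖ = 3 := by
      rw [norm_smul, Real.norm_eq_abs, ht, hT]
      field_simp
    have h2 : ‖t • d‖ ≤ ‖x + t • d‖ + ‖x‖ := by
      have h3 : t • d = (x + t • d) - x := by abel
      calc ‖t • d‖ = ‖(x + t • d) - x‖ := by rw [← h3]
        _ ≤ _ := norm_sub_le _ _
    linarith
  have hroots : (∃ t : ℝ, 0 < t ∧ ‖x + t • d‖ = 1) ∧ (∃ t : ℝ, t < 0 ∧ ‖x + t • d‖ = 1) := by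
    constructor
    · have h1 : (1 : ℝ) ∈ Icc ‖x + (0 : ℝ) • d‖ ‖x + T • d‖ := by
        refine ⟨by simpa using hxn.le, (hTn T (abs_of_pos hT0)).le⟩
      obtain ⟨t, ht, h2⟩ := intermediate_value_Icc hT0.le hg.continuousOn h1
      refine ⟨t, lt_of_le_of_ne ht.1 ?_, h2⟩
      rintro rfl
      simp at h2
      linarith
    · have h1 : (1 : ℝ) ∈ Icc ‖x + (0 : ℝ) • d‖ ‖x + (-T) • d‖ := by
        refine ⟨by simpa using hxn.le, (hTn (-T) (by rw [abs_neg, abs_of_pos hT0])).le⟩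
      obtain ⟨t, ht, h2⟩ := intermediate_value_Icc' (by linarith : -T ≤ 0) hg.continuousOn h1
      refine ⟨t, lt_of_le_of_ne ht.2 ?_, h2⟩
      rintro rfl
      simp at h2
      linarith
  obtain ⟨⟨t₂, ht₂, hn₂⟩, ⟨t₁, ht₁, hn₁⟩⟩ := hroots
  have q1 : Q.q (x + t₁ • d) = 0 := by rw [chain_q_eq h hn₁, hLt]; ring
  have q2 : Q.q (x + t₂ • d) = 0 := by rw [chain_q_eq h hn₂, hLt]; ring
  have q1' : Q'.q (x + t₁ • d) = 2 * (t₁ * m) := by rw [chain_q_eq h' hn₁, hLt']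
  have q2' : Q'.q (x + t₂ • d) = 2 * (t₂ * m) := by rw [chain_q_eq h' hn₂, hLt']
  rcases lt_or_gt_of_ne hm0 with hmn | hmp
  · refine ⟨x + t₂ • d, x + t₁ • d, hn₂, hn₁, q2, q1, ?_, ?_⟩
    · rw [q2']; nlinarith
    · rw [q1']; nlinarith
  · refine ⟨x + t₁ • d, x + t₂ • d, hn₁, hn₂, q1, q2, ?_, ?_⟩
    · rw [q1']; nlinarith
    · rw [q2']; nlinarith

/-- the ends of an orthogonal circle are two points -/
theorem chain_ends {Q : GD} (h : Q.a = Q.c) (hd : 0 < Q.disc) {z e₁ e₂ : ℂ} (nz : ‖z‖ = 1)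
    (n1 : ‖e₁‖ = 1) (n2 : ‖e₂‖ = 1) (qz : Q.q z = 0) (q1 : Q.q e₁ = 0) (q2 : Q.q e₂ = 0)
    (hne : e₁ ≠ e₂) : z = e₁ ∨ z = e₂ := by
  have hb : Q.b ≠ 0 := by
    intro hb
    unfold GD.disc at hd
    rw [hb, norm_zero, ← h] at hd
    nlinarith [mul_self_nonneg Q.a]
  have hb' : conj Q.b ≠ 0 := by
    intro h0
    exact hb ((map_eq_zero _).1 h0)
  have key : ∀ w : ℂ, ‖w‖ = 1 → Q.q w = 0 →
      (conj Q.b * w).re = -Q.a ∧ (conj Q.b * w).im ^ 2 = ‖Q.b‖ ^ 2 - Q.a ^ 2 := by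
    intro w nw qw
    rw [chain_q_eq h nw] at qw
    have h1 : (conj Q.b * w).re = -Q.a := by linarith
    refine ⟨h1, ?_⟩
    have h2 : (conj Q.b * w).re ^ 2 + (conj Q.b * w).im ^ 2 = ‖conj Q.b * w‖ ^ 2 := by
      rw [← Complex.normSq_eq_norm_sq, Complex.normSq_apply]
      ring
    rw [norm_mul, nw, mul_one, RCLike.norm_conj, h1] at h2
    linarith
  obtain ⟨a1, a2⟩ := key z nz qz
  obtain ⟨b1, b2⟩ := key e₁ n1 q1
  obtain ⟨c1, c2⟩ := key e₂ n2 q2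
  have fin : ∀ w w' : ℂ, (conj Q.b * w).re = (conj Q.b * w').re →
      (conj Q.b * w).im = (conj Q.b * w').im → w = w' := by
    intro w w' h1 h2
    exact mul_left_cancel₀ hb' (Complex.ext h1 h2)
  have h12 : (conj Q.b * e₁).im = -(conj Q.b * e₂).im := by
    have h3 : (conj Q.b * e₁).im ^ 2 = (conj Q.b * e₂).im ^ 2 := by rw [b2, c2]
    rcases sq_eq_sq_iff_eq_or_eq_neg.1 h3 with h4 | h4
    · exact absurd (fin _ _ (by rw [b1, c1]) h4) hne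
    · exact h4
  have h3 : (conj Q.b * z).im ^ 2 = (conj Q.b * e₁).im ^ 2 := by rw [a2, b2]
  rcases sq_eq_sq_iff_eq_or_eq_neg.1 h3 with h4 | h4
  · left
    exact fin _ _ (by rw [a1, b1]) h4
  · right
    refine fin _ _ (by rw [a1, c1]) ?_
    rw [h4, h12, neg_neg]

/-- a good half plane has singular points on both sides -/
theorem chain_signs {lam : ℝ} (h0 : lam ≠ 0) {W : ℂ → ℂ} {Q : GD} (hQ : Good lam W Q)
    (hS : ∃ s, Sing W s) : ∃ s, Sing W s ∧ Q.q s < 0 := by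
  obtain ⟨s, hs⟩ := hS
  rcases lt_trichotomy (Q.q s) 0 with h | h | h
  · exact ⟨s, hs, h⟩
  · exact absurd (hQ.bdry s hs.1 h) hs.2
  · refine ⟨Q.inv s, (Good.sing_inv h0 hQ s hs.1).2 hs, ?_⟩
    have h1 := inv_q hQ.orth hQ.disc hs.1.le
    by_contra hc
    push Not at hc
    have h2 : 0 ≤ Q.q (Q.inv s) * ‖(Q.a : ℂ) * conj s + conj Q.b‖ ^ 2 := by positivity
    rw [h1] at h2
    have h3 : 0 < Q.disc * Q.q s := mul_pos hQ.disc h
    linarith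

/-- the circles cross -/
def ChainX (Q Q' : GD) : Prop :=
  (∃ e₁ e₂ : ℂ, ‖e₁‖ = 1 ∧ ‖e₂‖ = 1 ∧ Q.q e₁ = 0 ∧ Q.q e₂ = 0 ∧ Q'.q e₁ < 0 ∧ 0 < Q'.q e₂) ∧
  (∃ f₁ f₂ : ℂ, ‖f₁‖ = 1 ∧ ‖f₂‖ = 1 ∧ Q'.q f₁ = 0 ∧ Q'.q f₂ = 0 ∧ Q.q f₁ < 0 ∧ 0 < Q.q f₂)

theorem ChainX.symm {Q Q' : GD} (h : ChainX Q Q') : ChainX Q' Q := ⟨h.2, h.1⟩

/-- the data of the chain argument -/
structure ChainD (lam : ℝ) {ι κ : Type} (O : Set ℂ) (P : ι → GD) (e : ℂ → ℂ) (F : ι → ℂ → ℂ)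
    (P' : κ → GD) (e' : ℂ → ℂ) (F' : κ → ℂ → ℂ) (W : ℂ → ℂ) : Prop where
  h0 : lam ≠ 0
  h1 : |lam| < 1
  hs : Sys lam O P e F
  hs' : Sys lam O P' e' F'
  hW : DifferentiableOn ℂ W (ball 0 1)
  hg : ∀ i, Matched W e (P i) → ∀ s, Sing W s → (P i).q s < 0 → (P i).a = (P i).c
  hg' : ∀ j, Matched W e' (P' j) → ∀ s, Sing W s → (P' j).q s < 0 → (P' j).a = (P' j).c
  hS : ∃ s, Sing W s

section

variable {lam : ℝ} {ι κ : Type} {O : Set ℂ} {P : ι → GD} {e : ℂ → ℂ} {F : ι → ℂ → ℂ}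
    {P' : κ → GD} {e' : ℂ → ℂ} {F' : κ → ℂ → ℂ} {W : ℂ → ℂ}

theorem ChainD.symm (D : ChainD lam O P e F P' e' F' W) : ChainD lam O P' e' F' P e F W :=
  ⟨D.h0, D.h1, D.hs', D.hs, D.hW, D.hg', D.hg, D.hS⟩

theorem ChainD.cov [Finite ι] (D : ChainD lam O P e F P' e' F' W) (j : κ) (i : ι)
    (hm : Matched W e (P i)) {w : ℂ} (hw : ‖w‖ = 1) (hQ : (P' j).q w < 0) (hP : (P i).q w = 0)
    (z : ℂ) (hz : ‖z‖ = 1) (hqz : (P' j).q z < 0) : TT W e P z := by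
  refine cover D.h0 D.h1 D.hs D.hW {z | ‖z‖ = 1 ∧ (P' j).q z < 0} (circle_inter_gd _)
    (fun z hz => hz.1) (fun z hz => D.hs'.sub j z hz.2.le) w ⟨hw, hQ⟩ ?_ z ⟨hz, hqz⟩
  refine Or.inr ⟨fun i' => ?_, K_bdEq D.h0 D.h1 D.hs D.hW i hm w hw.le hP⟩
  by_cases h : i = i'
  · subst h
    exact hP.ge
  · exact (D.hs.disj i i' h w hP.le).le

theorem ChainD.covS [Finite ι] (D : ChainD lam O P e F P' e' F' W) (j : κ) (i : ι)
    (hm : Matched W e (P i)) {w : ℂ} (hw : ‖w‖ = 1) (hQ : (P' j).q w < 0) (hP : (P i).q w = 0)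
    (s : ℂ) (hs : Sing W s) (hqs : (P' j).q s < 0) :
    ∃ i', Matched W e (P i') ∧ (P i').a = (P i').c ∧ (P i').q s < 0 := by
  rcases D.cov j i hm hw hQ hP s hs.1 hqs with ⟨i', h1, h2⟩ | ⟨h1, h2⟩
  · exact ⟨i', h2, D.hg i' h2 s hs h1, h1⟩
  · exact absurd (reg_of_bdEq hs.1 (D.hs.e_an s (D.hs'.sub j s hqs.le) h1) h2) hs.2

theorem ChainD.step [Finite ι] [Finite κ] (D : ChainD lam O P e F P' e' F' W) (i : ι) (j : κ)
    (mi : Matched W e (P i)) (gi : (P i).a = (P i).c) (mj : Matched W e' (P' j))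
    (gj : (P' j).a = (P' j).c) (hX : ChainX (P i) (P' j)) (f₂ : ℂ) (n2 : ‖f₂‖ = 1)
    (z2 : (P' j).q f₂ = 0) (s2 : 0 < (P i).q f₂) :
    ∃ i', Matched W e (P i') ∧ (P i').a = (P i').c ∧ ChainX (P i') (P' j) ∧ (P i').q f₂ < 0 := by
  obtain ⟨⟨e₁, e₂, ne1, ne2, ze1, ze2, se1, se2⟩, ⟨f₁, f₂', nf1, nf2, zf1, zf2, sf1, sf2⟩⟩ := hX
  obtain ⟨Q, ⟨i', mi', gi', rfl⟩, hQ⟩ := propQ D.h0 D.h1 D.hW
    {Q | ∃ i, Matched W e (P i) ∧ (P i).a = (P i).c ∧ P i = Q}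
    {Q | ∃ j, Matched W e' (P' j) ∧ (P' j).a = (P' j).c ∧ P' j = Q}
    (by
      rintro Q ⟨i, h1, h2, rfl⟩
      exact K_good D.h0 D.h1 D.hs D.hW i h1 h2)
    (by
      rintro Q ⟨j, h1, h2, rfl⟩
      exact K_good D.h0 D.h1 D.hs' D.hW j h1 h2)
    (by
      rintro Q ⟨i, h1, h2, rfl⟩ Q' ⟨i', h1', h2', rfl⟩ hne z _ hz
      exact D.hs.disj i i' (fun h => hne (by rw [h])) z hz)
    (by
      rintro Q ⟨i, h1, h2, rfl⟩ Q' ⟨i', h1', h2', rfl⟩ hne z _ hz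
      exact D.hs'.disj i i' (fun h => hne (by rw [h])) z hz)
    (P i) (P' j) ⟨i, mi, gi, rfl⟩ ⟨j, mj, gj, rfl⟩
    (by
      intro s hs hqs
      obtain ⟨i', h1, h2, h3⟩ := D.covS j i mi ne1 se1 ze1 s hs hqs
      exact ⟨P i', ⟨i', h1, h2, rfl⟩, h3⟩)
    (by
      intro s hs hqs
      obtain ⟨i', h1, h2, h3⟩ := D.symm.covS i j mj nf1 sf1 zf1 s hs hqs
      exact ⟨P' i', ⟨i', h1, h2, rfl⟩, h3⟩)
    D.hS f₁ f₂ nf1 n2 zf1 z2 sf1 s2
  have hne : i ≠ i' := by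
    rintro rfl
    linarith
  have hf1 : 0 < (P i').q f₁ := D.hs.disj i i' hne f₁ sf1.le
  refine ⟨i', mi', gi', ⟨?_, ?_⟩, hQ⟩
  · exact chain_interlace gi' gj (D.hs.disc i') (D.hs'.disc j) n2 nf1 z2 zf1 hQ hf1
  · exact ⟨f₂, f₁, n2, nf1, z2, zf1, hQ, hf1⟩

/-- the points covered by crossing pairs -/
def ChainU (P : ι → GD) (P' : κ → GD) (e e' W : ℂ → ℂ) : Set ℂ :=
  {z | ∃ i j, Matched W e (P i) ∧ (P i).a = (P i).c ∧ Matched W e' (P' j) ∧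
    (P' j).a = (P' j).c ∧ ChainX (P i) (P' j) ∧ ((P i).q z < 0 ∨ (P' j).q z < 0)}

theorem chain_q_cont (Q : GD) : Continuous Q.q := by
  unfold GD.q
  fun_prop

theorem ChainD.bdry [Finite ι] [Finite κ] (D : ChainD lam O P e F P' e' F' W) (i : ι) (j : κ)
    (mi : Matched W e (P i)) (gi : (P i).a = (P i).c) (mj : Matched W e' (P' j))
    (gj : (P' j).a = (P' j).c) (hX : ChainX (P i) (P' j)) (z : ℂ) (nz : ‖z‖ = 1)
    (hz : (P i).q z = 0) : ∃ j', Matched W e' (P' j') ∧ (P' j').a = (P' j').c ∧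
      ChainX (P i) (P' j') ∧ (P' j').q z < 0 := by
  obtain ⟨e₁, e₂, ne1, ne2, ze1, ze2, se1, se2⟩ := hX.1
  have hne : e₁ ≠ e₂ := by
    rintro rfl
    linarith
  rcases chain_ends gi (D.hs.disc i) nz ne1 ne2 hz ze1 ze2 hne with rfl | rfl
  · exact ⟨j, mj, gj, hX, se1⟩
  · obtain ⟨j', h1, h2, h3, h4⟩ := D.symm.step j i mj gj mi gi hX.symm z nz hz se2
    exact ⟨j', h1, h2, h3.symm, h4⟩

theorem ChainD.all [Finite ι] [Finite κ] (D : ChainD lam O P e F P' e' F' W)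
    (hne : ∃ z ∈ ChainU P P' e e' W, ‖z‖ = 1) (z : ℂ) (hz : ‖z‖ = 1) : z ∈ ChainU P P' e e' W := by
  have hopen : IsOpen (ChainU P P' e e' W) := by
    have : ChainU P P' e e' W = ⋃ (i : ι) (j : κ) (_ : Matched W e (P i) ∧ (P i).a = (P i).c ∧
        Matched W e' (P' j) ∧ (P' j).a = (P' j).c ∧ ChainX (P i) (P' j)),
        ({z | (P i).q z < 0} ∪ {z | (P' j).q z < 0}) := by
      ext z
      simp only [ChainU, mem_ofPred_eq, mem_iUnion, mem_union, exists_prop]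
      constructor
      · rintro ⟨i, j, h1, h2, h3, h4, h5, h6⟩
        exact ⟨i, j, ⟨h1, h2, h3, h4, h5⟩, h6⟩
      · rintro ⟨i, j, ⟨h1, h2, h3, h4, h5⟩, h6⟩
        exact ⟨i, j, h1, h2, h3, h4, h5, h6⟩
    rw [this]
    refine isOpen_iUnion fun i => isOpen_iUnion fun j => isOpen_iUnion fun _ => ?_
    exact (isOpen_lt (chain_q_cont _) continuous_const).union
      (isOpen_lt (chain_q_cont _) continuous_const)
  have hclos : closure (ChainU P P' e e' W) ⊆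
      {z | ∃ i j, Matched W e (P i) ∧ (P i).a = (P i).c ∧ Matched W e' (P' j) ∧
        (P' j).a = (P' j).c ∧ ChainX (P i) (P' j) ∧ ((P i).q z ≤ 0 ∨ (P' j).q z ≤ 0)} := by
    apply closure_minimal
    · rintro z ⟨i, j, h1, h2, h3, h4, h5, h6⟩
      exact ⟨i, j, h1, h2, h3, h4, h5, h6.imp le_of_lt le_of_lt⟩
    · have : {z | ∃ i j, Matched W e (P i) ∧ (P i).a = (P i).c ∧ Matched W e' (P' j) ∧
        (P' j).a = (P' j).c ∧ ChainX (P i) (P' j) ∧ ((P i).q z ≤ 0 ∨ (P' j).q z ≤ 0)} =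
        ⋃ (i : ι) (j : κ), {z | (Matched W e (P i) ∧ (P i).a = (P i).c ∧
        Matched W e' (P' j) ∧ (P' j).a = (P' j).c ∧ ChainX (P i) (P' j)) ∧
        ((P i).q z ≤ 0 ∨ (P' j).q z ≤ 0)} := by
        ext z
        simp only [mem_ofPred_eq, mem_iUnion]
        constructor
        · rintro ⟨i, j, h1, h2, h3, h4, h5, h6⟩
          exact ⟨i, j, ⟨h1, h2, h3, h4, h5⟩, h6⟩
        · rintro ⟨i, j, ⟨h1, h2, h3, h4, h5⟩, h6⟩
          exact ⟨i, j, h1, h2, h3, h4, h5, h6⟩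
      rw [this]
      refine isClosed_iUnion_of_finite fun i => isClosed_iUnion_of_finite fun j => ?_
      by_cases hc : Matched W e (P i) ∧ (P i).a = (P i).c ∧
        Matched W e' (P' j) ∧ (P' j).a = (P' j).c ∧ ChainX (P i) (P' j)
      · have h3 : {z | (Matched W e (P i) ∧ (P i).a = (P i).c ∧
          Matched W e' (P' j) ∧ (P' j).a = (P' j).c ∧ ChainX (P i) (P' j)) ∧
          ((P i).q z ≤ 0 ∨ (P' j).q z ≤ 0)} = {z | (P i).q z ≤ 0} ∪ {z | (P' j).q z ≤ 0} := by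
          ext z
          simp only [mem_ofPred_eq, mem_union]
          exact ⟨fun h => h.2, fun h => ⟨hc, h⟩⟩
        rw [h3]
        exact (isClosed_le (chain_q_cont _) continuous_const).union
          (isClosed_le (chain_q_cont _) continuous_const)
      · have h3 : {z | (Matched W e (P i) ∧ (P i).a = (P i).c ∧
          Matched W e' (P' j) ∧ (P' j).a = (P' j).c ∧ ChainX (P i) (P' j)) ∧
          ((P i).q z ≤ 0 ∨ (P' j).q z ≤ 0)} = ∅ := by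
          ext z
          simp only [mem_ofPred_eq, mem_empty_iff_false, iff_false]
          exact fun h => hc h.1
        rw [h3]
        exact isClosed_empty
  have hpre : IsPreconnected (sphere (0 : ℂ) 1) := by
    apply isPreconnected_sphere
    rw [Complex.rank_real_complex]
    norm_num
  have hsub : sphere (0 : ℂ) 1 ⊆ ChainU P P' e e' W := by
    apply hpre.subset_of_closure_inter_subset hopen
    · obtain ⟨w, hw, hw1⟩ := hne
      exact ⟨w, by simpa using hw1, hw⟩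
    · rintro w ⟨hw1, hw2⟩
      have hw2' : ‖w‖ = 1 := by simpa using hw2
      obtain ⟨i, j, h1, h2, h3, h4, h5, h6⟩ := hclos hw1
      rcases h6 with h6 | h6
      · rcases lt_or_eq_of_le h6 with h7 | h7
        · exact ⟨i, j, h1, h2, h3, h4, h5, Or.inl h7⟩
        · obtain ⟨j', g1, g2, g3, g4⟩ := D.bdry i j h1 h2 h3 h4 h5 w hw2' h7
          exact ⟨i, j', h1, h2, g1, g2, g3, Or.inr g4⟩
      · rcases lt_or_eq_of_le h6 with h7 | h7
        · exact ⟨i, j, h1, h2, h3, h4, h5, Or.inr h7⟩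
        · obtain ⟨j', g1, g2, g3, g4⟩ := D.symm.bdry j i h3 h4 h1 h2 h5.symm w hw2' h7
          exact ⟨j', j, g1, g2, h3, h4, g3.symm, Or.inl g4⟩
  exact hsub (by simpa using hz)

end

theorem chain {lam : ℝ} (h0 : lam ≠ 0) (h1 : |lam| < 1) {ι κ : Type} [Finite ι] [Finite κ]
    {O : Set ℂ} {P : ι → GD} {e : ℂ → ℂ} {F : ι → ℂ → ℂ} (hs : Sys lam O P e F)
    {P' : κ → GD} {e' : ℂ → ℂ} {F' : κ → ℂ → ℂ} (hs' : Sys lam O P' e' F')
    {W : ℂ → ℂ} (hW : DifferentiableOn ℂ W (ball 0 1)) (i₀ : ι) (j₀ : κ)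
    (hia : (P i₀).a = 0) (hic : (P i₀).c = 0) (hja : (P' j₀).a = 0) (hjc : (P' j₀).c = 0)
    (hcr : (conj (P i₀).b * (P' j₀).b).im ≠ 0) (hm : ∀ᶠ z in 𝓝 (0 : ℂ), HasDerivAt W (e z) z)
    (hm' : ∀ᶠ z in 𝓝 (0 : ℂ), HasDerivAt W (e' z) z) (hS : ∃ s, Sing W s) :
    ∀ ζ : ℂ, ‖ζ‖ = 1 → TT W e P ζ ∧ TT W e' P' ζ ∧
      ((∃ i, (P i).q ζ < 0 ∧ ∃ j w, (P' j).q w = 0 ∧ (P i).q w < 0) ∨
        (∃ j, (P' j).q ζ < 0 ∧ ∃ i w, (P i).q w = 0 ∧ (P' j).q w < 0)) := by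
  have mi₀ : Matched W e (P i₀) := ⟨0, by simp, by simp [GD.q, hic], hm⟩
  have mj₀ : Matched W e' (P' j₀) := ⟨0, by simp, by simp [GD.q, hjc], hm'⟩
  have gi₀ : (P i₀).a = (P i₀).c := by rw [hia, hic]
  have gj₀ : (P' j₀).a = (P' j₀).c := by rw [hja, hjc]
  have hgen : ∀ {ι : Type} {P : ι → GD} {e : ℂ → ℂ} {F : ι → ℂ → ℂ}, Sys lam O P e F →
      ∀ i₀ : ι, Matched W e (P i₀) → (P i₀).a = (P i₀).c →
      ∀ i, Matched W e (P i) → ∀ s, Sing W s → (P i).q s < 0 → (P i).a = (P i).c := by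
    intro ι P e F hs i₀ m₀ g₀ i mi s hss hq
    rcases lt_trichotomy (P i).a (P i).c with h | h | h
    · exact absurd (K_lt h0 h1 hs hW i mi h s hss.1 hq) hss.2
    · exact h
    · exfalso
      obtain ⟨t, ht, hqt⟩ := chain_signs h0 (K_good h0 h1 hs hW i₀ m₀ g₀) hS
      have hne : i₀ ≠ i := by
        rintro rfl
        linarith
      exact ht.2 (K_gt h0 h1 hs hW i mi h t ht.1 (hs.disj i₀ i hne t hqt.le))
  have D : ChainD lam O P e F P' e' F' W :=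
    ⟨h0, h1, hs, hs', hW, hgen hs i₀ mi₀ gi₀, hgen hs' j₀ mj₀ gj₀, hS⟩
  -- the first pair crosses
  have hb' : (P' j₀).b ≠ 0 := by
    intro h
    rw [h] at hcr
    simp at hcr
  have hbn : 0 < ‖(P' j₀).b‖ := norm_pos_iff.2 hb'
  set f : ℂ := I * (P' j₀).b / (‖(P' j₀).b‖ : ℂ) with hf
  have hfn : ‖f‖ = 1 := by
    rw [hf, norm_div, norm_mul, norm_I, one_mul, Complex.norm_real, norm_norm]
    exact div_self hbn.ne'
  have hq' : ∀ z : ℂ, (P' j₀).q z = 2 * (conj (P' j₀).b * z).re := by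
    intro z
    simp [GD.q, hja, hjc]
  have hq : ∀ z : ℂ, (P i₀).q z = 2 * (conj (P i₀).b * z).re := by
    intro z
    simp [GD.q, hia, hic]
  have hqf' : (P' j₀).q f = 0 := by
    rw [hq']
    have : conj (P' j₀).b * f = I * (‖(P' j₀).b‖ : ℂ) := by
      rw [hf]
      have h2 : conj (P' j₀).b * (P' j₀).b = (‖(P' j₀).b‖ : ℂ) ^ 2 := by
        rw [mul_comm, Complex.mul_conj']
      have h3 : (‖(P' j₀).b‖ : ℂ) ≠ 0 := by
        exact_mod_cast hbn.ne'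
      field_simp
      linear_combination h2
    rw [this]
    simp
  have hqf : (P i₀).q f = -(2 * (conj (P i₀).b * (P' j₀).b).im / ‖(P' j₀).b‖) := by
    rw [hq]
    have : conj (P i₀).b * f = (I * (conj (P i₀).b * (P' j₀).b)) / (‖(P' j₀).b‖ : ℂ) := by
      rw [hf]
      ring
    rw [this, Complex.div_ofReal_re]
    simp
    ring
  have hqne : (P i₀).q f ≠ 0 := by
    rw [hqf, neg_ne_zero]
    positivity
  have hneg : ∀ Q : GD, Q.a = 0 → Q.c = 0 → Q.q (-f) = -Q.q f := by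
    intro Q ha hc
    simp [GD.q, ha, hc]
    ring
  have hex : ∃ f₁ f₂ : ℂ, ‖f₁‖ = 1 ∧ ‖f₂‖ = 1 ∧ (P' j₀).q f₁ = 0 ∧ (P' j₀).q f₂ = 0 ∧
      (P i₀).q f₁ < 0 ∧ 0 < (P i₀).q f₂ := by
    rcases lt_or_gt_of_ne hqne with h | h
    · refine ⟨f, -f, hfn, by rw [norm_neg, hfn], hqf', ?_, h, ?_⟩
      · rw [hneg _ hja hjc, hqf', neg_zero]
      · rw [hneg _ hia hic]; linarith
    · refine ⟨-f, f, by rw [norm_neg, hfn], hfn, ?_, hqf', ?_, h⟩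
      · rw [hneg _ hja hjc, hqf', neg_zero]
      · rw [hneg _ hia hic]; linarith
  obtain ⟨f₁, f₂, n1, n2, z1, z2, s1, s2⟩ := hex
  have hX : ChainX (P i₀) (P' j₀) :=
    ⟨chain_interlace gi₀ gj₀ (hs.disc i₀) (hs'.disc j₀) n1 n2 z1 z2 s1 s2,
      ⟨f₁, f₂, n1, n2, z1, z2, s1, s2⟩⟩
  intro ζ hζ
  obtain ⟨i, j, a1, a2, a3, a4, a5, a6⟩ := D.all ⟨f₁, ⟨i₀, j₀, mi₀, gi₀, mj₀, gj₀, hX, Or.inl s1⟩, n1⟩ ζ hζ
  obtain ⟨⟨e₁, e₂, ne1, ne2, ze1, ze2, se1, se2⟩, ⟨g₁, g₂, ng1, ng2, zg1, zg2, sg1, sg2⟩⟩ := a5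
  rcases a6 with a6 | a6
  · exact ⟨Or.inl ⟨i, a6, a1⟩, D.symm.cov i j a3 ng1 sg1 zg1 ζ hζ a6,
      Or.inl ⟨i, a6, j, g₁, zg1, sg1⟩⟩
  · exact ⟨D.cov j i a1 ne1 se1 ze1 ζ hζ a6, Or.inl ⟨j, a6, a3⟩,
      Or.inr ⟨j, a6, i, e₁, ze1, se1⟩⟩

end Pool.Agent.H385
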