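import Mathlib

/-!
Definitions for the uniqueness theorem for planar multi-disks (single measurement inverse
conductivity problem), complex analytic part.
-/

open Complex Metric Set Filter Topology ComplexConjugate

namespace Pool.Agent.H385

/-- Coefficients of a real quadratic form `a * |z|^2 + 2 * Re (conj b * z) + c`. -/
structure GD where
  a : ℝ
  b : ℂ
  c : ℝ

/-- value of the form; the generalised disk is the set where it is negative -/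
noncomputable def GD.q (P : GD) (z : ℂ) : ℝ := P.a * ‖z‖ ^ 2 + 2 * (conj P.b * z).re + P.c

/-- reflection (inversion) in the circle or line where the form vanishes -/
noncomputable def GD.inv (P : GD) (z : ℂ) : ℂ :=
  -(P.b * conj z + (P.c : ℂ)) / ((P.a : ℂ) * conj z + conj P.b)

/-- discriminant -/
noncomputable def GD.disc (P : GD) : ℝ := ‖P.b‖ ^ 2 - P.a * P.c

/-- `f`, a function on the unit disk, extends holomorphically across `p` -/
def Reg (f : ℂ → ℂ) (p : ℂ) : Prop :=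
  ∃ ρ > 0, ∃ h : ℂ → ℂ, DifferentiableOn ℂ h (ball p ρ) ∧
    ∀ z ∈ ball p ρ, z ∈ ball (0 : ℂ) 1 → f z = h z

/-- singular points of `W` on the unit circle -/
def Sing (W : ℂ → ℂ) (p : ℂ) : Prop := ‖p‖ = 1 ∧ ¬ Reg W p

/-- good generalised half planes: orthogonal to the unit circle, with the reflection relation -/
structure Good (lam : ℝ) (W : ℂ → ℂ) (P : GD) : Prop where
  orth : P.a = P.c
  disc : 0 < P.disc
  inside : ∀ p : ℂ, ‖p‖ = 1 → P.q p < 0 →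
    Reg (fun z => W z - (lam : ℂ) * conj (W (P.inv z))) p
  bdry : ∀ p : ℂ, ‖p‖ = 1 → P.q p = 0 → Reg W p

/-- the half plane `Im (exp(-i t) z) > 0`, with a positive scale `s` -/
noncomputable def half (s t : ℝ) : GD := ⟨0, -I * (s : ℂ) * exp (I * (t : ℂ)), 0⟩

/-- the curve from `ζ` (`t = 1`) to `p` (`t = 0`) which is a ray in the coordinate
`(z - p) / (z - p')` -/
noncomputable def ray (p p' ζ : ℂ) (t : ℝ) : ℂ :=
  (p * (ζ - p') - p' * ((t : ℂ) * (ζ - p))) / ((ζ - p') - (t : ℂ) * (ζ - p))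

/-- ray limits at `p` with respect to the partner point `p'` -/
def RL (W : ℂ → ℂ) (p p' : ℂ) : Prop :=
  ∃ L : ℂ, ∀ ζ : ℂ, ‖ζ‖ < 1 → Tendsto (fun t : ℝ => W (ray p p' ζ t)) (𝓝[>] 0) (𝓝 L)

/-- the field `e` is the derivative of `W` near some boundary point of `P` inside the disk -/
def Matched (W e : ℂ → ℂ) (P : GD) : Prop :=
  ∃ p : ℂ, ‖p‖ < 1 ∧ P.q p = 0 ∧ ∀ᶠ z in 𝓝 p, HasDerivAt W (e z) z

/-- near `ζ`, inside the disk, the field `e` is the derivative of `W` -/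
def BdEq (W e : ℂ → ℂ) (ζ : ℂ) : Prop := ∀ᶠ z in 𝓝 ζ, ‖z‖ < 1 → HasDerivAt W (e z) z

/-- the alternative used in the continuation along the circle -/
def TT {ι : Type} (W e : ℂ → ℂ) (P : ι → GD) (ζ : ℂ) : Prop :=
  (∃ i, (P i).q ζ < 0 ∧ Matched W e (P i)) ∨ ((∀ i, 0 ≤ (P i).q ζ) ∧ BdEq W e ζ)

/-- family of generalised disks with transmission data, in the normalised plane -/
structure Sys (lam : ℝ) {ι : Type} (O : Set ℂ) (P : ι → GD) (e : ℂ → ℂ) (F : ι → ℂ → ℂ) :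
    Prop where
  disc : ∀ i, 0 < (P i).disc
  anonneg : ∀ i, 0 ≤ (P i).a
  cnonneg : ∀ i, 0 ≤ (P i).c
  disj : ∀ i i', i ≠ i' → ∀ z, (P i).q z ≤ 0 → 0 < (P i').q z
  isOpen : IsOpen O
  sub : ∀ i z, (P i).q z ≤ 0 → z ∈ O
  e_an : ∀ z ∈ O, (∀ i, 0 ≤ (P i).q z) → AnalyticAt ℂ e z
  F_an : ∀ i z, (P i).q z ≤ 0 → AnalyticAt ℂ (F i) z
  rel : ∀ i z, (P i).q z = 0 → ∀ᶠ w in 𝓝 z,
    HasDerivAt (fun ζ => (F i ζ + (lam : ℂ) * conj (F i ((P i).inv ζ))) / (1 - (lam : ℂ) ^ 2))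
      (e w) w

/-! ### physical plane -/

/-- inversion in the circle with centre `a` and radius `r` -/
noncomputable def cinv (a : ℂ) (r : ℝ) (z : ℂ) : ℂ := a + (r : ℂ) ^ 2 / conj (z - a)

/-- reflected field -/
noncomputable def Phi (a : ℂ) (r : ℝ) (b : ℂ → ℂ) (z : ℂ) : ℂ :=
  (r : ℂ) ^ 2 / (z - a) ^ 2 * conj (b (cinv a r z))

open Classical in
/-- field generated by one disk -/
noncomputable def ghat (a : ℂ) (r : ℝ) (b : ℂ → ℂ) (z : ℂ) : ℂ :=
  if z ∈ ball a r then b z / 2 else -Phi a r b z / 2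

/-- exterior field -/
noncomputable def Ext (k : ℝ) {ι : Type} [Fintype ι] (a : ι → ℂ) (r : ι → ℝ) (H : ℂ → ℂ)
    (b : ι → ℂ → ℂ) (z : ℂ) : ℂ :=
  H z - (1 - (k : ℂ)) / 2 * ∑ i, Phi (a i) (r i) (b i) z

/-- a family of disks in `Ω` with interior fields `b i` and source field `H` -/
structure ZSys (k : ℝ) (Ω : Set ℂ) {ι : Type} [Fintype ι] (a : ι → ℂ) (r : ι → ℝ) (H : ℂ → ℂ)
    (b : ι → ℂ → ℂ) : Prop where
  pos : ∀ i, 0 < r i
  disj : ∀ i j, i ≠ j → Disjoint (closedBall (a i) (r i)) (closedBall (a j) (r j))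
  isOpen : IsOpen Ω
  sub : ∀ i, closedBall (a i) (r i) ⊆ Ω
  H_hol : DifferentiableOn ℂ H Ω
  b_an : ∀ i, ∀ z ∈ closedBall (a i) (r i), AnalyticAt ℂ (b i) z
  rep : ∀ i, ∀ z ∈ closedBall (a i) (r i), ∀ᶠ w in 𝓝 z,
    (1 + (k : ℂ)) / 2 * b i w =
      Ext k a r H b w + (1 - (k : ℂ)) / 2 * Phi (a i) (r i) (b i) w

/-- Möbius map from the normalised plane to the physical plane, `0 ↦ x`, `∞ ↦ y` -/
noncomputable def mob (x y : ℂ) (ρ : ℝ) (ζ : ℂ) : ℂ := (x - (ρ : ℂ) * y * ζ) / (1 - (ρ : ℂ) * ζ)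

/-- the inverse Möbius map -/
noncomputable def mobInv (x y : ℂ) (ρ : ℝ) (z : ℂ) : ℂ := (z - x) / ((ρ : ℂ) * (z - y))

/-- the disk with centre `a` and radius `r` in the normalised plane -/
noncomputable def pullGD (x y : ℂ) (ρ : ℝ) (a : ℂ) (r : ℝ) : GD :=
  ⟨ρ ^ 2 * (‖y - a‖ ^ 2 - r ^ 2), -(ρ : ℂ) * conj (conj (x - a) * (y - a) - (r : ℂ) ^ 2),
    ‖x - a‖ ^ 2 - r ^ 2⟩

/-- the field `E` in the normalised plane (as the coefficient of a differential) -/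
noncomputable def pullF (x y : ℂ) (ρ : ℝ) (E : ℂ → ℂ) (ζ : ℂ) : ℂ :=
  E (mob x y ρ ζ) * ((ρ : ℂ) * (x - y) / (1 - (ρ : ℂ) * ζ) ^ 2)

end Pool.Agent.H385
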