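import Pool.Agent.H385.Defs

open Complex Metric Set Filter Topology ComplexConjugate MeasureTheory
open scoped ContDiff ENNReal

namespace Pool.Agent.H385

theorem match_conj_an {f : ℂ → ℂ} {z : ℂ} (hf : AnalyticAt ℂ f z) :
    AnalyticAt ℂ (fun w => conj (f (conj w))) (conj z) := by
  rw [Complex.analyticAt_iff_eventually_differentiableAt] at hf ⊢
  have h1 : Tendsto (fun w : ℂ => conj w) (𝓝 (conj z)) (𝓝 z) := by
    have := (Complex.continuous_conj.tendsto (conj z))
    simpa using this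
  filter_upwards [h1.eventually hf] with w hw
  have h2 := hw.star_star
  have h3 : star (conj w) = w := by
    change conj (conj w) = w
    simp
  rw [h3] at h2
  exact h2

theorem match_phi_an {a : ℂ} {r : ℝ} {b : ℂ → ℂ} (hr : 0 < r)
    (hb : ∀ z ∈ closedBall a r, AnalyticAt ℂ b z) {z : ℂ} (hz : r ≤ ‖z - a‖) :
    AnalyticAt ℂ (Phi a r b) z := by
  have hza : z - a ≠ 0 := by
    intro h
    rw [h, norm_zero] at hz
    linarith
  have hc : cinv a r z ∈ closedBall a r := by
    rw [mem_closedBall, dist_eq_norm]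
    unfold cinv
    rw [add_sub_cancel_left, norm_div, norm_pow, Complex.norm_real, RCLike.norm_conj,
      Real.norm_eq_abs, abs_of_pos hr, div_le_iff₀ (lt_of_lt_of_le hr hz), pow_two]
    exact mul_le_mul_of_nonneg_left hz hr.le
  have h1 := match_conj_an (hb _ hc)
  have h2 : conj (cinv a r z) = conj a + (r : ℂ) ^ 2 / (z - a) := by
    unfold cinv
    simp
  rw [h2] at h1
  have h3 : AnalyticAt ℂ (fun w : ℂ => conj a + (r : ℂ) ^ 2 / (w - a)) z := by
    refine analyticAt_const.add (analyticAt_const.div (analyticAt_id.sub analyticAt_const) hza)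
  have h4 : AnalyticAt ℂ (fun w : ℂ => conj (b (conj (conj a + (r : ℂ) ^ 2 / (w - a))))) z :=
    AnalyticAt.fun_comp (g := fun w => conj (b (conj w))) h1 h3
  have h5 : AnalyticAt ℂ (fun w : ℂ => (r : ℂ) ^ 2 / (w - a) ^ 2) z := by
    refine analyticAt_const.div ((analyticAt_id.sub analyticAt_const).pow 2) ?_
    exact pow_ne_zero 2 hza
  have h6 := h5.mul h4
  refine h6.congr (Filter.Eventually.of_forall ?_)
  intro w
  simp only [Phi, cinv, Pi.mul_apply]
  congr 3
  simp

/-- the difference of the two exterior reflected fields -/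
noncomputable def matchPsi {ι κ : Type} [Fintype ι] [Fintype κ] (a : ι → ℂ) (r : ι → ℝ)
    (c : κ → ℂ) (s : κ → ℝ) (b : ι → ℂ → ℂ) (B : κ → ℂ → ℂ) (z : ℂ) : ℂ :=
  ∑ i, Phi (a i) (r i) (b i) z - ∑ j, Phi (c j) (s j) (B j) z

theorem match_psi_an {k : ℝ} {Ω : Set ℂ}
    {ι κ : Type} [Fintype ι] [Fintype κ] {a : ι → ℂ} {r : ι → ℝ} {c : κ → ℂ} {s : κ → ℝ}
    {H : ℂ → ℂ} {b : ι → ℂ → ℂ} {B : κ → ℂ → ℂ}
    (hZ : ZSys k Ω a r H b) (hZ' : ZSys k Ω c s H B) {z : ℂ}
    (hz1 : ∀ i, z ∉ ball (a i) (r i)) (hz2 : ∀ j, z ∉ ball (c j) (s j)) :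
    AnalyticAt ℂ (matchPsi a r c s b B) z := by
  have h1 : AnalyticAt ℂ (fun z => ∑ i, Phi (a i) (r i) (b i) z) z := by
    refine Finset.analyticAt_fun_sum _ ?_
    intro i _
    refine match_phi_an (hZ.pos i) (hZ.b_an i) ?_
    have := hz1 i
    rw [mem_ball, dist_eq_norm, not_lt] at this
    exact this
  have h2 : AnalyticAt ℂ (fun z => ∑ j, Phi (c j) (s j) (B j) z) z := by
    refine Finset.analyticAt_fun_sum _ ?_
    intro i _
    refine match_phi_an (hZ'.pos i) (hZ'.b_an i) ?_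
    have := hz2 i
    rw [mem_ball, dist_eq_norm, not_lt] at this
    exact this
  exact h1.sub h2

theorem match_cinv_circle {a : ℂ} {r : ℝ} (hr : 0 < r) {w : ℂ} (hw : ‖w - a‖ = r) :
    cinv a r w = w := by
  unfold cinv
  have hne : conj (w - a) ≠ 0 := by
    intro h
    have : ‖conj (w - a)‖ = 0 := by rw [h, norm_zero]
    rw [RCLike.norm_conj] at this
    linarith
  have h1 : (r : ℂ) ^ 2 = (w - a) * conj (w - a) := by
    rw [Complex.mul_conj, Complex.normSq_eq_norm_sq, hw]
    push_cast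
    ring
  rw [h1, mul_div_assoc, div_self hne]
  ring

theorem match_cinv_tendsto {a : ℂ} {r : ℝ} (hr : 0 < r) {z : ℂ} (hz : ‖z - a‖ = r) :
    Tendsto (cinv a r) (𝓝 z) (𝓝 z) := by
  have hne : conj (z - a) ≠ 0 := by
    intro h
    have : ‖conj (z - a)‖ = 0 := by rw [h, norm_zero]
    rw [RCLike.norm_conj] at this
    linarith
  have h1 : ContinuousAt (cinv a r) z := by
    unfold cinv
    have : Continuous (fun z : ℂ => conj (z - a)) := by
      exact Complex.continuous_conj.comp (continuous_id.sub continuous_const)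
    exact continuousAt_const.add (continuousAt_const.div this.continuousAt hne)
  have h2 := h1.tendsto
  rwa [match_cinv_circle hr hz] at h2

/-- points of the circle accumulate at a point of the circle -/
theorem match_circle_acc {a : ℂ} {r : ℝ} (hr : 0 < r) {z : ℂ} (hz : ‖z - a‖ = r) :
    ∃ᶠ w in 𝓝[≠] z, ‖w - a‖ = r := by
  rw [frequently_nhdsWithin_iff]
  have hne : z - a ≠ 0 := by
    intro h
    rw [h, norm_zero] at hz
    linarith
  -- the curve `t ↦ a + (z - a) exp (i t)`
  have hc : Tendsto (fun t : ℝ => a + (z - a) * exp (t * I)) (𝓝[>] 0) (𝓝 z) := by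
    have h1 : Continuous (fun t : ℝ => a + (z - a) * exp (t * I)) := by fun_prop
    have h2 := h1.tendsto 0
    simp only [Complex.ofReal_zero, zero_mul, Complex.exp_zero, mul_one, add_sub_cancel] at h2
    exact h2.mono_left nhdsWithin_le_nhds
  refine hc.frequently (Eventually.frequently ?_)
  have hIoo : Ioo (0 : ℝ) 1 ∈ 𝓝[>] (0 : ℝ) := Ioo_mem_nhdsGT one_pos
  filter_upwards [hIoo] with t ht
  refine ⟨?_, ?_⟩
  · rw [add_sub_cancel_left, norm_mul, Complex.norm_exp_ofReal_mul_I, mul_one, hz]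
  · intro h
    have h1 : a + (z - a) * exp (t * I) = z := h
    have h2 : (z - a) * (exp (t * I) - 1) = 0 := by
      have : (z - a) * (exp (t * I) - 1) = (a + (z - a) * exp (t * I)) - z := by ring
      rw [this, h1, sub_self]
    rcases mul_eq_zero.1 h2 with h3 | h3
    · exact hne h3
    · have h4 : exp (t * I) = 1 := sub_eq_zero.1 h3
      have h5 := congrArg Complex.im h4
      rw [Complex.exp_ofReal_mul_I_im] at h5
      simp at h5
      have h6 : 0 < Real.sin t :=
        Real.sin_pos_of_pos_of_lt_pi ht.1 (lt_trans ht.2 (by linarith [Real.pi_gt_three]))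
      linarith

theorem match_ident {a : ℂ} {r : ℝ} {f : ℂ → ℂ}
    (hf : ∀ z ∈ closedBall a r, AnalyticAt ℂ f z) {z : ℂ} (hz : z ∈ closedBall a r)
    (h : ∃ᶠ w in 𝓝[≠] z, f w = 0) : ∀ w ∈ closedBall a r, f w = 0 := by
  have h1 : AnalyticOnNhd ℂ f (closedBall a r) := hf
  exact h1.eqOn_zero_of_preconnected_of_frequently_eq_zero
    (convex_closedBall a r).isPreconnected hz h

theorem match_bdry {k : ℝ} (hk : 0 < k) (hk1 : k ≠ 1) {Ω : Set ℂ}
    {ι κ : Type} [Fintype ι] [Fintype κ] {a : ι → ℂ} {r : ι → ℝ} {c : κ → ℂ} {s : κ → ℝ}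
    {H : ℂ → ℂ} {b : ι → ℂ → ℂ} {B : κ → ℂ → ℂ}
    (hZ : ZSys k Ω a r H b) (hZ' : ZSys k Ω c s H B) {i : ι} {j : κ}
    (hc : c j = a i) (hs : s j = r i) {z : ℂ} (hz : ‖z - a i‖ = r i) :
    (∀ᶠ w in 𝓝 z, matchPsi a r c s b B w = 0) ↔ ∀ w ∈ ball (a i) (r i), b i w = B j w := by
  have hr := hZ.pos i
  have hzc : z ∈ closedBall (a i) (r i) := by
    rw [mem_closedBall, dist_eq_norm, hz]
  have hzc' : z ∈ closedBall (c j) (s j) := by rw [hc, hs]; exact hzc
  have hzb : z ∉ ball (a i) (r i) := by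
    rw [mem_ball, dist_eq_norm, hz]
    exact lt_irrefl _
  have hB_an : ∀ z ∈ closedBall (a i) (r i), AnalyticAt ℂ (B j) z := by
    intro w hw
    refine hZ'.b_an j w ?_
    rw [hc, hs]; exact hw
  have hβ_an : ∀ z ∈ closedBall (a i) (r i), AnalyticAt ℂ (fun w => b i w - B j w) z :=
    fun w hw => (hZ.b_an i w hw).sub (hB_an w hw)
  -- the relation near `z`
  have hrel : ∀ᶠ w in 𝓝 z, (1 + (k : ℂ)) / 2 * (b i w - B j w) =
      -((1 - (k : ℂ)) / 2) * matchPsi a r c s b B w +
        (1 - (k : ℂ)) / 2 * (Phi (a i) (r i) (b i) w - Phi (a i) (r i) (B j) w) := by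
    filter_upwards [hZ.rep i z hzc, hZ'.rep j z hzc'] with w h1 h2
    rw [hc, hs] at h2
    rw [mul_sub, h1, h2]
    unfold Ext matchPsi
    ring
  constructor
  · intro h
    -- `β` vanishes at the points of the circle near `z`
    have hcirc : ∃ᶠ w in 𝓝[≠] z, b i w - B j w = 0 := by
      have hev : ∀ᶠ w in 𝓝[≠] z, matchPsi a r c s b B w = 0 ∧
          ((1 + (k : ℂ)) / 2 * (b i w - B j w) =
      -((1 - (k : ℂ)) / 2) * matchPsi a r c s b B w +
        (1 - (k : ℂ)) / 2 * (Phi (a i) (r i) (b i) w - Phi (a i) (r i) (B j) w)) :=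
        (h.and hrel).filter_mono nhdsWithin_le_nhds
      refine ((match_circle_acc hr hz).and_eventually hev).mono ?_
      rintro w ⟨hw, h1, h2⟩
      rw [h1, mul_zero, zero_add] at h2
      have hP : ∀ f : ℂ → ℂ, Phi (a i) (r i) f w =
          (r i : ℂ) ^ 2 / (w - a i) ^ 2 * conj (f w) := by
        intro f
        unfold Phi
        rw [match_cinv_circle hr hw]
      rw [hP, hP, ← mul_sub, ← map_sub] at h2
      have h3 := congrArg norm h2
      rw [norm_mul, norm_mul, norm_mul, RCLike.norm_conj, norm_div, norm_div, norm_div,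
        norm_pow, norm_pow, hw, Complex.norm_real, Real.norm_eq_abs, abs_of_pos hr,
        div_self (pow_ne_zero 2 hr.ne'), one_mul] at h3
      have h4 : ‖(1 + (k : ℂ))‖ = 1 + k := by
        have : (1 + (k : ℂ)) = ((1 + k : ℝ) : ℂ) := by push_cast; ring
        rw [this, Complex.norm_real, Real.norm_eq_abs, abs_of_pos (by linarith)]
      have h5 : ‖(1 - (k : ℂ))‖ = |1 - k| := by
        have : (1 - (k : ℂ)) = ((1 - k : ℝ) : ℂ) := by push_cast; ring
        rw [this, Complex.norm_real, Real.norm_eq_abs]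
      rw [h4, h5] at h3
      have h6 : ‖(2 : ℂ)‖ = 2 := by simp
      rw [h6] at h3
      by_contra hne
      have h7 : 0 < ‖b i w - B j w‖ := norm_pos_iff.2 hne
      have h8 : (1 + k) / 2 = |1 - k| / 2 := mul_right_cancel₀ h7.ne' h3
      have h9 : |1 - k| < 1 + k := by
        rw [abs_lt]
        constructor <;> linarith
      linarith
    intro w hw
    exact sub_eq_zero.1 (match_ident hβ_an hzc hcirc w (ball_subset_closedBall hw))
  · intro h
    -- `β` vanishes near `z`
    have hfr : ∃ᶠ w in 𝓝[≠] z, b i w - B j w = 0 := by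
      have hcl : z ∈ closure (ball (a i) (r i)) := by
        rw [closure_ball (a i) hr.ne']
        exact hzc
      rw [mem_closure_iff_frequently] at hcl
      rw [frequently_nhdsWithin_iff]
      refine hcl.mono ?_
      intro w hw
      refine ⟨sub_eq_zero.2 (h w hw), ?_⟩
      intro hwz
      rw [mem_singleton_iff] at hwz
      rw [hwz] at hw
      exact hzb hw
    have hev : ∀ᶠ w in 𝓝 z, b i w - B j w = 0 :=
      (hβ_an z hzc).frequently_zero_iff_eventually_zero.1 hfr
    have hev2 : ∀ᶠ w in 𝓝 z, b i (cinv (a i) (r i) w) - B j (cinv (a i) (r i) w) = 0 :=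
      (match_cinv_tendsto hr hz).eventually hev
    filter_upwards [hrel, hev, hev2] with w h1 h2 h3
    have h4 : Phi (a i) (r i) (b i) w - Phi (a i) (r i) (B j) w = 0 := by
      unfold Phi
      rw [← mul_sub, ← map_sub, h3, map_zero, mul_zero]
    rw [h2, h4, mul_zero, mul_zero, add_zero] at h1
    have h5 : -((1 - (k : ℂ)) / 2) ≠ 0 := by
      refine neg_ne_zero.2 (div_ne_zero ?_ two_ne_zero)
      intro h6
      apply hk1
      have : ((k : ℝ) : ℂ) = ((1 : ℝ) : ℂ) := by
        push_cast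
        exact (sub_eq_zero.1 h6).symm
      exact_mod_cast this
    rcases mul_eq_zero.1 h1.symm with h6 | h6
    · exact absurd h6 h5
    · exact h6

/-- the property which is propagated along `S` -/
def matchM {ι κ : Type} [Fintype ι] [Fintype κ] (a : ι → ℂ) (r : ι → ℝ)
    (c : κ → ℂ) (s : κ → ℝ) (b : ι → ℂ → ℂ) (B : κ → ℂ → ℂ) (z : ℂ) : Prop :=
  ((∀ i, z ∉ ball (a i) (r i)) ∧ (∀ j, z ∉ ball (c j) (s j)) ∧
    ∀ᶠ w in 𝓝 z, matchPsi a r c s b B w = 0) ∨
  ∃ i j, c j = a i ∧ s j = r i ∧ z ∈ ball (a i) (r i) ∧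
    ∀ w ∈ ball (a i) (r i), b i w = B j w

theorem match_near {ι : Type} [Fintype ι] (a : ι → ℂ) (r : ι → ℝ) (z : ℂ) :
    ∀ᶠ w in 𝓝 z, ∀ i, w ∈ ball (a i) (r i) → z ∈ closedBall (a i) (r i) := by
  rw [eventually_all]
  intro i
  by_cases h : z ∈ closedBall (a i) (r i)
  · exact Eventually.of_forall fun _ _ => h
  · have h1 : (closedBall (a i) (r i))ᶜ ∈ 𝓝 z := isClosed_closedBall.isOpen_compl.mem_nhds h
    filter_upwards [h1] with w hw hw2
    exact absurd (ball_subset_closedBall hw2) hw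

theorem matching {k : ℝ} (hk : 0 < k) (hk1 : k ≠ 1) {Ω : Set ℂ}
    {ι κ : Type} [Fintype ι] [Fintype κ] {a : ι → ℂ} {r : ι → ℝ} {c : κ → ℂ} {s : κ → ℝ}
    {H : ℂ → ℂ} {b : ι → ℂ → ℂ} {B : κ → ℂ → ℂ}
    (hZ : ZSys k Ω a r H b) (hZ' : ZSys k Ω c s H B)
    (hinf : ∀ᶠ z in Filter.cocompact ℂ,
      ∑ i, Phi (a i) (r i) (b i) z = ∑ j, Phi (c j) (s j) (B j) z)
    (S : Set ℂ) (hS : IsPreconnected S) (hSb : ¬ Bornology.IsBounded S)
    (hS1 : ∀ i, (∀ j, ¬ (c j = a i ∧ s j = r i)) → ∀ z ∈ S, z ∉ ball (a i) (r i))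
    (hS2 : ∀ j, (∀ i, ¬ (c j = a i ∧ s j = r i)) → ∀ z ∈ S, z ∉ ball (c j) (s j))
    (z : ℂ) (hz : z ∈ S) (hz1 : ∀ i, z ∉ ball (a i) (r i)) (hz2 : ∀ j, z ∉ ball (c j) (s j)) :
    ∀ᶠ w in 𝓝 z, ∑ i, Phi (a i) (r i) (b i) w = ∑ j, Phi (c j) (s j) (B j) w := by
  -- a point of `S` in an open ball is in a common one
  have hcomm : ∀ w ∈ S, ((∃ i, w ∈ ball (a i) (r i)) ∨ ∃ j, w ∈ ball (c j) (s j)) →
      ∃ i j, c j = a i ∧ s j = r i ∧ w ∈ ball (a i) (r i) := by
    rintro w hw (⟨i, hi⟩ | ⟨j, hj⟩)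
    · by_contra hcon
      push Not at hcon
      exact hS1 i (fun j hj => hcon i j hj.1 hj.2 hi) w hw hi
    · by_contra hcon
      push Not at hcon
      refine hS2 j (fun i hi => hcon i j hi.1 hi.2 ?_) w hw hj
      rw [← hi.1, ← hi.2]
      exact hj
  have hcase : ∀ w ∈ S, ((∀ i, w ∉ ball (a i) (r i)) ∧ (∀ j, w ∉ ball (c j) (s j))) ∨
      ∃ i j, c j = a i ∧ s j = r i ∧ w ∈ ball (a i) (r i) := by
    intro w hw
    by_cases h : (∃ i, w ∈ ball (a i) (r i)) ∨ ∃ j, w ∈ ball (c j) (s j)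
    · exact Or.inr (hcomm w hw h)
    · push Not at h
      exact Or.inl h
  -- open
  have hopen : ∀ z ∈ S, matchM a r c s b B z → ∀ᶠ w in 𝓝[S] z, matchM a r c s b B w := by
    intro z hz hM
    rcases hM with ⟨h1, h2, h3⟩ | ⟨i, j, h1, h2, h3, h4⟩
    · have h5 : ∀ᶠ w in 𝓝[S] z, ∀ᶠ w' in 𝓝 w, matchPsi a r c s b B w' = 0 :=
        h3.eventually_nhds.filter_mono nhdsWithin_le_nhds
      have h6 : ∀ᶠ w in 𝓝[S] z, ∀ i, w ∈ ball (a i) (r i) → z ∈ closedBall (a i) (r i) :=
        (match_near a r z).filter_mono nhdsWithin_le_nhds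
      filter_upwards [h5, h6, self_mem_nhdsWithin] with w hw5 hw6 hwS
      rcases hcase w hwS with h7 | ⟨i, j, hc, hs, hw⟩
      · exact Or.inl ⟨h7.1, h7.2, hw5⟩
      · refine Or.inr ⟨i, j, hc, hs, hw, ?_⟩
        have hzc := hw6 i hw
        have hzn := h1 i
        rw [mem_closedBall, dist_eq_norm] at hzc
        rw [mem_ball, dist_eq_norm, not_lt] at hzn
        exact (match_bdry hk hk1 hZ hZ' hc hs (le_antisymm hzc hzn)).1 h3
    · have h5 : ball (a i) (r i) ∈ 𝓝[S] z := mem_nhdsWithin_of_mem_nhds (isOpen_ball.mem_nhds h3)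
      filter_upwards [h5] with w hw
      exact Or.inr ⟨i, j, h1, h2, hw, h4⟩
  -- closed
  have hclosed : ∀ z ∈ S, (∃ᶠ w in 𝓝[S] z, matchM a r c s b B w) → matchM a r c s b B z := by
    intro z hz hfr
    rcases hcase z hz with ⟨h1, h2⟩ | ⟨i, j, hc, hs, hzi⟩
    · refine Or.inl ⟨h1, h2, ?_⟩
      have hfr' : ∃ᶠ w in 𝓝 z, matchM a r c s b B w := hfr.filter_mono nhdsWithin_le_nhds
      unfold matchM at hfr'
      rw [frequently_or_distrib] at hfr'
      rcases hfr' with hf | hf
      · rcases (match_psi_an hZ hZ' h1 h2).eventually_eq_zero_or_eventually_ne_zero with h3 | h3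
        · exact h3
        · exfalso
          rw [eventually_nhdsWithin_iff] at h3
          obtain ⟨w, ⟨-, -, hw1⟩, hw2⟩ := (hf.and_eventually h3.eventually_nhds).exists
          have h4 : ∀ᶠ w' in 𝓝 w, w' = z := by
            filter_upwards [hw1, hw2] with w' h5 h6
            by_contra h7
            exact h6 h7 h5
          have h5 : w = z := h4.self_of_nhds
          have h6 : ∀ᶠ w' in 𝓝[≠] w, w' = z := h4.filter_mono nhdsWithin_le_nhds
          obtain ⟨w', h7, h8⟩ := (h6.and self_mem_nhdsWithin).exists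
          exact h8 (h7.trans h5.symm)
      · obtain ⟨w, ⟨i, j, hc, hs, hw, hb⟩, hw2⟩ := (hf.and_eventually (match_near a r z)).exists
        have hzc := hw2 i hw
        have hzn := h1 i
        rw [mem_closedBall, dist_eq_norm] at hzc
        rw [mem_ball, dist_eq_norm, not_lt] at hzn
        exact (match_bdry hk hk1 hZ hZ' hc hs (le_antisymm hzc hzn)).2 hb
    · have h5 : ball (a i) (r i) ∈ 𝓝[S] z := mem_nhdsWithin_of_mem_nhds (isOpen_ball.mem_nhds hzi)
      obtain ⟨w, hM, hw⟩ := (hfr.and_eventually h5).exists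
      rcases hM with ⟨h6, -, -⟩ | ⟨i', j', hc', hs', hw', hb⟩
      · exact absurd hw (h6 i)
      · have hii : i = i' := by
          by_contra hne
          exact (Set.disjoint_left.1 (hZ.disj i i' hne) (ball_subset_closedBall hw))
            (ball_subset_closedBall hw')
        subst hii
        have hjj : j = j' := by
          by_contra hne
          have h8 : w ∈ closedBall (c j) (s j) := by
            rw [hc, hs]; exact ball_subset_closedBall hw
          have h9 : w ∈ closedBall (c j') (s j') := by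
            rw [hc', hs']; exact ball_subset_closedBall hw'
          exact Set.disjoint_left.1 (hZ'.disj j j' hne) h8 h9
        subst hjj
        exact Or.inr ⟨i, j, hc, hs, hzi, hb⟩
  -- nonempty
  have hne : ∃ z ∈ S, matchM a r c s b B z := by
    have e1 : ∀ᶠ w in Filter.cocompact ℂ, ∀ i, w ∉ closedBall (a i) (r i) := by
      rw [eventually_all]
      intro i
      exact (isCompact_closedBall (a i) (r i)).compl_mem_cocompact
    have e2 : ∀ᶠ w in Filter.cocompact ℂ, ∀ j, w ∉ closedBall (c j) (s j) := by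
      rw [eventually_all]
      intro i
      exact (isCompact_closedBall (c i) (s i)).compl_mem_cocompact
    have e3 := (hinf.and (e1.and e2))
    rw [← Metric.cobounded_eq_cocompact, ← comap_norm_atTop, eventually_comap,
      eventually_atTop] at e3
    obtain ⟨R, hR⟩ := e3
    rw [isBounded_iff_forall_norm_le] at hSb
    push Not at hSb
    obtain ⟨w, hwS, hw⟩ := hSb R
    refine ⟨w, hwS, Or.inl ⟨?_, ?_, ?_⟩⟩
    · intro i hi
      exact (hR ‖w‖ hw.le w rfl).2.1 i (ball_subset_closedBall hi)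
    · intro i hi
      exact (hR ‖w‖ hw.le w rfl).2.2 i (ball_subset_closedBall hi)
    · have h6 : ∀ᶠ w' in 𝓝 w, R < ‖w'‖ :=
        continuous_norm.continuousAt.eventually (lt_mem_nhds hw)
      filter_upwards [h6] with w' hw'
      unfold matchPsi
      rw [(hR ‖w'‖ hw'.le w' rfl).1, sub_self]
  -- conclusion
  have hall : ∀ z ∈ S, matchM a r c s b B z := by
    have : PreconnectedSpace S := isPreconnected_iff_preconnectedSpace.1 hS
    let T : Set S := {x | matchM a r c s b B (x : ℂ)}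
    have hT : IsClopen T := by
      constructor
      · rw [isClosed_iff_frequently]
        intro x hx
        refine hclosed x x.2 ?_
        rw [nhdsWithin_eq_map_subtype_coe x.2, frequently_map]
        exact hx
      · rw [isOpen_iff_mem_nhds]
        intro x hx
        have := hopen x x.2 hx
        rw [nhdsWithin_eq_map_subtype_coe x.2, eventually_map] at this
        exact this
    obtain ⟨w, hw, hM⟩ := hne
    have huniv : T = univ := hT.eq_univ ⟨⟨w, hw⟩, hM⟩
    intro z hz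
    have : (⟨z, hz⟩ : S) ∈ T := by rw [huniv]; trivial
    exact this
  rcases hall z hz with ⟨-, -, h⟩ | ⟨i, j, -, -, h, -⟩
  · filter_upwards [h] with w hw
    exact sub_eq_zero.1 hw
  · exact absurd h (hz1 i)

end Pool.Agent.H385
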