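import Pool.Agent.H385.PDE4

open Complex Metric Set Filter Topology ComplexConjugate MeasureTheory
open scoped ContDiff ENNReal

namespace Pool.Agent.H385

theorem ae_not_sphere {ι : Type} [Fintype ι] (a : ι → ℂ) (r : ι → ℝ) (hr : ∀ i, 0 < r i) :
    ∀ᵐ z : ℂ, ∀ i, ‖z - a i‖ ≠ r i := by
  rw [ae_all_iff]
  intro i
  have h1 : volume (sphere (a i) (r i)) = 0 :=
    Measure.addHaar_sphere_of_ne_zero volume (a i) (hr i).ne'
  rw [ae_iff]
  convert h1 using 2
  ext z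
  simp [dist_eq_norm]

theorem ghat_out {a : ℂ} {r : ℝ} {b : ℂ → ℂ} {z : ℂ} (hz : z ∉ ball a r) :
    ghat a r b z = -Phi a r b z / 2 := by
  unfold ghat
  rw [if_neg hz]

theorem pde_data (Ω : Set ℂ) (hΩ : IsOpen Ω) (hbd : Bornology.IsBounded Ω) (k : ℝ) (hk : 0 < k)
    (hk1 : k ≠ 1) (g : ℂ → ℝ) {ι κ : Type} [Fintype ι] [Fintype κ]
    (a : ι → ℂ) (r : ι → ℝ) (c : κ → ℂ) (s : κ → ℝ)
    (hr : ∀ i, 0 < r i) (hs : ∀ j, 0 < s j)
    (ha : ∀ i j, i ≠ j → Disjoint (closedBall (a i) (r i)) (closedBall (a j) (r j)))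
    (hc : ∀ i j, i ≠ j → Disjoint (closedBall (c i) (s i)) (closedBall (c j) (s j)))
    (haΩ : ∀ i, closedBall (a i) (r i) ⊆ Ω) (hcΩ : ∀ j, closedBall (c j) (s j) ⊆ Ω)
    (u₁ u₂ : ℂ → ℝ) (G₁ G₂ : ℂ → ℂ) (h₁ : IsSolution Ω k (⋃ i, ball (a i) (r i)) g u₁ G₁)
    (h₂ : IsSolution Ω k (⋃ j, ball (c j) (s j)) g u₂ G₂) (hT : SameTrace Ω u₁ G₁ u₂ G₂) :
    ∃ (H : ℂ → ℂ) (b : ι → ℂ → ℂ) (B : κ → ℂ → ℂ), ZSys k Ω a r H b ∧ ZSys k Ω c s H B ∧
      (∀ᶠ z in Filter.cocompact ℂ, ∑ i, Phi (a i) (r i) (b i) z = ∑ j, Phi (c j) (s j) (B j) z) ∧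
      (∀ i, ∀ᵐ z ∂(volume.restrict (ball (a i) (r i))), conj (G₁ z) = b i z) ∧
      (∀ᵐ z ∂(volume.restrict Ω), (∀ i, z ∉ ball (a i) (r i)) → conj (G₁ z) = Ext k a r H b z) := by
  have hk1' : (1 - (k : ℂ)) ≠ 0 := by
    intro h
    apply hk1
    have : (1 : ℂ) = (k : ℂ) := by linear_combination h
    exact_mod_cast this.symm
  have hD₁ := iUnion_sub haΩ
  have hD₂ := iUnion_sub hcΩ
  have hm₁ : MeasurableSet (⋃ i, ball (a i) (r i)) := MeasurableSet.iUnion fun i => measurableSet_ball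
  have hm₂ : MeasurableSet (⋃ j, ball (c j) (s j)) := MeasurableSet.iUnion fun i => measurableSet_ball
  choose b₀ hb₀ hbG₀ using fun i => ball_hol hΩ hk hD₁ hm₁ h₁ (subset_iUnion (fun i => ball (a i) (r i)) i)
  choose B₀ hB₀ hBG₀ using fun j => ball_hol hΩ hk hD₂ hm₂ h₂ (subset_iUnion (fun j => ball (c j) (s j)) j)
  obtain ⟨H, hH, hHG₁⟩ := H_exists hΩ hr ha haΩ h₁ hb₀ hbG₀
  have hF := F_zero hΩ hr hs ha hc haΩ hcΩ h₁ h₂ hT hb₀ hbG₀ hB₀ hBG₀
  have hHG₂ : ∀ᵐ z ∂(volume.restrict Ω),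
      conj (G₂ z) - (1 - (k : ℂ)) * ∑ j, ghat (c j) (s j) (B₀ j) z = H z := by
    filter_upwards [hHG₁, ae_restrict_of_ae hF, ae_restrict_mem hΩ.measurableSet] with z h1 h2 h3
    rw [indicator_of_mem h3] at h2
    linear_combination h1 - h2
  obtain ⟨b, hZ₁, hbb⟩ := sysZ hΩ hk hr ha haΩ hb₀ hbG₀ hH hHG₁
  obtain ⟨B, hZ₂, hBB⟩ := sysZ hΩ hk hs hc hcΩ hB₀ hBG₀ hH hHG₂
  refine ⟨H, b, B, hZ₁, hZ₂, ?_, ?_, ?_⟩
  · obtain ⟨R, hR⟩ := hbd.subset_closedBall 0
    have hout : ∀ z, z ∉ closedBall (0 : ℂ) R → z ∉ Ω := fun z hz h => hz (hR h)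
    have hi : ∀ z, z ∉ closedBall (0 : ℂ) R → ∀ i, r i < ‖z - a i‖ := fun z hz i => by
      rw [← not_mem_cb]
      exact fun h => hout z hz (haΩ i h)
    have hj : ∀ z, z ∉ closedBall (0 : ℂ) R → ∀ j, s j < ‖z - c j‖ := fun z hz j => by
      rw [← not_mem_cb]
      exact fun h => hout z hz (hcΩ j h)
    have hopen : IsOpen (closedBall (0 : ℂ) R)ᶜ := isClosed_closedBall.isOpen_compl
    have heq : EqOn (fun z => ∑ i, Phi (a i) (r i) (b₀ i) z)
        (fun z => ∑ j, Phi (c j) (s j) (B₀ j) z) (closedBall (0 : ℂ) R)ᶜ := by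
      apply MeasureTheory.Measure.eqOn_open_of_ae_eq (μ := volume) _ hopen
      · apply continuousOn_finset_sum
        intro i _ z hz
        exact (Phi_differentiableAt (hr i) (hb₀ i) (hi z hz i)).continuousAt.continuousWithinAt
      · apply continuousOn_finset_sum
        intro j _ z hz
        exact (Phi_differentiableAt (hs j) (hB₀ j) (hj z hz j)).continuousAt.continuousWithinAt
      · filter_upwards [ae_restrict_of_ae hF, ae_restrict_mem hopen.measurableSet] with z h2 h3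
        have h4 := hout z h3
        rw [indicator_of_notMem h4] at h2
        have e1 : ∑ i, ghat (a i) (r i) (b₀ i) z = -(∑ i, Phi (a i) (r i) (b₀ i) z) / 2 := by
          rw [← Finset.sum_neg_distrib, Finset.sum_div]
          apply Finset.sum_congr rfl
          intro i _
          exact ghat_out fun h => h4 (haΩ i (ball_subset_closedBall h))
        have e2 : ∑ j, ghat (c j) (s j) (B₀ j) z = -(∑ j, Phi (c j) (s j) (B₀ j) z) / 2 := by
          rw [← Finset.sum_neg_distrib, Finset.sum_div]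
          apply Finset.sum_congr rfl
          intro i _
          exact ghat_out fun h => h4 (hcΩ i (ball_subset_closedBall h))
        rw [e1, e2] at h2
        have h5 := (mul_eq_zero.1 h2.symm).resolve_left hk1'
        linear_combination (-2) * h5
    have hcc : ∀ᶠ z in Filter.cocompact ℂ, z ∉ closedBall (0 : ℂ) R :=
      (isCompact_closedBall (0 : ℂ) R).compl_mem_cocompact
    filter_upwards [hcc] with z hz
    have e1 : ∑ i, Phi (a i) (r i) (b i) z = ∑ i, Phi (a i) (r i) (b₀ i) z := by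
      apply Finset.sum_congr rfl
      intro i _
      exact Phi_congr (hr i) (hbb i) (hi z hz i)
    have e2 : ∑ j, Phi (c j) (s j) (B j) z = ∑ j, Phi (c j) (s j) (B₀ j) z := by
      apply Finset.sum_congr rfl
      intro j _
      exact Phi_congr (hs j) (hBB j) (hj z hz j)
    rw [e1, e2]
    exact heq hz
  · intro i
    filter_upwards [hbG₀ i, ae_restrict_mem measurableSet_ball] with z h1 h2
    rw [h1, hbb i z h2]
  · filter_upwards [hHG₁, ae_restrict_of_ae (ae_not_sphere a r hr)] with z h1 h2 h3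
    have e1 : ∑ i, ghat (a i) (r i) (b₀ i) z = -(∑ i, Phi (a i) (r i) (b i) z) / 2 := by
      rw [← Finset.sum_neg_distrib, Finset.sum_div]
      apply Finset.sum_congr rfl
      intro i _
      rw [ghat_out (h3 i), Phi_congr (hr i) (hbb i)]
      have h4 := h3 i
      rw [mem_ball, dist_eq_norm, not_lt] at h4
      exact lt_of_le_of_ne h4 (Ne.symm (h2 i))
    rw [e1] at h1
    unfold Ext
    linear_combination h1

end Pool.Agent.H385
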