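import Pool.Agent.H385.Defs

open Complex Metric Set Filter Topology ComplexConjugate MeasureTheory
open scoped ContDiff ENNReal

namespace Pool.Agent.H385

/-- the points of an open disk are above its lowest point -/
theorem sel_im_gt {m z : ℂ} {R : ℝ} (hz : z ∈ ball m R) : m.im - R < z.im := by
  rw [mem_ball, dist_eq_norm] at hz
  have h1 := Complex.abs_im_le_norm (z - m)
  rw [Complex.sub_im] at h1
  have h2 := neg_abs_le (z.im - m.im)
  linarith

/-- the downward vertical half line -/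
def selRay (z₀ : ℂ) : Set ℂ := {z | z.re = z₀.re ∧ z.im ≤ z₀.im}

theorem sel_ray_conn (z₀ : ℂ) : IsPreconnected (selRay z₀) := by
  apply Convex.isPreconnected
  intro x hx y hy p q hp hq hpq
  obtain ⟨hx1, hx2⟩ := hx
  obtain ⟨hy1, hy2⟩ := hy
  change (p • x + q • y).re = z₀.re ∧ (p • x + q • y).im ≤ z₀.im
  constructor
  · simp only [add_re, real_smul, mul_re, ofReal_re, ofReal_im, zero_mul, sub_zero]
    rw [hx1, hy1, ← add_mul, hpq, one_mul]
  · simp only [add_im, real_smul, mul_im, ofReal_re, ofReal_im, zero_mul, add_zero]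
    have h1 := mul_le_mul_of_nonneg_left hx2 hp
    have h2 := mul_le_mul_of_nonneg_left hy2 hq
    have h3 : p * z₀.im + q * z₀.im = z₀.im := by rw [← add_mul, hpq, one_mul]
    linarith

theorem sel_ray_unbdd (z₀ : ℂ) : ¬ Bornology.IsBounded (selRay z₀) := by
  intro h
  obtain ⟨C, hC⟩ := h.exists_norm_le
  have hmem : z₀ - I * ((|C| + |z₀.im| + 1 : ℝ) : ℂ) ∈ selRay z₀ := by
    constructor
    · simp
    · simp only [sub_im, mul_im, I_re, I_im, ofReal_re, ofReal_im, zero_mul, one_mul, zero_add]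
      have h1 := abs_nonneg C
      have h2 := abs_nonneg z₀.im
      linarith
  have h1 := hC _ hmem
  have h2 := Complex.abs_im_le_norm (z₀ - I * ((|C| + |z₀.im| + 1 : ℝ) : ℂ))
  simp only [sub_im, mul_im, I_re, I_im, ofReal_re, ofReal_im, zero_mul, one_mul, zero_add] at h2
  have h3 := neg_abs_le (z₀.im - (|C| + |z₀.im| + 1))
  have h4 := le_abs_self z₀.im
  have h5 := le_abs_self C
  linarith

theorem sel_ray_self (z₀ : ℂ) : z₀ ∈ selRay z₀ := ⟨rfl, le_refl _⟩

theorem sel_core {ι κ : Type} [Finite ι] [Finite κ] (a : ι → ℂ) (r : ι → ℝ) (c : κ → ℂ)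
    (s : κ → ℝ) (hr : ∀ i, 0 < r i) (hs : ∀ j, 0 < s j)
    (ha : ∀ i j, i ≠ j → Disjoint (closedBall (a i) (r i)) (closedBall (a j) (r j)))
    (i₀ : ι) (hi₀ : ∀ j, ¬ (c j = a i₀ ∧ s j = r i₀))
    (h1 : ∀ i, (∀ j, ¬ (c j = a i ∧ s j = r i)) → (a i₀).im - r i₀ ≤ (a i).im - r i)
    (h2 : ∀ j, (∀ i, ¬ (c j = a i ∧ s j = r i)) → (a i₀).im - r i₀ ≤ (c j).im - s j)
    (h3 : ∀ j, (∀ i, ¬ (c j = a i ∧ s j = r i)) →
      c j - I * (s j : ℂ) = a i₀ - I * (r i₀ : ℂ) → s j ≤ r i₀) :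
    ∃ S : Set ℂ, IsPreconnected S ∧ ¬ Bornology.IsBounded S ∧
      (∀ i, (∀ j, ¬ (c j = a i ∧ s j = r i)) → ∀ z ∈ S, z ∉ ball (a i) (r i)) ∧
      (∀ j, (∀ i, ¬ (c j = a i ∧ s j = r i)) → ∀ z ∈ S, z ∉ ball (c j) (s j)) ∧
      ((∃ i j x, x ∈ S ∧ ‖x - a i‖ = r i ∧ ‖x - c j‖ = s j ∧ |r i - s j| < ‖a i - c j‖ ∧
          ‖a i - c j‖ < r i + s j) ∨
       (∃ i, (∀ j, ¬ (c j = a i ∧ s j = r i)) ∧ sphere (a i) (r i) ⊆ S ∧
          ∀ j, Disjoint (ball (a i) (r i)) (ball (c j) (s j)) ∨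
            ball (c j) (s j) ⊆ ball (a i) (r i))) := by
  set z₀ : ℂ := a i₀ - I * (r i₀ : ℂ) with hz₀
  have hz₀im : z₀.im = (a i₀).im - r i₀ := by
    rw [hz₀]; simp
  have hz₀re : z₀.re = (a i₀).re := by
    rw [hz₀]; simp
  have hz₀s : z₀ ∈ sphere (a i₀) (r i₀) := by
    rw [mem_sphere, dist_eq_norm, hz₀]
    simp [abs_of_pos (hr i₀)]
  have hray1 : ∀ i, (∀ j, ¬ (c j = a i ∧ s j = r i)) → ∀ z ∈ selRay z₀, z ∉ ball (a i) (r i) := by
    intro i hi z hz hb
    have e1 := sel_im_gt hb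
    have e2 := h1 i hi
    have e3 := hz.2
    linarith
  have hray2 : ∀ j, (∀ i, ¬ (c j = a i ∧ s j = r i)) → ∀ z ∈ selRay z₀, z ∉ ball (c j) (s j) := by
    intro j hj z hz hb
    have e1 := sel_im_gt hb
    have e2 := h2 j hj
    have e3 := hz.2
    linarith
  have hsph : ∀ i, ∀ z ∈ sphere (a i₀) (r i₀), z ∉ ball (a i) (r i) := by
    intro i z hz hb
    rcases eq_or_ne i₀ i with rfl | hne
    · rw [mem_sphere] at hz
      rw [mem_ball] at hb
      linarith
    · exact disjoint_left.1 (ha i₀ i hne) (sphere_subset_closedBall hz) (ball_subset_closedBall hb)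
  by_cases hcase : ∀ j, (∀ i, ¬ (c j = a i ∧ s j = r i)) →
      ∀ z ∈ sphere (a i₀) (r i₀), z ∉ ball (c j) (s j)
  · -- case 1
    refine ⟨selRay z₀ ∪ sphere (a i₀) (r i₀), ?_, ?_, ?_, ?_, Or.inr ⟨i₀, hi₀,
      subset_union_right, ?_⟩⟩
    · refine IsPreconnected.union z₀ (sel_ray_self z₀) hz₀s (sel_ray_conn z₀) ?_
      exact isPreconnected_sphere (by rw [Complex.rank_real_complex]; norm_num) _ _
    · exact fun h => sel_ray_unbdd z₀ (h.subset subset_union_left)
    · rintro i hi z (hz | hz)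
      · exact hray1 i hi z hz
      · exact hsph i z hz
    · rintro j hj z (hz | hz)
      · exact hray2 j hj z hz
      · exact hcase j hj z hz
    · intro j
      have hdis : ∀ z ∈ ball (c j) (s j), z ∉ sphere (a i₀) (r i₀) := by
        intro z hz hzs
        by_cases hj : ∀ i, ¬ (c j = a i ∧ s j = r i)
        · exact hcase j hj z hzs hz
        · push Not at hj
          obtain ⟨i, hi1, hi2⟩ := hj
          rw [hi1, hi2] at hz
          exact hsph i z hzs hz
      have hsub : ball (c j) (s j) ⊆ ball (a i₀) (r i₀) ∪ (closedBall (a i₀) (r i₀))ᶜ := by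
        intro z hz
        have e1 := hdis z hz
        rw [mem_sphere] at e1
        rcases lt_or_gt_of_ne e1 with e2 | e2
        · exact Or.inl e2
        · right
          rw [mem_compl_iff, mem_closedBall]
          exact not_le.2 e2
      have hconn : IsPreconnected (ball (c j) (s j)) := (convex_ball (c j) (s j)).isPreconnected
      have hd : Disjoint (ball (a i₀) (r i₀)) (closedBall (a i₀) (r i₀))ᶜ := by
        rw [disjoint_compl_right_iff_subset]
        exact ball_subset_closedBall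
      rcases IsPreconnected.subset_or_subset isOpen_ball isClosed_closedBall.isOpen_compl hd hsub
        hconn with h | h
      · exact Or.inr h
      · exact Or.inl (hd.mono_right h)
  · -- case 2
    simp only [not_forall] at hcase
    obtain ⟨j₁, hj₁, z₁, hz₁, hz₁b⟩ := hcase
    rw [not_not] at hz₁b
    set γ : ℝ → ℂ := fun θ => circleMap (a i₀) (r i₀) (θ - Real.pi / 2) with hγ
    have hγc : Continuous γ := (continuous_circleMap _ _).comp (continuous_id.sub continuous_const)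
    have hγs : ∀ θ, γ θ ∈ sphere (a i₀) (r i₀) := fun θ => circleMap_mem_sphere _ (hr i₀).le _
    have hγ0 : γ 0 = z₀ := by
      rw [hγ, hz₀]
      simp only [circleMap, zero_sub, ofReal_neg, ofReal_div, ofReal_ofNat]
      have : cexp (-(↑Real.pi / 2) * I) = -I := by
        rw [neg_mul, Complex.exp_neg, Complex.exp_pi_div_two_mul_I]
        simp
      rw [this]
      ring
    set T : κ → Set ℝ := fun j => {θ | θ ∈ Icc 0 (2 * Real.pi) ∧
      (∀ i, ¬ (c j = a i ∧ s j = r i)) ∧ γ θ ∈ ball (c j) (s j)} with hT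
    have hTne : (⋃ j, T j).Nonempty := by
      obtain ⟨θ, hθ⟩ : ∃ θ ∈ Icc (0:ℝ) (2 * Real.pi), γ θ = z₁ := by
        have him := image_circleMap_Ioc (a i₀) (r i₀)
        rw [abs_of_pos (hr i₀)] at him
        rw [← him] at hz₁
        obtain ⟨φ, hφ, hφe⟩ := hz₁
        have hπ := Real.pi_pos
        rcases le_or_gt φ (3 * Real.pi / 2) with hle | hgt
        · refine ⟨φ + Real.pi / 2, ⟨by linarith [hφ.1], by linarith⟩, ?_⟩
          change circleMap (a i₀) (r i₀) (φ + Real.pi / 2 - Real.pi / 2) = z₁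
          rw [add_sub_cancel_right, hφe]
        · refine ⟨φ - 3 * Real.pi / 2, ⟨by linarith, by linarith [hφ.2]⟩, ?_⟩
          change circleMap (a i₀) (r i₀) (φ - 3 * Real.pi / 2 - Real.pi / 2) = z₁
          have : φ - 3 * Real.pi / 2 - Real.pi / 2 = φ - 2 * Real.pi := by ring
          rw [this, (periodic_circleMap (a i₀) (r i₀)).sub_eq, hφe]
      exact ⟨θ, mem_iUnion.2 ⟨j₁, hθ.1, hj₁, by rw [hθ.2]; exact hz₁b⟩⟩
    have hTb : BddBelow (⋃ j, T j) := ⟨0, by
      rintro θ hθ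
      obtain ⟨j, hj⟩ := mem_iUnion.1 hθ
      exact hj.1.1⟩
    set θs := sInf (⋃ j, T j) with hθs
    have hθ0 : 0 ≤ θs := le_csInf hTne (by
      rintro θ hθ
      obtain ⟨j, hj⟩ := mem_iUnion.1 hθ
      exact hj.1.1)
    have hθ2 : θs ≤ 2 * Real.pi := by
      obtain ⟨θ, hθ⟩ := hTne
      obtain ⟨j, hj⟩ := mem_iUnion.1 hθ
      exact (csInf_le hTb hθ).trans hj.1.2
    have hlt : ∀ θ, 0 ≤ θ → θ < θs → ∀ j, (∀ i, ¬ (c j = a i ∧ s j = r i)) →
        γ θ ∉ ball (c j) (s j) := by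
      intro θ h0 hlt j hj hb
      exact absurd (csInf_le hTb (mem_iUnion.2 ⟨j, ⟨h0, (hlt.le.trans hθ2)⟩, hj, hb⟩))
        (not_le.2 hlt)
    have hz₀b : ∀ j, (∀ i, ¬ (c j = a i ∧ s j = r i)) → z₀ ∉ ball (c j) (s j) :=
      fun j hj => hray2 j hj z₀ (sel_ray_self z₀)
    have hend : ∀ j, (∀ i, ¬ (c j = a i ∧ s j = r i)) → γ θs ∉ ball (c j) (s j) := by
      intro j hj hb
      have hopen : IsOpen (γ ⁻¹' ball (c j) (s j)) := isOpen_ball.preimage hγc
      obtain ⟨δ, hδ, hsub⟩ := Metric.isOpen_iff.1 hopen θs hb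
      rcases hθ0.eq_or_lt with h0 | h0
      · rw [← h0, hγ0] at hb
        exact hz₀b j hj hb
      · have hm : max 0 (θs - δ / 2) < θs := max_lt h0 (by linarith)
        refine hlt _ (le_max_left _ _) hm j hj (hsub ?_)
        rw [mem_ball, Real.dist_eq, abs_sub_comm, abs_of_pos (by linarith)]
        have := le_max_right 0 (θs - δ / 2)
        linarith
    have hcl : θs ∈ ⋃ j, closure (T j) := by
      rw [← closure_iUnion_of_finite]
      exact csInf_mem_closure hTne hTb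
    obtain ⟨j, hj⟩ := mem_iUnion.1 hcl
    have hTj : (T j).Nonempty := closure_nonempty_iff.1 ⟨_, hj⟩
    obtain ⟨θ₁, hθ₁, hjn, hθ₁b⟩ := hTj
    have hxle : γ θs ∈ closedBall (c j) (s j) := by
      have e1 : γ '' closure (T j) ⊆ closure (γ '' T j) := image_closure_subset_closure_image hγc
      have e2 : closure (γ '' T j) ⊆ closedBall (c j) (s j) := by
        refine closure_minimal ?_ isClosed_closedBall
        rintro _ ⟨θ, hθ, rfl⟩
        exact ball_subset_closedBall hθ.2.2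
      exact e2 (e1 ⟨_, hj, rfl⟩)
    have hx : ‖γ θs - c j‖ = s j := by
      rw [mem_closedBall, dist_eq_norm] at hxle
      have := hend j hjn
      rw [mem_ball, dist_eq_norm, not_lt] at this
      exact le_antisymm hxle this
    have hy := hγs θ₁
    rw [mem_sphere, dist_eq_norm] at hy
    rw [mem_ball, dist_eq_norm] at hθ₁b
    refine ⟨selRay z₀ ∪ γ '' Icc 0 θs, ?_, ?_, ?_, ?_, Or.inl ⟨i₀, j, γ θs, ?_, ?_, hx, ?_, ?_⟩⟩
    · refine IsPreconnected.union z₀ (sel_ray_self z₀) ⟨0, ⟨le_refl _, hθ0⟩, hγ0⟩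
        (sel_ray_conn z₀) ?_
      exact isPreconnected_Icc.image _ hγc.continuousOn
    · exact fun h => sel_ray_unbdd z₀ (h.subset subset_union_left)
    · rintro i hi z (hz | ⟨θ, hθ, rfl⟩)
      · exact hray1 i hi z hz
      · exact hsph i _ (hγs θ)
    · rintro j hj z (hz | ⟨θ, hθ, rfl⟩)
      · exact hray2 j hj z hz
      · rcases hθ.2.eq_or_lt with h | h
        · rw [h]; exact hend j hj
        · exact hlt θ hθ.1 h j hj
    · exact Or.inr ⟨θs, ⟨hθ0, le_refl _⟩, rfl⟩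
    · have := hγs θs
      rwa [mem_sphere, dist_eq_norm] at this
    · by_contra hcon
      push Not at hcon
      rcases le_or_gt (s j) (r i₀) with hle | hgt
      · rw [abs_of_nonneg (by linarith)] at hcon
        have e1 : ‖γ θ₁ - a i₀‖ ≤ ‖γ θ₁ - c j‖ + ‖a i₀ - c j‖ := by
          rw [norm_sub_rev (a i₀)]
          exact norm_sub_le_norm_sub_add_norm_sub _ _ _
        linarith
      · rw [abs_of_neg (by linarith)] at hcon
        have e1 : ‖z₀ - c j‖ ≤ ‖z₀ - a i₀‖ + ‖a i₀ - c j‖ :=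
          norm_sub_le_norm_sub_add_norm_sub _ _ _
        have e2 : ‖z₀ - a i₀‖ = r i₀ := by
          rwa [mem_sphere, dist_eq_norm] at hz₀s
        have e3 : ‖z₀ - c j‖ ≤ s j := by linarith
        have e4 := h2 j hjn
        rw [← hz₀im] at e4
        have e5 : ‖z₀ - c j‖ ^ 2 = (z₀.re - (c j).re) ^ 2 + (z₀.im - (c j).im) ^ 2 := by
          rw [← Complex.normSq_eq_norm_sq, Complex.normSq_apply, sub_re, sub_im]
          ring
        have e6 : ‖z₀ - c j‖ ^ 2 ≤ s j ^ 2 := by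
          apply pow_le_pow_left₀ (norm_nonneg _) e3
        have hsj := hs j
        have e7 : s j ^ 2 ≤ (z₀.im - (c j).im) ^ 2 := by nlinarith
        have e8 : (z₀.re - (c j).re) ^ 2 ≤ 0 := by nlinarith
        have e9 : z₀.re - (c j).re = 0 := by
          have := le_antisymm e8 (sq_nonneg _)
          exact pow_eq_zero_iff (two_ne_zero) |>.1 this
        have e10 : (c j).im - s j = z₀.im := by
          have : (z₀.im - (c j).im) ^ 2 = s j ^ 2 := by nlinarith [sq_nonneg (z₀.re - (c j).re)]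
          have h' : (z₀.im - (c j).im - s j) * (z₀.im - (c j).im + s j) = 0 := by linarith [this, sq (s j)] 
          rcases mul_eq_zero.1 h' with h' | h'
          · linarith
          · linarith
        have e11 : c j - I * (s j : ℂ) = z₀ := by
          apply Complex.ext
          · simp; linarith
          · simp; linarith
        have := h3 j hjn e11
        linarith
    · have e1 : ‖a i₀ - c j‖ ≤ ‖γ θ₁ - a i₀‖ + ‖γ θ₁ - c j‖ := by
        rw [norm_sub_rev (γ θ₁) (a i₀)]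
        exact norm_sub_le_norm_sub_add_norm_sub _ _ _
      linarith

/-- geometric selection -/
theorem selection {ι κ : Type} [Finite ι] [Finite κ] (a : ι → ℂ) (r : ι → ℝ) (c : κ → ℂ)
    (s : κ → ℝ) (hr : ∀ i, 0 < r i) (hs : ∀ j, 0 < s j)
    (ha : ∀ i j, i ≠ j → Disjoint (closedBall (a i) (r i)) (closedBall (a j) (r j)))
    (hc : ∀ i j, i ≠ j → Disjoint (closedBall (c i) (s i)) (closedBall (c j) (s j)))
    (hne : (∃ i, ∀ j, ¬ (c j = a i ∧ s j = r i)) ∨ (∃ j, ∀ i, ¬ (c j = a i ∧ s j = r i))) :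
    ∃ S : Set ℂ, IsPreconnected S ∧ ¬ Bornology.IsBounded S ∧
      (∀ i, (∀ j, ¬ (c j = a i ∧ s j = r i)) → ∀ z ∈ S, z ∉ ball (a i) (r i)) ∧
      (∀ j, (∀ i, ¬ (c j = a i ∧ s j = r i)) → ∀ z ∈ S, z ∉ ball (c j) (s j)) ∧
      ((∃ i j x, x ∈ S ∧ ‖x - a i‖ = r i ∧ ‖x - c j‖ = s j ∧ |r i - s j| < ‖a i - c j‖ ∧
          ‖a i - c j‖ < r i + s j) ∨
       (∃ i, (∀ j, ¬ (c j = a i ∧ s j = r i)) ∧ sphere (a i) (r i) ⊆ S ∧
          ∀ j, Disjoint (ball (a i) (r i)) (ball (c j) (s j)) ∨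
            ball (c j) (s j) ⊆ ball (a i) (r i)) ∨
       (∃ j, (∀ i, ¬ (c j = a i ∧ s j = r i)) ∧ sphere (c j) (s j) ⊆ S ∧
          ∀ i, Disjoint (ball (c j) (s j)) (ball (a i) (r i)) ∨
            ball (a i) (r i) ⊆ ball (c j) (s j))) := by
  classical
  set m : ι ⊕ κ → ℂ := Sum.elim a c with hm
  set R : ι ⊕ κ → ℝ := Sum.elim r s with hR
  set N : Set (ι ⊕ κ) := {p | Sum.elim (fun i => ∀ j, ¬ (c j = a i ∧ s j = r i))
    (fun j => ∀ i, ¬ (c j = a i ∧ s j = r i)) p} with hN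
  have hNne : N.Nonempty := by
    rcases hne with ⟨i, hi⟩ | ⟨j, hj⟩
    · exact ⟨Sum.inl i, hi⟩
    · exact ⟨Sum.inr j, hj⟩
  have hNf : N.Finite := Set.toFinite N
  obtain ⟨p₀, hp₀, hmin⟩ := Set.exists_min_image N (fun p => (m p).im - R p) hNf hNne
  obtain ⟨p, ⟨hpN, hpe⟩, hmax⟩ := Set.exists_max_image
    {p | p ∈ N ∧ m p - I * (R p : ℂ) = m p₀ - I * (R p₀ : ℂ)} R (Set.toFinite _) ⟨p₀, hp₀, rfl⟩
  have hpim : (m p).im - R p = (m p₀).im - R p₀ := by
    have := congrArg Complex.im hpe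
    simpa using this
  have hmin' : ∀ q ∈ N, (m p).im - R p ≤ (m q).im - R q := by
    intro q hq
    rw [hpim]
    exact hmin q hq
  have hmax' : ∀ q ∈ N, m q - I * (R q : ℂ) = m p - I * (R p : ℂ) → R q ≤ R p := by
    intro q hq h
    exact hmax q ⟨hq, h.trans hpe⟩
  rcases p with i₀ | j₀
  · obtain ⟨S, h1, h2, h3, h4, h5⟩ := sel_core a r c s hr hs ha i₀ hpN
      (fun i hi => hmin' (Sum.inl i) hi) (fun j hj => hmin' (Sum.inr j) hj)
      (fun j hj h => hmax' (Sum.inr j) hj h)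
    refine ⟨S, h1, h2, h3, h4, ?_⟩
    rcases h5 with h5 | h5
    · exact Or.inl h5
    · exact Or.inr (Or.inl h5)
  · have hsw : ∀ i j, (a i = c j ∧ r i = s j) ↔ (c j = a i ∧ s j = r i) := by
      intro i j
      constructor
      · rintro ⟨e1, e2⟩; exact ⟨e1.symm, e2.symm⟩
      · rintro ⟨e1, e2⟩; exact ⟨e1.symm, e2.symm⟩
    obtain ⟨S, h1, h2, h3, h4, h5⟩ := sel_core c s a r hs hr hc j₀
      (fun i h => hpN i ((hsw i j₀).1 h))
      (fun j hj => hmin' (Sum.inr j) (fun i h => hj i ((hsw i j).2 h)))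
      (fun i hi => hmin' (Sum.inl i) (fun j h => hi j ((hsw i j).2 h)))
      (fun i hi h => hmax' (Sum.inl i) (fun j h' => hi j ((hsw i j).2 h')) h)
    refine ⟨S, h1, h2, fun i hi => h4 i fun j h => hi j ((hsw i j).1 h),
      fun j hj => h3 j fun i h => hj i ((hsw i j).1 h), ?_⟩
    rcases h5 with ⟨j, i, x, e1, e2, e3, e4, e5⟩ | ⟨j, e1, e2, e3⟩
    · refine Or.inl ⟨i, j, x, e1, e3, e2, ?_, ?_⟩
      · rw [abs_sub_comm, norm_sub_rev]; exact e4
      · rw [norm_sub_rev, add_comm]; exact e5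
    · exact Or.inr (Or.inr ⟨j, fun i h => e1 i ((hsw i j).2 h), e2, e3⟩)

end Pool.Agent.H385
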