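import Pool.Agent.H385.Defs

open Complex Metric Set Filter Topology ComplexConjugate MeasureTheory
open scoped ContDiff ENNReal

namespace Pool.Agent.H385

theorem zero_cinv_mem {a : ℂ} {r : ℝ} (hr : 0 < r) {z : ℂ} (hz : r ≤ ‖z - a‖) :
    cinv a r z ∈ closedBall a r := by
  have hpos : 0 < ‖z - a‖ := lt_of_lt_of_le hr hz
  rw [mem_closedBall, dist_eq_norm]
  unfold cinv
  rw [add_sub_cancel_left, norm_div, norm_pow, Complex.norm_real, Complex.norm_conj,
    Real.norm_eq_abs, abs_of_pos hr, div_le_iff₀ hpos]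
  nlinarith

theorem zero_an_conj {b : ℂ → ℂ} {c : ℂ} (hb : AnalyticAt ℂ b c) :
    AnalyticAt ℂ (fun w => conj (b (conj w))) (conj c) := by
  rw [Complex.analyticAt_iff_eventually_differentiableAt] at hb ⊢
  have h1 : Tendsto (fun w : ℂ => conj w) (𝓝 (conj c)) (𝓝 c) := by
    have := (Complex.continuous_conj).tendsto (conj c)
    rwa [Complex.conj_conj] at this
  filter_upwards [h1.eventually hb] with w hw
  have := hw.conj_conj
  rw [Complex.conj_conj] at this
  exact this

theorem zero_Phi_an {a : ℂ} {r : ℝ} (hr : 0 < r) {b : ℂ → ℂ}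
    (hb : ∀ z ∈ closedBall a r, AnalyticAt ℂ b z) {z : ℂ} (hz : r ≤ ‖z - a‖) :
    AnalyticAt ℂ (Phi a r b) z := by
  have hne : z - a ≠ 0 := by
    intro h
    rw [h, norm_zero] at hz
    linarith
  have h1 := zero_an_conj (hb _ (zero_cinv_mem hr hz))
  have e : conj (cinv a r z) = conj a + (r : ℂ) ^ 2 / (z - a) := by
    unfold cinv
    rw [map_add, map_div₀, map_pow, Complex.conj_ofReal, Complex.conj_conj]
  have e2 : Phi a r b = fun z => (r : ℂ) ^ 2 / (z - a) ^ 2 *
      (fun w => conj (b (conj w))) (conj a + (r : ℂ) ^ 2 / (z - a)) := by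
    funext w
    unfold Phi cinv
    simp only [map_add, map_div₀, map_pow, Complex.conj_ofReal, Complex.conj_conj]
  rw [e2]
  have h2 : AnalyticAt ℂ (fun z : ℂ => conj a + (r : ℂ) ^ 2 / (z - a)) z :=
    analyticAt_const.add (analyticAt_const.div (analyticAt_id.sub analyticAt_const) hne)
  have h3 : AnalyticAt ℂ (fun z : ℂ => (fun w => conj (b (conj w))) (conj a + (r : ℂ) ^ 2 / (z - a)))
      z := by
    apply AnalyticAt.fun_comp (g := fun w => conj (b (conj w))) _ h2
    rw [← e]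
    exact h1
  exact (analyticAt_const.div ((analyticAt_id.sub analyticAt_const).pow 2) (pow_ne_zero 2 hne)).mul h3

theorem zero_Ext_an {k : ℝ} {Ω : Set ℂ} {ι : Type} [Fintype ι] {a : ι → ℂ} {r : ι → ℝ} {H : ℂ → ℂ}
    {b : ι → ℂ → ℂ} (hZ : ZSys k Ω a r H b) {z : ℂ} (hz : z ∈ Ω)
    (hz1 : ∀ i, z ∉ ball (a i) (r i)) : AnalyticAt ℂ (Ext k a r H b) z := by
  have h1 : AnalyticAt ℂ H z := hZ.H_hol.analyticAt (hZ.isOpen.mem_nhds hz)
  have h2 : AnalyticAt ℂ (fun w => ∑ i, Phi (a i) (r i) (b i) w) z := by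
    apply Finset.analyticAt_fun_sum
    intro i _
    apply zero_Phi_an (hZ.pos i) (hZ.b_an i)
    have := hz1 i
    rw [mem_ball, dist_eq_norm, not_lt] at this
    exact this
  exact h1.sub (analyticAt_const.mul h2)

theorem zero_cinv_self {a : ℂ} {r : ℝ} (hr : 0 < r) {z : ℂ} (hz : ‖z - a‖ = r) :
    cinv a r z = z := by
  have hne : conj (z - a) ≠ 0 := by
    intro h
    rw [map_eq_zero] at h
    rw [h, norm_zero] at hz
    linarith
  unfold cinv
  have h1 : (z - a) * conj (z - a) = (r : ℂ) ^ 2 := by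
    rw [Complex.mul_conj, Complex.normSq_eq_norm_sq, hz]
    push_cast
    ring
  rw [← h1, mul_div_assoc, div_self hne]
  ring

/-- vanishing near a point of the closed disk propagates to all points of the closed disk -/
theorem zero_ident {a : ℂ} {r : ℝ} (hr : 0 < r) {b : ℂ → ℂ}
    (hb : ∀ z ∈ closedBall a r, AnalyticAt ℂ b z) {z : ℂ} (hz : z ∈ closedBall a r)
    (h : ∀ᶠ w in 𝓝 z, b w = 0) : ∀ w ∈ closedBall a r, ∀ᶠ v in 𝓝 w, b v = 0 := by
  have hpc : IsPreconnected (closedBall a r) := (convex_closedBall a r).isPreconnected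
  have h1 : EqOn b 0 (closedBall a r) :=
    AnalyticOnNhd.eqOn_zero_of_preconnected_of_eventuallyEq_zero hb hpc hz h
  intro w hw
  have hnt : (closedBall a r).Nontrivial := by
    refine ⟨a, mem_closedBall_self hr.le, a + r, ?_, ?_⟩
    · rw [mem_closedBall, dist_eq_norm, add_sub_cancel_left, Complex.norm_real, Real.norm_eq_abs,
        abs_of_pos hr]
    · intro h
      have : (r : ℂ) = 0 := by linear_combination -h
      rw [Complex.ofReal_eq_zero] at this
      linarith
  have hacc := hpc.preperfect_of_nontrivial hnt w hw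
  rw [accPt_iff_frequently_nhdsNE] at hacc
  apply (hb w hw).frequently_zero_iff_eventually_zero.1
  exact hacc.mono fun v hv => h1 hv

theorem zero_bdry {k : ℝ} (hk : 0 < k) {Ω : Set ℂ}
    {ι : Type} [Fintype ι] {a : ι → ℂ} {r : ι → ℝ} {H : ℂ → ℂ} {b : ι → ℂ → ℂ}
    (hZ : ZSys k Ω a r H b) {i : ι} {z : ℂ} (hz : ‖z - a i‖ = r i)
    (h0 : ∀ᶠ w in 𝓝 z, Ext k a r H b w = 0) : ∀ w ∈ closedBall (a i) (r i),
      ∀ᶠ v in 𝓝 w, b i v = 0 := by
  have hr := hZ.pos i
  have hzc : z ∈ closedBall (a i) (r i) := by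
    rw [mem_closedBall, dist_eq_norm, hz]
  apply zero_ident hr (hZ.b_an i) hzc
  apply (hZ.b_an i z hzc).frequently_zero_iff_eventually_zero.1
  have hpc : IsPreconnected (sphere (a i) (r i)) := by
    apply isPreconnected_sphere
    rw [Complex.rank_real_complex]
    exact Cardinal.one_lt_two
  have hnt : (sphere (a i) (r i)).Nontrivial := by
    refine ⟨a i + r i, ?_, a i - r i, ?_, ?_⟩
    · rw [mem_sphere, dist_eq_norm, add_sub_cancel_left, Complex.norm_real, Real.norm_eq_abs,
        abs_of_pos hr]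
    · rw [mem_sphere, dist_eq_norm, sub_sub_cancel_left, norm_neg, Complex.norm_real,
        Real.norm_eq_abs, abs_of_pos hr]
    · intro h
      have : (r i : ℂ) = 0 := by linear_combination h / 2
      rw [Complex.ofReal_eq_zero] at this
      linarith
  have hacc := hpc.preperfect_of_nontrivial hnt z (by rw [mem_sphere, dist_eq_norm, hz])
  rw [accPt_iff_frequently_nhdsNE] at hacc
  have h2 : ∀ᶠ w in 𝓝[≠] z, (1 + (k : ℂ)) / 2 * b i w =
      Ext k a r H b w + (1 - (k : ℂ)) / 2 * Phi (a i) (r i) (b i) w :=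
    (hZ.rep i z hzc).filter_mono nhdsWithin_le_nhds
  have h3 : ∀ᶠ w in 𝓝[≠] z, Ext k a r H b w = 0 := h0.filter_mono nhdsWithin_le_nhds
  refine (hacc.and_eventually (h2.and h3)).mono ?_
  rintro w ⟨hw, h4, h5⟩
  rw [mem_sphere, dist_eq_norm] at hw
  rw [h5, zero_add] at h4
  have h6 := congrArg norm h4
  unfold Phi at h6
  have e0 : ‖(r i : ℂ) ^ 2 / (w - a i) ^ 2‖ = 1 := by
    rw [norm_div, norm_pow, norm_pow, hw, Complex.norm_real, Real.norm_eq_abs, abs_of_pos hr,
      div_self (pow_ne_zero 2 hr.ne')]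
  rw [zero_cinv_self hr hw, norm_mul, norm_mul, norm_mul, e0, one_mul, Complex.norm_conj] at h6
  have e1 : ‖(1 + (k : ℂ)) / 2‖ = (1 + k) / 2 := by
    have : (1 + (k : ℂ)) / 2 = (((1 + k) / 2 : ℝ) : ℂ) := by push_cast; ring
    rw [this, Complex.norm_real, Real.norm_eq_abs, abs_of_pos (by linarith)]
  have e2 : ‖(1 - (k : ℂ)) / 2‖ = |(1 - k) / 2| := by
    have : (1 - (k : ℂ)) / 2 = (((1 - k) / 2 : ℝ) : ℂ) := by push_cast; ring
    rw [this, Complex.norm_real, Real.norm_eq_abs]
  rw [e1, e2] at h6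
  have h7 : |(1 - k) / 2| < (1 + k) / 2 := by
    rw [abs_lt]
    constructor <;> linarith
  by_contra hne
  have h8 : 0 < ‖b i w‖ := norm_pos_iff.2 hne
  have := mul_lt_mul_of_pos_right h7 h8
  linarith

theorem zero_of_b_aux {k : ℝ} {Ω : Set ℂ}
    {ι : Type} [Fintype ι] {a : ι → ℂ} {r : ι → ℝ} {H : ℂ → ℂ} {b : ι → ℂ → ℂ}
    (hZ : ZSys k Ω a r H b) {i : ι} {z : ℂ} (hz : ‖z - a i‖ = r i)
    (h : ∀ᶠ v in 𝓝 z, b i v = 0) : ∀ᶠ w in 𝓝 z, Ext k a r H b w = 0 := by
  have hr := hZ.pos i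
  have hzc : z ∈ closedBall (a i) (r i) := by
    rw [mem_closedBall, dist_eq_norm, hz]
  have hne : conj (z - a i) ≠ 0 := by
    intro h
    rw [map_eq_zero] at h
    rw [h, norm_zero] at hz
    linarith
  have hc : ContinuousAt (cinv (a i) (r i)) z := by
    unfold cinv
    apply ContinuousAt.add continuousAt_const
    exact ContinuousAt.div (f := fun _ => (r i : ℂ) ^ 2) (g := fun z => conj (z - a i))
      continuousAt_const
      (Complex.continuous_conj.comp (continuous_id.sub continuous_const)).continuousAt hne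
  have hc' : Tendsto (cinv (a i) (r i)) (𝓝 z) (𝓝 z) := by
    have := hc.tendsto
    rwa [zero_cinv_self hr hz] at this
  filter_upwards [hZ.rep i z hzc, h, hc'.eventually h] with w h1 h2 h3
  unfold Phi at h1
  rw [h2, h3, map_zero, mul_zero, mul_zero, mul_zero, add_zero] at h1
  exact h1.symm

theorem zero_of_ball {a : ℂ} {r : ℝ} (hr : 0 < r) {b : ℂ → ℂ}
    (hb : ∀ z ∈ closedBall a r, AnalyticAt ℂ b z) (h : ∀ z ∈ ball a r, b z = 0) :
    ∀ w ∈ closedBall a r, ∀ᶠ v in 𝓝 w, b v = 0 := by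
  apply zero_ident hr hb (mem_closedBall_self hr.le)
  filter_upwards [ball_mem_nhds a hr] with z hz using h z hz

theorem zero_prop {k : ℝ} (hk : 0 < k) (hk1 : k ≠ 1) {Ω : Set ℂ} (hΩ : IsPreconnected Ω)
    {ι : Type} [Fintype ι] {a : ι → ℂ} {r : ι → ℝ} {H : ℂ → ℂ} {b : ι → ℂ → ℂ}
    (hZ : ZSys k Ω a r H b) (z₀ : ℂ) (hz₀ : z₀ ∈ Ω) (hz₁ : ∀ i, z₀ ∉ ball (a i) (r i))
    (h0 : ∀ᶠ z in 𝓝 z₀, Ext k a r H b z = 0) :
    (∀ z ∈ Ω, (∀ i, z ∉ ball (a i) (r i)) → Ext k a r H b z = 0) ∧
      ∀ i, ∀ z ∈ ball (a i) (r i), b i z = 0 := by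
  let V : Set ℂ := {z | ((∀ i, z ∉ ball (a i) (r i)) ∧ ∀ᶠ w in 𝓝 z, Ext k a r H b w = 0) ∨
    ∃ i, z ∈ ball (a i) (r i) ∧ ∀ w ∈ ball (a i) (r i), b i w = 0}
  have hdisj : ∀ i j z, z ∈ ball (a i) (r i) → z ∈ ball (a j) (r j) → i = j := by
    intro i j z hi hj
    by_contra hij
    exact (Set.disjoint_left.1 (hZ.disj i j hij)) (ball_subset_closedBall hi)
      (ball_subset_closedBall hj)
  have hloc : ∀ z ∈ Ω, V ∈ 𝓝 z ∨ Vᶜ ∈ 𝓝 z := by
    intro z hz
    by_cases hb : ∃ i, z ∈ ball (a i) (r i)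
    · obtain ⟨i, hi⟩ := hb
      by_cases hbi : ∀ w ∈ ball (a i) (r i), b i w = 0
      · left
        filter_upwards [isOpen_ball.mem_nhds hi] with w hw
        exact Or.inr ⟨i, hw, hbi⟩
      · right
        filter_upwards [isOpen_ball.mem_nhds hi] with w hw
        rintro (⟨h1, -⟩ | ⟨j, hj, hbj⟩)
        · exact h1 i hw
        · rw [hdisj i j w hw hj] at hbi
          exact hbi hbj
    · push Not at hb
      rcases (zero_Ext_an hZ hz hb).eventually_eq_zero_or_eventually_ne_zero with hE | hE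
      · left
        have h1 : ∀ i, ∀ᶠ w in 𝓝 z, w ∈ ball (a i) (r i) → ∀ v ∈ ball (a i) (r i), b i v = 0 := by
          intro i
          by_cases hs : ‖z - a i‖ = r i
          · apply Eventually.of_forall
            intro w _ v hv
            exact (zero_bdry hk hZ hs hE v (ball_subset_closedBall hv)).self_of_nhds
          · have h2 : z ∉ closedBall (a i) (r i) := by
              have h3 := hb i
              rw [mem_ball, dist_eq_norm, not_lt] at h3
              rw [mem_closedBall, dist_eq_norm, not_le]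
              exact lt_of_le_of_ne h3 (Ne.symm hs)
            filter_upwards [isClosed_closedBall.isOpen_compl.mem_nhds h2] with w hw hw2
            exact absurd (ball_subset_closedBall hw2) hw
        filter_upwards [eventually_all.2 h1, hE.eventually_nhds] with w hw1 hw2
        by_cases hwb : ∃ i, w ∈ ball (a i) (r i)
        · obtain ⟨i, hi⟩ := hwb
          exact Or.inr ⟨i, hi, hw1 i hi⟩
        · push Not at hwb
          exact Or.inl ⟨hwb, hw2⟩
      · right
        have hnE : ¬ ∀ᶠ w in 𝓝 z, Ext k a r H b w = 0 := by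
          intro h
          have h2 : ∀ᶠ w in 𝓝[≠] z, Ext k a r H b w = 0 := h.filter_mono nhdsWithin_le_nhds
          obtain ⟨w, hw1, hw2⟩ := (h2.and hE).exists
          exact hw2 hw1
        have h1 : ∀ i, ∀ᶠ w in 𝓝 z, w ∈ ball (a i) (r i) →
            ¬ ∀ v ∈ ball (a i) (r i), b i v = 0 := by
          intro i
          by_cases hs : ‖z - a i‖ = r i
          · apply Eventually.of_forall
            intro w _ h3
            apply hnE
            apply zero_of_b_aux hZ hs
            apply zero_of_ball (hZ.pos i) (hZ.b_an i) h3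
            rw [mem_closedBall, dist_eq_norm, hs]
          · have h2 : z ∉ closedBall (a i) (r i) := by
              have h3 := hb i
              rw [mem_ball, dist_eq_norm, not_lt] at h3
              rw [mem_closedBall, dist_eq_norm, not_le]
              exact lt_of_le_of_ne h3 (Ne.symm hs)
            filter_upwards [isClosed_closedBall.isOpen_compl.mem_nhds h2] with w hw hw2
            exact absurd (ball_subset_closedBall hw2) hw
        rw [eventually_nhdsWithin_iff] at hE
        filter_upwards [eventually_all.2 h1, hE] with w hw1 hw2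
        rintro (⟨-, h4⟩ | ⟨j, hj, hbj⟩)
        · by_cases hwz : w = z
          · rw [hwz] at h4
            exact hnE h4
          · exact hw2 hwz h4.self_of_nhds
        · exact hw1 j hj hbj
  have hsub : Ω ⊆ V := by
    by_contra hns
    obtain ⟨z, hz, hzV⟩ := Set.not_subset.1 hns
    have hz2 : z ∈ interior Vᶜ := by
      rw [mem_interior_iff_mem_nhds]
      rcases hloc z hz with h | h
      · exact absurd (mem_of_mem_nhds h) hzV
      · exact h
    have hz₀V : z₀ ∈ V := Or.inl ⟨hz₁, h0⟩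
    have hz3 : z₀ ∈ interior V := by
      rw [mem_interior_iff_mem_nhds]
      rcases hloc z₀ hz₀ with h | h
      · exact h
      · exact absurd hz₀V (mem_of_mem_nhds h)
    obtain ⟨w, -, hw1, hw2⟩ := hΩ (interior V) (interior Vᶜ) isOpen_interior isOpen_interior
      (by
        intro w hw
        rcases hloc w hw with h | h
        · exact Or.inl (mem_interior_iff_mem_nhds.2 h)
        · exact Or.inr (mem_interior_iff_mem_nhds.2 h)) ⟨z₀, hz₀, hz3⟩ ⟨z, hz, hz2⟩
    exact (interior_subset hw2) (interior_subset hw1)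
  constructor
  · intro z hz hzb
    rcases hsub hz with ⟨-, h⟩ | ⟨i, hi, -⟩
    · exact h.self_of_nhds
    · exact absurd hi (hzb i)
  · intro i
    have hai : a i ∈ ball (a i) (r i) := mem_ball_self (hZ.pos i)
    rcases hsub (hZ.sub i (ball_subset_closedBall hai)) with ⟨h, -⟩ | ⟨j, hj, hbj⟩
    · exact absurd hai (h i)
    · rw [← hdisj i j _ hai hj] at hbj
      exact hbj

/-- if one interior field vanishes then the exterior field vanishes near its circle -/
theorem zero_of_b {k : ℝ} (hk : 0 < k) (hk1 : k ≠ 1) {Ω : Set ℂ}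
    {ι : Type} [Fintype ι] {a : ι → ℂ} {r : ι → ℝ} {H : ℂ → ℂ} {b : ι → ℂ → ℂ}
    (hZ : ZSys k Ω a r H b) (i : ι) (h : ∀ z ∈ ball (a i) (r i), b i z = 0) (z : ℂ)
    (hz : ‖z - a i‖ = r i) : ∀ᶠ w in 𝓝 z, Ext k a r H b w = 0 := by
  apply zero_of_b_aux hZ hz
  apply zero_of_ball (hZ.pos i) (hZ.b_an i) h
  rw [mem_closedBall, dist_eq_norm, hz]

end Pool.Agent.H385
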