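import Pool.Agent.H385.CaseX
import Pool.Agent.H385.CaseN
import Pool.Agent.H385.Match
import Pool.Agent.H385.Sel
import Pool.Agent.H385.ZeroP
import Pool.Agent.H385.PDE5

open Complex Metric Set Filter Topology ComplexConjugate MeasureTheory
open scoped ContDiff ENNReal

namespace Pool.Agent.H385

theorem sphere_pt {a : ℂ} {r : ℝ} (hr : 0 < r) : ‖(a + (r : ℂ)) - a‖ = r := by
  rw [add_sub_cancel_left, Complex.norm_real, Real.norm_eq_abs, abs_of_pos hr]

/-- if an interior field vanishes, everything vanishes -/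
theorem all_zero_of_b {k : ℝ} (hk : 0 < k) (hk1 : k ≠ 1) {Ω : Set ℂ} (hΩ : IsPreconnected Ω)
    {ι : Type} [Fintype ι] {a : ι → ℂ} {r : ι → ℝ} {H : ℂ → ℂ} {b : ι → ℂ → ℂ}
    (hZ : ZSys k Ω a r H b) (i : ι) (h : ∀ z ∈ ball (a i) (r i), b i z = 0) :
    (∀ z ∈ Ω, (∀ i, z ∉ ball (a i) (r i)) → Ext k a r H b z = 0) ∧
      ∀ i, ∀ z ∈ ball (a i) (r i), b i z = 0 := by
  have hz : ‖(a i + (r i : ℂ)) - a i‖ = r i := sphere_pt (hZ.pos i)
  have h0 := zero_of_b hk hk1 hZ i h _ hz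
  refine zero_prop hk hk1 hΩ hZ _ (hZ.sub i ?_) (not_ball_of_disj hZ.disj hz) h0
  rw [mem_closedBall, dist_eq_norm, hz]

/-- two different families: everything vanishes -/
theorem all_zero {k : ℝ} (hk : 0 < k) (hk1 : k ≠ 1) {Ω : Set ℂ} (hΩ : IsPreconnected Ω)
    (hb : Bornology.IsBounded Ω) (hΩc : IsPreconnected Ωᶜ)
    {ι κ : Type} [Fintype ι] [Fintype κ] {a : ι → ℂ} {r : ι → ℝ} {c : κ → ℂ} {s : κ → ℝ}
    {H : ℂ → ℂ} {b : ι → ℂ → ℂ} {B : κ → ℂ → ℂ}
    (hZ : ZSys k Ω a r H b) (hZ' : ZSys k Ω c s H B)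
    (hinf : ∀ᶠ z in Filter.cocompact ℂ,
      ∑ i, Phi (a i) (r i) (b i) z = ∑ j, Phi (c j) (s j) (B j) z)
    (hne : (∃ i, ∀ j, ¬ (c j = a i ∧ s j = r i)) ∨ (∃ j, ∀ i, ¬ (c j = a i ∧ s j = r i))) :
    (∀ z ∈ Ω, (∀ i, z ∉ ball (a i) (r i)) → Ext k a r H b z = 0) ∧
      ∀ i, ∀ z ∈ ball (a i) (r i), b i z = 0 := by
  obtain ⟨S, hS, hSb, hS1, hS2, hcase⟩ := selection a r c s hZ.pos hZ'.pos hZ.disj hZ'.disj hne
  -- matching at points of `S` which are in no ball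
  have hmatch := matching hk hk1 hZ hZ' hinf S hS hSb hS1 hS2
  rcases hcase with ⟨i, j, x, hx, hxi, hxj, h1, h2⟩ | ⟨i, hi, hiS, hij⟩ | ⟨j, hj, hjS, hij⟩
  · have hxb : ∀ i', x ∉ ball (a i') (r i') := not_ball_of_disj hZ.disj hxi
    have hxb' : ∀ j', x ∉ ball (c j') (s j') := not_ball_of_disj hZ'.disj hxj
    have hm := hmatch x hx hxb hxb'
    rcases case_X hk hk1 hb hΩc hZ hZ' S hS hSb hS1 hS2 i j x hx hxi hxj h1 h2 hm with h3 | ⟨i', h3⟩
    · exact zero_prop hk hk1 hΩ hZ x (hZ.sub i (by rw [mem_closedBall, dist_eq_norm, hxi])) hxb h3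
    · exact all_zero_of_b hk hk1 hΩ hZ i' h3
  · have h3 := case_N hk hk1 hZ hZ' i hi hij (by
      intro z hz
      have hz' : ‖z - a i‖ = r i := by rwa [mem_sphere, dist_eq_norm] at hz
      apply hmatch z (hiS hz) (not_ball_of_disj hZ.disj hz')
      intro j hzj
      by_cases hcj : ∀ i', ¬ (c j = a i' ∧ s j = r i')
      · exact hS2 j hcj z (hiS hz) hzj
      · push Not at hcj
        obtain ⟨i', h4, h5⟩ := hcj
        rw [h4, h5] at hzj
        exact not_ball_of_disj hZ.disj hz' i' hzj)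
    exact all_zero_of_b hk hk1 hΩ hZ i h3
  · have hm : ∀ z ∈ sphere (c j) (s j), (∀ i', z ∉ ball (a i') (r i')) ∧ ∀ᶠ w in 𝓝 z,
        ∑ i, Phi (a i) (r i) (b i) w = ∑ j, Phi (c j) (s j) (B j) w := by
      intro z hz
      have hz' : ‖z - c j‖ = s j := by rwa [mem_sphere, dist_eq_norm] at hz
      have h4 : ∀ i', z ∉ ball (a i') (r i') := by
        intro i hzi
        by_cases hcj : ∀ j', ¬ (c j' = a i ∧ s j' = r i)
        · exact hS1 i hcj z (hjS hz) hzi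
        · push Not at hcj
          obtain ⟨j', h4, h5⟩ := hcj
          rw [← h4, ← h5] at hzi
          exact not_ball_of_disj hZ'.disj hz' j' hzi
      exact ⟨h4, hmatch z (hjS hz) h4 (not_ball_of_disj hZ'.disj hz')⟩
    have h3 := case_N hk hk1 hZ' hZ j (fun i h => hj i ⟨h.1.symm, h.2.symm⟩) hij (by
      intro z hz
      filter_upwards [(hm z hz).2] with w hw
      exact hw.symm)
    have hz : ‖(c j + (s j : ℂ)) - c j‖ = s j := sphere_pt (hZ'.pos j)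
    have hzs : (c j + (s j : ℂ)) ∈ sphere (c j) (s j) := by rw [mem_sphere, dist_eq_norm, hz]
    have h0 := zero_of_b hk hk1 hZ' j h3 _ hz
    have h5 := hm _ hzs
    refine zero_prop hk hk1 hΩ hZ (c j + (s j : ℂ)) (hZ'.sub j (sphere_subset_closedBall hzs))
      h5.1 ?_
    filter_upwards [h0, h5.2] with w hw hw'
    unfold Ext at hw ⊢
    rw [hw']
    exact hw

/-- main theorem in indexed form -/
theorem main_indexed {Ω : Set ℂ} (hΩ : IsOpen Ω) (hb : Bornology.IsBounded Ω)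
    (hc : IsPreconnected Ω) (hcc : IsPreconnected Ωᶜ) {k : ℝ} (hk : 0 < k) (hk1 : k ≠ 1)
    {g : ℂ → ℝ} (hg : IntegrableOn g (frontier Ω) (Measure.hausdorffMeasure 1))
    (hg0 : ¬ g =ᵐ[(Measure.hausdorffMeasure 1).restrict (frontier Ω)] 0)
    {ι κ : Type} [Fintype ι] [Fintype κ] {a : ι → ℂ} {r : ι → ℝ} {c : κ → ℂ} {s : κ → ℝ}
    (hr : ∀ i, 0 < r i) (hs : ∀ j, 0 < s j)
    (ha : ∀ i j, i ≠ j → Disjoint (closedBall (a i) (r i)) (closedBall (a j) (r j)))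
    (hd : ∀ i j, i ≠ j → Disjoint (closedBall (c i) (s i)) (closedBall (c j) (s j)))
    (haΩ : ∀ i, closedBall (a i) (r i) ⊆ Ω) (hcΩ : ∀ j, closedBall (c j) (s j) ⊆ Ω)
    {u₁ u₂ : ℂ → ℝ} {G₁ G₂ : ℂ → ℂ} (h₁ : IsSolution Ω k (⋃ i, ball (a i) (r i)) g u₁ G₁)
    (h₂ : IsSolution Ω k (⋃ j, ball (c j) (s j)) g u₂ G₂) (hT : SameTrace Ω u₁ G₁ u₂ G₂) :
    (⋃ i, ball (a i) (r i)) = ⋃ j, ball (c j) (s j) := by
  by_cases hne : (∃ i, ∀ j, ¬ (c j = a i ∧ s j = r i)) ∨ (∃ j, ∀ i, ¬ (c j = a i ∧ s j = r i))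
  · exfalso
    obtain ⟨H, b, B, hZ, hZ', hinf, hbG, hEG⟩ := pde_data Ω hΩ hb k hk hk1 g a r c s hr hs ha hd
      haΩ hcΩ u₁ u₂ G₁ G₂ h₁ h₂ hT
    obtain ⟨hE, hbz⟩ := all_zero hk hk1 hc hb hcc hZ hZ' hinf hne
    have hG0 : ∀ᵐ z ∂(volume.restrict Ω), G₁ z = 0 := by
      have h3 : ∀ i, ∀ᵐ z ∂(volume.restrict Ω), z ∈ ball (a i) (r i) → conj (G₁ z) = b i z := by
        intro i
        have h4 := (ae_restrict_iff' measurableSet_ball).1 (hbG i)
        exact ae_restrict_of_ae h4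
      filter_upwards [ae_all_iff.2 h3, hEG, ae_restrict_mem hΩ.measurableSet] with z h4 h5 h6
      by_cases h7 : ∃ i, z ∈ ball (a i) (r i)
      · obtain ⟨i, h8⟩ := h7
        have h9 := h4 i h8
        rw [hbz i z h8] at h9
        exact (map_eq_zero _).1 h9
      · push Not at h7
        have h9 := h5 h7
        rw [hE z h6 h7] at h9
        exact (map_eq_zero _).1 h9
    apply hg0
    have hz : ∀ φ : ℂ → ℝ, ContDiff ℝ ∞ φ → HasCompactSupport φ →
        ∫ z, φ z • g z ∂((Measure.hausdorffMeasure 1).restrict (frontier Ω)) = 0 := by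
      intro φ hφ hφc
      have h3 := h₁.eq φ ⟨hφ, hφc, subset_univ _⟩
      have h4 : ∫ z in Ω, (1 + (k - 1) * (⋃ i, ball (a i) (r i)).indicator (fun _ => (1 : ℝ)) z) *
          inner ℝ (G₁ z) (grad φ z) = 0 := by
        rw [← integral_zero ℂ ℝ (μ := volume.restrict Ω)]
        apply integral_congr_ae
        filter_upwards [hG0] with z hz
        rw [hz, inner_zero_left, mul_zero]
      rw [h4] at h3
      rw [h3]
      congr 1
      funext z
      rw [smul_eq_mul, mul_comm]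
    exact ae_eq_zero_of_integral_contDiff_smul_eq_zero hg.locallyIntegrable hz
  · push Not at hne
    obtain ⟨h3, h4⟩ := hne
    apply Set.Subset.antisymm
    · apply iUnion_subset
      intro i
      obtain ⟨j, h5, h6⟩ := h3 i
      rw [← h5, ← h6]
      exact subset_iUnion (fun j => ball (c j) (s j)) j
    · apply iUnion_subset
      intro j
      obtain ⟨i, h5, h6⟩ := h4 j
      rw [h5, h6]
      exact subset_iUnion (fun i => ball (a i) (r i)) i

end Pool.Agent.H385
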