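import Pool.Agent.H385.Defs
import Pool.Agent.H385.PDE

open Complex Metric Set Filter Topology ComplexConjugate MeasureTheory
open scoped ContDiff ENNReal

namespace Pool.Agent.H385

/-! basic facts on test functions -/

theorem IsTest.mono {U V : Set ℂ} (h : U ⊆ V) {φ : ℂ → ℝ} (hφ : IsTest U φ) : IsTest V φ :=
  ⟨hφ.1, hφ.2.1, hφ.2.2.trans h⟩

theorem grad_continuous {φ : ℂ → ℝ} (hφ : ContDiff ℝ ∞ φ) : Continuous (grad φ) := by
  unfold grad
  have h1 : Continuous (fderiv ℝ φ) := hφ.continuous_fderiv (by simp)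
  have h2 : Continuous (fun z => fderiv ℝ φ z 1) := h1.clm_apply continuous_const
  have h3 : Continuous (fun z => fderiv ℝ φ z I) := h1.clm_apply continuous_const
  exact (continuous_ofReal.comp h2).add (continuous_const.mul (continuous_ofReal.comp h3))

theorem grad_zero {φ : ℂ → ℝ} {z : ℂ} (h : z ∉ tsupport φ) : grad φ z = 0 := by
  have h1 : fderiv ℝ φ z = 0 := by
    have := (tsupport_fderiv_subset ℝ (f := φ))
    exact image_eq_zero_of_notMem_tsupport (fun h2 => h (this h2))
  unfold grad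
  rw [h1]; simp

theorem grad_compact {φ : ℂ → ℝ} (hc : HasCompactSupport φ) : HasCompactSupport (grad φ) := by
  apply HasCompactSupport.of_support_subset_isCompact hc
  intro z hz
  by_contra h
  exact hz (grad_zero h)

theorem grad_memLp {φ : ℂ → ℝ} (hφ : ContDiff ℝ ∞ φ) (hc : HasCompactSupport φ) (p : ℝ≥0∞)
    (μ : Measure ℂ) [IsFiniteMeasureOnCompacts μ] : MemLp (grad φ) p μ :=
  (grad_continuous hφ).memLp_of_hasCompactSupport (grad_compact hc)

theorem mul_grad_integrable {φ : ℂ → ℝ} {U : Set ℂ} (hφ : IsTest U φ) {S : Set ℂ} {f : ℂ → ℂ}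
    (hf : MemLp f 2 (volume.restrict S)) :
    Integrable (fun z => f z * grad φ z) (volume.restrict S) :=
  hf.integrable_mul (grad_memLp hφ.1 hφ.2.1 2 (volume.restrict S))

/-- directional derivatives of test functions are test functions -/
theorem IsTest.fderiv_apply {U : Set ℂ} {φ : ℂ → ℝ} (hφ : IsTest U φ) (v : ℂ) :
    IsTest U (fun z => fderiv ℝ φ z v) := by
  refine ⟨?_, ?_, ?_⟩
  · have h1 : ContDiff ℝ ∞ (fderiv ℝ φ) := hφ.1.fderiv_right (by simp)
    exact h1.clm_apply contDiff_const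
  · exact HasCompactSupport.fderiv_apply (𝕜 := ℝ) hφ.2.1 v
  · exact (tsupport_fderiv_apply_subset ℝ v).trans hφ.2.2

theorem fderiv_fderiv_symm {φ : ℂ → ℝ} (hφ : ContDiff ℝ ∞ φ) (z v w : ℂ) :
    fderiv ℝ (fun z => fderiv ℝ φ z v) z w = fderiv ℝ (fun z => fderiv ℝ φ z w) z v := by
  have h1 : ContDiff ℝ ∞ (fderiv ℝ φ) := hφ.fderiv_right (by simp)
  have h2 : DifferentiableAt ℝ (fderiv ℝ φ) z := (h1.differentiable (by simp)) z
  have h3 : IsSymmSndFDerivAt ℝ φ z := by
    apply ContDiffAt.isSymmSndFDerivAt (n := ∞) hφ.contDiffAt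
    simp only [minSmoothness_of_isRCLikeNormedField]
    exact WithTop.coe_le_coe.2 (le_top : (2 : ℕ∞) ≤ ⊤)
  rw [fderiv_clm_apply h2 (differentiableAt_const v), fderiv_clm_apply h2 (differentiableAt_const w)]
  simp
  exact h3 w v

/-- orthogonality of gradients and rotated gradients -/
theorem grad_grad_im {φ ψ : ℂ → ℝ} (hφ : IsTest univ φ) (hψ : IsTest univ ψ) :
    (∫ z, conj (grad φ z) * grad ψ z).im = 0 := by
  have hint : Integrable (fun z => conj (grad φ z) * grad ψ z) := by
    have h1 : Continuous (fun z => conj (grad φ z) * grad ψ z) :=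
      (continuous_conj.comp (grad_continuous hφ.1)).mul (grad_continuous hψ.1)
    apply h1.integrable_of_hasCompactSupport
    exact (grad_compact hψ.2.1).mul_left
  have h2 : (∫ z, conj (grad φ z) * grad ψ z).im =
      ∫ z, (conj (grad φ z) * grad ψ z).im := by
    exact (Complex.imCLM.integral_comp_comm hint).symm
  rw [h2]
  have h3 : ∀ z, (conj (grad φ z) * grad ψ z).im =
      fderiv ℝ φ z 1 * fderiv ℝ ψ z I - fderiv ℝ φ z I * fderiv ℝ ψ z 1 := by
    intro z
    unfold grad
    simp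
    ring
  simp_rw [h3]
  have hc1 : ∀ (χ : ℂ → ℝ), IsTest univ χ → Continuous χ := fun χ h => h.1.continuous
  have hint2 : ∀ (f g : ℂ → ℝ), IsTest univ f → IsTest univ g →
      Integrable (fun z => f z * g z) := by
    intro f g hf hg
    exact ((hc1 f hf).mul (hc1 g hg)).integrable_of_hasCompactSupport hg.2.1.mul_left
  rw [integral_sub (hint2 _ _ (hφ.fderiv_apply 1) (hψ.fderiv_apply I))
    (hint2 _ _ (hφ.fderiv_apply I) (hψ.fderiv_apply 1))]
  have hd : ∀ (f : ℂ → ℝ), IsTest univ f → ∀ z, DifferentiableAt ℝ f z :=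
    fun f hf z => (hf.1.differentiable (by simp)) z
  have hip : ∀ (f g : ℂ → ℝ) (v : ℂ), IsTest univ f → IsTest univ g →
      ∫ z, f z * fderiv ℝ g z v = -∫ z, fderiv ℝ f z v * g z := by
    intro f g v hf hg
    apply integral_mul_fderiv_eq_neg_fderiv_mul_of_integrable
    · exact hint2 _ _ (hf.fderiv_apply v) hg
    · exact hint2 _ _ hf (hg.fderiv_apply v)
    · exact hint2 _ _ hf hg
    · intro x _
      exact hd f hf x
    · intro x _
      exact hd g hg x
  have e1 : ∫ z, fderiv ℝ φ z 1 * fderiv ℝ ψ z I =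
      -∫ z, fderiv ℝ (fun z => fderiv ℝ φ z 1) z I * ψ z :=
    hip (fun z => fderiv ℝ φ z 1) ψ I (hφ.fderiv_apply 1) hψ
  have e2 : ∫ z, fderiv ℝ φ z I * fderiv ℝ ψ z 1 =
      -∫ z, fderiv ℝ (fun z => fderiv ℝ φ z I) z 1 * ψ z :=
    hip (fun z => fderiv ℝ φ z I) ψ 1 (hφ.fderiv_apply I) hψ
  rw [e1, e2]
  simp_rw [fderiv_fderiv_symm hφ.1 _ 1 I]
  ring

theorem inner_grad (a b : ℂ) : inner ℝ a b = (conj a * b).re := by
  rw [Complex.inner, mul_comm]

/-- curl-free -/
theorem curl_zero {Ω : Set ℂ} {u : ℂ → ℝ} {G : ℂ → ℂ} (hu : HasWeakGrad Ω u G)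
    (hG : MemLp G 2 (volume.restrict Ω)) {φ : ℂ → ℝ} (hφ : IsTest Ω φ) :
    (∫ z in Ω, conj (G z) * grad φ z).im = 0 := by
  have hG' : MemLp (fun z => conj (G z)) 2 (volume.restrict Ω) := by
    refine hG.of_le ?_ ?_
    · exact continuous_conj.comp_aestronglyMeasurable hG.1
    · exact Eventually.of_forall fun z => by simp
  have hint := mul_grad_integrable hφ hG'
  have h2 : (∫ z in Ω, conj (G z) * grad φ z).im =
      ∫ z in Ω, (conj (G z) * grad φ z).im :=
    (Complex.imCLM.integral_comp_comm hint).symm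
  rw [h2]
  have h3 : ∀ z, (conj (G z) * grad φ z).im =
      inner ℝ (G z) 1 * fderiv ℝ φ z I - inner ℝ (G z) I * fderiv ℝ φ z 1 := by
    intro z
    rw [inner_grad, inner_grad]
    unfold grad
    simp
    ring
  simp_rw [h3]
  have hin : ∀ (v : ℂ) (ψ : ℂ → ℝ), IsTest Ω ψ →
      Integrable (fun z => inner ℝ (G z) v * ψ z) (volume.restrict Ω) := by
    intro v ψ hψ
    have h1 : MemLp (fun z => inner ℝ (G z) v) 2 (volume.restrict Ω) :=
      hG.inner_const v
    have h2 : MemLp ψ 2 (volume.restrict Ω) :=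
      hψ.1.continuous.memLp_of_hasCompactSupport hψ.2.1
    exact h1.integrable_mul h2
  rw [integral_sub (hin 1 _ (hφ.fderiv_apply I)) (hin I _ (hφ.fderiv_apply 1))]
  have e1 := hu _ (hφ.fderiv_apply I) 1
  have e2 := hu _ (hφ.fderiv_apply 1) I
  have e3 : ∫ z in Ω, u z * fderiv ℝ (fun z => fderiv ℝ φ z I) z 1 =
      ∫ z in Ω, u z * fderiv ℝ (fun z => fderiv ℝ φ z 1) z I := by
    simp_rw [fderiv_fderiv_symm hφ.1 _ 1 I]
  linarith

theorem sol_re {Ω : Set ℂ} {k : ℝ} {D : Set ℂ} (hD : D ⊆ Ω)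
    (hDm : MeasurableSet D) {g u : ℂ → ℝ} {G : ℂ → ℂ} (h : IsSolution Ω k D g u G) {φ : ℂ → ℝ}
    (hφ : IsTest univ φ) :
    (∫ z in Ω, conj (G z) * grad φ z).re + (k - 1) * (∫ z in D, conj (G z) * grad φ z).re =
      ∫ z in frontier Ω, g z * φ z ∂(Measure.hausdorffMeasure 1) := by
  rw [← h.eq φ hφ]
  have hG' : MemLp (fun z => conj (G z)) 2 (volume.restrict Ω) := by
    refine h.memLp_grad.of_le ?_ ?_
    · exact continuous_conj.comp_aestronglyMeasurable h.memLp_grad.1
    · exact Eventually.of_forall fun z => by simp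
  have hint := mul_grad_integrable hφ hG'
  have hintD : Integrable (fun z => conj (G z) * grad φ z) (volume.restrict D) :=
    hint.mono_measure (Measure.restrict_mono hD le_rfl)
  have h2 : (∫ z in Ω, conj (G z) * grad φ z).re =
      ∫ z in Ω, (conj (G z) * grad φ z).re :=
    (Complex.reCLM.integral_comp_comm hint).symm
  have h3 : (∫ z in D, conj (G z) * grad φ z).re =
      ∫ z in D, (conj (G z) * grad φ z).re :=
    (Complex.reCLM.integral_comp_comm hintD).symm
  have hire : Integrable (fun z => (conj (G z) * grad φ z).re) (volume.restrict Ω) := hint.re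
  have h4 : ∫ z in D, (conj (G z) * grad φ z).re =
      ∫ z in Ω, D.indicator (fun _ => (1 : ℝ)) z * (conj (G z) * grad φ z).re := by
    have h5 : ∀ z, D.indicator (fun _ => (1 : ℝ)) z * (conj (G z) * grad φ z).re =
        D.indicator (fun z => (conj (G z) * grad φ z).re) z := by
      intro z
      by_cases hz : z ∈ D
      · simp [hz]
      · simp [hz]
    simp_rw [h5]
    rw [setIntegral_indicator hDm, inter_eq_self_of_subset_right hD]
  rw [h2, h3, h4, ← integral_const_mul, ← integral_add]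
  · apply integral_congr_ae
    refine Eventually.of_forall fun z => ?_
    simp only
    rw [inner_grad]
    ring
  · exact hire
  · have h5 : (fun z => (k - 1) * (D.indicator (fun _ => (1 : ℝ)) z *
        (conj (G z) * grad φ z).re)) =
        fun z => (k - 1) * D.indicator (fun z => (conj (G z) * grad φ z).re) z := by
      funext z
      by_cases hz : z ∈ D
      · simp [hz]
      · simp [hz]
    rw [h5]
    exact (hire.indicator hDm).const_mul _

theorem bd_zero {Ω : Set ℂ} (hΩ : IsOpen Ω) {φ : ℂ → ℝ} (hφ : IsTest Ω φ) (g : ℂ → ℝ) :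
    ∫ z in frontier Ω, g z * φ z ∂(Measure.hausdorffMeasure 1) = 0 := by
  apply setIntegral_eq_zero_of_forall_eq_zero
  intro z hz
  have h1 : z ∉ tsupport φ := by
    intro h
    have h2 : z ∈ Ω := hφ.2.2 h
    rw [hΩ.frontier_eq] at hz
    exact hz.2 h2
  rw [image_eq_zero_of_notMem_tsupport h1, mul_zero]

end Pool.Agent.H385
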