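import Pool.Agent.H385.PDE1
import Pool.Agent.H385.Weyl
import Pool.Agent.H385.Disk

open Complex Metric Set Filter Topology ComplexConjugate MeasureTheory
open scoped ContDiff ENNReal

namespace Pool.Agent.H385

theorem conj_memLp {G : ℂ → ℂ} {μ : Measure ℂ} {p : ℝ≥0∞} (hG : MemLp G p μ) :
    MemLp (fun z => conj (G z)) p μ := by
  refine hG.of_le ?_ ?_
  · exact continuous_conj.comp_aestronglyMeasurable hG.1
  · exact Eventually.of_forall fun z => by simp

/-- integral against the gradient of a test function supported in `S` -/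
theorem setInt_eq {U S : Set ℂ} {φ : ℂ → ℝ} (hφ : IsTest U φ) (hU : U ⊆ S) (f : ℂ → ℂ) :
    ∫ z in S, f z * grad φ z = ∫ z, f z * grad φ z := by
  apply setIntegral_eq_integral_of_forall_compl_eq_zero
  intro z hz
  rw [grad_zero (fun h => hz (hU (hφ.2.2 h))), mul_zero]

/-- the field is holomorphic in each disk -/
theorem ball_hol {Ω : Set ℂ} (hΩ : IsOpen Ω) {k : ℝ} (hk : 0 < k) {D : Set ℂ} (hD : D ⊆ Ω)
    (hDm : MeasurableSet D) {g u : ℂ → ℝ} {G : ℂ → ℂ} (h : IsSolution Ω k D g u G)
    {a : ℂ} {r : ℝ} (hB : ball a r ⊆ D) :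
    ∃ b : ℂ → ℂ, DifferentiableOn ℂ b (ball a r) ∧
      ∀ᵐ z ∂(volume.restrict (ball a r)), conj (G z) = b z := by
  have hG' := conj_memLp h.memLp_grad
  have hBΩ : ball a r ⊆ Ω := hB.trans hD
  have hGB : MemLp (fun z => conj (G z)) 2 (volume.restrict (ball a r)) :=
    hG'.mono_measure (Measure.restrict_mono hBΩ le_rfl)
  apply weyl_global (ball a r) isOpen_ball (fun z => conj (G z))
  · have h1 : IntegrableOn (fun z => conj (G z)) (ball a r) := by
      have : IsFiniteMeasure (volume.restrict (ball a r)) :=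
        ⟨by rw [Measure.restrict_apply_univ]; exact measure_ball_lt_top⟩
      exact hGB.integrable (by norm_num)
    exact h1.locallyIntegrableOn
  · intro φ hφ
    have hφΩ : IsTest Ω φ := hφ.mono hBΩ
    have h1 := sol_re hD hDm h (hφ.mono (subset_univ _))
    rw [bd_zero hΩ hφΩ, setInt_eq hφ hBΩ, setInt_eq hφ hB] at h1
    have h2 := curl_zero h.weakGrad h.memLp_grad hφΩ
    rw [setInt_eq hφ hBΩ] at h2
    have h3 : k * (∫ z, conj (G z) * grad φ z).re = 0 := by linarith
    have h4 : (∫ z, conj (G z) * grad φ z).re = 0 := by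
      rcases mul_eq_zero.1 h3 with h5 | h5
      · exact absurd h5 hk.ne'
      · exact h5
    exact Complex.ext h4 h2

/-- curl-free on the whole plane for the difference -/
theorem diff_curl {Ω : Set ℂ} {u₁ u₂ : ℂ → ℝ} {G₁ G₂ : ℂ → ℂ}
    (hG₁ : MemLp G₁ 2 (volume.restrict Ω)) (hG₂ : MemLp G₂ 2 (volume.restrict Ω))
    (hT : SameTrace Ω u₁ G₁ u₂ G₂) {φ : ℂ → ℝ} (hφ : IsTest univ φ) :
    (∫ z in Ω, conj (G₁ z - G₂ z) * grad φ z).im = 0 := by
  obtain ⟨ψ, hψ, -, hlim⟩ := hT
  have hgφ : MemLp (grad φ) 2 (volume.restrict Ω) := grad_memLp hφ.1 hφ.2.1 2 _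
  have hd : ∀ n, MemLp (fun z => G₁ z - G₂ z - grad (ψ n) z) 2 (volume.restrict Ω) := fun n =>
    (hG₁.sub hG₂).sub (grad_memLp (hψ n).1 (hψ n).2.1 2 _)
  set T : ℕ → ℂ := fun n => ∫ z in Ω, conj (G₁ z - G₂ z - grad (ψ n) z) * grad φ z with hTdef
  have hT0 : Tendsto T atTop (𝓝 0) := by
    rw [tendsto_zero_iff_norm_tendsto_zero]
    have hb : ∀ n, ‖T n‖ₑ ≤ eLpNorm (fun z => G₁ z - G₂ z - grad (ψ n) z) 2 (volume.restrict Ω) *
        eLpNorm (grad φ) 2 (volume.restrict Ω) := by
      intro n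
      calc ‖T n‖ₑ ≤ ∫⁻ z, ‖conj (G₁ z - G₂ z - grad (ψ n) z) * grad φ z‖ₑ
            ∂(volume.restrict Ω) := enorm_integral_le_lintegral_enorm _
        _ = eLpNorm (fun z => conj (G₁ z - G₂ z - grad (ψ n) z) * grad φ z) 1
            (volume.restrict Ω) := by rw [eLpNorm_one_eq_lintegral_enorm]
        _ ≤ _ := by
          have := eLpNorm_le_eLpNorm_mul_eLpNorm'_of_norm (p := 2) (q := 2) (r := 1)
            (hd n).1 hgφ.1 (fun a b => conj a * b) 1
            (Eventually.of_forall fun z => by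
              rw [norm_mul, RCLike.norm_conj]
              simp)
          simpa only [NNReal.coe_one, ENNReal.coe_one, one_mul] using this
    have hlim2 : Tendsto (fun n => eLpNorm (fun z => G₁ z - G₂ z - grad (ψ n) z) 2
        (volume.restrict Ω) * eLpNorm (grad φ) 2 (volume.restrict Ω)) atTop (𝓝 0) := by
      have := ENNReal.Tendsto.mul_const hlim (b := eLpNorm (grad φ) 2 (volume.restrict Ω))
        (Or.inr hgφ.2.ne)
      simpa using this
    have h3 : Tendsto (fun n => ‖T n‖ₑ) atTop (𝓝 0) :=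
      tendsto_of_tendsto_of_tendsto_of_le_of_le tendsto_const_nhds hlim2
        (fun n => zero_le) hb
    have h4 := (ENNReal.tendsto_toReal (ENNReal.zero_ne_top)).comp h3
    simpa [Function.comp_def] using h4
  have h1 : ∀ n, (T n).im = (∫ z in Ω, conj (G₁ z - G₂ z) * grad φ z).im := by
    intro n
    have hi1 : Integrable (fun z => conj (G₁ z - G₂ z) * grad φ z) (volume.restrict Ω) :=
      mul_grad_integrable hφ (conj_memLp (hG₁.sub hG₂))
    have hi2 : Integrable (fun z => conj (grad (ψ n) z) * grad φ z) (volume.restrict Ω) :=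
      mul_grad_integrable hφ (conj_memLp (grad_memLp (hψ n).1 (hψ n).2.1 2 _))
    have h2 : T n = (∫ z in Ω, conj (G₁ z - G₂ z) * grad φ z) -
        ∫ z in Ω, conj (grad (ψ n) z) * grad φ z := by
      rw [← integral_sub hi1 hi2]
      simp only [hTdef]
      congr 1
      funext z
      simp only [map_sub]
      ring
    have h3 : ∫ z in Ω, conj (grad (ψ n) z) * grad φ z =
        ∫ z, conj (grad (ψ n) z) * grad φ z := by
      apply setIntegral_eq_integral_of_forall_compl_eq_zero
      intro z hz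
      rw [grad_zero (fun h => hz ((hψ n).2.2 h))]
      simp
    rw [h2, h3, sub_im, grad_grad_im ((hψ n).mono (subset_univ _)) hφ, sub_zero]
  have h2 : Tendsto (fun n => (T n).im) atTop (𝓝 0) := by
    have := (Complex.continuous_im.tendsto 0).comp hT0
    simpa [Function.comp_def] using this
  simp_rw [h1] at h2
  exact tendsto_nhds_unique tendsto_const_nhds h2

end Pool.Agent.H385
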