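import Pool.Agent.H385.PDE2

open Complex Metric Set Filter Topology ComplexConjugate MeasureTheory
open scoped ContDiff ENNReal

namespace Pool.Agent.H385

theorem ball_memLp {Ω : Set ℂ} {G : ℂ → ℂ} (hG : MemLp G 2 (volume.restrict Ω)) {a : ℂ} {r : ℝ}
    (hB : ball a r ⊆ Ω) {b : ℂ → ℂ} (hb : ∀ᵐ z ∂(volume.restrict (ball a r)), conj (G z) = b z) :
    MemLp b 2 (volume.restrict (ball a r)) := by
  have h1 : MemLp (fun z => conj (G z)) 2 (volume.restrict (ball a r)) :=
    (conj_memLp hG).mono_measure (Measure.restrict_mono hB le_rfl)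
  exact h1.ae_eq hb

theorem sum_ghat {Ω : Set ℂ} {ι : Type} [Fintype ι] {a : ι → ℂ} {r : ι → ℝ}
    (hr : ∀ i, 0 < r i)
    (ha : ∀ i j, i ≠ j → Disjoint (closedBall (a i) (r i)) (closedBall (a j) (r j)))
    (haΩ : ∀ i, closedBall (a i) (r i) ⊆ Ω) {G : ℂ → ℂ} (hG : MemLp G 2 (volume.restrict Ω))
    {b : ι → ℂ → ℂ} (hb : ∀ i, DifferentiableOn ℂ (b i) (ball (a i) (r i)))
    (hbG : ∀ i, ∀ᵐ z ∂(volume.restrict (ball (a i) (r i))), conj (G z) = b i z) {φ : ℂ → ℝ}
    (hφ : IsTest univ φ) :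
    (((∫ z in ⋃ i, ball (a i) (r i), conj (G z) * grad φ z).re : ℝ) : ℂ) =
      ∫ z, (∑ i, ghat (a i) (r i) (b i) z) * grad φ z := by
  have hsub : ∀ i, ball (a i) (r i) ⊆ Ω := fun i => ball_subset_closedBall.trans (haΩ i)
  have hbL : ∀ i, MemLp (b i) 2 (volume.restrict (ball (a i) (r i))) := fun i =>
    ball_memLp hG (hsub i) (hbG i)
  have hint : ∀ i, IntegrableOn (fun z => conj (G z) * grad φ z) (ball (a i) (r i)) := fun i =>
    (mul_grad_integrable hφ (conj_memLp hG)).mono_measure (Measure.restrict_mono (hsub i) le_rfl)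
  have hdis : Pairwise (Function.onFun Disjoint (fun i => ball (a i) (r i))) := by
    intro i j hij
    exact (ha i j hij).mono ball_subset_closedBall ball_subset_closedBall
  rw [integral_iUnion_fintype (fun i => measurableSet_ball) hdis hint, Complex.re_sum]
  push_cast
  have h1 : ∀ i, (((∫ z in ball (a i) (r i), conj (G z) * grad φ z).re : ℝ) : ℂ) =
      ∫ z, ghat (a i) (r i) (b i) z * grad φ z := by
    intro i
    rw [disk_lemma (a i) (r i) (hr i) (b i) (hb i) (hbL i) φ hφ]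
    congr 2
    apply integral_congr_ae
    filter_upwards [hbG i] with z hz
    rw [hz]
  simp_rw [h1]
  rw [← integral_finset_sum]
  · congr 1
    funext z
    rw [Finset.sum_mul]
  · intro i _
    have h2 := ghat_memLp (a i) (r i) (hr i) (b i) (hb i) (hbL i)
    exact h2.integrable_mul (grad_memLp hφ.1 hφ.2.1 2 volume)

theorem sum_ghat_memLp {Ω : Set ℂ} {ι : Type} [Fintype ι] {a : ι → ℂ} {r : ι → ℝ}
    (hr : ∀ i, 0 < r i) (haΩ : ∀ i, closedBall (a i) (r i) ⊆ Ω) {G : ℂ → ℂ}
    (hG : MemLp G 2 (volume.restrict Ω))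
    {b : ι → ℂ → ℂ} (hb : ∀ i, DifferentiableOn ℂ (b i) (ball (a i) (r i)))
    (hbG : ∀ i, ∀ᵐ z ∂(volume.restrict (ball (a i) (r i))), conj (G z) = b i z) :
    MemLp (fun z => ∑ i, ghat (a i) (r i) (b i) z) 2 volume := by
  apply memLp_finset_sum
  intro i _
  exact ghat_memLp (a i) (r i) (hr i) (b i) (hb i)
    (ball_memLp hG (ball_subset_closedBall.trans (haΩ i)) (hbG i))

theorem iUnion_sub {Ω : Set ℂ} {ι : Type} {a : ι → ℂ} {r : ι → ℝ}
    (haΩ : ∀ i, closedBall (a i) (r i) ⊆ Ω) : (⋃ i, ball (a i) (r i)) ⊆ Ω :=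
  iUnion_subset fun i => ball_subset_closedBall.trans (haΩ i)

/-- the source field -/
theorem H_exists {Ω : Set ℂ} (hΩ : IsOpen Ω) {k : ℝ} {g u : ℂ → ℝ}
    {ι : Type} [Fintype ι] {a : ι → ℂ} {r : ι → ℝ} (hr : ∀ i, 0 < r i)
    (ha : ∀ i j, i ≠ j → Disjoint (closedBall (a i) (r i)) (closedBall (a j) (r j)))
    (haΩ : ∀ i, closedBall (a i) (r i) ⊆ Ω) {G : ℂ → ℂ}
    (h : IsSolution Ω k (⋃ i, ball (a i) (r i)) g u G)
    {b : ι → ℂ → ℂ} (hb : ∀ i, DifferentiableOn ℂ (b i) (ball (a i) (r i)))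
    (hbG : ∀ i, ∀ᵐ z ∂(volume.restrict (ball (a i) (r i))), conj (G z) = b i z) :
    ∃ H : ℂ → ℂ, DifferentiableOn ℂ H Ω ∧ ∀ᵐ z ∂(volume.restrict Ω),
      conj (G z) - (1 - (k : ℂ)) * ∑ i, ghat (a i) (r i) (b i) z = H z := by
  have hsL := sum_ghat_memLp hr haΩ h.memLp_grad hb hbG
  have hGL := conj_memLp h.memLp_grad
  apply weyl_global Ω hΩ
    (fun z => conj (G z) - (1 - (k : ℂ)) * ∑ i, ghat (a i) (r i) (b i) z)
  · have h1 : LocallyIntegrableOn (fun z => conj (G z)) Ω := by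
      have h2 : LocallyIntegrable (fun z => conj (G z)) (volume.restrict Ω) :=
        hGL.locallyIntegrable (by norm_num)
      exact locallyIntegrableOn_of_locallyIntegrable_restrict h2
    have h2 : LocallyIntegrableOn (fun z => (1 - (k : ℂ)) * ∑ i, ghat (a i) (r i) (b i) z) Ω := by
      have h3 : LocallyIntegrable (fun z => (1 - (k : ℂ)) * ∑ i, ghat (a i) (r i) (b i) z)
          volume := (hsL.const_mul _).locallyIntegrable (by norm_num)
      exact h3.locallyIntegrableOn Ω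
    exact h1.sub h2
  · intro φ hφ
    have hφu : IsTest univ φ := hφ.mono (subset_univ _)
    have h1 := sol_re (iUnion_sub haΩ) (MeasurableSet.iUnion fun i => measurableSet_ball) h hφu
    rw [bd_zero hΩ hφ] at h1
    have h2 := curl_zero h.weakGrad h.memLp_grad hφ
    have h3 := sum_ghat hr ha haΩ h.memLp_grad hb hbG hφu
    have i1 : Integrable (fun z => conj (G z) * grad φ z) (volume.restrict Ω) :=
      mul_grad_integrable hφ hGL
    have i2 : Integrable (fun z => (∑ i, ghat (a i) (r i) (b i) z) * grad φ z) :=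
      hsL.integrable_mul (grad_memLp hφ.1 hφ.2.1 2 volume)
    have h4 : ∫ z, (conj (G z) - (1 - (k : ℂ)) * ∑ i, ghat (a i) (r i) (b i) z) * grad φ z =
        (∫ z in Ω, conj (G z) * grad φ z) -
          (1 - (k : ℂ)) * ∫ z, (∑ i, ghat (a i) (r i) (b i) z) * grad φ z := by
      rw [← setInt_eq hφ subset_rfl]
      rw [← setInt_eq hφ subset_rfl (fun z => ∑ i, ghat (a i) (r i) (b i) z)]
      rw [← integral_const_mul, ← integral_sub i1 (i2.restrict.const_mul _)]
      congr 1
      funext z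
      ring
    rw [h4, ← h3]
    apply Complex.ext
    · simp only [sub_re, mul_re, ofReal_re, ofReal_im, one_re, one_im, sub_im, zero_re]
      linarith
    · simp only [sub_re, mul_im, ofReal_re, ofReal_im, one_re, one_im, sub_im, zero_im]
      linarith

/-- the difference of the two fields, extended by zero -/
theorem F_zero {Ω : Set ℂ} (hΩ : IsOpen Ω) {k : ℝ} {g u₁ u₂ : ℂ → ℝ}
    {ι κ : Type} [Fintype ι] [Fintype κ] {a : ι → ℂ} {r : ι → ℝ} {c : κ → ℂ} {s : κ → ℝ}
    (hr : ∀ i, 0 < r i) (hs : ∀ j, 0 < s j)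
    (ha : ∀ i j, i ≠ j → Disjoint (closedBall (a i) (r i)) (closedBall (a j) (r j)))
    (hc : ∀ i j, i ≠ j → Disjoint (closedBall (c i) (s i)) (closedBall (c j) (s j)))
    (haΩ : ∀ i, closedBall (a i) (r i) ⊆ Ω) (hcΩ : ∀ j, closedBall (c j) (s j) ⊆ Ω)
    {G₁ G₂ : ℂ → ℂ}
    (h₁ : IsSolution Ω k (⋃ i, ball (a i) (r i)) g u₁ G₁)
    (h₂ : IsSolution Ω k (⋃ j, ball (c j) (s j)) g u₂ G₂) (hT : SameTrace Ω u₁ G₁ u₂ G₂)
    {b : ι → ℂ → ℂ} (hb : ∀ i, DifferentiableOn ℂ (b i) (ball (a i) (r i)))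
    (hbG : ∀ i, ∀ᵐ z ∂(volume.restrict (ball (a i) (r i))), conj (G₁ z) = b i z)
    {B : κ → ℂ → ℂ} (hB : ∀ j, DifferentiableOn ℂ (B j) (ball (c j) (s j)))
    (hBG : ∀ j, ∀ᵐ z ∂(volume.restrict (ball (c j) (s j))), conj (G₂ z) = B j z) :
    ∀ᵐ z, Ω.indicator (fun z => conj (G₁ z) - conj (G₂ z)) z =
      (1 - (k : ℂ)) * (∑ i, ghat (a i) (r i) (b i) z - ∑ j, ghat (c j) (s j) (B j) z) := by
  have hL₁ := sum_ghat_memLp hr haΩ h₁.memLp_grad hb hbG
  have hL₂ := sum_ghat_memLp hs hcΩ h₂.memLp_grad hB hBG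
  have hG₁ := conj_memLp h₁.memLp_grad
  have hG₂ := conj_memLp h₂.memLp_grad
  have hLd : MemLp (Ω.indicator (fun z => conj (G₁ z) - conj (G₂ z))) 2 volume := by
    rw [memLp_indicator_iff_restrict hΩ.measurableSet]
    exact hG₁.sub hG₂
  have hLF : MemLp (fun z => Ω.indicator (fun z => conj (G₁ z) - conj (G₂ z)) z -
      (1 - (k : ℂ)) * (∑ i, ghat (a i) (r i) (b i) z - ∑ j, ghat (c j) (s j) (B j) z)) 2
      volume := hLd.sub ((hL₁.sub hL₂).const_mul _)
  obtain ⟨F, hF, hFe⟩ := weyl_global univ isOpen_univ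
    (fun z => Ω.indicator (fun z => conj (G₁ z) - conj (G₂ z)) z -
      (1 - (k : ℂ)) * (∑ i, ghat (a i) (r i) (b i) z - ∑ j, ghat (c j) (s j) (B j) z))
    ((hLF.locallyIntegrable (by norm_num)).locallyIntegrableOn univ) (by
      intro φ hφ
      have e1 := sol_re (iUnion_sub haΩ) (MeasurableSet.iUnion fun i => measurableSet_ball) h₁ hφ
      have e2 := sol_re (iUnion_sub hcΩ) (MeasurableSet.iUnion fun i => measurableSet_ball) h₂ hφ
      have e3 := sum_ghat hr ha haΩ h₁.memLp_grad hb hbG hφ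
      have e4 := sum_ghat hs hc hcΩ h₂.memLp_grad hB hBG hφ
      have e5 := diff_curl h₁.memLp_grad h₂.memLp_grad hT hφ
      have hg2 : MemLp (grad φ) 2 volume := grad_memLp hφ.1 hφ.2.1 2 volume
      have i1 : Integrable (fun z => (∑ i, ghat (a i) (r i) (b i) z) * grad φ z) :=
        hL₁.integrable_mul hg2
      have i2 : Integrable (fun z => (∑ j, ghat (c j) (s j) (B j) z) * grad φ z) :=
        hL₂.integrable_mul hg2
      have i3 : Integrable (fun z => Ω.indicator (fun z => conj (G₁ z) - conj (G₂ z)) z *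
          grad φ z) := hLd.integrable_mul hg2
      have j1 : Integrable (fun z => conj (G₁ z) * grad φ z) (volume.restrict Ω) :=
        mul_grad_integrable hφ hG₁
      have j2 : Integrable (fun z => conj (G₂ z) * grad φ z) (volume.restrict Ω) :=
        mul_grad_integrable hφ hG₂
      have h5 : ∫ z, Ω.indicator (fun z => conj (G₁ z) - conj (G₂ z)) z * grad φ z =
          (∫ z in Ω, conj (G₁ z) * grad φ z) - ∫ z in Ω, conj (G₂ z) * grad φ z := by
        rw [← integral_sub j1 j2, ← integral_indicator hΩ.measurableSet]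
        congr 1
        funext z
        by_cases hz : z ∈ Ω
        · simp only [indicator_of_mem hz]
          ring
        · simp only [indicator_of_notMem hz, zero_mul]
      have h6 : ∫ z in Ω, conj (G₁ z - G₂ z) * grad φ z =
          (∫ z in Ω, conj (G₁ z) * grad φ z) - ∫ z in Ω, conj (G₂ z) * grad φ z := by
        rw [← integral_sub j1 j2]
        congr 1
        funext z
        rw [map_sub]
        ring
      have h4 : ∫ z, (Ω.indicator (fun z => conj (G₁ z) - conj (G₂ z)) z -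
          (1 - (k : ℂ)) * (∑ i, ghat (a i) (r i) (b i) z - ∑ j, ghat (c j) (s j) (B j) z)) *
            grad φ z =
          (∫ z, Ω.indicator (fun z => conj (G₁ z) - conj (G₂ z)) z * grad φ z) -
            (1 - (k : ℂ)) * ((∫ z, (∑ i, ghat (a i) (r i) (b i) z) * grad φ z) -
              ∫ z, (∑ j, ghat (c j) (s j) (B j) z) * grad φ z) := by
        have i4 : Integrable (fun z => (1 - (k : ℂ)) *
            ((∑ i, ghat (a i) (r i) (b i) z) * grad φ z -
              (∑ j, ghat (c j) (s j) (B j) z) * grad φ z)) := (i1.sub i2).const_mul _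
        rw [← integral_sub i1 i2, ← integral_const_mul, ← integral_sub i3 i4]
        congr 1
        funext z
        ring
      rw [h4, h5, ← e3, ← e4]
      rw [h6, sub_im] at e5
      apply Complex.ext
      · simp only [sub_re, mul_re, ofReal_re, ofReal_im, one_re, one_im, sub_im, zero_re]
        linarith
      · simp only [sub_re, mul_im, ofReal_re, ofReal_im, one_re, one_im, sub_im, zero_im]
        linarith)
  have hFd : Differentiable ℂ F := fun z => (hF z (mem_univ z)).differentiableAt univ_mem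
  rw [Measure.restrict_univ] at hFe
  have hFL : MemLp F 2 volume := hLF.ae_eq hFe
  filter_upwards [hFe] with z hz
  rw [entire_L2 F hFd hFL z] at hz
  exact sub_eq_zero.1 hz

end Pool.Agent.H385
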