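import Pool.Agent.H385.PDE3
import Pool.Agent.H385.Pull

open Complex Metric Set Filter Topology ComplexConjugate MeasureTheory
open scoped ContDiff ENNReal

namespace Pool.Agent.H385

theorem cinv_mem_ball {a : ℂ} {r : ℝ} (hr : 0 < r) {z : ℂ} (hz : r < ‖z - a‖) :
    cinv a r z ∈ ball a r := by
  unfold cinv
  rw [mem_ball, dist_eq_norm, add_sub_cancel_left, norm_div, norm_pow, Complex.norm_real,
    RCLike.norm_conj, Real.norm_eq_abs, abs_of_pos hr]
  have h1 : 0 < ‖z - a‖ := hr.trans hz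
  rw [div_lt_iff₀ h1]
  nlinarith

theorem Phi_differentiableAt {a : ℂ} {r : ℝ} (hr : 0 < r) {b : ℂ → ℂ}
    (hb : DifferentiableOn ℂ b (ball a r)) {z : ℂ} (hz : r < ‖z - a‖) :
    DifferentiableAt ℂ (Phi a r b) z := by
  have hza : z - a ≠ 0 := by
    intro h
    rw [h, norm_zero] at hz
    linarith
  have h1 : (fun z => Phi a r b z) = fun z => (r : ℂ) ^ 2 / (z - a) ^ 2 *
      (conj (b (conj (conj a + (r : ℂ) ^ 2 / (z - a))))) := by
    funext z
    unfold Phi cinv
    simp
  have h2 : conj (conj a + (r : ℂ) ^ 2 / (z - a)) = cinv a r z := by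
    unfold cinv
    simp
  have h3 : DifferentiableAt ℂ (fun w => conj (b (conj w))) (conj a + (r : ℂ) ^ 2 / (z - a)) := by
    have h4 : DifferentiableAt ℂ b (conj (conj a + (r : ℂ) ^ 2 / (z - a))) := by
      rw [h2]
      exact (hb _ (cinv_mem_ball hr hz)).differentiableAt (isOpen_ball.mem_nhds
        (cinv_mem_ball hr hz))
    have h5 := DifferentiableAt.star_star (f := b)
      (z := conj (conj a + (r : ℂ) ^ 2 / (z - a))) h4
    have h6 : (starRingEnd ℂ) (conj (conj a + (r : ℂ) ^ 2 / (z - a))) =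
        conj a + (r : ℂ) ^ 2 / (z - a) := by simp
    have h7 : DifferentiableAt ℂ (fun w => conj (b (conj w)))
        ((starRingEnd ℂ) (conj (conj a + (r : ℂ) ^ 2 / (z - a)))) := h5
    rwa [h6] at h7
  change DifferentiableAt ℂ (fun z => Phi a r b z) z
  rw [h1]
  have h8 : DifferentiableAt ℂ (fun z => conj a + (r : ℂ) ^ 2 / (z - a)) z := by
    apply DifferentiableAt.const_add
    exact DifferentiableAt.div (differentiableAt_const _)
      (differentiableAt_id.sub_const a) hza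
  have h9 := DifferentiableAt.comp z (g := fun w => conj (b (conj w)))
    (f := fun z => conj a + (r : ℂ) ^ 2 / (z - a)) h3 h8
  refine DifferentiableAt.mul ?_ h9
  exact DifferentiableAt.div (differentiableAt_const _)
    ((differentiableAt_id.sub_const a).pow 2) (pow_ne_zero 2 hza)

theorem Phi_congr {a : ℂ} {r : ℝ} (hr : 0 < r) {b b' : ℂ → ℂ}
    (h : ∀ z ∈ ball a r, b z = b' z) {z : ℂ} (hz : r < ‖z - a‖) :
    Phi a r b z = Phi a r b' z := by
  unfold Phi
  rw [h _ (cinv_mem_ball hr hz)]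

theorem not_mem_cb {a z : ℂ} {r : ℝ} : z ∉ closedBall a r ↔ r < ‖z - a‖ := by
  rw [mem_closedBall, dist_eq_norm, not_le]

/-- one system -/
theorem sysZ {Ω : Set ℂ} (hΩ : IsOpen Ω) {k : ℝ} (hk : 0 < k)
    {ι : Type} [Fintype ι] {a : ι → ℂ} {r : ι → ℝ} (hr : ∀ i, 0 < r i)
    (ha : ∀ i j, i ≠ j → Disjoint (closedBall (a i) (r i)) (closedBall (a j) (r j)))
    (haΩ : ∀ i, closedBall (a i) (r i) ⊆ Ω) {G : ℂ → ℂ}
    {b₀ : ι → ℂ → ℂ} (hb : ∀ i, DifferentiableOn ℂ (b₀ i) (ball (a i) (r i)))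
    (hbG : ∀ i, ∀ᵐ z ∂(volume.restrict (ball (a i) (r i))), conj (G z) = b₀ i z)
    {H : ℂ → ℂ} (hH : DifferentiableOn ℂ H Ω) (hHG : ∀ᵐ z ∂(volume.restrict Ω),
      conj (G z) - (1 - (k : ℂ)) * ∑ i, ghat (a i) (r i) (b₀ i) z = H z) :
    ∃ b : ι → ℂ → ℂ, ZSys k Ω a r H b ∧ ∀ i, ∀ z ∈ ball (a i) (r i), b i z = b₀ i z := by
  classical
  have hk' : (1 + (k : ℂ)) ≠ 0 := by
    have : (1 + k : ℝ) ≠ 0 := by positivity
    exact_mod_cast this
  have hdj : ∀ i j, j ≠ i → ∀ z ∈ closedBall (a i) (r i), r j < ‖z - a j‖ := by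
    intro i j hij z hz
    rw [← not_mem_cb]
    intro h
    exact (Set.disjoint_left.1 (ha j i hij) h) hz
  -- relation on the open ball
  have hrel : ∀ i, ∀ z ∈ ball (a i) (r i), (1 + (k : ℂ)) / 2 * b₀ i z =
      H z - (1 - (k : ℂ)) / 2 * ∑ j ∈ Finset.univ.erase i, Phi (a j) (r j) (b₀ j) z := by
    intro i
    have hBΩ : ball (a i) (r i) ⊆ Ω := ball_subset_closedBall.trans (haΩ i)
    apply MeasureTheory.Measure.eqOn_open_of_ae_eq (μ := volume) _ isOpen_ball
    · exact ((hb i).continuousOn.const_smul ((1 + (k : ℂ)) / 2))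
    · apply ContinuousOn.sub (hH.continuousOn.mono hBΩ)
      apply ContinuousOn.const_smul (c := (1 - (k : ℂ)) / 2)
      apply continuousOn_finset_sum
      intro j hj z hz
      exact (Phi_differentiableAt (hr j) (hb j) (hdj i j (Finset.ne_of_mem_erase hj) z
        (ball_subset_closedBall hz))).continuousAt.continuousWithinAt
    · have h1 : ∀ᵐ z ∂(volume.restrict (ball (a i) (r i))),
          conj (G z) - (1 - (k : ℂ)) * ∑ i, ghat (a i) (r i) (b₀ i) z = H z :=
        ae_restrict_of_ae_restrict_of_subset hBΩ hHG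
      filter_upwards [h1, hbG i, ae_restrict_mem measurableSet_ball] with z h2 h3 h4
      have h5 : ∑ j, ghat (a j) (r j) (b₀ j) z = b₀ i z / 2 +
          ∑ j ∈ Finset.univ.erase i, -Phi (a j) (r j) (b₀ j) z / 2 := by
        rw [← Finset.add_sum_erase _ _ (Finset.mem_univ i)]
        congr 1
        · unfold ghat
          rw [if_pos h4]
        · apply Finset.sum_congr rfl
          intro j hj
          unfold ghat
          rw [if_neg]
          intro h6
          have := hdj i j (Finset.ne_of_mem_erase hj) z (ball_subset_closedBall h4)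
          rw [mem_ball, dist_eq_norm] at h6
          linarith
      rw [h5, h3, ← Finset.sum_div, Finset.sum_neg_distrib] at h2
      linear_combination h2
  refine ⟨fun i z => 2 / (1 + (k : ℂ)) * (H z - (1 - (k : ℂ)) / 2 *
    ∑ j ∈ Finset.univ.erase i, Phi (a j) (r j) (b₀ j) z), ?_, ?_⟩
  swap
  · intro i z hz
    simp only
    rw [← hrel i z hz]
    field_simp
  have hbb : ∀ i, ∀ z ∈ ball (a i) (r i), 2 / (1 + (k : ℂ)) * (H z - (1 - (k : ℂ)) / 2 *
      ∑ j ∈ Finset.univ.erase i, Phi (a j) (r j) (b₀ j) z) = b₀ i z := by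
    intro i z hz
    rw [← hrel i z hz]
    field_simp
  -- the open sets
  set U : ι → Set ℂ := fun i => Ω ∩ ⋂ j ∈ Finset.univ.erase i, (closedBall (a j) (r j))ᶜ with hU
  have hUo : ∀ i, IsOpen (U i) := by
    intro i
    apply hΩ.inter
    apply isOpen_biInter_finset
    intro j _
    exact isClosed_closedBall.isOpen_compl
  have hUm : ∀ i, ∀ z ∈ closedBall (a i) (r i), z ∈ U i := by
    intro i z hz
    refine ⟨haΩ i hz, ?_⟩
    rw [mem_iInter₂]
    intro j hj
    rw [mem_compl_iff, not_mem_cb]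
    exact hdj i j (Finset.ne_of_mem_erase hj) z hz
  have hUj : ∀ i, ∀ z ∈ U i, ∀ j ∈ Finset.univ.erase i, r j < ‖z - a j‖ := by
    intro i z hz j hj
    have h1 := mem_iInter₂.1 hz.2 j hj
    rwa [mem_compl_iff, not_mem_cb] at h1
  refine ⟨hr, ha, hΩ, haΩ, hH, ?_, ?_⟩
  · intro i z hz
    have hd : DifferentiableOn ℂ (fun z => 2 / (1 + (k : ℂ)) * (H z - (1 - (k : ℂ)) / 2 *
        ∑ j ∈ Finset.univ.erase i, Phi (a j) (r j) (b₀ j) z)) (U i) := by
      apply DifferentiableOn.const_mul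
      apply DifferentiableOn.sub (hH.mono inter_subset_left)
      apply DifferentiableOn.const_mul
      apply DifferentiableOn.fun_sum
      intro j hj w hw
      exact (Phi_differentiableAt (hr j) (hb j) (hUj i w hw j hj)).differentiableWithinAt
    exact hd.analyticAt ((hUo i).mem_nhds (hUm i z hz))
  · intro i z hz
    filter_upwards [(hUo i).mem_nhds (hUm i z hz)] with w hw
    unfold Ext
    rw [← Finset.add_sum_erase _ _ (Finset.mem_univ i)]
    have h1 : ∑ j ∈ Finset.univ.erase i, Phi (a j) (r j) (fun z => 2 / (1 + (k : ℂ)) *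
        (H z - (1 - (k : ℂ)) / 2 * ∑ j' ∈ Finset.univ.erase j, Phi (a j') (r j') (b₀ j') z)) w =
        ∑ j ∈ Finset.univ.erase i, Phi (a j) (r j) (b₀ j) w := by
      apply Finset.sum_congr rfl
      intro j hj
      exact Phi_congr (hr j) (hbb j) (hUj i w hw j hj)
    rw [h1]
    field_simp
    ring

end Pool.Agent.H385
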